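import Pool.Agent.Lib.MP_954e53_ag.H89Cone

/-! The action on the function field. -/

namespace Pool.Agent.Lib.MP_954e53_ag.RS

open MvPolynomial

universe u

theorem exists_action {k K : Type u} [Field k] [IsAlgClosed k] [CharZero k] {c d : ℕ} {G : Type}
    [Group G] [Finite G] {ρ : G →* Matrix (Fin c ⊕ Fin d) (Fin c ⊕ Fin d) k}
    {F : Fin c ⊕ Fin d → MvPolynomial (Fin c ⊕ Fin d) k} (hF : Gen.CIData ρ F) [Field K]
    [Algebra k K] [Algebra (Gen.CI F) K] [IsScalarTower k (Gen.CI F) K]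
    [IsFractionRing (Gen.CI F) K] :
    ∃ α : G →* (K ≃ₐ[k] K),
      (∀ g p, α g (algebraMap (Gen.CI F) K (Ideal.Quotient.mk _ p)) =
        algebraMap (Gen.CI F) K (Ideal.Quotient.mk _ (Gen.act (ρ g⁻¹) p))) ∧
      ∀ z : K, (∀ g, α g z = z) → ∃ a b : Gen.invRing ρ F, b ≠ 0 ∧
        z * algebraMap (Gen.CI F) K b = algebraMap (Gen.CI F) K a := by
  classical
  have := Fintype.ofFinite G
  have hinj : Function.Injective (algebraMap (Gen.CI F) K) := IsFractionRing.injective _ _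
  let β : G →* (Gen.CI F ≃ₐ[k] Gen.CI F) :=
    { toFun g := Gen.coneAut hF g⁻¹
      map_one' := AlgEquiv.ext fun r => by
        rw [inv_one]
        exact Gen.coneHom_one hF r
      map_mul' g h := AlgEquiv.ext fun r => by
        rw [mul_inv_rev]
        exact (Gen.coneHom_comp hF _ _ r).symm }
  let α : G →* (K ≃ₐ[k] K) :=
    { toFun g := IsFractionRing.algEquivOfAlgEquiv (β g)
      map_one' := AlgEquiv.ext fun z => by
        obtain ⟨a, b, -, rfl⟩ := IsFractionRing.div_surjective (A := Gen.CI F) z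
        simp
      map_mul' g h := AlgEquiv.ext fun z => by
        obtain ⟨a, b, -, rfl⟩ := IsFractionRing.div_surjective (A := Gen.CI F) z
        simp }
  have hα : ∀ g r, α g (algebraMap (Gen.CI F) K r) = algebraMap (Gen.CI F) K (β g r) :=
    fun g r => IsFractionRing.algEquivOfAlgEquiv_algebraMap (β g) r
  have hfix : ∀ r : Gen.CI F, (∀ g, β g r = r) → r ∈ Gen.invRing ρ F := fun r hr => by
    obtain ⟨f, rfl⟩ := Ideal.Quotient.mk_surjective r
    refine ⟨Gen.rey ρ f, Gen.rey_mem_invAlg f, Ideal.Quotient.eq.2 (Gen.rey_sub_mem fun g =>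
      Ideal.Quotient.eq.1 ?_)⟩
    have h1 := hr g⁻¹
    change Gen.coneAut hF g⁻¹⁻¹ _ = _ at h1
    rwa [inv_inv] at h1
  refine ⟨α, fun g p => hα g _, fun z hz => ?_⟩
  obtain ⟨a, b, hb, rfl⟩ := IsFractionRing.div_surjective (A := Gen.CI F) z
  have hb0 : algebraMap (Gen.CI F) K b ≠ 0 :=
    (IsLocalization.map_units K (⟨b, hb⟩ : nonZeroDivisors (Gen.CI F))).ne_zero
  have hN : ∀ g, β g (∏ h, β h b) = ∏ h, β h b := fun g => by
    rw [map_prod]
    exact Fintype.prod_equiv (Equiv.mulLeft g) _ _ fun h => by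
      rw [Equiv.coe_mulLeft, map_mul, AlgEquiv.mul_apply]
  have hN0 : algebraMap (Gen.CI F) K (∏ h, β h b) ≠ 0 := by
    rw [map_prod]
    exact Finset.prod_ne_zero_iff.2 fun h _ => by
      rw [← hα]
      exact (map_ne_zero _).2 hb0
  have h1 : algebraMap (Gen.CI F) K a / algebraMap (Gen.CI F) K b *
      algebraMap (Gen.CI F) K (∏ h, β h b) =
      algebraMap (Gen.CI F) K (a * ∏ h ∈ Finset.univ.erase 1, β h b) := by
    rw [← Finset.mul_prod_erase _ _ (Finset.mem_univ (1 : G)), map_one, AlgEquiv.one_apply, map_mul,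
      map_mul, ← mul_assoc, div_mul_cancel₀ _ hb0]
  refine ⟨⟨_, hfix (a * ∏ h ∈ Finset.univ.erase 1, β h b) fun g => hinj ?_⟩, ⟨_, hfix _ hN⟩,
    fun h => hN0 ?_, h1⟩
  · rw [← hα, ← h1, map_mul, hz, hα, hN]
  · rw [show (∏ h, β h b) = 0 from congrArg Subtype.val h, map_zero]

end Pool.Agent.Lib.MP_954e53_ag.RS
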