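import Mathlib

/-! Etale coordinates at a fixed point of an involution. -/

namespace Pool.Agent.Lib.MP_954e53_ag.RS

universe u

open KaehlerDifferential in
theorem local_formallyEtale {k L τ : Type*} [CommRing k] [CommRing L] [Algebra k L]
    [Algebra.FormallySmooth k L] [Algebra (MvPolynomial τ k) L]
    [IsScalarTower k (MvPolynomial τ k) L] (b : Module.Basis τ L Ω[L⁄k])
    (hb : ∀ i, b i = D k L (algebraMap (MvPolynomial τ k) L (MvPolynomial.X i))) :
    Algebra.FormallyEtale (MvPolynomial τ k) L := by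
  have hbij : Function.Bijective (mapBaseChange k (MvPolynomial τ k) L) := by
    have : mapBaseChange k (MvPolynomial τ k) L =
        (((mvPolynomialBasis k τ).baseChange L).equiv b (Equiv.refl _)).toLinearMap := by
      refine ((mvPolynomialBasis k τ).baseChange L).ext fun i => ?_
      rw [LinearEquiv.coe_coe, Module.Basis.equiv_apply, Module.Basis.baseChange_apply,
        mapBaseChange_tmul, mvPolynomialBasis_apply, map_D, one_smul, Equiv.refl_apply, hb]
    rw [this]
    exact LinearEquiv.bijective _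
  rw [Algebra.formallyEtale_iff]
  constructor
  · refine subsingleton_of_forall_eq 0 fun w => ?_
    obtain ⟨w, rfl⟩ := map_surjective k (MvPolynomial τ k) L w
    exact (exact_mapBaseChange_map k (MvPolynomial τ k) L w).2 (hbij.2 w)
  · refine subsingleton_of_forall_eq 0 fun w => ?_
    have h1 : Algebra.H1Cotangent.δ k (MvPolynomial τ k) L w = 0 :=
      hbij.1 (((Algebra.H1Cotangent.exact_δ_mapBaseChange k (MvPolynomial τ k) L _).2
        ⟨w, rfl⟩).trans (map_zero _).symm)
    obtain ⟨v, rfl⟩ := (Algebra.H1Cotangent.exact_map_δ k (MvPolynomial τ k) L w).1 h1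
    rw [Subsingleton.elim v 0, map_zero]

open KaehlerDifferential in
/-- A basis of the differentials at `m` made of differentials of eigenvectors. -/
theorem local_basis {k A : Type u} [Field k] [CharZero k] [CommRing A]
    [Algebra k A] [Algebra.Smooth k A] (σ : A →ₐ[k] A) (hσ : ∀ a, σ (σ a) = a)
    (m : Ideal A) [m.IsPrime] :
    ∃ (r s : ℕ) (x : Fin r → A) (y : Fin s → A)
      (b : Module.Basis (Fin r ⊕ Fin s) (Localization.AtPrime m) Ω[Localization.AtPrime m⁄k]),
      (∀ j, σ (x j) = -x j) ∧ (∀ j, σ (y j) = y j) ∧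
      ∀ i, b i = D k (Localization.AtPrime m) (algebraMap A _ (Sum.elim x y i)) := by
  classical
  let L := Localization.AtPrime m
  let v : {z : A // σ z = z ∨ σ z = -z} → Ω[L⁄k] := fun z => D k L (algebraMap A L z.1)
  have hv : Submodule.span L (Set.range v) = ⊤ := by
    rw [eq_top_iff, ← span_range_map_derivation_of_isLocalization k A L m.primeCompl,
      Submodule.span_le]
    rintro _ ⟨a, rfl⟩
    have h2 : (2 : k)⁻¹ * 2 = 1 := inv_mul_cancel₀ two_ne_zero
    have e : a = (2 : k)⁻¹ • (a + σ a) + (2 : k)⁻¹ • (a - σ a) := by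
      rw [← smul_add, add_add_sub_cancel, ← two_smul k a, smul_smul, h2, one_smul]
    have h3 : σ ((2 : k)⁻¹ • (a + σ a)) = (2 : k)⁻¹ • (a + σ a) := by
      rw [map_smul, map_add, hσ, add_comm]
    have h4 : σ ((2 : k)⁻¹ • (a - σ a)) = -((2 : k)⁻¹ • (a - σ a)) := by
      rw [map_smul, map_sub, hσ, ← smul_neg, neg_sub]
    have h5 : (map k k A L ∘ D k A) a = v ⟨_, Or.inl h3⟩ + v ⟨_, Or.inr h4⟩ := by
      simp only [v, Function.comp_apply, map_D]
      rw [← map_add, ← map_add, ← e]
    rw [SetLike.mem_coe, h5]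
    exact add_mem (Submodule.subset_span ⟨_, rfl⟩) (Submodule.subset_span ⟨_, rfl⟩)
  obtain ⟨κ, a, b, hb⟩ := Module.exists_basis_of_span_of_flat v hv
  have : Finite κ := Module.Finite.finite_basis b
  let p : κ → Prop := fun i => σ (a i).1 = -(a i).1
  obtain ⟨r, ⟨e₁⟩⟩ := Finite.exists_equiv_fin {i // p i}
  obtain ⟨s, ⟨e₂⟩⟩ := Finite.exists_equiv_fin {i // ¬ p i}
  refine ⟨r, s, fun j => (a (e₁.symm j).1).1, fun j => (a (e₂.symm j).1).1,
    b.reindex ((Equiv.sumCompl p).symm.trans (Equiv.sumCongr e₁ e₂)), fun j => (e₁.symm j).2,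
    fun j => (a (e₂.symm j).1).2.resolve_right (e₂.symm j).2, fun i => ?_⟩
  rw [Module.Basis.reindex_apply, hb]
  cases i <;> rfl

/-- At a fixed point the anti-invariant coordinates generate all anti-invariants. -/
theorem local_anti {k A τ : Type*} [Field k] [CharZero k] [CommRing A] [IsNoetherianRing A]
    [Algebra k A] (σ : A →ₐ[k] A) (m : Ideal A) [m.IsPrime] (hm : ∀ a, σ a - a ∈ m)
    (z : τ → A) (I : Ideal A) (hI : I ≤ m) (hz : ∀ i, σ (z i) - z i ∈ I)
    [Algebra (MvPolynomial τ k) A] [IsScalarTower k (MvPolynomial τ k) A]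
    (hX : ∀ i, algebraMap (MvPolynomial τ k) A (MvPolynomial.X i) = z i)
    [Algebra.FormallyUnramified (MvPolynomial τ k) (Localization.AtPrime m)]
    (a : A) (ha : σ a = -a) : ∃ h, h ∉ m ∧ h * a ∈ I := by
  let L := Localization.AtPrime m
  let P := MvPolynomial τ k
  let J : Ideal L := I.map (algebraMap A L)
  have hJ : J ≤ IsLocalRing.maximalIdeal L := by
    rw [← Localization.AtPrime.map_eq_maximalIdeal]
    exact Ideal.map_mono hI
  have hJ' : J ≠ ⊤ := fun h => (IsLocalRing.maximalIdeal.isMaximal L).ne_top (top_le_iff.1 (h ▸ hJ))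
  have : Nontrivial (L ⧸ J) := Ideal.Quotient.nontrivial_iff.2 hJ'
  have : IsLocalRing (L ⧸ J) := IsLocalRing.of_surjective' _ Ideal.Quotient.mk_surjective
  have hP : ∀ q : P, σ (algebraMap P A q) - algebraMap P A q ∈ I := by
    intro q
    induction q using MvPolynomial.induction_on with
    | C c =>
      rw [← MvPolynomial.algebraMap_eq, ← IsScalarTower.algebraMap_apply, AlgHom.commutes, sub_self]
      exact I.zero_mem
    | add p q hp hq =>
      rw [map_add, map_add, add_sub_add_comm]
      exact I.add_mem hp hq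
    | mul_X p i hp =>
      rw [map_mul, map_mul, hX]
      have : σ (algebraMap P A p) * σ (z i) - algebraMap P A p * z i =
          (σ (algebraMap P A p) - algebraMap P A p) * σ (z i) +
            algebraMap P A p * (σ (z i) - z i) := by ring
      rw [this]
      exact I.add_mem (I.mul_mem_right _ hp) (I.mul_mem_left _ (hz i))
  let φ : A →ₐ[P] L ⧸ J :=
    { ((Ideal.Quotient.mk J).comp (algebraMap A L)).comp σ.toRingHom with
      commutes' := fun q => by
        change Ideal.Quotient.mk J (algebraMap A L (σ (algebraMap P A q))) =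
          Ideal.Quotient.mk J (algebraMap P L q)
        rw [IsScalarTower.algebraMap_apply P A L, Ideal.Quotient.eq, ← map_sub]
        exact Ideal.mem_map_of_mem _ (hP q) }
  have hφ : ∀ c, φ c = Ideal.Quotient.mk J (algebraMap A L (σ c)) := fun _ => rfl
  have hu : ∀ c : m.primeCompl, IsUnit (φ c) := fun c => by
    rw [hφ]
    refine IsUnit.map _ (IsLocalization.map_units L (⟨σ c, fun h => c.2 ?_⟩ : m.primeCompl))
    have := m.sub_mem h (hm c)
    rwa [sub_sub_cancel] at this
  let g₁ : L →ₐ[P] L ⧸ J := Ideal.Quotient.mkₐ P J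
  let g₂ : L →ₐ[P] L ⧸ J := IsLocalization.liftAlgHom (M := m.primeCompl) (f := φ) hu
  have hg₂ : ∀ c, g₂ (algebraMap A L c) = φ c := fun c => by
    simp only [g₂, IsLocalization.liftAlgHom_apply, IsLocalization.lift_eq]
    rfl
  have hM := IsLocalRing.maximalIdeal.isMaximal (L ⧸ J)
  have e : g₁ = g₂ := by
    refine Algebra.FormallyUnramified.ext_of_iInf (IsLocalRing.maximalIdeal (L ⧸ J))
      (Ideal.iInf_pow_eq_bot_of_isLocalRing _ hM.ne_top) fun w => ?_
    have : ((Ideal.Quotient.mk (IsLocalRing.maximalIdeal (L ⧸ J))).comp g₁.toRingHom) =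
        (Ideal.Quotient.mk (IsLocalRing.maximalIdeal (L ⧸ J))).comp g₂.toRingHom := by
      refine IsLocalization.ringHom_ext m.primeCompl (RingHom.ext fun c => ?_)
      change Ideal.Quotient.mk _ (Ideal.Quotient.mk J (algebraMap A L c)) =
        Ideal.Quotient.mk _ (g₂ (algebraMap A L c))
      rw [hg₂, hφ, eq_comm, Ideal.Quotient.eq, ← map_sub, ← map_sub]
      have := IsLocalHom.of_surjective (Ideal.Quotient.mk J) Ideal.Quotient.mk_surjective
      refine IsLocalRing.map_maximalIdeal_le (Ideal.Quotient.mk J) (Ideal.mem_map_of_mem _ ?_)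
      rw [← Localization.AtPrime.map_eq_maximalIdeal]
      exact Ideal.mem_map_of_mem _ (hm c)
    exact RingHom.congr_fun this w
  have h1 : algebraMap A L (a - σ a) ∈ J := by
    rw [map_sub, ← Ideal.Quotient.eq, ← hφ, ← hg₂, ← e]
    rfl
  obtain ⟨h, hh, h2⟩ := (IsLocalization.algebraMap_mem_map_algebraMap_iff m.primeCompl L I _).1 h1
  refine ⟨h, hh, ?_⟩
  have h3 : h * a = (2 : k)⁻¹ • (h * (a - σ a)) := by
    rw [ha, sub_neg_eq_add, mul_add, ← two_smul k (h * a), smul_smul,
      inv_mul_cancel₀ two_ne_zero, one_smul]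
  rw [h3]
  exact Submodule.smul_of_tower_mem I _ h2

theorem exists_etale_coord {k A : Type u} [Field k] [IsAlgClosed k] [CharZero k] [CommRing A]
    [Algebra k A] [Algebra.Smooth k A] (σ : A →ₐ[k] A) (hσ : ∀ a, σ (σ a) = a)
    (m : Ideal A) [m.IsMaximal] (hm : ∀ a, σ a - a ∈ m) :
    ∃ (r s : ℕ) (x : Fin r → A) (y : Fin s → A) (h : A), h ∉ m ∧ (∀ j, σ (x j) = -x j) ∧
      (∀ a, σ a = -a → h * a ∈ Ideal.span (Set.range x)) ∧
      ((algebraMap A (Localization.Away h)).comp
        (MvPolynomial.aeval (Sum.elim x y) : MvPolynomial (Fin r ⊕ Fin s) k →ₐ[k] A).toRingHom).Etale := by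
  classical
  obtain ⟨r, s, x, y, b, hx, hy, hb⟩ := local_basis σ hσ m
  let P := MvPolynomial (Fin r ⊕ Fin s) k
  let ψ : P →ₐ[k] A := MvPolynomial.aeval (Sum.elim x y)
  let : Algebra P A := ψ.toRingHom.toAlgebra
  have : IsScalarTower k P A := IsScalarTower.of_algebraMap_eq fun c => (ψ.commutes c).symm
  have hX : ∀ i, algebraMap P A (MvPolynomial.X i) = Sum.elim x y i := fun i =>
    MvPolynomial.aeval_X _ i
  have : Algebra.FormallyEtale P (Localization.AtPrime m) :=
    local_formallyEtale b fun i => by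
      rw [hb, IsScalarTower.algebraMap_apply P A, hX]
  have : IsNoetherianRing A := Algebra.FiniteType.isNoetherianRing k A
  have : Algebra.FiniteType P A := Algebra.FiniteType.of_restrictScalars_finiteType k P A
  have : Algebra.FinitePresentation P A := Algebra.FinitePresentation.of_finiteType.1 this
  obtain ⟨h₀, hh₀, het⟩ := Algebra.exists_etale_of_isEtaleAt (R := P) m
  have h2 : ∀ a : A, σ a = -a → a ∈ m := fun a ha => by
    have h3 : a = (-(2 : k)⁻¹) • (σ a - a) := by
      rw [ha, ← neg_add', neg_smul_neg, ← two_smul k a, smul_smul, inv_mul_cancel₀ two_ne_zero,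
        one_smul]
    rw [h3]
    exact Submodule.smul_of_tower_mem m _ (hm a)
  have hI : Ideal.span (Set.range x) ≤ m := by
    rw [Ideal.span_le]
    rintro _ ⟨j, rfl⟩
    exact h2 _ (hx j)
  have hz : ∀ i, σ (Sum.elim x y i) - Sum.elim x y i ∈ Ideal.span (Set.range x) := by
    rintro (j | j)
    · have : x j ∈ Ideal.span (Set.range x) := Ideal.subset_span ⟨j, rfl⟩
      rw [Sum.elim_inl, hx]
      exact sub_mem (neg_mem this) this
    · rw [Sum.elim_inr, hy, sub_self]
      exact zero_mem _
  have H := local_anti σ m hm (Sum.elim x y) _ hI hz hX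
  obtain ⟨t, ht, hsp⟩ := (Submodule.fg_span_iff_fg_span_finset_subset {a : A | σ a = -a}).1
    (IsNoetherian.noetherian (Submodule.span A {a : A | σ a = -a}))
  choose! c hc1 hc2 using H
  have hm' : m.IsPrime := inferInstance
  have hc3 : ∏ a ∈ t, c a ∉ m := fun h => by
    obtain ⟨a, ha, h'⟩ := Ideal.IsPrime.prod_mem_iff.1 h
    exact hc1 a (ht ha) h'
  refine ⟨r, s, x, y, h₀ * ∏ a ∈ t, c a, hm'.mul_notMem hh₀ hc3, hx, fun a ha => ?_, ?_⟩
  · have ha' : a ∈ Submodule.span A (t : Set A) := hsp ▸ Submodule.subset_span ha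
    rw [mul_assoc]
    refine Ideal.mul_mem_left _ _ ?_
    refine Submodule.span_induction (p := fun a _ => (∏ a ∈ t, c a) * a ∈ Ideal.span (Set.range x))
      (fun u hu => ?_) (by rw [mul_zero]; exact zero_mem _)
      (fun u v _ _ hu hv => by rw [mul_add]; exact add_mem hu hv)
      (fun w u _ hu => by rw [smul_eq_mul, mul_left_comm]; exact Ideal.mul_mem_left _ _ hu) ha'
    rw [← Finset.prod_erase_mul t c hu, mul_assoc]
    exact Ideal.mul_mem_left _ _ (hc2 u (ht hu))
  · have h4 : Algebra.Etale P (Localization.Away (h₀ * ∏ a ∈ t, c a)) := by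
      rw [← Algebra.basicOpen_subset_etaleLocus_iff_etale] at het ⊢
      exact Set.Subset.trans (PrimeSpectrum.basicOpen_mul_le_left _ _) het
    rw [← RingHom.etale_algebraMap] at h4
    rwa [IsScalarTower.algebraMap_eq P A] at h4

end Pool.Agent.Lib.MP_954e53_ag.RS
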