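import Pool.Agent.Lib.MP_954e53_ag.RS.Coord
import Pool.Agent.Lib.MP_954e53_ag.RS.Local

/-! The blow-up of the fixed locus of an involution on a smooth affine variety. -/

namespace Pool.Agent.Lib.MP_954e53_ag.RS

universe u

section

variable {k K : Type u} [Field k] [Field K] [Algebra k K] {A : Subalgebra k K}

lemma anti_inv_mem (A : Subalgebra k K) (h : K) : h⁻¹ ∈ loc A h :=
  (le_sup_right : _ ≤ loc A h) (Algebra.subset_adjoin rfl)

lemma anti_span {B : Subalgebra k K} (hB : A ≤ B) {t : Set A} {T : Set K}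
    (hT : ∀ a ∈ t, (a : K) ∈ T) {a : A} (ha : a ∈ Submodule.span A t) :
    (a : K) ∈ Submodule.span B T := by
  refine Submodule.span_induction (p := fun (a : A) _ => (a : K) ∈ Submodule.span B T)
    (fun u hu => Submodule.subset_span (hT u hu)) (zero_mem _)
    (fun u v _ _ hu hv => add_mem hu hv) (fun w u _ hu => ?_) ha
  exact Submodule.smul_mem _ (⟨w, hB w.2⟩ : B) hu

lemma anti_cover [IsNoetherianRing A] {U : Set K} (hU : U ⊆ A) (h3 : ∃ a ∈ U, a ≠ 0) :
    ∃ (ι : Type u) (_ : Finite ι) (f : ι → K), Covers A U f := by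
  obtain ⟨t, ht, hsp⟩ := (Submodule.fg_span_iff_fg_span_finset_subset
    {a : A | (a : K) ∈ U ∧ (a : K) ≠ 0}).1 (IsNoetherian.noetherian
      (Submodule.span A {a : A | (a : K) ∈ U ∧ (a : K) ≠ 0}))
  have h : U ⊆ Submodule.span A (Set.range fun i : t => ((i : A) : K)) := fun u hu => by
    by_cases h0 : u = 0
    · rw [h0]
      exact zero_mem _
    · have h1 : (⟨u, hU hu⟩ : A) ∈ Submodule.span A (t : Set A) :=
        hsp ▸ Submodule.subset_span ⟨hu, h0⟩
      exact anti_span le_rfl (fun a ha => Set.mem_range_self (⟨a, ha⟩ : t)) h1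
  have : Nonempty t := by
    obtain ⟨a, ha, h0⟩ := h3
    by_contra hn
    rw [not_nonempty_iff] at hn
    have := h ha
    rw [Set.range_eq_empty, Submodule.span_empty] at this
    exact h0 this
  exact ⟨t, inferInstance, _, Covers.of_span (fun i => (ht i.2).1) (fun i => (ht i.2).2) h⟩

lemma anti_unit (hA : Algebra.Smooth k A) {U : Set K} (hU : U ⊆ A) {u : K} (hu : u ∈ U)
    (h0 : u ≠ 0) : Mdl (loc A u) U 0 := by
  have h1 : ∀ v ∈ U, v / u ∈ loc A u := fun v hv => by
    rw [div_eq_mul_inv]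
    exact mul_mem (le_loc A u (hU hv)) (anti_inv_mem A u)
  have hc : Covers (loc A u) U fun _ : Unit => u :=
    ⟨fun _ => hu, fun _ => h0, fun O hO => ⟨(), fun v hv => hO _ (h1 v hv)⟩⟩
  have h2 : chart (loc A u) U u = loc A u :=
    le_antisymm (chart_le_iff.2 ⟨le_rfl, h1⟩) (le_chart _ _ _)
  refine Mdl.of_cover hc (hc.smooth fun _ => ?_) fun n _ => exAt_of_cone () (fun s x hx => ?_) n
  · rw [h2]
    exact smooth_loc (hU hu) hA
  · have h3 : charts (loc A u) U (fun _ : Unit => u) (insert () s) ≤ loc A u :=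
      charts_le_iff.2 ⟨le_rfl, fun _ _ => h1⟩
    exact le_charts _ _ _ _ (h3 hx)

lemma anti_global {U : Set K} {ι : Type*} [Finite ι] {f : ι → K} (hf : Covers A U f)
    (H : ∀ m : Ideal A, m.IsMaximal → ∃ h : A, h ∉ m ∧ Mdl (loc A (h : K)) U 0) : Mdl A U 0 := by
  refine Mdl.of_cover hf (fun g hg hg0 => smooth_of_loc fun M hM => ?_) fun n _ =>
    exAt_of_loc (B := A) (le_charts A U f) fun m hm => ?_
  · let j := Subalgebra.inclusion (le_chart A U g)
    obtain ⟨m, hm, hle⟩ := Ideal.exists_le_maximal (M.comap j) (Ideal.comap_ne_top j hM.ne_top)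
    obtain ⟨h, hh, hM'⟩ := H m hm
    refine ⟨j h, fun h' => hh (hle h'), ?_⟩
    have := hM'.smooth g hg hg0
    rwa [chart_loc] at this
  · obtain ⟨h, hh, hM'⟩ := H m hm
    refine ⟨h, hh, (hM'.exAt zero_le_one (hf.mono (le_loc A h)) n (Nat.zero_le n)).congr ?_⟩
    intro s x
    rw [charts_loc]

end

theorem mdl_anti {k K : Type u} [Field k] [IsAlgClosed k] [CharZero k] [Field K] [Algebra k K]
    {A : Subalgebra k K} (hA : Algebra.Smooth k A) (σ : K ≃ₐ[k] K) (h1 : ∀ a ∈ A, σ a ∈ A)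
    (h2 : ∀ a ∈ A, σ (σ a) = a) (h3 : ∃ a ∈ A, a ≠ 0 ∧ σ a = -a) :
    Mdl A {a | a ∈ A ∧ σ a = -a} 0 := by
  have : IsNoetherianRing A := Algebra.FiniteType.isNoetherianRing k A
  have hU : {a | a ∈ A ∧ σ a = -a} ⊆ (A : Set K) := fun a ha => ha.1
  obtain ⟨a₀, ha₀, ha₁, ha₂⟩ := h3
  obtain ⟨ι, _, f, hf⟩ := anti_cover hU ⟨a₀, ⟨ha₀, ha₂⟩, ha₁⟩
  refine anti_global hf fun m hm => ?_
  by_cases hc : ∃ u : A, σ u = -u ∧ u ∉ m
  · obtain ⟨u, hu, hum⟩ := hc
    exact ⟨u, hum, anti_unit hA hU ⟨u.2, hu⟩ fun h0 => hum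
      ((show u = 0 from Subtype.ext h0) ▸ m.zero_mem)⟩
  push Not at hc
  let σ' : A →ₐ[k] A := ((σ : K →ₐ[k] K).comp A.val).codRestrict A fun a => h1 a a.2
  have hσ' : ∀ a : A, (σ' a : K) = σ a := fun _ => rfl
  obtain ⟨r, s, x, y, h, hh, hx, hs, het⟩ := exists_etale_coord σ'
    (fun a => Subtype.ext (h2 a a.2)) m fun a => hc _ (by
      rw [Subalgebra.coe_sub, map_sub, hσ', h2 a a.2, neg_sub])
  have hh0 : (h : K) ≠ 0 := fun h0 => hh ((show h = 0 from Subtype.ext h0) ▸ m.zero_mem)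
  refine ⟨h, hh, ?_⟩
  let j := Subalgebra.inclusion (le_loc A (h : K))
  have het' : (MvPolynomial.aeval (Sum.elim (fun i => j (x i)) fun i => j (y i)) :
      MvPolynomial (Fin r ⊕ Fin s) k →ₐ[k] loc A (h : K)).toRingHom.Etale := by
    let := j.toRingHom.toAlgebra
    have : IsLocalization.Away h (loc A (h : K)) := isLocalization_loc h.2 hh0
    let e := IsLocalization.algEquiv (Submonoid.powers h) (Localization.Away h) (loc A (h : K))
    have := RingHom.Etale.respectsIso.1 _ e.toRingEquiv het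
    convert this using 1
    refine MvPolynomial.ringHom_ext (fun c => ?_) fun i => ?_
    · change MvPolynomial.aeval _ (MvPolynomial.C c) =
        e (algebraMap A _ (MvPolynomial.aeval _ (MvPolynomial.C c)))
      rw [e.commutes, MvPolynomial.algHom_C, MvPolynomial.algHom_C]
      rfl
    · change MvPolynomial.aeval _ (MvPolynomial.X i) =
        e (algebraMap A _ (MvPolynomial.aeval _ (MvPolynomial.X i)))
      rw [e.commutes, MvPolynomial.aeval_X, MvPolynomial.aeval_X]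
      cases i <;> rfl
  have hr : 0 < r := by
    by_contra hr
    obtain rfl : r = 0 := by omega
    have := hs ⟨a₀, ha₀⟩ (Subtype.ext ha₂)
    rw [Set.range_eq_empty, Ideal.span_empty, Ideal.mem_bot] at this
    exact mul_ne_zero hh0 ha₁ (congrArg Subtype.val this)
  refine (mdl_coord het' hr).of_span zero_le_one ?_ fun u hu => ?_
  · rintro _ ⟨i, rfl⟩
    exact Submodule.subset_span ⟨(x i).2, congrArg Subtype.val (hx i)⟩
  · have h4 := anti_span (le_loc A (h : K)) (T := Set.range fun i => (j (x i) : K))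
      (by rintro _ ⟨i, rfl⟩; exact ⟨i, rfl⟩) (hs ⟨u, hu.1⟩ (Subtype.ext hu.2))
    have h5 := Submodule.smul_mem _ (⟨(h : K)⁻¹, anti_inv_mem A h⟩ : loc A (h : K)) h4
    have h6 : (⟨(h : K)⁻¹, anti_inv_mem A h⟩ : loc A (h : K)) • ((h * ⟨u, hu.1⟩ : A) : K) = u :=
      inv_mul_cancel_left₀ hh0 u
    rwa [h6] at h5

end Pool.Agent.Lib.MP_954e53_ag.RS
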