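import Pool.Agent.Lib.MP_954e53_ag.GenParams
import Pool.Agent.Lib.MP_954e53_ag.GenRey

/-! The coordinate ring of the cone is free over the polynomial ring in the parameters. -/

namespace Pool.Agent.Lib.MP_954e53_ag.RS

open MvPolynomial

universe u

theorem basefree_mk_sum {k A ι : Type*} [Field k] [CommRing A] [Algebra k A] (J : Ideal A)
    (s : Finset ι) (g : ι → k) (v : ι → A) :
    ∑ i ∈ s, g i • Ideal.Quotient.mk J (v i) = Ideal.Quotient.mk J (∑ i ∈ s, g i • v i) := by
  rw [← Ideal.Quotient.mkₐ_eq_mk k J, map_sum]
  exact Finset.sum_congr rfl fun i _ => (map_smul (Ideal.Quotient.mkₐ k J) (g i) (v i)).symm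

theorem basefree_pow {A : Type*} [CommRing A] {J : Ideal A} {θ : A}
    (hθ : ∀ f, θ * f ∈ J → f ∈ J) (n : ℕ) : ∀ f, θ ^ n * f ∈ J → f ∈ J := by
  induction n with
  | zero => intro f hf; simpa using hf
  | succ n ih =>
    intro f hf
    refine hθ f (ih _ ?_)
    rwa [← mul_assoc, ← pow_succ]

theorem basefree_step {k A ι : Type*} [Field k] [CommRing A] [Algebra k A] {J : Ideal A} {θ : A}
    (hθ : ∀ f, θ * f ∈ J → f ∈ J) {v : ι → A}
    (hv : LinearIndependent k fun i => Ideal.Quotient.mk (Ideal.span {θ} ⊔ J) (v i)) :
    LinearIndependent k fun p : ι × ℕ => Ideal.Quotient.mk J (v p.1 * θ ^ p.2) := by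
  classical
  rw [linearIndependent_iff']
  intro s g hs
  rw [basefree_mk_sum, Ideal.Quotient.eq_zero_iff_mem] at hs
  have key : ∀ n, ∀ p ∈ s, p.2 = n → g p = 0 := by
    intro n
    induction n using Nat.strong_induction_on with
    | _ n ih =>
      have h1 : θ ^ n * ∑ p ∈ s, g p • (v p.1 * θ ^ (p.2 - n)) =
          ∑ p ∈ s, g p • (v p.1 * θ ^ p.2) := by
        rw [Finset.mul_sum]
        refine Finset.sum_congr rfl fun p hp => ?_
        by_cases h : p.2 < n
        · rw [ih p.2 h p hp rfl, zero_smul, zero_smul, mul_zero]
        · rw [mul_smul_comm, mul_left_comm, ← pow_add, Nat.add_sub_cancel' (not_lt.1 h)]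
      have h2 : ∑ p ∈ s, g p • (v p.1 * θ ^ (p.2 - n)) ∈ J :=
        basefree_pow hθ n _ (h1 ▸ hs)
      have h3 : ∑ p ∈ s, g p • Ideal.Quotient.mk (Ideal.span {θ} ⊔ J) (v p.1 * θ ^ (p.2 - n)) =
          0 := by
        rw [basefree_mk_sum, Ideal.Quotient.eq_zero_iff_mem]
        exact Ideal.mem_sup_right h2
      have h4 : ∑ i ∈ (s.filter fun p => p.2 = n).image Prod.fst,
          g (i, n) • Ideal.Quotient.mk (Ideal.span {θ} ⊔ J) (v i) = 0 := by
        rw [Finset.sum_image fun p hp q hq h => Prod.ext h
          ((Finset.mem_filter.1 hp).2.trans (Finset.mem_filter.1 hq).2.symm),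
          Finset.sum_filter]
        refine Eq.trans (Finset.sum_congr rfl fun p hp => ?_) h3
        split_ifs with h
        · rw [← h, Nat.sub_self, pow_zero, mul_one]
        · rcases lt_or_gt_of_ne h with h5 | h5
          · rw [ih p.2 h5 p hp rfl, zero_smul]
          · have h6 : Ideal.Quotient.mk (Ideal.span {θ} ⊔ J) (v p.1 * θ ^ (p.2 - n)) = 0 := by
              rw [Ideal.Quotient.eq_zero_iff_mem]
              refine Ideal.mem_sup_left (Ideal.mul_mem_left _ _ ?_)
              exact Ideal.pow_mem_of_mem _ (Ideal.mem_span_singleton_self θ) _ (by omega)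
            rw [h6, smul_zero]
      intro p hp hn
      have h5 := linearIndependent_iff'.1 hv _ _ h4 p.1
        (Finset.mem_image_of_mem _ (Finset.mem_filter.2 ⟨hp, hn⟩))
      rwa [← hn] at h5
  exact fun p hp => key p.2 p hp rfl

theorem basefree_ind {k A E α : Type*} [Field k] [CommRing A] [Algebra k A] {d : ℕ}
    {F : α ⊕ Fin d → A}
    (hreg : ∀ (s : Set (α ⊕ Fin d)) (l : α ⊕ Fin d), l ∉ s → ∀ f,
      F l * f ∈ Ideal.span (F '' s) → f ∈ Ideal.span (F '' s)) {v : E → A}
    (hv : LinearIndependent k fun e => Ideal.Quotient.mk (Ideal.span (Set.range F)) (v e))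
    (t : Finset (Fin d)) :
    LinearIndependent k fun p : {p : E × (Fin d →₀ ℕ) // p.2.support ⊆ t} =>
      Ideal.Quotient.mk (Ideal.span (F '' {x | ∀ l ∈ t, x ≠ .inr l}))
        (v p.1.1 * ∏ l, F (.inr l) ^ p.1.2 l) := by
  classical
  induction t using Finset.induction_on with
  | empty =>
    have h0 : ∀ p : {p : E × (Fin d →₀ ℕ) // p.2.support ⊆ ∅}, p.1.2 = 0 := fun p =>
      Finsupp.support_eq_empty.1 (Finset.subset_empty.1 p.2)
    have h1 : F '' {x | ∀ l ∈ (∅ : Finset (Fin d)), x ≠ .inr l} = Set.range F := by
      ext x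
      simp
    rw [h1]
    have h2 := hv.comp (fun p : {p : E × (Fin d →₀ ℕ) // p.2.support ⊆ ∅} => p.1.1)
      fun p q h => Subtype.ext (Prod.ext h ((h0 p).trans (h0 q).symm))
    convert h2 using 2 with p
    simp [h0 p]
  | insert l t hl ih =>
    have h1 : {x : α ⊕ Fin d | ∀ j ∈ t, x ≠ .inr j} =
        insert (.inr l) {x | ∀ j ∈ insert l t, x ≠ .inr j} := by
      ext x
      simp only [Set.mem_ofPred_eq, Set.mem_insert_iff, Finset.mem_insert, forall_eq_or_imp]
      constructor
      · intro h
        by_cases hx : x = .inr l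
        · exact Or.inl hx
        · exact Or.inr ⟨hx, h⟩
      · rintro (h | h) j hj
        · rw [h]
          intro h2
          exact hl (Sum.inr_injective h2 ▸ hj)
        · exact h.2 j hj
    rw [h1, Set.image_insert_eq, Ideal.span_insert] at ih
    have h2 := basefree_step (hreg {x | ∀ j ∈ insert l t, x ≠ .inr j} (.inr l)
      fun h => h l (Finset.mem_insert_self l t) rfl) ih
    have h3 := h2.comp (fun p : {p : E × (Fin d →₀ ℕ) // p.2.support ⊆ insert l t} =>
      (⟨(p.1.1, p.1.2.erase l), by
        rw [Finsupp.support_erase]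
        exact Finset.subset_insert_iff.1 p.2⟩, p.1.2 l)) fun p q h => by
      have h4 := congrArg (fun x => x.1.1.1) h
      have h5 := congrArg (fun x => x.1.1.2) h
      have h6 := congrArg (fun x => x.2) h
      dsimp only at h4 h5 h6
      refine Subtype.ext (Prod.ext h4 ?_)
      rw [← Finsupp.erase_add_single l p.1.2, ← Finsupp.erase_add_single l q.1.2, h5, h6]
    convert h3 using 2 with p
    dsimp only [Function.comp_apply]
    congr 1
    rw [mul_assoc]
    congr 1
    conv_lhs => rw [← Finsupp.erase_add_single l p.1.2]
    simp only [Finsupp.add_apply, pow_add, Finset.prod_mul_distrib]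
    congr 1
    rw [Finset.prod_eq_single l]
    · rw [Finsupp.single_eq_same]
    · intro j _ hj
      rw [Finsupp.single_eq_of_ne hj, pow_zero]
    · intro h
      exact absurd (Finset.mem_univ l) h

attribute [local instance] MvPolynomial.gradedAlgebra in
theorem basefree_comp {k ι : Type*} [Field k] {b f : MvPolynomial ι k} (hf : f.IsHomogeneous 8)
    (n : ℕ) : homogeneousComponent n (b * f) =
      if 8 ≤ n then homogeneousComponent (n - 8) b * f else 0 := by
  classical
  have h0 : ∀ (g : MvPolynomial ι k) (m : ℕ),
      (DirectSum.decompose (homogeneousSubmodule ι k) g m : MvPolynomial ι k) =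
        homogeneousComponent m g := fun g m => decomposition.decompose'_apply g m
  have h1 := DirectSum.coe_decompose_mul_of_right_mem (homogeneousSubmodule ι k) (a := b) n
    ((mem_homogeneousSubmodule 8 f).2 hf)
  rwa [h0, h0] at h1

theorem exists_basis_monomials {k : Type u} [Field k] [IsAlgClosed k] [CharZero k] {c d : ℕ}
    {F : Fin c ⊕ Fin d → MvPolynomial (Fin c ⊕ Fin d) k} (hF : Gen.Octics F) (hp : Gen.Params F) :
    ∃ E : Set (Fin c ⊕ Fin d →₀ ℕ), (∀ e ∈ E, e.degree ≤ 7 * (c + d)) ∧
      LinearIndependent k (fun p : E × (Fin d →₀ ℕ) => Ideal.Quotient.mk (Gen.eqIdeal F)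
        (monomial p.1.1 1 * ∏ l, F (.inr l) ^ p.2 l)) ∧
      ∀ (m : ℕ) (q : MvPolynomial (Fin c ⊕ Fin d) k), q.IsHomogeneous m →
        Ideal.Quotient.mk (Gen.eqIdeal F) q ∈ Submodule.span k
          ((fun p : E × (Fin d →₀ ℕ) => Ideal.Quotient.mk (Gen.eqIdeal F)
            (monomial p.1.1 1 * ∏ l, F (.inr l) ^ p.2 l)) ''
            {p | p.1.1.degree + 8 * p.2.degree = m}) := by
  classical
  obtain ⟨E, -, -, hsp, hli⟩ := exists_linearIndepOn_extension (K := k)
    (v := fun e : Fin c ⊕ Fin d →₀ ℕ =>
      Ideal.Quotient.mk (Ideal.span (Set.range F)) (monomial e (1 : k)))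
    (linearIndepOn_empty k _) (Set.empty_subset Set.univ)
  refine ⟨E, fun e he => ?_, ?_, fun m => ?_⟩
  · by_contra h
    refine hli.ne_zero he ?_
    rw [Ideal.Quotient.eq_zero_iff_mem]
    exact hp.top _ (not_le.1 h) _ (isHomogeneous_monomial 1 rfl)
  · have h1 := basefree_ind (v := fun e : E => monomial e.1 (1 : k)) hp.reg hli Finset.univ
    have h2 : F '' {x | ∀ l ∈ (Finset.univ : Finset (Fin d)), x ≠ .inr l} =
        Set.range fun l : Fin c => F (.inl l) := by
      ext y
      constructor
      · rintro ⟨x | x, hx, rfl⟩
        · exact ⟨x, rfl⟩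
        · exact absurd rfl (hx x (Finset.mem_univ x))
      · rintro ⟨x, rfl⟩
        exact ⟨.inl x, fun l _ => Sum.inl_ne_inr, rfl⟩
    rw [h2] at h1
    exact h1.comp (fun p : E × (Fin d →₀ ℕ) => ⟨p, Finset.subset_univ _⟩)
      fun p q h => congrArg Subtype.val h
  · induction m using Nat.strong_induction_on with
    | _ m ih =>
      intro q hq
      have h1 : Ideal.Quotient.mk (Ideal.span (Set.range F)) q ∈ Submodule.map
          (Ideal.Quotient.mkₐ k (Ideal.span (Set.range F))).toLinearMap
          (Submodule.span k ((fun e => monomial e (1 : k)) '' E)) := by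
        rw [Submodule.map_span, Set.image_image, q.as_sum, map_sum]
        refine Submodule.sum_mem _ fun e _ => ?_
        have h2 : monomial e (coeff e q) = coeff e q • monomial e (1 : k) := by
          rw [smul_monomial, smul_eq_mul, mul_one]
        rw [h2, ← Ideal.Quotient.mkₐ_eq_mk k, map_smul]
        exact Submodule.smul_mem _ _ (hsp ⟨e, Set.mem_univ e, rfl⟩)
      obtain ⟨u, hu, hq2⟩ := h1
      obtain ⟨b, hb⟩ := Ideal.mem_span_range_iff_exists_fun.1
        ((Ideal.Quotient.eq (I := Ideal.span (Set.range F))).1 hq2.symm)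
      have h3 : q = homogeneousComponent m u + ∑ l, homogeneousComponent m (b l * F l) := by
        rw [← map_sum, hb, ← map_add, add_sub_cancel, homogeneousComponent_eq_self hq]
      rw [h3, map_add, map_sum]
      refine Submodule.add_mem _ ?_ (Submodule.sum_mem _ fun l _ => ?_)
      · clear h3 hb hq2
        induction hu using Submodule.span_induction with
        | mem x hx =>
          obtain ⟨e, he, rfl⟩ := hx
          rw [homogeneousComponent_of_mem (isHomogeneous_monomial (1 : k) rfl)]
          split_ifs with h
          · refine Submodule.subset_span ⟨(⟨e, he⟩, 0), ?_, ?_⟩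
            · simp [h]
            · simp
          · rw [map_zero]
            exact Submodule.zero_mem _
        | zero =>
          rw [map_zero, map_zero]
          exact Submodule.zero_mem _
        | add x y _ _ hx hy =>
          rw [map_add, map_add]
          exact Submodule.add_mem _ hx hy
        | smul a x _ hx =>
          rw [map_smul, ← Ideal.Quotient.mkₐ_eq_mk k, map_smul]
          exact Submodule.smul_mem _ _ hx
      · rw [basefree_comp (hF.hom l)]
        split_ifs with h8
        · rcases l with l | l
          · have h4 : Ideal.Quotient.mk (Gen.eqIdeal F)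
                (homogeneousComponent (m - 8) (b (.inl l)) * F (.inl l)) = 0 := by
              rw [Ideal.Quotient.eq_zero_iff_mem]
              exact Ideal.mul_mem_left _ _ (Ideal.subset_span ⟨l, rfl⟩)
            rw [h4]
            exact Submodule.zero_mem _
          · have h4 := ih (m - 8) (by omega) _
              (homogeneousComponent_isHomogeneous (m - 8) (b (.inr l)))
            rw [map_mul]
            generalize Ideal.Quotient.mk (Gen.eqIdeal F)
              (homogeneousComponent (m - 8) (b (.inr l))) = z at h4
            induction h4 using Submodule.span_induction with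
            | mem x hx =>
              obtain ⟨p, hp1, rfl⟩ := hx
              refine Submodule.subset_span ⟨(p.1, p.2 + Finsupp.single l 1), ?_, ?_⟩
              · have h5 : p.1.1.degree + 8 * p.2.degree = m - 8 := hp1
                show p.1.1.degree + 8 * (p.2 + Finsupp.single l 1).degree = m
                rw [map_add, Finsupp.degree_single]
                omega
              · dsimp only
                rw [← map_mul, mul_assoc]
                congr 2
                simp only [Finsupp.add_apply, pow_add, Finset.prod_mul_distrib]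
                congr 1
                rw [Finset.prod_eq_single l]
                · rw [Finsupp.single_eq_same, pow_one]
                · intro j _ hj
                  rw [Finsupp.single_eq_of_ne hj, pow_zero]
                · intro h
                  exact absurd (Finset.mem_univ l) h
            | zero =>
              rw [zero_mul]
              exact Submodule.zero_mem _
            | add x y _ _ hx hy =>
              rw [add_mul]
              exact Submodule.add_mem _ hx hy
            | smul a x _ hx =>
              rw [smul_mul_assoc]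
              exact Submodule.smul_mem _ _ hx
        · rw [map_zero]
          exact Submodule.zero_mem _

end Pool.Agent.Lib.MP_954e53_ag.RS
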