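import Mathlib

/-! Laurent monomials. -/

namespace Pool.Agent.Lib.MP_954e53_ag.RS

theorem linearIndependent_zpow {k K τ E : Type*} [Field k] [Field K] [Algebra k K] [Fintype τ]
    (z : τ → K) (hz : ∀ i, z i ≠ 0) (e : E → K)
    (h : LinearIndependent k fun p : E × (τ →₀ ℕ) => e p.1 * ∏ i, z i ^ p.2 i) :
    LinearIndependent k fun p : E × (τ → ℤ) => e p.1 * ∏ i, z i ^ p.2 i := by
  classical
  rw [linearIndependent_iff_finset_linearIndependent]
  intro s
  obtain ⟨N, hN⟩ : ∃ N : ℕ, ∀ p ∈ s, ∀ i, 0 ≤ p.2 i + N := by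
    refine ⟨∑ p ∈ s, ∑ i, (p.2 i).natAbs, fun p hp i => ?_⟩
    have h1 : (p.2 i).natAbs ≤ ∑ i, (p.2 i).natAbs :=
      Finset.single_le_sum (f := fun i => (p.2 i).natAbs) (fun _ _ => Nat.zero_le _)
        (Finset.mem_univ i)
    have h2 : ∑ i, (p.2 i).natAbs ≤ ∑ p ∈ s, ∑ i, (p.2 i).natAbs :=
      Finset.single_le_sum (f := fun p : E × (τ → ℤ) => ∑ i, (p.2 i).natAbs)
        (fun _ _ => Nat.zero_le _) hp
    omega
  let φ : s → E × (τ →₀ ℕ) := fun p =>
    (p.1.1, Finsupp.equivFunOnFinite.symm fun i => (p.1.2 i + N).toNat)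
  have hφ : Function.Injective φ := by
    intro p q hpq
    have h1 : p.1.1 = q.1.1 := (Prod.ext_iff.1 hpq).1
    have h2 := Finsupp.equivFunOnFinite.symm.injective (congrArg Prod.snd hpq)
    refine Subtype.ext (Prod.ext h1 (funext fun i => ?_))
    have h3 : (p.1.2 i + N).toNat = (q.1.2 i + N).toNat := congrFun h2 i
    have h4 := hN _ p.2 i
    have h5 := hN _ q.2 i
    omega
  refine LinearIndependent.of_comp (LinearMap.mulRight k (∏ i, z i ^ (N : ℤ))) ?_
  have h' := h.comp φ hφ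
  refine (congrArg (fun v : s → K => LinearIndependent k v) (funext fun p => ?_)).mpr h'
  simp only [Function.comp_apply, LinearMap.mulRight_apply, φ,
    Finsupp.equivFunOnFinite_symm_apply_apply]
  rw [mul_assoc, ← Finset.prod_mul_distrib]
  congr 1
  refine Finset.prod_congr rfl fun i _ => ?_
  rw [← zpow_add₀ (hz i), ← zpow_natCast, Int.toNat_of_nonneg (hN _ p.2 i)]

end Pool.Agent.Lib.MP_954e53_ag.RS
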