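import Pool.Agent.Lib.MP_954e53_ag.RS.Chart
import Pool.Agent.Lib.MP_954e53_ag.RS.Laurent
import Pool.Agent.Lib.MP_954e53_ag.RS.BaseFree

/-! The Cech complex of the blow-up of the vertex of the cone. -/

namespace Pool.Agent.Lib.MP_954e53_ag.RS

open MvPolynomial

universe u

section aux

variable {k K : Type u} [Field k] [Field K] [Algebra k K] {τ : Type} {d : ℕ}

lemma baseEx_div_mem (ψ : MvPolynomial τ k →ₐ[k] K) (θ : Fin d → K) (s : Set (Fin d)) (n : ℕ) :
    ∀ b : Fin d → ℕ, ∑ l, b l = n → (∀ l, b l ≠ 0 → l ∈ s) → ∀ (m : ℕ) (q : MvPolynomial τ k),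
      q.IsHomogeneous m → 8 * n ≤ m →
      ψ q / ∏ l, θ l ^ b l ∈ charts ψ.range (ψ '' {q | q.IsHomogeneous 8}) θ s := by
  induction n with
  | zero =>
    intro b hb _ m q _ _
    have h0 : ∀ l, b l = 0 := fun l => (Finset.sum_eq_zero_iff.mp hb) l (Finset.mem_univ l)
    simp only [h0, pow_zero, Finset.prod_const_one, div_one]
    exact le_charts _ _ _ _ ⟨q, rfl⟩
  | succ n ih =>
    intro b hb hs m q hq hm
    obtain ⟨l0, hl0⟩ : ∃ l0, b l0 ≠ 0 := by
      by_contra h
      push Not at h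
      simp [h] at hb
    obtain ⟨b', rfl⟩ : ∃ b' : Fin d → ℕ, b = b' + Pi.single l0 1 := by
      refine ⟨b - Pi.single l0 1, ?_⟩
      funext l
      by_cases h : l = l0
      · subst h
        simp only [Pi.add_apply, Pi.sub_apply, Pi.single_eq_same]
        omega
      · simp [Pi.single_eq_of_ne h]
    have hb' : ∑ l, b' l = n := by
      simp only [Pi.add_apply, Finset.sum_add_distrib, Finset.sum_pi_single', Finset.mem_univ,
        if_true] at hb
      omega
    have hs' : ∀ l, b' l ≠ 0 → l ∈ s := fun l hl => hs l (by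
      simp only [Pi.add_apply]
      omega)
    have hprod : ∏ l, θ l ^ (b' + Pi.single l0 1 : Fin d → ℕ) l = θ l0 * ∏ l, θ l ^ b' l := by
      simp only [Pi.add_apply, pow_add, Finset.prod_mul_distrib]
      rw [mul_comm]
      congr 1
      rw [Finset.prod_eq_single l0]
      · simp
      · intro l _ h
        simp [Pi.single_eq_of_ne h]
      · simp
    obtain ⟨m', rfl⟩ : ∃ m', m = 8 + m' := ⟨m - 8, by omega⟩
    have hq' : q ∈ homogeneousSubmodule τ k 8 * homogeneousSubmodule τ k m' := by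
      rw [← homogeneousSubmodule_one_pow k 8, ← homogeneousSubmodule_one_pow k m',
        ← pow_add, homogeneousSubmodule_one_pow]
      exact hq
    rw [hprod]
    refine Submodule.mul_induction_on hq' ?_ ?_
    · intro x hx y hy
      rw [map_mul, mul_div_mul_comm]
      refine Subalgebra.mul_mem _ ?_ (ih b' hb' hs' m' y hy (by omega))
      exact chart_le_charts _ _ θ (hs l0 hl0) (div_mem_chart _ (Set.mem_image_of_mem ψ hx) _)
    · intro x y hx hy
      rw [map_add, add_div]
      exact Subalgebra.add_mem _ hx hy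

lemma baseEx_mul_mem (ψ : MvPolynomial τ k →ₐ[k] K) (G : Fin d → MvPolynomial τ k)
    (hG : ∀ l, (G l).IsHomogeneous 8) (hθ : ∀ l, ψ (G l) ≠ 0) (s : Set (Fin d))
    (a : Fin d → ℤ) (ha : ∀ l, a l < 0 → l ∈ s) (m : ℕ) (q : MvPolynomial τ k)
    (hq : q.IsHomogeneous m) (hm : 0 ≤ (m : ℤ) + 8 * ∑ l, a l) :
    ψ q * ∏ l, ψ (G l) ^ a l ∈
      charts ψ.range (ψ '' {q | q.IsHomogeneous 8}) (fun l => ψ (G l)) s := by
  have h1 : (q * ∏ l, G l ^ (a l).toNat).IsHomogeneous (m + ∑ l, 8 * (a l).toNat) :=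
    hq.mul (IsHomogeneous.prod _ _ _ fun l _ => (hG l).pow _)
  have h2 : ∑ l, a l = ∑ l, ((a l).toNat : ℤ) - ∑ l, ((-a l).toNat : ℤ) := by
    rw [← Finset.sum_sub_distrib]
    exact Finset.sum_congr rfl fun l _ => by omega
  have h3 := baseEx_div_mem ψ (fun l => ψ (G l)) s _ (fun l => (-a l).toNat) rfl
    (fun l hl => ha l (by omega)) _ _ h1 (by
      rw [← Finset.mul_sum]
      zify
      rw [h2] at hm
      linarith)
  convert h3 using 1
  rw [map_mul, map_prod, mul_div_assoc, ← Finset.prod_div_distrib]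
  congr 1
  refine Finset.prod_congr rfl fun l _ => ?_
  rw [map_pow, ← zpow_natCast, ← zpow_natCast, ← zpow_sub₀ (hθ l)]
  congr 1
  omega

/-- The monoid of the generators of the ring of an intersection of charts. -/
def baseExMon (ψ : MvPolynomial τ k →ₐ[k] K) (θ : Fin d → K) (hθ : ∀ l, θ l ≠ 0)
    (s : Set (Fin d)) : Submonoid K where
  carrier := {x | ∃ (m : ℕ) (q : MvPolynomial τ k) (a : Fin d → ℤ), q.IsHomogeneous m ∧
    0 ≤ (m : ℤ) + 8 * ∑ l, a l ∧ (∀ l, a l < 0 → l ∈ s) ∧ x = ψ q * ∏ l, θ l ^ a l}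
  one_mem' := ⟨0, 1, 0, isHomogeneous_one _ _, by simp, by simp, by simp⟩
  mul_mem' := by
    rintro x y ⟨m, q, a, h1, h2, h3, rfl⟩ ⟨m', q', a', h1', h2', h3', rfl⟩
    refine ⟨m + m', q * q', a + a', h1.mul h1', ?_, ?_, ?_⟩
    · simp only [Pi.add_apply, Finset.sum_add_distrib]
      push_cast
      linarith
    · intro l hl
      simp only [Pi.add_apply] at hl
      by_cases h : a l < 0
      · exact h3 l h
      · exact h3' l (by omega)
    · simp only [Pi.add_apply, zpow_add₀ (hθ _), Finset.prod_mul_distrib, map_mul]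
      ring

lemma baseEx_charts_le (ψ : MvPolynomial τ k →ₐ[k] K) (θ : Fin d → K) (hθ : ∀ l, θ l ≠ 0)
    (s : Set (Fin d)) :
    charts ψ.range (ψ '' {q | q.IsHomogeneous 8}) θ s ≤
      Algebra.adjoin k (baseExMon ψ θ hθ s : Set K) := by
  rw [charts_le_iff]
  constructor
  · rintro _ ⟨q, rfl⟩
    change ψ q ∈ _
    rw [← sum_homogeneousComponent q, map_sum]
    refine Subalgebra.sum_mem _ fun m _ => Algebra.subset_adjoin ?_
    exact ⟨m, _, 0, homogeneousComponent_isHomogeneous m q, by simp, by simp, by simp⟩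
  · rintro i hi _ ⟨q, hq, rfl⟩
    refine Algebra.subset_adjoin ⟨8, q, Pi.single i (-1), hq, by simp, ?_, ?_⟩
    · intro l hl
      by_contra h
      have : l ≠ i := fun e => h (e ▸ hi)
      simp [Pi.single_eq_of_ne this] at hl
    · rw [Finset.prod_eq_single i]
      · simp [div_eq_mul_inv]
      · intro l _ h
        simp [Pi.single_eq_of_ne h]
      · simp

end aux

variable {k K : Type u} [Field k] [IsAlgClosed k] [CharZero k] [Field K] [Algebra k K]
  {c d : ℕ} {F : Fin c ⊕ Fin d → MvPolynomial (Fin c ⊕ Fin d) k}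

theorem base_exAt (hF : Gen.Octics F) (hp : Gen.Params F) (hcd : 7 * (c + d) < 8 * d)
    (ψ : MvPolynomial (Fin c ⊕ Fin d) k →ₐ[k] K) (hψ : RingHom.ker ψ = Gen.eqIdeal F)
    (hθ : ∀ l, ψ (F (.inr l)) ≠ 0) (n : ℕ) :
    ExAt (charts ψ.range (ψ '' {q | q.IsHomogeneous 8}) fun l => ψ (F (.inr l))) n := by
  obtain ⟨E, hE, hli, hsp⟩ := exists_basis_monomials hF hp
  let φ : (MvPolynomial (Fin c ⊕ Fin d) k ⧸ Gen.eqIdeal F) →ₐ[k] K :=
    Ideal.Quotient.liftₐ (Gen.eqIdeal F) ψ fun a ha => by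
      rw [← hψ] at ha
      exact ha
  have hφ : ∀ q, φ (Ideal.Quotient.mk _ q) = ψ q := fun q => rfl
  have hinj : LinearMap.ker φ.toLinearMap = ⊥ := by
    rw [LinearMap.ker_eq_bot']
    intro x hx
    obtain ⟨q, rfl⟩ := Ideal.Quotient.mk_surjective x
    rw [Ideal.Quotient.eq_zero_iff_mem, ← hψ]
    exact hx
  have h1 : LinearIndependent k fun p : E × (Fin d →₀ ℕ) =>
      ψ (monomial p.1.1 1) * ∏ l, ψ (F (.inr l)) ^ p.2 l := by
    have h0 := hli.map' φ.toLinearMap hinj
    simpa only [Function.comp_def, AlgHom.toLinearMap_apply, hφ, map_mul, map_prod, map_pow]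
      using h0
  have h2 := (linearIndependent_zpow (fun l => ψ (F (.inr l))) hθ
    (fun e : E => ψ (monomial e.1 1)) h1).comp
    (Subtype.val : {p : E × (Fin d → ℤ) // 0 ≤ (p.1.1.degree : ℤ) + 8 * ∑ l, p.2 l} → _)
    Subtype.val_injective
  refine (exAt_span h2 (fun p => {l | p.1.2 l < 0}) ?_ n).congr ?_
  · rintro ⟨⟨e, a⟩, hp⟩ h
    have h3 : ∀ l, a l ≤ -1 := fun l => by
      have : l ∈ {l | a l < 0} := by
        change l ∈ {l | (e, a).2 l < 0}
        rw [h]
        exact Set.mem_univ l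
      have : a l < 0 := this
      omega
    have h4 : ∑ l, a l ≤ ∑ _l : Fin d, (-1 : ℤ) := Finset.sum_le_sum fun l _ => h3 l
    have h5 := hE e.1 e.2
    simp only [Finset.sum_const, Finset.card_univ, Fintype.card_fin, smul_neg, nsmul_eq_mul,
      mul_one] at h4
    simp only at hp
    omega
  · intro s x
    constructor
    · intro hx
      refine (Submodule.span_le (p := (charts ψ.range (ψ '' {q | q.IsHomogeneous 8})
        (fun l => ψ (F (.inr l))) s).toSubmodule)).mpr ?_ hx
      rintro _ ⟨⟨⟨e, a⟩, hp⟩, hs, rfl⟩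
      exact baseEx_mul_mem ψ (fun l => F (.inr l)) (fun l => hF.hom _) hθ s a (fun l hl => hs hl)
        _ _ (isHomogeneous_monomial 1 rfl) hp
    · intro hx
      have h3 : x ∈ (Algebra.adjoin k
          (baseExMon ψ (fun l => ψ (F (.inr l))) hθ s : Set K)).toSubmodule :=
        baseEx_charts_le ψ _ hθ s hx
      rw [Algebra.adjoin_eq_span, Submonoid.closure_eq] at h3
      refine Submodule.span_le.mpr ?_ h3
      rintro _ ⟨m, q, a, hq, hm, hs, rfl⟩
      have h4 := Submodule.mem_map_of_mem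
        (f := (LinearMap.mulRight k (∏ l, ψ (F (.inr l)) ^ a l)).comp φ.toLinearMap) (hsp m q hq)
      rw [Submodule.map_span] at h4
      refine Submodule.span_mono ?_ h4
      rintro _ ⟨_, ⟨⟨e, b⟩, hb, rfl⟩, rfl⟩
      have hb' : e.1.degree + 8 * ∑ l, b l = m := by
        rw [← Finsupp.degree_eq_sum]
        exact hb
      refine ⟨⟨⟨e, fun l => b l + a l⟩, ?_⟩, ?_, ?_⟩
      · simp only [Finset.sum_add_distrib]
        rw [← hb'] at hm
        push_cast at hm
        linarith
      · intro l hl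
        have : (b l : ℤ) + a l < 0 := hl
        exact hs l (by omega)
      · simp only [Function.comp_apply, LinearMap.comp_apply, AlgHom.toLinearMap_apply, hφ, map_mul,
          map_prod, map_pow, LinearMap.mulRight_apply, zpow_add₀ (hθ _), zpow_natCast,
          Finset.prod_mul_distrib, mul_assoc]

end Pool.Agent.Lib.MP_954e53_ag.RS
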