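import Pool.Agent.Lib.MP_954e53_ag.RS.Defs
import Pool.Agent.Lib.MP_954e53_ag.GenNormal
import Pool.Agent.Lib.MP_954e53_ag.GenParams

/-! The blow-up of the vertex of the cone is smooth. -/

namespace Pool.Agent.Lib.MP_954e53_ag.RS

open MvPolynomial

universe u

lemma baseSmooth_scale {k S σ : Type*} [CommRing k] [CommRing S] [Algebra k S]
    {f : MvPolynomial σ k} {n : ℕ} (hf : f.IsHomogeneous n) (t : S) (y : σ → S) :
    aeval (fun i => y i * t) f = t ^ n * aeval y f := by
  rw [aeval_def, aeval_def, eval₂_eq, eval₂_eq, Finset.mul_sum]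
  refine Finset.sum_congr rfl fun s hs => ?_
  rw [hf.degree_eq_sum_deg_support hs]
  simp only [mul_pow, Finset.prod_mul_distrib, Finset.prod_pow_eq_pow_sum]
  ring

lemma baseSmooth_aeval {k S σ : Type*} [CommRing k] [CommRing S] [Algebra k S]
    (φ : MvPolynomial σ k →ₐ[k] S) (q : MvPolynomial σ k) : aeval (fun i => φ (X i)) q = φ q :=
  (congr($(aeval_unique φ) q)).symm

/-- A retract of a formally smooth algebra is formally smooth. -/
lemma baseSmooth_retract {k P A : Type*} [CommRing k] [CommRing P] [CommRing A] [Algebra k P]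
    [Algebra k A] [Algebra.FormallySmooth k P] (r : P →ₐ[k] A) (s : A →ₐ[k] P)
    (h : r.comp s = AlgHom.id k A) : Algebra.FormallySmooth k A := by
  refine Algebra.FormallySmooth.of_split r ((Ideal.Quotient.mkₐ k _).comp s) ?_
  ext a
  exact congr($h a)

section

variable {k : Type u} [Field k] [IsAlgClosed k] [CharZero k]
  {c d : ℕ} {F : Fin c ⊕ Fin d → MvPolynomial (Fin c ⊕ Fin d) k}

/-- The punctured cone is smooth. -/
lemma baseSmooth_away (hF : Gen.Octics F) (j : Fin c ⊕ Fin d) :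
    Algebra.FormallySmooth k
      (Localization.Away (Ideal.Quotient.mk (Gen.eqIdeal F) (X j) : Gen.CI F)) := by
  have : Algebra.FinitePresentation k (Gen.CI F) :=
    (Algebra.FinitePresentation.of_finiteType).1 inferInstance
  rw [← Algebra.basicOpen_subset_smoothLocus_iff]
  intro p hp
  have h1 : ∃ b, Function.Injective b ∧ Gen.b3_del F b ∉ p.asIdeal := by
    by_contra hc
    push Not at hc
    have h2 : ∀ l, Ideal.Quotient.mk (Gen.eqIdeal F) (F l) ∈ p.asIdeal := fun l => by
      obtain ⟨n, hn⟩ := Gen.b3_null hF p.asIdeal (fun b hb => ⟨1, by simpa using hc b hb⟩) l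
      exact p.isPrime.mem_of_pow_mem n hn
    obtain ⟨n, hn⟩ := Gen.b2_null hF.hsop
    have h3 : Ideal.span (Set.range F) ≤ p.asIdeal.comap (Ideal.Quotient.mk (Gen.eqIdeal F)) := by
      rw [Ideal.span_le]
      rintro _ ⟨l, rfl⟩
      exact h2 l
    have h4 := h3 (hn j)
    rw [Ideal.mem_comap, map_pow] at h4
    exact hp (p.isPrime.mem_of_pow_mem _ h4)
  obtain ⟨b, hb, hbp⟩ := h1
  have := Gen.b3_local F hb
  exact (Algebra.basicOpen_subset_smoothLocus_iff (f := Gen.b3_del F b)).2 inferInstance hbp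

omit [IsAlgClosed k] [CharZero k] in
/-- Points of the punctured cone. -/
lemma baseSmooth_point (j : Fin c ⊕ Fin d) {S : Type*} [CommRing S] [Algebra k S]
    (φ : MvPolynomial (Fin c ⊕ Fin d) k →ₐ[k] S) (hz : ∀ l, φ (F (.inl l)) = 0)
    (hu : IsUnit (φ (X j))) :
    ∃ e : Localization.Away (Ideal.Quotient.mk (Gen.eqIdeal F) (X j) : Gen.CI F) →ₐ[k] S,
      ∀ q, e (algebraMap (Gen.CI F) _ (Ideal.Quotient.mk _ q)) = φ q := by
  have h1 : ∀ a ∈ Gen.eqIdeal F, φ a = 0 := fun a ha => by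
    have h2 : Gen.eqIdeal F ≤ RingHom.ker φ := by
      rw [Gen.eqIdeal, Ideal.span_le]
      rintro _ ⟨l, rfl⟩
      exact hz l
    exact h2 ha
  let φ' : Gen.CI F →ₐ[k] S := Ideal.Quotient.liftₐ _ φ h1
  have hu' : IsUnit (φ' (Ideal.Quotient.mk (Gen.eqIdeal F) (X j))) := hu
  refine ⟨IsLocalization.Away.liftAlgHom _ hu', fun q => ?_⟩
  rw [IsLocalization.Away.liftAlgHom_apply, IsLocalization.Away.lift_eq]
  rfl

end

theorem base_smooth {k K : Type u} [Field k] [IsAlgClosed k] [CharZero k] [Field K] [Algebra k K]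
    {c d : ℕ} {F : Fin c ⊕ Fin d → MvPolynomial (Fin c ⊕ Fin d) k} (hF : Gen.Octics F)
    (ψ : MvPolynomial (Fin c ⊕ Fin d) k →ₐ[k] K) (hψ : RingHom.ker ψ = Gen.eqIdeal F)
    (j : Fin c ⊕ Fin d) (hj : ψ (X j) ≠ 0) :
    Algebra.Smooth k (chart ψ.range (Set.range fun i => ψ (X i)) (ψ (X j))) := by
  set A := chart ψ.range (Set.range fun i => ψ (X i)) (ψ (X j)) with hA
  have hFψ : ∀ l, ψ (F (.inl l)) = 0 := fun l => by
    rw [← RingHom.mem_ker, hψ]
    exact Ideal.subset_span ⟨l, rfl⟩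
  have ht : ψ (X j) ∈ A := (le_sup_left : _ ≤ A) ⟨X j, rfl⟩
  have hy : ∀ i, ψ (X i) / ψ (X j) ∈ A := fun i =>
    (le_sup_right : _ ≤ A) (Algebra.subset_adjoin ⟨_, ⟨i, rfl⟩, rfl⟩)
  let Ψ : MvPolynomial (Option (Fin c ⊕ Fin d)) k →ₐ[k] A :=
    aeval fun o => o.elim ⟨_, ht⟩ fun i => ⟨_, hy i⟩
  have hΨ0 : Ψ (X none) = ⟨_, ht⟩ := aeval_X _ _
  have hΨ1 : ∀ i, Ψ (X (some i)) = ⟨_, hy i⟩ := fun i => aeval_X _ _
  have hsurj : Function.Surjective Ψ := by
    have h1 : A ≤ (A.val.comp Ψ).range := by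
      have h2 : ∀ i, ψ (X i) / ψ (X j) ∈ (A.val.comp Ψ).range := fun i =>
        ⟨X (some i), by
          change ((Ψ (X (some i)) : A) : K) = _
          rw [hΨ1]⟩
      have h3 : ψ (X j) ∈ (A.val.comp Ψ).range :=
        ⟨X none, by
          change ((Ψ (X none) : A) : K) = _
          rw [hΨ0]⟩
      refine sup_le ?_ (Algebra.adjoin_le ?_)
      · rintro _ ⟨q, rfl⟩
        change ψ q ∈ _
        induction q using MvPolynomial.induction_on with
        | C a => rw [algHom_C]; exact Subalgebra.algebraMap_mem _ _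
        | add p q hp hq => rw [map_add]; exact add_mem hp hq
        | mul_X p i hp =>
          rw [map_mul, ← div_mul_cancel₀ (ψ (X i)) hj]
          exact mul_mem hp (mul_mem (h2 i) h3)
      · rintro _ ⟨_, ⟨i, rfl⟩, rfl⟩
        exact h2 i
    intro a
    obtain ⟨q, hq⟩ := h1 a.2
    exact ⟨q, Subtype.ext hq⟩
  have hft : Algebra.FiniteType k A := Algebra.FiniteType.of_surjective Ψ hsurj
  have hfp : Algebra.FinitePresentation k A := (Algebra.FinitePresentation.of_finiteType).1 hft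
  refine ⟨?_, hfp⟩
  have hL := baseSmooth_away hF j
  set xj : Gen.CI F := Ideal.Quotient.mk (Gen.eqIdeal F) (X j) with hxj
  let L := Localization.Away xj
  let π : MvPolynomial (Fin c ⊕ Fin d) k →ₐ[k] L :=
    (IsScalarTower.toAlgHom k (Gen.CI F) L).comp (Ideal.Quotient.mkₐ k _)
  have hπ : ∀ q, π q = algebraMap (Gen.CI F) L (Ideal.Quotient.mk _ q) := fun q => rfl
  let w : L := IsLocalization.Away.invSelf xj
  have hw : π (X j) * w = 1 := IsLocalization.Away.mul_invSelf xj
  have hπF : ∀ l, aeval (fun i => π (X i) * w) (F (.inl l)) = 0 := fun l => by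
    have hm : F (.inl l) ∈ Gen.eqIdeal F := Ideal.subset_span ⟨l, rfl⟩
    rw [baseSmooth_scale (hF.hom _), baseSmooth_aeval π, hπ,
      Ideal.Quotient.eq_zero_iff_mem.2 hm, map_zero, mul_zero]
  -- the embedding into `K`
  obtain ⟨ε, hε⟩ := baseSmooth_point (F := F) j ψ hFψ (Ne.isUnit hj)
  have hεi : Function.Injective ε := by
    rw [injective_iff_map_eq_zero]
    intro a ha
    obtain ⟨⟨q, m⟩, hq⟩ := IsLocalization.surj (Submonoid.powers xj) a
    obtain ⟨q, rfl⟩ := Ideal.Quotient.mk_surjective q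
    have h1 := congrArg ε hq
    rw [map_mul, ha, zero_mul, hε] at h1
    have h2 : q ∈ Gen.eqIdeal F := by rw [← hψ]; exact h1.symm
    simp only [Ideal.Quotient.eq_zero_iff_mem.2 h2, map_zero] at hq
    exact (IsLocalization.map_units L m).mul_left_eq_zero.1 hq
  have hεw : ε w = (ψ (X j))⁻¹ := by
    have h1 := congrArg ε hw
    rw [map_mul, map_one, hπ, hε] at h1
    exact eq_inv_of_mul_eq_one_right h1
  let Ψ' : MvPolynomial (Option (Fin c ⊕ Fin d)) k →ₐ[k] L :=
    aeval fun o => o.elim (π (X j)) fun i => π (X i) * w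
  have hΨ' : ε.comp Ψ' = A.val.comp Ψ := by
    refine MvPolynomial.algHom_ext fun o => ?_
    cases o with
    | none =>
      simp only [AlgHom.comp_apply, hΨ0, Ψ', aeval_X, Option.elim]
      exact hε _
    | some i =>
      simp only [AlgHom.comp_apply, hΨ1, Ψ', aeval_X, Option.elim, map_mul, hεw]
      rw [hπ, hε]
      exact (div_eq_mul_inv _ _).symm
  -- the torus action
  let Θ : MvPolynomial (Option (Fin c ⊕ Fin d)) k →ₐ[k] Polynomial L :=
    aeval fun o => o.elim Polynomial.X fun i => Polynomial.C (π (X i) * w)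
  let M := Localization.Away (Polynomial.X : Polynomial L)
  let ι : Polynomial L →ₐ[k] M := IsScalarTower.toAlgHom k _ _
  have hιi : Function.Injective ι :=
    IsLocalization.injective M (M := Submonoid.powers (Polynomial.X : Polynomial L))
      (Submonoid.powers_le.2 Polynomial.X_mem_nonzeroDivisors)
  have hιX : IsUnit (ι Polynomial.X) := IsLocalization.Away.algebraMap_isUnit _
  let κ : L →ₐ[k] M := ι.comp (IsScalarTower.toAlgHom k L (Polynomial L))
  have hκ : ∀ a, κ a = ι (Polynomial.C a) := fun a => rfl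
  obtain ⟨ν, hν⟩ := baseSmooth_point (F := F) j
    (aeval fun i => κ (π (X i) * w) * ι Polynomial.X : _ →ₐ[k] M)
    (fun l => by
      rw [baseSmooth_scale (hF.hom _), ← comp_aeval_apply, hπF, map_zero, mul_zero])
    (by rw [aeval_X, hw, map_one, one_mul]; exact hιX)
  have hνx : ∀ i, ν (π (X i)) = κ (π (X i) * w) * ι Polynomial.X := fun i =>
    (hν _).trans (aeval_X _ _)
  have hνj : ν (π (X j)) = ι Polynomial.X := by rw [hνx, hw, map_one, one_mul]
  have hνw : ι Polynomial.X * ν w = 1 := by rw [← hνj, ← map_mul, hw, map_one]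
  have hΘ : ν.comp Ψ' = ι.comp Θ := by
    refine MvPolynomial.algHom_ext fun o => ?_
    cases o with
    | none =>
      simp only [AlgHom.comp_apply, Θ, Ψ', aeval_X, Option.elim]
      exact hνj
    | some i =>
      simp only [AlgHom.comp_apply, Θ, Ψ', aeval_X, Option.elim]
      rw [map_mul ν, hνx, mul_assoc, hνw, mul_one, hκ]
  have hker : RingHom.ker Ψ.toRingHom ≤ RingHom.ker Θ.toRingHom := by
    intro q hq
    have h1 : Ψ q = 0 := hq
    have h2 : Ψ' q = 0 := hεi (by
      have h3 : ε (Ψ' q) = A.val (Ψ q) := congr($hΨ' q)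
      rw [h3, h1, map_zero, map_zero])
    have h4 : ν (Ψ' q) = ι (Θ q) := congr($hΘ q)
    rw [h2, map_zero] at h4
    exact hιi (h4.symm.trans (map_zero ι).symm)
  -- the retraction
  obtain ⟨ρ, hρ⟩ := baseSmooth_point (F := F) j
    (aeval fun i => (⟨_, hy i⟩ : A) : _ →ₐ[k] A)
    (fun l => by
      apply Subtype.ext
      change A.val (aeval _ _) = 0
      rw [comp_aeval_apply]
      change aeval (fun i => ψ (X i) / ψ (X j)) _ = 0
      simp only [div_eq_mul_inv]
      rw [baseSmooth_scale (hF.hom _), baseSmooth_aeval ψ, hFψ, mul_zero])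
    (by
      rw [aeval_X]
      have h1 : (⟨_, hy j⟩ : A) = 1 := Subtype.ext (div_self hj)
      rw [h1]
      exact isUnit_one)
  have hρx : ∀ i, ρ (π (X i)) = ⟨_, hy i⟩ := fun i => (hρ _).trans (aeval_X _ _)
  have hρw : ρ w = 1 := by
    have h1 := congrArg ρ hw
    have h2 : (⟨_, hy j⟩ : A) = 1 := Subtype.ext (div_self hj)
    rwa [map_mul, hρx, h2, one_mul, map_one] at h1
  let r : Polynomial L →ₐ[k] A := Polynomial.eval₂AlgHom ρ ⟨_, ht⟩ fun _ => Commute.all _ _
  have hr : r.comp Θ = Ψ := by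
    refine MvPolynomial.algHom_ext fun o => ?_
    cases o with
    | none =>
      simp only [AlgHom.comp_apply, Θ, aeval_X, Option.elim, hΨ0]
      exact Polynomial.eval₂_X _ _
    | some i =>
      simp only [AlgHom.comp_apply, Θ, aeval_X, Option.elim, hΨ1]
      refine (Polynomial.eval₂_C _ _).trans ?_
      change ρ _ = _
      rw [map_mul, hρx, hρw, mul_one]
  have : Algebra.FormallySmooth k (Polynomial L) := Algebra.FormallySmooth.comp k L _
  refine baseSmooth_retract r (AlgHom.liftOfSurjective Ψ hsurj Θ hker) ?_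
  ext a
  obtain ⟨q, rfl⟩ := hsurj a
  rw [AlgHom.comp_apply, AlgHom.liftOfSurjective_apply]
  exact congrArg Subtype.val congr($hr q)

end Pool.Agent.Lib.MP_954e53_ag.RS
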