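import Pool.Agent.Lib.MP_954e53_ag.RS.Cover
import Pool.Agent.Lib.MP_954e53_ag.RS.BaseSmooth
import Pool.Agent.Lib.MP_954e53_ag.RS.BaseEx

/-! The blow-up of the vertex of the cone. -/

namespace Pool.Agent.Lib.MP_954e53_ag.RS

open MvPolynomial

universe u

section aux

variable {k K : Type u} [Field k] [Field K] [Algebra k K] {τ : Type}
  {ψ : MvPolynomial τ k →ₐ[k] K}

lemma base_aeval {q : MvPolynomial τ k} {n : ℕ} (hq : q.IsHomogeneous n) (t : K) :
    aeval (fun i => ψ (X i) / t) q = ψ q / t ^ n := by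
  have h : ψ q = aeval (fun i => ψ (X i)) q := DFunLike.congr_fun (aeval_unique ψ) q
  rw [h, aeval_def, aeval_def, eval₂_eq, eval₂_eq, Finset.sum_div]
  refine Finset.sum_congr rfl fun s hs => ?_
  rw [hq.degree_eq_sum_deg_support hs]
  simp only [div_pow, Finset.prod_div_distrib, Finset.prod_pow_eq_pow_sum]
  ring

lemma base_aeval_mem {C : Subalgebra k K} {y : τ → K} (h : ∀ i, y i ∈ C) (q : MvPolynomial τ k) :
    aeval y q ∈ C := by
  induction q using MvPolynomial.induction_on with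
  | C a => rw [aeval_C]; exact C.algebraMap_mem a
  | add p q hp hq => rw [map_add]; exact C.add_mem hp hq
  | mul_X p i hp => rw [map_mul, aeval_X]; exact C.mul_mem hp (h i)

lemma base_div_mem {C : Subalgebra k K} {t : K} (h : ∀ i, ψ (X i) / t ∈ C) {q : MvPolynomial τ k}
    {n : ℕ} (hq : q.IsHomogeneous n) : ψ q / t ^ n ∈ C :=
  base_aeval hq t ▸ base_aeval_mem h q

lemma base_range_le {C : Subalgebra k K} (h : ∀ i, ψ (X i) ∈ C) : ψ.range ≤ C := by
  rintro _ ⟨q, rfl⟩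
  have h1 : ψ q = aeval (fun i => ψ (X i)) q := DFunLike.congr_fun (aeval_unique ψ) q
  change ψ q ∈ C
  rw [h1]
  exact base_aeval_mem h q

lemma base_mem8 {q : MvPolynomial τ k} (hq : q.IsHomogeneous 8) : ψ q ∈ baseV ψ :=
  ⟨q, Submodule.mem_sup_left hq, rfl⟩

lemma base_mem9 {q : MvPolynomial τ k} (hq : q.IsHomogeneous 9) : ψ q ∈ baseV ψ :=
  ⟨q, Submodule.mem_sup_right hq, rfl⟩

lemma base_forall {C : Subalgebra k K} {f : K}
    (h8 : ∀ q : MvPolynomial τ k, q.IsHomogeneous 8 → ψ q / f ∈ C)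
    (h9 : ∀ q : MvPolynomial τ k, q.IsHomogeneous 9 → ψ q / f ∈ C) :
    ∀ v ∈ (baseV ψ : Set K), v / f ∈ C := by
  rintro _ ⟨q, hq, rfl⟩
  obtain ⟨a, ha, b, hb, rfl⟩ := Submodule.mem_sup.1 hq
  rw [map_add, add_div]
  exact C.add_mem (h8 a ha) (h9 b hb)

lemma base_chart {S : Subalgebra k K} (hS : S ≤ ψ.range) {p : MvPolynomial τ k}
    (hp : p.IsHomogeneous 8) (h0 : ψ p ≠ 0) :
    chart S (baseV ψ) (ψ p) = chart ψ.range (ψ '' {q | q.IsHomogeneous 8}) (ψ p) := by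
  classical
  refine le_antisymm (chart_le_iff.2 ⟨hS.trans (le_chart _ _ _), base_forall
    (fun q hq => div_mem_chart _ (Set.mem_image_of_mem ψ hq) _) fun q hq => ?_⟩)
    (chart_le_iff.2 ⟨base_range_le fun i => ?_, ?_⟩)
  · rw [q.as_sum, map_sum, Finset.sum_div]
    refine Subalgebra.sum_mem _ fun s hs => ?_
    obtain ⟨g, h1, h2⟩ := Finsupp.exists_le_degree_eq s 8 (by
      have := hq.degree_eq_sum_deg_support hs
      rw [Finsupp.degree_apply]
      omega)
    have h3 : monomial s (coeff s q) = monomial (s - g) (coeff s q) * monomial g 1 := by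
      rw [monomial_mul, tsub_add_cancel_of_le h1, mul_one]
    rw [h3, map_mul, mul_div_assoc]
    exact Subalgebra.mul_mem _ (le_chart _ _ _ ⟨_, rfl⟩)
      (div_mem_chart _ (Set.mem_image_of_mem ψ (isHomogeneous_monomial 1 h2)) _)
  · have h1 := div_mem_chart S (V := baseV ψ) (base_mem9 (hp.mul (isHomogeneous_X k i))) (ψ p)
    rwa [map_mul, mul_div_cancel_left₀ _ h0] at h1
  · rintro _ ⟨q, hq, rfl⟩
    exact div_mem_chart S (base_mem8 hq) _

lemma base_chart_pow {j : τ} (h0 : ψ (X j) ≠ 0) :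
    chart ψ.range (ψ '' {q | q.IsHomogeneous 8}) (ψ (X j ^ 8)) =
      chart ψ.range (Set.range fun i => ψ (X i)) (ψ (X j)) := by
  refine le_antisymm (chart_le_iff.2 ⟨le_chart _ _ _, ?_⟩) (chart_le_iff.2 ⟨le_chart _ _ _, ?_⟩)
  · rintro _ ⟨q, hq, rfl⟩
    rw [map_pow]
    exact base_div_mem (fun i => div_mem_chart _ (Set.mem_range_self i) _) hq
  · rintro _ ⟨i, rfl⟩
    have h1 := div_mem_chart ψ.range (V := ψ '' {q | q.IsHomogeneous 8})
      ⟨_, (isHomogeneous_X_pow j 7).mul (isHomogeneous_X k i), rfl⟩ (ψ (X j ^ 8))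
    have h2 : ψ (X j ^ 7 * X i) / ψ (X j ^ 8) = ψ (X i) / ψ (X j) := by
      rw [map_mul, map_pow, map_pow, pow_succ _ 7, mul_div_mul_left _ _ (pow_ne_zero _ h0)]
    rwa [h2] at h1

/-- A valuation ring containing a subalgebra is a subalgebra. -/
def base_sub (S : Subalgebra k K) (O : ValuationSubring K) (h : ∀ s ∈ S, s ∈ O) :
    Subalgebra k K :=
  { O.toSubring with algebraMap_mem' := fun a => h _ (S.algebraMap_mem a) }

lemma base_val [Finite τ] {S : Subalgebra k K} {O : ValuationSubring K} (h : ∀ s ∈ S, s ∈ O)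
    (hx : ∀ i, ψ (X i) ∈ O) {i₀ : τ} (h0 : ψ (X i₀) ≠ 0) :
    ∃ j, ψ (X j) ≠ 0 ∧ (∀ i, ψ (X i) / ψ (X j) ∈ O) ∧
      ∀ v ∈ (baseV ψ : Set K), v / ψ (X j ^ 8) ∈ O := by
  have : Nonempty τ := ⟨i₀⟩
  obtain ⟨j, hj⟩ := Finite.exists_max fun i => O.valuation (ψ (X i))
  have h1 : ψ (X j) ≠ 0 := fun h1 => h0 (by simpa [h1] using hj i₀)
  have h2 : ∀ i, ψ (X i) / ψ (X j) ∈ base_sub S O h := fun i =>
    (O.valuation_le_one_iff _).1 (by rw [map_div₀]; exact div_le_one_of_le₀ (hj i) zero_le)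
  refine ⟨j, h1, h2, base_forall (C := base_sub S O h) (fun q hq => ?_) fun q hq => ?_⟩
  · rw [map_pow]
    exact base_div_mem h2 hq
  · have h3 := Subalgebra.mul_mem _ (base_div_mem h2 hq) (show ψ (X j) ∈ base_sub S O h from hx j)
    rwa [pow_succ _ 8, div_mul_eq_mul_div, mul_div_mul_right _ _ h1, ← map_pow] at h3

end aux

variable {k K : Type u} [Field k] [IsAlgClosed k] [CharZero k] [Field K] [Algebra k K]
  {c d : ℕ} {F : Fin c ⊕ Fin d → MvPolynomial (Fin c ⊕ Fin d) k}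

theorem base_mdl (hF : Gen.Octics F) (hp : Gen.Params F) (hcd : 7 * (c + d) < 8 * d)
    (ψ : MvPolynomial (Fin c ⊕ Fin d) k →ₐ[k] K) (hψ : RingHom.ker ψ = Gen.eqIdeal F)
    (S : Subalgebra k K) (hS : S ≤ ψ.range)
    (hO : ∀ O : ValuationSubring K, (∀ s ∈ S, s ∈ O) → ∀ i, ψ (X i) ∈ O) :
    Mdl S (baseV ψ) 1 := by
  have hθ : ∀ l, ψ (F (.inr l)) ≠ 0 := fun l h => by
    have h1 := hp.reg (Set.range Sum.inl) (.inr l) (by simp) 1
    rw [Gen.b3_image, ← hψ, mul_one] at h1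
    simpa using h1 h
  have hz : ∀ l, ψ (F (.inl l)) = 0 := fun l => by
    rw [← RingHom.mem_ker, hψ]
    exact Ideal.subset_span ⟨l, rfl⟩
  obtain ⟨i₀, h0⟩ : ∃ i, ψ (X i) ≠ 0 := by
    by_contra! h
    have h1 := base_aeval (ψ := ψ) (hF.hom (.inr ⟨0, by omega⟩)) 0
    have h2 := base_aeval (ψ := ψ) (hF.hom (.inr ⟨0, by omega⟩)) 1
    simp only [h, zero_div] at h1 h2
    exact hθ ⟨0, by omega⟩ (by simpa [h1] using h2.symm)
  have c1 : Covers S (baseV ψ) fun j : {j // ψ (X j) ≠ 0} => ψ (X j.1 ^ 8) :=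
    ⟨fun j => base_mem8 (isHomogeneous_X_pow _ 8), fun j => by simpa using j.2, fun O h =>
      let ⟨j, h1, _, h2⟩ := base_val h (hO O h) h0
      ⟨⟨j, h1⟩, h2⟩⟩
  have c2 : Covers S (baseV ψ) fun l => ψ (F (.inr l)) := by
    refine ⟨fun l => base_mem8 (hF.hom _), hθ, fun O h => ?_⟩
    obtain ⟨j, h1, h2, h3⟩ := base_val h (hO O h) h0
    have h4 : ψ (X j ^ 8) ≠ 0 := by simpa using h1
    suffices h5 : ∃ l, ψ (X j ^ 8) / ψ (F (.inr l)) ∈ O by
      obtain ⟨l, h5⟩ := h5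
      refine ⟨l, fun v hv => ?_⟩
      have h6 := O.mul_mem _ _ (h3 v hv) h5
      rwa [div_mul_div_cancel₀ h4] at h6
    by_contra! h5
    let φ : MvPolynomial (Fin c ⊕ Fin d) k →+* O :=
      (aeval fun i => ψ (X i) / ψ (X j)).toRingHom.codRestrict O
        (base_aeval_mem (C := base_sub S O h) h2)
    have h6 : Ideal.span (Set.range F) ≤ (IsLocalRing.maximalIdeal O).comap φ := by
      rw [Ideal.span_le]
      rintro _ ⟨l, rfl⟩
      rw [SetLike.mem_coe, Ideal.mem_comap, O.valuation_lt_one_iff, ← O.mem_nonunits_iff]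
      change aeval (fun i => ψ (X i) / ψ (X j)) (F l) ∈ O.nonunits
      rw [base_aeval (hF.hom l), O.mem_nonunits_iff_or, inv_div, ← map_pow]
      rcases l with l | l
      · exact .inl (by rw [hz, zero_div])
      · exact .inr (h5 l)
    have h7 := h6 (hp.top _ (Nat.lt_succ_self _) _ (isHomogeneous_X_pow j _))
    have h8 : φ (X j) = 1 := Subtype.ext (by simp [φ, h1])
    rw [Ideal.mem_comap, map_pow, h8, one_pow] at h7
    exact (IsLocalRing.maximalIdeal.isMaximal O).ne_top ((Ideal.eq_top_iff_one _).2 h7)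
  refine Mdl.of_cover c2 (c1.smooth fun j => ?_) fun n hn => ?_
  · rw [base_chart hS (isHomogeneous_X_pow _ 8) (c1.ne j), base_chart_pow j.2]
    exact base_smooth hF ψ hψ j j.2
  · obtain ⟨m, rfl⟩ := Nat.exists_eq_add_of_le' hn
    refine (base_exAt hF hp hcd ψ hψ hθ (m + 1)).congr_succ fun s ⟨i, hi⟩ x => ?_
    have e := fun l => base_chart hS (hF.hom (.inr l)) (hθ l)
    have h1 : charts ψ.range (ψ '' {q | q.IsHomogeneous 8}) (fun l => ψ (F (.inr l))) s =
        charts S (baseV ψ) (fun l => ψ (F (.inr l))) s := by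
      refine le_antisymm (charts_le_iff.2 ⟨?_, fun l hl v hv => ?_⟩)
        (charts_le_iff.2 ⟨hS.trans (le_charts _ _ _ _), fun l hl v hv => ?_⟩)
      · exact ((le_chart _ _ _).trans (e i).ge).trans
          (chart_le_charts S _ (fun l => ψ (F (.inr l))) hi)
      · exact chart_le_charts S _ (fun l => ψ (F (.inr l))) hl ((e l).ge (div_mem_chart _ hv _))
      · exact chart_le_charts _ _ (fun l => ψ (F (.inr l))) hl ((e l).le (div_mem_chart _ hv _))
    rw [h1]

set_option linter.unusedSectionVars false in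
theorem finite_baseV (ψ : MvPolynomial (Fin c ⊕ Fin d) k →ₐ[k] K) :
    Module.Finite k (baseV ψ) :=
  Module.Finite.iff_fg.2
    (((homogeneousSubmodule_fg _ k 8).sup (homogeneousSubmodule_fg _ k 9)).map _)

end Pool.Agent.Lib.MP_954e53_ag.RS
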