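import Pool.Agent.Lib.MP_954e53_ag.RS.Anti

/-! The blow-up of the fixed locus of an involution on a smooth model. -/

namespace Pool.Agent.Lib.MP_954e53_ag.RS

universe u

section aux

variable {k K : Type u} [Field k] [Field K] [Algebra k K]

lemma blow_family (U : Submodule k K) [Module.Finite k U] : ∃ (n : ℕ) (x : Fin n → K),
    (∀ i, x i ∈ U) ∧ (∀ i, x i ≠ 0) ∧ U ≤ Submodule.span k (Set.range x) := by
  let b := Module.finBasis k U
  refine ⟨_, fun i => b i, fun i => (b i).2, fun i h => b.ne_zero i (Subtype.ext h),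
    fun u hu => ?_⟩
  have h := congrArg Subtype.val (b.sum_repr ⟨u, hu⟩)
  rw [← show _ = u from h, AddSubmonoidClass.coe_finsetSum]
  exact Submodule.sum_mem _ fun i _ => Submodule.smul_mem _ _ (Submodule.subset_span ⟨i, rfl⟩)

lemma blow_split [CharZero k] {V : Submodule k K} {σ : K ≃ₐ[k] K} (h1 : ∀ v ∈ V, σ v ∈ V)
    (h2 : ∀ v ∈ V, σ (σ v) = v) {v : K} (hv : v ∈ V) :
    ∃ p ∈ pos σ V, ∃ n ∈ neg σ V, v = p + n := by
  refine ⟨(2 : k)⁻¹ • (v + σ v), ⟨V.smul_mem _ (V.add_mem hv (h1 v hv)), ?_⟩,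
    (2 : k)⁻¹ • (v - σ v), ⟨V.smul_mem _ (V.sub_mem hv (h1 v hv)), ?_⟩, ?_⟩
  · rw [map_smul, map_add, h2 v hv, add_comm]
  · rw [map_smul, map_sub, h2 v hv, ← smul_neg, neg_sub]
  · rw [← smul_add, add_add_sub_cancel, ← two_smul k, smul_smul, inv_mul_cancel₀ two_ne_zero,
      one_smul]

lemma blow_span (S : Subalgebra k K) {s : Set K} {z : K} (h : z ∈ Submodule.span k s) :
    z ∈ Submodule.span S s := Submodule.span_le_restrictScalars k S s h

lemma blow_local [IsAlgClosed k] [CharZero k] {S : Subalgebra k K} {V : Submodule k K}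
    (hM : Mdl S V 1) (σ : K ≃ₐ[k] K) (hS : ∀ s ∈ S, σ s = s) (h1 : ∀ v ∈ V, σ v ∈ V)
    (h2 : ∀ v ∈ V, σ (σ v) = v) (hW : pos σ V * neg σ V ≠ ⊥) {ι : Type} [Finite ι] {f : ι → K}
    (hf : ∀ i, f i ∈ pos σ V ∨ f i ∈ neg σ V) (hf0 : ∀ i, f i ≠ 0) {s : Set ι}
    (hs : s.Nonempty) :
    Mdl (charts S V f s) (V * (pos σ V * neg σ V) : Submodule k K) 0 := by
  obtain ⟨i₀, hi₀⟩ := hs
  have hfV : ∀ i, f i ∈ (V : Set K) := fun i => (hf i).elim And.left And.left
  set A := charts S V f s with hA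
  have hdiv : ∀ i ∈ s, ∀ v ∈ V, v / f i ∈ A := fun i hi v hv =>
    chart_le_charts S V f hi (div_mem_chart S hv _)
  have hsm : Algebra.Smooth k A := by
    have h := sup_charts_eq_loc (B := S) hfV hf0 (hfV i₀) (hf0 i₀) le_rfl s.toFinite.toFinset
    rw [Set.Finite.coe_toFinset, sup_eq_right.2 (chart_le_charts S V f hi₀)] at h
    rw [hA, h]
    exact smooth_loc (prod_mem fun i _ => div_mem_chart S (hfV i) _) (hM.smooth _ (hfV i₀) (hf0 i₀))
  have hst : ∀ a ∈ A, σ a ∈ A := fun a ha => by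
    have : A ≤ A.comap (σ : K →ₐ[k] K) := charts_le_iff.2 ⟨fun b hb => by
      change σ b ∈ A
      rw [hS b hb]
      exact le_charts S V f s hb, fun i hi v hv => by
      change σ (v / f i) ∈ A
      rw [map_div₀]
      rcases hf i with h | h
      · rw [h.2]; exact hdiv i hi _ (h1 v hv)
      · rw [h.2, div_neg]; exact neg_mem (hdiv i hi _ (h1 v hv))⟩
    exact this ha
  have hinv : ∀ a ∈ A, σ (σ a) = a := fun a ha => by
    have : A ≤ AlgHom.equalizer ((σ : K →ₐ[k] K).comp σ) (AlgHom.id k K) :=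
      charts_le_iff.2 ⟨fun b hb => by
        change σ (σ b) = b
        rw [hS b hb, hS b hb], fun i _ v hv => by
        change σ (σ (v / f i)) = v / f i
        rw [map_div₀, map_div₀, h2 v hv, h2 _ (hfV i)]⟩
    exact this ha
  have hsq : σ (f i₀ ^ 2) = f i₀ ^ 2 := by
    rw [map_pow]
    rcases hf i₀ with h | h
    · rw [h.2]
    · rw [h.2, neg_sq]
  have hU : ∀ w ∈ pos σ V * neg σ V, w / f i₀ ^ 2 ∈ A ∧ σ (w / f i₀ ^ 2) = -(w / f i₀ ^ 2) := by
    intro w hw
    refine Submodule.mul_induction_on hw (fun p hp n hn => ⟨?_, ?_⟩) fun a b ha hb => ⟨?_, ?_⟩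
    · rw [sq, mul_div_mul_comm]
      exact mul_mem (hdiv i₀ hi₀ p hp.1) (hdiv i₀ hi₀ n hn.1)
    · rw [map_div₀, hsq, map_mul, hp.2, hn.2, mul_neg, neg_div]
    · rw [add_div]; exact add_mem ha.1 hb.1
    · rw [add_div, map_add, ha.2, hb.2, neg_add]
  have h0 := hf0 i₀
  obtain ⟨w₀, hw₀, hw₀'⟩ := Submodule.exists_mem_ne_zero_of_ne_bot hW
  have hanti := (mdl_anti hsm σ hst hinv ⟨_, (hU w₀ hw₀).1, div_ne_zero hw₀' (pow_ne_zero 2 h0),
    (hU w₀ hw₀).2⟩).mul_left (pow_ne_zero 3 h0)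
  refine hanti.of_span zero_le_one ?_ fun z hz => ?_
  · set M := Submodule.span A ((V * (pos σ V * neg σ V) : Submodule k K) : Set K)
    have hsmul : ∀ a ∈ A, ∀ z ∈ M, a * z ∈ M := fun a ha z hz => M.smul_mem ⟨a, ha⟩ hz
    let Z : Subalgebra k K :=
      { carrier := {z | z ∈ A ∧ f i₀ ^ 3 * (σ z - z) ∈ M}
        mul_mem' := fun {a b} ha hb => ⟨mul_mem ha.1 hb.1, by
          have := M.add_mem (hsmul _ (hst a ha.1) _ hb.2) (hsmul _ hb.1 _ ha.2)
          convert this using 1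
          rw [map_mul]; ring⟩
        add_mem' := fun {a b} ha hb => ⟨add_mem ha.1 hb.1, by
          have := M.add_mem ha.2 hb.2
          convert this using 1
          rw [map_add]; ring⟩
        algebraMap_mem' := fun c => ⟨A.algebraMap_mem c, by
          rw [AlgEquiv.commutes, sub_self, mul_zero]; exact M.zero_mem⟩ }
    have hother : ∀ i ∈ s, ∀ v ∈ V, v * f i ∈ pos σ V * neg σ V → σ (v / f i) = -(v / f i) →
        v / f i ∈ Z := fun i hi v hv h h' => ⟨hdiv i hi v hv, by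
      have e := hsmul _ (mul_mem (neg_mem (natCast_mem A 2)) (pow_mem (hdiv i hi _ (hfV i₀)) 2)) _
        (Submodule.subset_span (Submodule.mul_mem_mul (hfV i₀) h))
      convert e using 1
      have := hf0 i
      rw [h']
      push_cast
      field_simp
      ring⟩
    have hsame : ∀ i ∈ s, ∀ v ∈ V, σ (v / f i) = v / f i → v / f i ∈ Z := fun i hi v hv h =>
      ⟨hdiv i hi v hv, by rw [h, sub_self, mul_zero]; exact M.zero_mem⟩
    have hZ : A ≤ Z := charts_le_iff.2 ⟨fun b hb => ⟨le_charts S V f s hb, by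
      rw [hS b hb, sub_self, mul_zero]; exact M.zero_mem⟩, fun i hi v hv => by
      obtain ⟨p, hp, n, hn, rfl⟩ := blow_split h1 h2 hv
      rw [add_div]
      rcases hf i with h | h
      · refine add_mem (hsame i hi p hp.1 ?_) (hother i hi n hn.1 ?_ ?_)
        · rw [map_div₀, hp.2, h.2]
        · rw [mul_comm n]; exact Submodule.mul_mem_mul h hn
        · rw [map_div₀, hn.2, h.2, neg_div]
      · refine add_mem (hother i hi p hp.1 (Submodule.mul_mem_mul hp h) ?_) (hsame i hi n hn.1 ?_)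
        · rw [map_div₀, hp.2, h.2, div_neg]
        · rw [map_div₀, hn.2, h.2, neg_div_neg_eq]⟩
    rintro _ ⟨u, hu, rfl⟩
    have e := hsmul _ (A.algebraMap_mem (-2 : k)⁻¹) _ (hZ hu.1).2
    have h3 : algebraMap k K (-2 : k)⁻¹ * -2 = 1 := by
      rw [show (-2 : K) = algebraMap k K (-2) by simp [map_ofNat], ← map_mul,
        inv_mul_cancel₀ (by norm_num), map_one]
    have e' : f i₀ ^ 3 * u = algebraMap k K (-2 : k)⁻¹ * (f i₀ ^ 3 * (σ u - u)) := by
      rw [hu.2]
      linear_combination (-(f i₀ ^ 3 * u)) * h3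
    change f i₀ ^ 3 * u ∈ M
    rw [e']
    exact e
  · refine Submodule.mul_induction_on hz (fun v hv w hw => ?_) fun a b ha hb =>
      Submodule.add_mem _ ha hb
    have e := Submodule.smul_mem (Submodule.span A ((fun v => f i₀ ^ 3 * v) ''
      {a | a ∈ A ∧ σ a = -a})) ⟨_, hdiv i₀ hi₀ v hv⟩ (Submodule.subset_span ⟨_, hU w hw, rfl⟩)
    have e' : v * w = v / f i₀ * (f i₀ ^ 3 * (w / f i₀ ^ 2)) := by field_simp
    rw [e']
    exact e

end aux

theorem Mdl.blowup {k K : Type u} [Field k] [IsAlgClosed k] [CharZero k] [Field K] [Algebra k K]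
    {S : Subalgebra k K} {V : Submodule k K} [Module.Finite k V] (hM : Mdl S V 1)
    (σ : K ≃ₐ[k] K) (hS : ∀ s ∈ S, σ s = s) (h1 : ∀ v ∈ V, σ v ∈ V) (h2 : ∀ v ∈ V, σ (σ v) = v)
    (hW : pos σ V * neg σ V ≠ ⊥) : Mdl S (V * (pos σ V * neg σ V) : Submodule k K) 1 := by
  have hP : Module.Finite k (pos σ V) := Submodule.finiteDimensional_of_le fun _ h => h.1
  have hN : Module.Finite k (neg σ V) := Submodule.finiteDimensional_of_le fun _ h => h.1
  have hWf : Module.Finite k (pos σ V * neg σ V : Submodule k K) := Module.Finite.iff_fg.2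
    ((Module.Finite.iff_fg.1 hP).mul (Module.Finite.iff_fg.1 hN))
  obtain ⟨a, p, hp, hp0, hps⟩ := blow_family (pos σ V)
  obtain ⟨b, q, hq, hq0, hqs⟩ := blow_family (neg σ V)
  obtain ⟨c, x, hx, hx0, hxs⟩ := blow_family (pos σ V * neg σ V)
  set W := pos σ V * neg σ V
  let f : Fin a ⊕ Fin b → K := Sum.elim p q
  have hf : ∀ i, f i ∈ pos σ V ∨ f i ∈ neg σ V := fun i => by
    cases i
    exacts [Or.inl (hp _), Or.inr (hq _)]
  have hf0 : ∀ i, f i ≠ 0 := fun i => by
    cases i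
    exacts [hp0 _, hq0 _]
  have hfV : ∀ i, f i ∈ (V : Set K) := fun i => (hf i).elim And.left And.left
  have hfs : V ≤ Submodule.span k (Set.range f) := fun v hv => by
    obtain ⟨p', hp', n', hn', rfl⟩ := blow_split h1 h2 hv
    refine add_mem (Submodule.span_mono ?_ (hps hp')) (Submodule.span_mono ?_ (hqs hn'))
    · rintro _ ⟨i, rfl⟩; exact ⟨Sum.inl i, rfl⟩
    · rintro _ ⟨i, rfl⟩; exact ⟨Sum.inr i, rfl⟩
  have hne : ∀ {ι : Type} (y : ι → K) (U : Submodule k K), U ≠ ⊥ →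
      U ≤ Submodule.span k (Set.range y) → Nonempty ι := fun y U h h' => by
    by_contra e
    rw [not_nonempty_iff] at e
    rw [Set.range_eq_empty, Submodule.span_empty, le_bot_iff] at h'
    exact h h'
  have := hne x W hW hxs
  have := hne p _ (fun h => hW (show pos σ V * neg σ V = ⊥ by rw [h, Submodule.bot_mul])) hps
  let g : (Fin a ⊕ Fin b) × Fin c → K := fun i => f i.1 * x i.2
  have hcf : Covers S V f := Covers.of_span hfV hf0 fun v hv => blow_span S (hfs hv)
  have hcg : Covers S (V * W : Submodule k K) g := Covers.of_span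
    (fun i => Submodule.mul_mem_mul (hfV i.1) (hx i.2)) (fun i => mul_ne_zero (hf0 _) (hx0 _))
    fun z hz => blow_span S (by
      have := mul_le_mul' hfs hxs hz
      rw [Submodule.span_mul_span] at this
      refine Submodule.span_mono ?_ this
      rintro _ ⟨_, ⟨i, rfl⟩, _, ⟨j, rfl⟩, rfl⟩
      exact ⟨(i, j), rfl⟩)
  have hloc := fun s hs => blow_local hM σ hS h1 h2 hW hf hf0 (s := s) hs
  have hch : ∀ i, ∀ v ∈ V, v / f i.1 ∈ chart S (V * W : Submodule k K) (g i) := fun i v hv => by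
    rw [← mul_div_mul_right v _ (hx0 i.2)]
    exact div_mem_chart S (Submodule.mul_mem_mul hv (hx i.2)) _
  refine Mdl.of_cover hcg (hcg.smooth fun i => ?_) fun n hn => ?_
  · have h := (hloc {i.1} (Set.singleton_nonempty _)).smooth _ (hcg.mem i) (hcg.ne i)
    rwa [← sup_eq_right.2 (le_charts S V f {i.1}), chart_sup, sup_eq_right.2 (charts_le_iff.2
      ⟨le_chart _ _ _, fun j hj v hv => by rw [hj]; exact hch i v hv⟩)] at h
  · obtain ⟨n, rfl⟩ := Nat.exists_eq_add_of_le' hn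
    refine ((exAt_of_double (fun s t => charts S V f s ⊔ charts S (V * W : Submodule k K) g t)
      (fun s s' t t' e e' z hz => sup_le_sup (charts_mono _ _ _ e) (charts_mono _ _ _ e') hz)
      (fun s hs m => ?_) (fun t ⟨i, hi⟩ m => exAt_of_cone i.1 (fun s z hz => ?_) m)
      fun m => ?_).1 n).congr fun t z => ?_
    · refine ((hloc s hs).exAt zero_le_one (hcg.mono (le_charts S V f s)) m (Nat.zero_le m)).congr
        fun t z => ?_
      rw [← charts_sup, sup_eq_right.2 (le_charts S V f s)]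
    · refine (sup_le (charts_le_iff.2 ⟨le_sup_of_le_left (le_charts _ _ _ _), fun j hj v hv => ?_⟩)
        le_sup_right : _ ≤ charts S V f s ⊔ charts S (V * W : Submodule k K) g t) hz
      rcases hj with rfl | hj
      · exact (le_sup_of_le_right (chart_le_charts _ _ g hi) : _ ≤ _ ⊔ _) (hch i v hv)
      · exact (le_sup_of_le_left (chart_le_charts S V f hj) : _ ≤ _ ⊔ _) (div_mem_chart S hv _)
    · refine (hM.exAt le_rfl hcf (m + 1) (Nat.le_add_left 1 m)).congr fun s z => ?_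
      rw [charts_empty, sup_eq_left.2 (le_charts S V f s)]
    · rw [charts_empty, sup_eq_right.2 (le_charts _ _ g t)]

end Pool.Agent.Lib.MP_954e53_ag.RS
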