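import Mathlib

/-! Cech complexes of subgroups of one group, and charts of blow-ups inside a field. -/

namespace Pool.Agent.Lib.MP_954e53_ag.RS

universe u

section cech

variable {K : Type*} [AddCommGroup K] {ι : Type*}

/-- The Cech differential. -/
def cd {n : ℕ} (c : (Fin n → ι) → K) : (Fin (n + 1) → ι) → K :=
  fun τ => ∑ j : Fin (n + 1), (-1 : ℤ) ^ (j : ℕ) • c fun l => τ (j.succAbove l)

/-- Every cocycle on `n + 1` indices with values in the family `M` is a coboundary. -/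
def ExAt {σ : Type*} [SetLike σ K] (M : Set ι → σ) (n : ℕ) : Prop :=
  ∀ c : (Fin (n + 1) → ι) → K, (∀ τ, c τ ∈ M (Set.range τ)) → cd c = 0 →
    ∃ b : (Fin n → ι) → K, (∀ τ, b τ ∈ M (Set.range τ)) ∧ cd b = c

end cech

variable {k K : Type u} [Field k] [Field K] [Algebra k K] {ι : Type*}

/-- The localisation `B[1 / h]`. -/
def loc (B : Subalgebra k K) (h : K) : Subalgebra k K := B ⊔ Algebra.adjoin k {h⁻¹}

/-- The chart `B[V / f]`. -/
def chart (B : Subalgebra k K) (V : Set K) (f : K) : Subalgebra k K :=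
  B ⊔ Algebra.adjoin k ((fun v => v / f) '' V)

/-- The coordinate ring of an intersection of charts. -/
def charts (B : Subalgebra k K) (V : Set K) (f : ι → K) (s : Set ι) : Subalgebra k K :=
  B ⊔ ⨆ i ∈ s, chart B V (f i)

/-- The charts `B[V / f i]` cover the blow-up. -/
structure Covers (B : Subalgebra k K) (V : Set K) (f : ι → K) : Prop where
  mem : ∀ i, f i ∈ V
  ne : ∀ i, f i ≠ 0
  val : ∀ O : ValuationSubring K, (∀ b ∈ B, b ∈ O) → ∃ i, ∀ v ∈ V, v / f i ∈ O

/-- The blow-up of `B` along `V` is smooth and its Cech complex is exact from degree `n₀` on. -/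
structure Mdl (B : Subalgebra k K) (V : Set K) (n₀ : ℕ) : Prop where
  smooth : ∀ f ∈ V, f ≠ 0 → Algebra.Smooth k (chart B V f)
  ex : ∃ (ι : Type) (_ : Finite ι) (f : ι → K), Covers B V f ∧
    ∀ n, n₀ ≤ n → ExAt (charts B V f) n

/-- The invariant part. -/
def pos (σ : K ≃ₐ[k] K) (V : Submodule k K) : Submodule k K where
  carrier := {v | v ∈ V ∧ σ v = v}
  add_mem' ha hb := ⟨V.add_mem ha.1 hb.1, by rw [map_add, ha.2, hb.2]⟩
  zero_mem' := ⟨V.zero_mem, map_zero σ⟩
  smul_mem' c _ ha := ⟨V.smul_mem c ha.1, by rw [map_smul, ha.2]⟩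

/-- The anti-invariant part. -/
def neg (σ : K ≃ₐ[k] K) (V : Submodule k K) : Submodule k K where
  carrier := {v | v ∈ V ∧ σ v = -v}
  add_mem' ha hb := ⟨V.add_mem ha.1 hb.1, by rw [map_add, ha.2, hb.2, neg_add]⟩
  zero_mem' := ⟨V.zero_mem, by rw [map_zero, neg_zero]⟩
  smul_mem' c _ ha := ⟨V.smul_mem c ha.1, by rw [map_smul, ha.2, smul_neg]⟩

lemma mem_pos {σ : K ≃ₐ[k] K} {V : Submodule k K} {v : K} : v ∈ pos σ V ↔ v ∈ V ∧ σ v = v :=
  Iff.rfl

lemma mem_neg {σ : K ≃ₐ[k] K} {V : Submodule k K} {v : K} : v ∈ neg σ V ↔ v ∈ V ∧ σ v = -v :=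
  Iff.rfl

/-- The forms of degree eight and nine. -/
noncomputable def baseV {τ : Type} (ψ : MvPolynomial τ k →ₐ[k] K) : Submodule k K :=
  (MvPolynomial.homogeneousSubmodule τ k 8 ⊔ MvPolynomial.homogeneousSubmodule τ k 9).map
    ψ.toLinearMap

end Pool.Agent.Lib.MP_954e53_ag.RS
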