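import Pool.Agent.Lib.MP_954e53_ag.RS.Stmt
import Pool.Agent.Lib.MP_954e53_ag.RS.Defs
import Pool.Agent.Lib.MP_954e53_ag.H42Serre

/-! Higher direct images vanish when Cech complexes of affine covers are exact. -/

namespace Pool.Agent.Lib.MP_954e53_ag.RS

open CategoryTheory AlgebraicGeometry TopologicalSpace

universe u

theorem irreducibleSpace_of_res {Y : Scheme.{u}} [Nonempty Y]
    (h : ∀ (W W' : Y.Opens) (i : W' ≤ W), W' ≠ ⊥ →
      Function.Injective (Y.presheaf.map (homOfLE i).op)) : IrreducibleSpace Y := by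
  refine { isPreirreducible_univ := fun S T hS hT ⟨x, _, hx⟩ ⟨y, _, hy⟩ => ?_
           toNonempty := inferInstance }
  by_contra H
  have e : (⟨S, hS⟩ : Y.Opens) ⊓ ⟨T, hT⟩ = ⊥ :=
    eq_bot_iff.2 fun z hz => (H ⟨z, trivial, hz⟩).elim
  have : Nonempty (⟨T, hT⟩ : Y.Opens) := ⟨⟨y, hy⟩⟩
  let φ : Γ(Y, _) ≅ CommRingCat.of _ :=
    (Y.sheaf.isProductOfDisjoint ⟨S, hS⟩ ⟨T, hT⟩ e).conePointUniqueUpToIso
      (CommRingCat.prodFanIsLimit _ _)
  have h1 := (Y.sheaf.isProductOfDisjoint ⟨S, hS⟩ ⟨T, hT⟩ e).conePointUniqueUpToIso_inv_comp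
      (CommRingCat.prodFanIsLimit _ _) ⟨Limits.WalkingPair.left⟩
  have h2 : ∀ p, Y.presheaf.map (homOfLE (le_sup_left : (⟨S, hS⟩ : Y.Opens) ≤ _ ⊔ ⟨T, hT⟩)).op
      (φ.inv p) = p.1 := fun p => ConcreteCategory.congr_hom h1 p
  have h3 : φ.inv (0, 1) = φ.inv (0, 0) :=
    h _ _ le_sup_left (fun e' => (e'.le hx : x ∈ (⊥ : Y.Opens))) (by rw [h2, h2])
  exact one_ne_zero (α := Γ(Y, ⟨T, hT⟩))
    (congrArg Prod.snd (φ.symm.commRingCatIsoToRingEquiv.injective h3))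

theorem isZero_of_cech {Y X : Scheme.{u}} [Y.IsSeparated] (f : Y ⟶ X) {K : Type u} [AddCommGroup K]
    (ev : ∀ W : Y.Opens, W ≠ ⊥ → (Γ(Y, W) →+ K))
    (hinj : ∀ W h, Function.Injective (ev W h))
    (hres : ∀ (W W' : Y.Opens) (i : W' ≤ W) (h : W ≠ ⊥) (h' : W' ≠ ⊥) (x : Γ(Y, W)),
      ev W' h' (Y.presheaf.map (homOfLE i).op x) = ev W h x)
    (hcov : ∀ (x : X) (W : X.Opens), x ∈ W → ∃ W' : X.Opens, W' ≤ W ∧ x ∈ W' ∧
      ∃ (ι : Type) (U : ι → Y.Opens) (M : Set ι → AddSubgroup K),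
        ⨆ i, U i = f ⁻¹ᵁ W' ∧ (∀ i, IsAffineOpen (U i)) ∧
        (∀ (n : ℕ) (τ : Fin (n + 1) → ι), ∃ h : ⨅ j, U (τ j) ≠ ⊥,
          (ev _ h).range = M (Set.range τ)) ∧
        ∀ n, ExAt M (n + 1)) (i : ℕ) :
    Limits.IsZero (higherDirectImage f (i + 1)) := by
  have hr : ∀ (W W' : Y.Opens) (i : W' ≤ W), W' ≠ ⊥ →
      Function.Injective (Y.presheaf.map (homOfLE i).op) := fun W W' i h' x y e => by
    have h : W ≠ ⊥ := ne_bot_of_le_ne_bot h' i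
    exact hinj W h (by rw [← hres W W' i h h', e, hres])
  have hC : Cech.Cartan {W : Y.Opens | IsAffineOpen W} (Cech.abO Y).obj := by
    cases isEmpty_or_nonempty Y with
    | inl _ =>
      exact fun V _ W _ => ⟨PEmpty, PEmpty.elim, fun i => i.elim, Subsingleton.elim _ _,
        fun i => i.elim, fun _ _ _ => ⟨fun t => (t 0).elim, funext fun t => (t 0).elim⟩⟩
    | inr _ =>
      have := irreducibleSpace_of_res hr
      refine Cech.cartan_affine (fun W h x y e => ?_) (fun _ h => h.1) fun _ h => h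
      obtain ⟨W', h', i, j, e'⟩ := Y.presheaf.germ_eq _ h h x y e
      exact hr W W' i.le (fun e'' => (e''.le h' : _ ∈ (⊥ : Y.Opens))) e'
  refine Cech.isZero_rightDerived.{u, 0} (B := {W : Y.Opens | IsAffineOpen W}) f.base
    (fun V hV W hW => IsAffineOpen.inf (U := V) (V := W) hV hW) _ hC (fun V y hy => ?_) i
  obtain ⟨W', h1, h2, ι, U, M, h3, h4, h5, h6⟩ := hcov y V hy
  choose h7 h8 using h5
  refine ⟨W', h1, h2, ι, U, h4, h3, Cech.cechEx_of_embed (K := K) (fun W => W ≠ ⊥) ev hinj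
    (fun V W hV hW e x => hres V W e hV hW x) h7 fun n c hc hd => ?_⟩
  obtain ⟨b, hb, hb'⟩ := h6 n c (fun τ => h8 _ τ ▸ hc τ) (funext hd)
  exact ⟨b, fun τ => (h8 _ τ).ge (hb τ), congrFun hb'⟩

end Pool.Agent.Lib.MP_954e53_ag.RS
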