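import Pool.Agent.Lib.MP_954e53_ag.RS.Defs

/-! Exactness criteria for Cech complexes inside one group. -/

namespace Pool.Agent.Lib.MP_954e53_ag.RS

variable {K : Type*} [AddCommGroup K] {ι κ σ σ' : Type*} [SetLike σ K] [SetLike σ' K]

lemma cd_cons {n : ℕ} (c : (Fin (n + 1) → ι) → K) (j : ι) (τ : Fin (n + 1) → ι) :
    cd c (Fin.cons j τ) = c τ - cd (fun ρ : Fin n → ι => c (Fin.cons j ρ)) τ := by
  have h1 : ∀ m : Fin (n + 1),
      (fun l : Fin (n + 1) => (Fin.cons j τ : Fin (n + 2) → ι) (m.succ.succAbove l)) =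
        Fin.cons j fun l : Fin n => τ (m.succAbove l) := by
    intro m
    funext l
    refine Fin.cases ?_ (fun l => ?_) l
    · simp
    · simp
  simp only [cd]
  rw [Fin.sum_univ_succ, sub_eq_add_neg, ← Finset.sum_neg_distrib]
  congr 1
  · simp
  · refine Finset.sum_congr rfl fun m _ => ?_
    rw [h1 m, Fin.val_succ, pow_succ, mul_neg, mul_one, neg_smul]

lemma cech_cd_sub {n : ℕ} (a b : (Fin n → ι) → K) (τ : Fin (n + 1) → ι) :
    cd (fun ρ => a ρ - b ρ) τ = cd a τ - cd b τ := by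
  simp only [cd, smul_sub, Finset.sum_sub_distrib]

lemma cech_cd_sum {α : Type*} (s : Finset α) {n : ℕ} (a : α → (Fin n → ι) → K)
    (τ : Fin (n + 1) → ι) : cd (fun ρ => ∑ i ∈ s, a i ρ) τ = ∑ i ∈ s, cd (a i) τ := by
  simp only [cd, Finset.smul_sum]
  exact Finset.sum_comm

lemma cd_cd {n : ℕ} (c : (Fin n → ι) → K) : cd (cd c) = 0 := by
  induction n with
  | zero =>
    funext τ
    rw [← Fin.cons_self_tail τ, cd_cons]
    simp only [cd, Fin.sum_univ_succ, Finset.univ_eq_empty, Finset.sum_empty, add_zero,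
      Fin.val_zero, pow_zero, one_smul, Pi.zero_apply, sub_eq_zero]
    exact congrArg c (Subsingleton.elim _ _)
  | succ n ih =>
    funext τ
    rw [← Fin.cons_self_tail τ, cd_cons]
    simp only [cd_cons]
    rw [cech_cd_sub, ih]
    simp

lemma cd_map {K' : Type*} [AddCommGroup K'] (p : K →+ K') {n : ℕ} (c : (Fin n → ι) → K) :
    cd (fun τ => p (c τ)) = fun τ => p (cd c τ) := by
  funext τ
  simp only [cd, map_sum, map_zsmul]

lemma cd_mem [AddSubgroupClass σ K] {M : Set ι → σ}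
    (hM : ∀ s t, s ⊆ t → ∀ x ∈ M s, x ∈ M t) {n : ℕ} {c : (Fin n → ι) → K}
    (hc : ∀ τ, c τ ∈ M (Set.range τ)) (τ : Fin (n + 1) → ι) : cd c τ ∈ M (Set.range τ) := by
  refine sum_mem fun j _ => zsmul_mem (hM _ _ ?_ _ (hc _)) _
  rintro _ ⟨l, rfl⟩
  exact ⟨_, rfl⟩

/-- Exactness passes to retracts. -/
theorem ExAt.of_retract {M : Set ι → σ} {N : Set ι → σ'} {n : ℕ} (h : ExAt M n) (p : K →+ K)
    (h1 : ∀ s, ∀ x ∈ N s, x ∈ M s) (h2 : ∀ s, ∀ x ∈ M s, p x ∈ N s)
    (h3 : ∀ s, ∀ x ∈ N s, p x = x) : ExAt N n := by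
  intro c hc hd
  obtain ⟨b, hb, hbc⟩ := h c (fun τ => h1 _ _ (hc τ)) hd
  refine ⟨fun τ => p (b τ), fun τ => h2 _ _ (hb τ), ?_⟩
  rw [cd_map, hbc]
  funext τ
  exact h3 _ _ (hc τ)

theorem ExAt.congr {M : Set ι → σ} {N : Set ι → σ'} {n : ℕ} (h : ExAt M n)
    (h1 : ∀ s x, x ∈ M s ↔ x ∈ N s) : ExAt N n :=
  h.of_retract (AddMonoidHom.id K) (fun s x => (h1 s x).2) (fun s x => (h1 s x).1) fun _ _ _ => rfl

/-- In positive degree only the nonempty index sets matter. -/
theorem ExAt.congr_succ {M : Set ι → σ} {N : Set ι → σ'} {n : ℕ} (h : ExAt M (n + 1))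
    (h1 : ∀ s, s.Nonempty → ∀ x, x ∈ M s ↔ x ∈ N s) : ExAt N (n + 1) := by
  intro c hc hd
  obtain ⟨b, hb, hbc⟩ := h c (fun τ => (h1 _ (Set.range_nonempty τ) _).2 (hc τ)) hd
  exact ⟨b, fun τ => (h1 _ (Set.range_nonempty τ) _).1 (hb τ), hbc⟩

/-- A partition of unity contracts a cocycle. -/
theorem exists_cd_of_proj [AddSubgroupClass σ K] [Fintype ι] {M : Set ι → σ} {n : ℕ}
    {c : (Fin (n + 1) → ι) → K} (hc : cd c = 0) (π : ι → K →+ K)
    (h1 : ∀ τ, ∑ j, π j (c τ) = c τ)
    (h2 : ∀ (j : ι) (τ : Fin n → ι), π j (c (Fin.cons j τ)) ∈ M (Set.range τ)) :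
    ∃ b : (Fin n → ι) → K, (∀ τ, b τ ∈ M (Set.range τ)) ∧ cd b = c := by
  refine ⟨fun τ => ∑ j, π j (c (Fin.cons j τ)), fun τ => sum_mem fun j _ => h2 j τ, ?_⟩
  funext τ
  rw [cech_cd_sum, ← h1 τ]
  refine Finset.sum_congr rfl fun j _ => ?_
  have h := cd_cons c j τ
  rw [hc, Pi.zero_apply, eq_comm, sub_eq_zero] at h
  rw [cd_map (π j) fun ρ : Fin n → ι => c (Fin.cons j ρ), h]

/-- A cone is contractible. -/
theorem exAt_of_cone {M : Set ι → σ} (i : ι) (h : ∀ s, ∀ x ∈ M (insert i s), x ∈ M s) (n : ℕ) :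
    ExAt M n := by
  intro c hc hd
  refine ⟨fun τ => c (Fin.cons i τ), fun τ => h _ _ ?_, ?_⟩
  · have := hc (Fin.cons i τ)
    rwa [Fin.range_cons] at this
  · funext τ
    have h := cd_cons c i τ
    rw [hd, Pi.zero_apply, eq_comm, sub_eq_zero] at h
    exact h.symm

lemma cech_exists_map {k : Type*} [Field k] [Module k K] {Λ : Type*} {e : Λ → K}
    (he : LinearIndependent k e) (w : Λ → K) : ∃ p : K →ₗ[k] K, ∀ a, p (e a) = w a := by
  obtain ⟨p, hp⟩ := LinearMap.exists_extend ((Finsupp.linearCombination k w).comp he.repr)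
  refine ⟨p, fun a => ?_⟩
  have hm : e a ∈ Submodule.span k (Set.range e) := Submodule.subset_span ⟨a, rfl⟩
  have := LinearMap.congr_fun hp ⟨e a, hm⟩
  rw [LinearMap.comp_apply, LinearMap.comp_apply, he.repr_eq_single a ⟨e a, hm⟩ rfl] at this
  simpa using this

/-- Spans of parts of a linearly independent family. -/
theorem exAt_span {k : Type*} [Field k] [Module k K] [Finite ι] {Λ : Type*} {e : Λ → K}
    (he : LinearIndependent k e) (N : Λ → Set ι) (hN : ∀ a, N a ≠ Set.univ) (n : ℕ) :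
    ExAt (fun s => Submodule.span k (e '' {a | N a ⊆ s})) n := by
  classical
  have := Fintype.ofFinite ι
  intro c hc hd
  choose J hJ using fun a => (Set.ne_univ_iff_exists_notMem _).1 (hN a)
  choose p hp using fun j => cech_exists_map he fun a => if J a = j then e a else 0
  refine exists_cd_of_proj (M := fun s => Submodule.span k (e '' {a | N a ⊆ s})) hd
    (fun j => (p j).toAddMonoidHom) (fun τ => ?_) fun j τ => ?_
  · have h := hc τ
    simp only [LinearMap.toAddMonoidHom_coe]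
    generalize c τ = x at h
    induction h using Submodule.span_induction with
    | mem x hx =>
      obtain ⟨a, -, rfl⟩ := hx
      simp [hp]
    | zero => simp
    | add x y _ _ hx hy => simp only [map_add, Finset.sum_add_distrib, hx, hy]
    | smul r x _ hx => simp only [map_smul, ← Finset.smul_sum, hx]
  · have h := hc (Fin.cons j τ)
    simp only [LinearMap.toAddMonoidHom_coe]
    rw [Fin.range_cons] at h
    generalize c (Fin.cons j τ) = x at h
    induction h using Submodule.span_induction with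
    | mem x hx =>
      obtain ⟨a, ha, rfl⟩ := hx
      rw [hp]
      split_ifs with hj
      · refine Submodule.subset_span ⟨a, fun i hi => ?_, rfl⟩
        rcases ha hi with rfl | h
        · exact absurd (hj ▸ hi) (hJ a)
        · exact h
      · exact zero_mem _
    | zero => simp
    | add x y _ _ hx hy => rw [map_add]; exact add_mem hx hy
    | smul r x _ hx => rw [map_smul]; exact Submodule.smul_mem _ _ hx

/-- Exactness does not depend on the names of the indices. -/
theorem ExAt.reindex {M : Set ι → σ} {n : ℕ} (h : ExAt M n) (e : κ ≃ ι) :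
    ExAt (fun t : Set κ => M (e '' t)) n := by
  intro c hc hd
  obtain ⟨b, hb, hbc⟩ := h (fun τ => c fun l => e.symm (τ l)) (fun τ => by
    have := hc fun l => e.symm (τ l)
    simpa [← Set.range_comp, Function.comp_def] using this) (by
    funext τ
    exact congrFun hd fun l => e.symm (τ l))
  refine ⟨fun τ => b fun l => e (τ l), fun τ => ?_, ?_⟩
  · have := hb fun l => e (τ l)
    simpa [← Set.range_comp, Function.comp_def] using this
  · funext τ
    have := congrFun hbc fun l => e (τ l)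
    simp only [Equiv.symm_apply_apply] at this
    exact this

end Pool.Agent.Lib.MP_954e53_ag.RS
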