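import Pool.Agent.Lib.MP_954e53_ag.RS.Step

/-! The induction along a central series. -/

namespace Pool.Agent.Lib.MP_954e53_ag.RS

universe u

/-- A proper normal subgroup of a finite 2-group has an element outside it that is central and of
order two modulo the subgroup. -/
lemma chain_exists_central {G : Type} [Group G] [Finite G] (hG : IsPGroup 2 G) (H : Subgroup G)
    [H.Normal] (hH : H ≠ ⊤) :
    ∃ s : G, s ∉ H ∧ s * s ∈ H ∧ ∀ g : G, (s * g)⁻¹ * (g * s) ∈ H := by
  have : Fact (Nat.Prime 2) := ⟨Nat.prime_two⟩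
  have : Nontrivial (G ⧸ H) := QuotientGroup.nontrivial_iff.mpr hH
  have hQ : IsPGroup 2 (G ⧸ H) := hG.to_quotient H
  have : Nontrivial (Subgroup.center (G ⧸ H)) := hQ.center_nontrivial
  have hZ : IsPGroup 2 (Subgroup.center (G ⧸ H)) := hQ.to_subgroup _
  obtain ⟨n, hn, hc⟩ := hZ.nontrivial_iff_card.mp inferInstance
  have hd : 2 ∣ Nat.card (Subgroup.center (G ⧸ H)) := by
    rw [hc]
    exact dvd_pow_self 2 hn.ne'
  obtain ⟨z, hz⟩ := exists_prime_orderOf_dvd_card' 2 hd
  obtain ⟨s, hs⟩ := QuotientGroup.mk_surjective (z : G ⧸ H)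
  refine ⟨s, ?_, ?_, ?_⟩
  · intro h
    have h1 : z = 1 := Subtype.ext (by rw [← hs]; exact (QuotientGroup.eq_one_iff s).mpr h)
    rw [h1, orderOf_one] at hz
    exact absurd hz (by norm_num)
  · have h2 : z ^ 2 = 1 := by rw [← hz]; exact pow_orderOf_eq_one z
    have h3 : (z : G ⧸ H) * z = 1 := by
      have := congrArg Subtype.val h2
      rwa [pow_two] at this
    rw [← QuotientGroup.eq_one_iff, QuotientGroup.mk_mul, hs]
    exact h3
  · intro g
    rw [← QuotientGroup.eq, QuotientGroup.mk_mul, QuotientGroup.mk_mul, hs]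
    exact (Subgroup.mem_center_iff.mp z.2 _).symm

variable {k K : Type u} [Field k] [IsAlgClosed k] [CharZero k] [Field K] [Algebra k K]
  {S : Subalgebra k K} [Algebra.FiniteType k S] {V : Submodule k K} [Module.Finite k V]

/-- The subgroup of the elements that fix a submodule pointwise. -/
def chain_fix {G : Type} [Group G] (α : G →* (K ≃ₐ[k] K)) (W : Submodule k K) : Subgroup G where
  carrier := {g | ∀ v ∈ W, α g v = v}
  mul_mem' {a b} ha hb v hv := by rw [map_mul, AlgEquiv.mul_apply, hb v hv, ha v hv]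
  one_mem' v _ := by rw [map_one, AlgEquiv.one_apply]
  inv_mem' {a} ha v hv := by
    conv_lhs => rw [← ha v hv]
    rw [← AlgEquiv.mul_apply, ← map_mul, inv_mul_cancel, map_one, AlgEquiv.one_apply]

omit [IsAlgClosed k] [CharZero k] in
lemma chain_fix_normal {G : Type} [Group G] (α : G →* (K ≃ₐ[k] K)) (W : Submodule k K)
    (h : ∀ g, ∀ v ∈ W, α g v ∈ W) : (chain_fix α W).Normal := by
  refine ⟨fun n hn g v hv => ?_⟩
  rw [map_mul, map_mul, AlgEquiv.mul_apply, AlgEquiv.mul_apply, hn _ (h g⁻¹ v hv),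
    ← AlgEquiv.mul_apply, ← map_mul, mul_inv_cancel, map_one, AlgEquiv.one_apply]

theorem Mdl.group {G : Type} [Group G] [Finite G] (hG : IsPGroup 2 G) (α : G →* (K ≃ₐ[k] K))
    (hM : Mdl S V 1) (hS : ∀ g, ∀ s ∈ S, α g s = s) (h1 : ∀ g, ∀ v ∈ V, α g v ∈ V) :
    ∃ V' : Submodule k K, Module.Finite k V' ∧ Mdl S V' 1 ∧ ∀ g, ∀ v ∈ V', α g v = v := by
  have key : ∀ H : Subgroup G, ∀ W : Submodule k K, Module.Finite k W → Mdl S W 1 →
      (∀ g, ∀ v ∈ W, α g v ∈ W) → chain_fix α W = H →
      ∃ V' : Submodule k K, Module.Finite k V' ∧ Mdl S V' 1 ∧ ∀ g, ∀ v ∈ V', α g v = v := by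
    intro H
    induction H using WellFoundedGT.induction with
    | ind H ih =>
      intro W hW hMW hst hH
      by_cases ht : chain_fix α W = ⊤
      · refine ⟨W, hW, hMW, fun g => ?_⟩
        have : g ∈ chain_fix α W := by rw [ht]; trivial
        exact this
      · have := chain_fix_normal α W hst
        obtain ⟨s, hs1, hs2, hs3⟩ := chain_exists_central hG (chain_fix α W) ht
        obtain ⟨W', hW', hMW', f1, f2, f3⟩ := hMW.step (α s) (hS s) (hst s) (fun v hv => by
          rw [← AlgEquiv.mul_apply, ← map_mul]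
          exact hs2 v hv)
        refine ih (chain_fix α W') ?_ W' hW' hMW' (fun g => f3 (α g) (hst g) fun v hv => ?_) rfl
        · rw [← hH]
          refine lt_of_le_of_ne (fun g hg => f2 (α g) hg) fun h => hs1 ?_
          rw [h]
          exact f1
        · have h := congrArg (α (s * g)) (hs3 g v hv)
          rw [← AlgEquiv.mul_apply, ← map_mul, mul_inv_cancel_left, map_mul, map_mul,
            AlgEquiv.mul_apply, AlgEquiv.mul_apply] at h
          exact h
  exact key _ V inferInstance hM h1 rfl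

end Pool.Agent.Lib.MP_954e53_ag.RS
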