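import Pool.Agent.Lib.MP_954e53_ag.RS.Loc

/-! Charts inside a field. -/

namespace Pool.Agent.Lib.MP_954e53_ag.RS

universe u

variable {k K : Type u} [Field k] [Field K] [Algebra k K] {ι κ : Type*} {B C : Subalgebra k K}
  {V V' : Set K}

lemma le_chart (B : Subalgebra k K) (V : Set K) (f : K) : B ≤ chart B V f := le_sup_left

lemma div_mem_chart (B : Subalgebra k K) {v : K} (hv : v ∈ V) (f : K) : v / f ∈ chart B V f :=
  (le_sup_right : _ ≤ chart B V f) (Algebra.subset_adjoin ⟨v, hv, rfl⟩)

lemma chart_le_iff {f : K} : chart B V f ≤ C ↔ B ≤ C ∧ ∀ v ∈ V, v / f ∈ C := by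
  rw [chart, sup_le_iff, Algebra.adjoin_le_iff, Set.image_subset_iff]
  exact Iff.rfl

lemma le_charts (B : Subalgebra k K) (V : Set K) (f : ι → K) (s : Set ι) : B ≤ charts B V f s :=
  le_sup_left

lemma chart_le_charts (B : Subalgebra k K) (V : Set K) (f : ι → K) {s : Set ι} {i : ι}
    (hi : i ∈ s) : chart B V (f i) ≤ charts B V f s :=
  le_sup_of_le_right (le_iSup₂_of_le (f := fun i (_ : i ∈ s) => chart B V (f i)) i hi le_rfl)

lemma charts_le_iff {f : ι → K} {s : Set ι} :
    charts B V f s ≤ C ↔ B ≤ C ∧ ∀ i ∈ s, ∀ v ∈ V, v / f i ∈ C := by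
  rw [charts, sup_le_iff, iSup₂_le_iff]
  exact ⟨fun h => ⟨h.1, fun i hi => (chart_le_iff.1 (h.2 i hi)).2⟩,
    fun h => ⟨h.1, fun i hi => chart_le_iff.2 ⟨h.1, h.2 i hi⟩⟩⟩

lemma charts_mono (B : Subalgebra k K) (V : Set K) (f : ι → K) {s t : Set ι} (h : s ⊆ t) :
    charts B V f s ≤ charts B V f t :=
  charts_le_iff.2 ⟨le_charts B V f t, fun _ hi _ hv =>
    chart_le_charts B V f (h hi) (div_mem_chart B hv _)⟩

lemma charts_empty (B : Subalgebra k K) (V : Set K) (f : ι → K) : charts B V f ∅ = B :=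
  le_antisymm (charts_le_iff.2 ⟨le_rfl, fun _ hi => absurd hi (Set.notMem_empty _)⟩)
    (le_charts B V f ∅)

lemma chart_sup (B C : Subalgebra k K) (V : Set K) (f : K) :
    chart (B ⊔ C) V f = C ⊔ chart B V f := by
  rw [chart, chart, sup_comm B C, sup_assoc]

lemma charts_sup (B C : Subalgebra k K) (V : Set K) (f : ι → K) (s : Set ι) :
    charts (B ⊔ C) V f s = C ⊔ charts B V f s := by
  apply le_antisymm
  · refine charts_le_iff.2 ⟨sup_le (le_sup_of_le_right (le_charts B V f s)) le_sup_left, ?_⟩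
    intro i hi v hv
    exact (le_sup_right : _ ≤ C ⊔ charts B V f s)
      (chart_le_charts B V f hi (div_mem_chart B hv _))
  · refine sup_le (le_sup_right.trans (le_charts _ V f s)) (charts_le_iff.2
      ⟨le_sup_left.trans (le_charts _ V f s), fun i hi v hv => ?_⟩)
    exact chart_le_charts _ V f hi (div_mem_chart _ hv _)

lemma chart_loc (B : Subalgebra k K) (V : Set K) (f h : K) :
    chart (loc B h) V f = loc (chart B V f) h := by
  rw [loc, loc, chart_sup, sup_comm]

lemma charts_loc (B : Subalgebra k K) (V : Set K) (f : ι → K) (s : Set ι) (h : K) :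
    charts (loc B h) V f s = loc (charts B V f s) h := by
  rw [loc, loc, charts_sup, sup_comm]

/-- Only the module generated by `V` matters. -/
lemma chart_le_of_span (h : V ⊆ Submodule.span B V') (f : K) : chart B V f ≤ chart B V' f := by
  refine chart_le_iff.2 ⟨le_chart B V' f, fun v hv => ?_⟩
  have hv' := h hv
  clear hv
  induction hv' using Submodule.span_induction with
  | mem x hx => exact div_mem_chart B hx f
  | zero => rw [zero_div]; exact zero_mem _
  | add x y _ _ hx hy => rw [add_div]; exact add_mem hx hy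
  | smul a x _ hx =>
    have : (a • x) / f = (a : K) * (x / f) := by
      rw [Subalgebra.smul_def, smul_eq_mul, mul_div_assoc]
    rw [this]
    exact mul_mem (le_chart B V' f a.2) hx

lemma chart_inv_mem_loc (C : Subalgebra k K) (h : K) : h⁻¹ ∈ loc C h :=
  (le_sup_right : _ ≤ loc C h) (Algebra.subset_adjoin (Set.mem_singleton _))

lemma chart_loc_le {D : Subalgebra k K} {h : K} (hC : C ≤ D) (hh : h⁻¹ ∈ D) : loc C h ≤ D :=
  sup_le hC (Algebra.adjoin_le_iff.2 (Set.singleton_subset_iff.2 hh))

/-- Two charts meet in a basic open set. -/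
lemma sup_chart_eq_loc {f g : K} (hg : g ∈ V) (hf0 : f ≠ 0) (hg0 : g ≠ 0) (hf : f ∈ V)
    (hC : chart B V f ≤ C) : C ⊔ chart B V g = loc C (g / f) := by
  have _ := hg
  apply le_antisymm
  · refine sup_le (le_loc C _) (chart_le_iff.2
      ⟨((le_chart B V f).trans hC).trans (le_loc C _), fun v hv => ?_⟩)
    have : v / g = v / f * (g / f)⁻¹ := by field_simp
    rw [this]
    exact mul_mem (le_loc C _ (hC (div_mem_chart B hv f))) (chart_inv_mem_loc C _)
  · refine chart_loc_le le_sup_left ?_
    rw [inv_div]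
    exact (le_sup_right : _ ≤ C ⊔ chart B V g) (div_mem_chart B hf g)

/-- An intersection of finitely many charts is a basic open set of each of them. -/
lemma sup_charts_eq_loc {f : ι → K} (hf : ∀ i, f i ∈ V) (hf0 : ∀ i, f i ≠ 0) {g : K}
    (hg : g ∈ V) (hg0 : g ≠ 0) (hC : chart B V g ≤ C) (s : Finset ι) :
    C ⊔ charts B V f s = loc C (∏ i ∈ s, f i / g) := by
  classical
  apply le_antisymm
  · refine sup_le (le_loc C _) (charts_le_iff.2
      ⟨((le_chart B V g).trans hC).trans (le_loc C _), fun i hi v hv => ?_⟩)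
    have hi' : i ∈ s := hi
    have hne : (∏ j ∈ s.erase i, f j / g) ≠ 0 :=
      Finset.prod_ne_zero_iff.2 fun j _ => div_ne_zero (hf0 j) hg0
    have hfi := hf0 i
    have : v / f i = v / g * (∏ j ∈ s.erase i, f j / g) * (∏ j ∈ s, f j / g)⁻¹ := by
      rw [← Finset.mul_prod_erase s (fun j => f j / g) hi']
      generalize (∏ j ∈ s.erase i, f j / g) = P at hne
      field_simp
    rw [this]
    refine mul_mem (mul_mem (le_loc C _ (hC (div_mem_chart B hv g))) ?_) (chart_inv_mem_loc C _)
    exact prod_mem fun j _ => le_loc C _ (hC (div_mem_chart B (hf j) g))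
  · refine chart_loc_le le_sup_left ?_
    rw [← Finset.prod_inv_distrib]
    refine prod_mem fun i hi => ?_
    rw [inv_div]
    exact (le_sup_right : _ ≤ C ⊔ charts B V f s)
      (chart_le_charts B V f (s := (s : Set ι)) hi (div_mem_chart B hg _))

lemma Covers.nonempty {f : ι → K} (h : Covers B V f) : Nonempty ι :=
  let ⟨i, _⟩ := h.val ⊤ fun _ _ => ValuationSubring.mem_top _
  ⟨i⟩

lemma Covers.mono {f : ι → K} (h : Covers B V f) (hC : B ≤ C) : Covers C V f :=
  ⟨h.mem, h.ne, fun O hO => h.val O fun b hb => hO b (hC hb)⟩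

/-- Finitely many nonzero generators cover. -/
lemma Covers.of_span [Finite ι] [Nonempty ι] {f : ι → K} (hf : ∀ i, f i ∈ V) (hf0 : ∀ i, f i ≠ 0)
    (h : V ⊆ Submodule.span B (Set.range f)) : Covers B V f := by
  refine ⟨hf, hf0, fun O hO => ?_⟩
  obtain ⟨i, hi⟩ := Finite.exists_max fun i => O.valuation (f i)
  refine ⟨i, fun v hv => ?_⟩
  have hv' := h hv
  clear hv
  induction hv' using Submodule.span_induction with
  | mem x hx =>
    obtain ⟨j, rfl⟩ := hx
    rw [← O.valuation_le_one_iff, map_div₀]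
    exact div_le_one_of_le₀ (hi j) zero_le
  | zero => rw [zero_div]; exact zero_mem _
  | add x y _ _ hx hy => rw [add_div]; exact add_mem hx hy
  | smul a x _ hx =>
    have : (a • x) / f i = (a : K) * (x / f i) := by
      rw [Subalgebra.smul_def, smul_eq_mul, mul_div_assoc]
    rw [this]
    exact mul_mem (hO a a.2) hx

/-- In every chart the elements `f i / g` generate the unit ideal. -/
lemma Covers.exists_notMem {f : ι → K} (h : Covers B V f) {g : K} (hg : g ∈ V) (hg0 : g ≠ 0)
    (hC : chart B V g ≤ C) (m : Ideal C) (hm : m ≠ ⊤) :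
    ∃ i, (⟨f i / g, hC (div_mem_chart B (h.mem i) g)⟩ : C) ∉ m := by
  obtain ⟨O, hO, hmO⟩ :=
    Ideal.image_subset_nonunits_valuationSubring (A := C.toSubring) m hm
  obtain ⟨i, hi⟩ := h.val O fun b hb => hO (hC (le_chart B V g hb))
  refine ⟨i, fun hmem => ?_⟩
  have h1 : f i / g ∈ O.nonunits := hmO ⟨_, hmem, rfl⟩
  have h2 : O.valuation (g / f i) ≤ 1 := (O.valuation_le_one_iff _).2 (hi g hg)
  rw [ValuationSubring.mem_nonunits_iff] at h1
  have h3 : O.valuation (f i / g) * O.valuation (g / f i) = 1 := by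
    have := h.ne i
    rw [← map_mul, show f i / g * (g / f i) = 1 by field_simp, map_one]
  have h4 : O.valuation (f i / g) * O.valuation (g / f i) ≤ O.valuation (f i / g) * 1 :=
    mul_le_mul_right h2 _
  rw [h3, mul_one] at h4
  exact absurd h1 (not_lt.2 h4)

lemma finiteType_chart [Algebra.FiniteType k B] (W : Submodule k K) [Module.Finite k W] (f : K) :
    Algebra.FiniteType k (chart B W f) := by
  classical
  have hB : B.FG := (Subalgebra.fg_top B).1 Algebra.FiniteType.out
  obtain ⟨t, ht⟩ : W.FG := (Submodule.fg_top W).1 Module.Finite.fg_top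
  have e : chart B W f = chart B (t : Set K) f := by
    apply le_antisymm
    · refine chart_le_of_span (fun v hv => ?_) f
      rw [← ht] at hv
      exact Submodule.span_subset_span k B _ hv
    · refine chart_le_of_span (fun v hv => Submodule.subset_span ?_) f
      rw [← ht]
      exact Submodule.subset_span hv
  have hfg : (chart B W f).FG := by
    rw [e, chart]
    refine hB.sup ?_
    rw [← Finset.coe_image]
    exact Subalgebra.fg_adjoin_finset _
  exact ⟨(Subalgebra.fg_top _).2 hfg⟩

end Pool.Agent.Lib.MP_954e53_ag.RS
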