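import Pool.Agent.Lib.MP_954e53_ag.RS.Cech

/-! The double complex of two covers. -/

namespace Pool.Agent.Lib.MP_954e53_ag.RS

variable {K : Type*} [AddCommGroup K] {ι κ σ : Type*} [SetLike σ K]

/-- The first differential of a double cochain. -/
def doubleD1 {p q : ℕ} (z : (Fin p → ι) → (Fin q → κ) → K) :
    (Fin (p + 1) → ι) → (Fin q → κ) → K := fun τ ρ => cd (fun τ' => z τ' ρ) τ

/-- The second differential of a double cochain. -/
def doubleD2 {p q : ℕ} (z : (Fin p → ι) → (Fin q → κ) → K) :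
    (Fin p → ι) → (Fin (q + 1) → κ) → K := fun τ => cd (z τ)

/-- A double cochain with values in the family. -/
def DoubleIn (C : Set ι → Set κ → σ) {p q : ℕ} (z : (Fin p → ι) → (Fin q → κ) → K) : Prop :=
  ∀ τ ρ, z τ ρ ∈ C (Set.range τ) (Set.range ρ)

lemma double_comm {p q : ℕ} (z : (Fin p → ι) → (Fin q → κ) → K) :
    doubleD1 (doubleD2 z) = doubleD2 (doubleD1 z) := by
  funext τ ρ
  simp only [doubleD1, doubleD2, cd, Finset.smul_sum]
  rw [Finset.sum_comm]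
  refine Finset.sum_congr rfl fun j _ => Finset.sum_congr rfl fun i _ => ?_
  rw [smul_comm]

lemma double_d1_d1 {p q : ℕ} (z : (Fin p → ι) → (Fin q → κ) → K) :
    doubleD1 (doubleD1 z) = 0 := by
  funext τ ρ
  exact congrFun (cd_cd fun τ' => z τ' ρ) τ

lemma double_d2_d2 {p q : ℕ} (z : (Fin p → ι) → (Fin q → κ) → K) :
    doubleD2 (doubleD2 z) = 0 := by
  funext τ
  exact cd_cd (z τ)

lemma double_d1_sub {p q : ℕ} (y z : (Fin p → ι) → (Fin q → κ) → K) :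
    doubleD1 (y - z) = doubleD1 y - doubleD1 z := by
  funext τ ρ
  simp only [doubleD1, cd, Pi.sub_apply, smul_sub, Finset.sum_sub_distrib]

lemma double_d2_sub {p q : ℕ} (y z : (Fin p → ι) → (Fin q → κ) → K) :
    doubleD2 (y - z) = doubleD2 y - doubleD2 z := by
  funext τ ρ
  simp only [doubleD2, cd, Pi.sub_apply, smul_sub, Finset.sum_sub_distrib]

lemma double_d1_zero {p q : ℕ} :
    doubleD1 (0 : (Fin p → ι) → (Fin q → κ) → K) = 0 := by
  funext τ ρ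
  simp only [doubleD1, cd, Pi.zero_apply, smul_zero, Finset.sum_const_zero]

lemma double_cd_nil (c : (Fin 0 → ι) → K) (τ : Fin 1 → ι) (τ' : Fin 0 → ι) : cd c τ = c τ' := by
  simp only [cd, Fin.sum_univ_succ, Fin.sum_univ_zero, Fin.val_zero, pow_zero, one_smul, add_zero]
  exact congrArg c (Subsingleton.elim _ _)

lemma double_eq_zero_of_d2 [Nonempty κ] {p : ℕ} {z : (Fin p → ι) → (Fin 0 → κ) → K}
    (h : doubleD2 z = 0) : z = 0 := by
  obtain ⟨a⟩ := ‹Nonempty κ›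
  funext τ ρ
  have := congrFun (congrFun h τ) fun _ => a
  rwa [doubleD2, double_cd_nil _ _ ρ] at this

lemma double_eq_zero_of_d1 [Nonempty ι] {q : ℕ} {z : (Fin 0 → ι) → (Fin q → κ) → K}
    (h : doubleD1 z = 0) : z = 0 := by
  obtain ⟨a⟩ := ‹Nonempty ι›
  funext τ ρ
  have := congrFun (congrFun h fun _ => a) ρ
  rwa [doubleD1, double_cd_nil _ _ τ] at this

lemma double_in_d1 [AddSubgroupClass σ K] {C : Set ι → Set κ → σ}
    (hC : ∀ s s' t t', s ⊆ s' → t ⊆ t' → ∀ x ∈ C s t, x ∈ C s' t') {p q : ℕ}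
    {z : (Fin p → ι) → (Fin q → κ) → K} (hz : DoubleIn C z) : DoubleIn C (doubleD1 z) :=
  fun τ ρ => cd_mem (M := fun s => C s (Set.range ρ))
    (fun s s' h => hC s s' _ _ h subset_rfl) (fun τ' => hz τ' ρ) τ

lemma double_in_d2 [AddSubgroupClass σ K] {C : Set ι → Set κ → σ}
    (hC : ∀ s s' t t', s ⊆ s' → t ⊆ t' → ∀ x ∈ C s t, x ∈ C s' t') {p q : ℕ}
    {z : (Fin p → ι) → (Fin q → κ) → K} (hz : DoubleIn C z) : DoubleIn C (doubleD2 z) :=
  fun τ ρ => cd_mem (M := C (Set.range τ))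
    (fun t t' h => hC _ _ t t' subset_rfl h) (fun ρ' => hz τ ρ') ρ

lemma double_col {C : Set ι → Set κ → σ} {p q : ℕ}
    (h : ∀ τ : Fin p → ι, ExAt (C (Set.range τ)) q)
    {z : (Fin p → ι) → (Fin (q + 1) → κ) → K} (hz : DoubleIn C z) (h2 : doubleD2 z = 0) :
    ∃ y : (Fin p → ι) → (Fin q → κ) → K, DoubleIn C y ∧ doubleD2 y = z := by
  choose y hy1 hy2 using fun τ => h τ (z τ) (hz τ) (congrFun h2 τ)
  exact ⟨y, hy1, funext hy2⟩

lemma double_row {C : Set ι → Set κ → σ} {p q : ℕ}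
    (h : ∀ ρ : Fin q → κ, ExAt (fun s => C s (Set.range ρ)) p)
    {z : (Fin (p + 1) → ι) → (Fin q → κ) → K} (hz : DoubleIn C z) (h1 : doubleD1 z = 0) :
    ∃ y : (Fin p → ι) → (Fin q → κ) → K, DoubleIn C y ∧ doubleD1 y = z := by
  choose y hy1 hy2 using fun ρ => h ρ (fun τ => z τ ρ) (fun τ => hz τ ρ)
    (funext fun τ => congrFun (congrFun h1 τ) ρ)
  exact ⟨fun τ ρ => y ρ τ, fun τ ρ => hy1 ρ τ, funext fun τ => funext fun ρ => congrFun (hy2 ρ) τ⟩

lemma double_stair [AddSubgroupClass σ K] [Nonempty κ] {C : Set ι → Set κ → σ}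
    (hC : ∀ s s' t t', s ⊆ s' → t ⊆ t' → ∀ x ∈ C s t, x ∈ C s' t')
    (hcol : ∀ s, s.Nonempty → ∀ n, ExAt (C s) n)
    (hrow : ∀ (p q : ℕ) (ρ : Fin q → κ), ExAt (fun s => C s (Set.range ρ)) (p + 1)) (q : ℕ) :
    ∀ (p : ℕ) (z : (Fin (p + 1) → ι) → (Fin (q + 1) → κ) → K), DoubleIn C z →
      doubleD1 z = 0 → doubleD2 z = 0 →
      ∃ y : (Fin (p + 1) → ι) → (Fin q → κ) → K, DoubleIn C y ∧ doubleD1 y = 0 ∧ doubleD2 y = z := by
  induction q with
  | zero =>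
    intro p z hz h1 h2
    obtain ⟨y, hy, hyz⟩ := double_col (fun τ => hcol _ (Set.range_nonempty τ) 0) hz h2
    refine ⟨y, hy, double_eq_zero_of_d2 ?_, hyz⟩
    rw [← double_comm, hyz, h1]
  | succ q ih =>
    intro p z hz h1 h2
    obtain ⟨y, hy, hyz⟩ := double_col (fun τ => hcol _ (Set.range_nonempty τ) (q + 1)) hz h2
    obtain ⟨u, hu, hu1, hu2⟩ := ih (p + 1) (doubleD1 y) (double_in_d1 hC hy) (double_d1_d1 y)
      (by rw [← double_comm, hyz, h1])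
    obtain ⟨t, ht, htu⟩ := double_row (hrow p q) hu hu1
    refine ⟨y - doubleD2 t, fun τ ρ => sub_mem (hy τ ρ) (double_in_d2 hC ht τ ρ), ?_, ?_⟩
    · rw [double_d1_sub, double_comm, htu, hu2, sub_self]
    · rw [double_d2_sub, double_d2_d2, hyz, sub_zero]

lemma double_end [AddSubgroupClass σ K] [Nonempty ι] [Nonempty κ] {C : Set ι → Set κ → σ}
    (hC : ∀ s s' t t', s ⊆ s' → t ⊆ t' → ∀ x ∈ C s t, x ∈ C s' t')
    (hcol : ∀ s, s.Nonempty → ∀ n, ExAt (C s) n)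
    (hrow : ∀ (p q : ℕ) (ρ : Fin q → κ), ExAt (fun s => C s (Set.range ρ)) (p + 1)) (q : ℕ)
    (hq : ∀ ρ : Fin q → κ, ExAt (fun s => C s (Set.range ρ)) 0) : ExAt (C ∅) q := by
  intro c hc hd
  have he : ∀ τ : Fin 0 → ι, Set.range τ = ∅ := fun τ => Set.range_eq_empty τ
  let z : (Fin 0 → ι) → (Fin (q + 1) → κ) → K := fun _ => c
  have hz : DoubleIn C z := fun τ ρ => by rw [he τ]; exact hc ρ
  have hz2 : doubleD2 z = 0 := funext fun _ => hd
  obtain ⟨y, hy, hy1, hy2⟩ := double_stair hC hcol hrow q 0 (doubleD1 z) (double_in_d1 hC hz)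
    (double_d1_d1 z) (by rw [← double_comm, hz2, double_d1_zero])
  obtain ⟨t, ht, hty⟩ := double_row hq hy hy1
  have h : doubleD2 t - z = 0 :=
    double_eq_zero_of_d1 (by rw [double_d1_sub, double_comm, hty, hy2, sub_self])
  refine ⟨t Fin.elim0, fun ρ => ?_, congrFun (sub_eq_zero.1 h) Fin.elim0⟩
  have := ht Fin.elim0 ρ
  rwa [he] at this

/-- The double complex. -/
theorem exAt_of_double [AddSubgroupClass σ K] [Nonempty ι] [Nonempty κ] (C : Set ι → Set κ → σ)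
    (hC : ∀ s s' t t', s ⊆ s' → t ⊆ t' → ∀ x ∈ C s t, x ∈ C s' t')
    (hcol : ∀ s, s.Nonempty → ∀ n, ExAt (C s) n)
    (hrow : ∀ t, t.Nonempty → ∀ n, ExAt (fun s => C s t) n)
    (h0 : ∀ n, ExAt (fun s => C s ∅) (n + 1)) :
    (∀ n, ExAt (C ∅) (n + 1)) ∧ (ExAt (fun s => C s ∅) 0 → ExAt (C ∅) 0) := by
  have hr : ∀ (p q : ℕ) (ρ : Fin q → κ), ExAt (fun s => C s (Set.range ρ)) (p + 1) := by
    intro p q ρ
    rcases (Set.range ρ).eq_empty_or_nonempty with h | h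
    · rw [h]; exact h0 p
    · exact hrow _ h _
  refine ⟨fun n => double_end hC hcol hr (n + 1) fun ρ => hrow _ (Set.range_nonempty ρ) 0,
    fun h => double_end hC hcol hr 0 fun ρ => ?_⟩
  rw [Set.range_eq_empty ρ]
  exact h

end Pool.Agent.Lib.MP_954e53_ag.RS
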