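import Pool.Agent.Lib.MP_954e53_ag.RS.Chart
import Pool.Agent.Lib.MP_954e53_ag.RS.Double

/-! Independence of the cover. -/

namespace Pool.Agent.Lib.MP_954e53_ag.RS

universe u

variable {k K : Type u} [Field k] [Field K] [Algebra k K] {ι κ : Type*} {B C : Subalgebra k K}
  {V V' : Set K}

/-- The Cech complex of an affine scheme is exact. -/
lemma Covers.exAt_sup [Finite ι] {f : ι → K} (h : Covers B V f) {g : K} (hg : g ∈ V)
    (hg0 : g ≠ 0) (hC : chart B V g ≤ C) (n : ℕ) : ExAt (fun s => C ⊔ charts B V f s) n := by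
  refine exAt_of_loc (B := C) (fun _ => le_sup_left) fun m hm => ?_
  obtain ⟨i, hi⟩ := h.exists_notMem hg hg0 hC m hm.ne_top
  refine ⟨_, hi, exAt_of_cone i (fun s => ?_) n⟩
  have e : ∀ t, loc (C ⊔ charts B V f t) (f i / g) = C ⊔ charts B V f t ⊔ chart B V (f i) :=
    fun t => (sup_chart_eq_loc (h.mem i) hg0 (h.ne i) hg (hC.trans le_sup_left)).symm
  change loc (C ⊔ charts B V f (insert i s)) (f i / g) ≤ loc (C ⊔ charts B V f s) (f i / g)
  rw [e, e]
  refine sup_le (sup_le (le_sup_left.trans le_sup_left) (charts_le_iff.2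
    ⟨(le_chart B V (f i)).trans le_sup_right, fun j hj v hv => ?_⟩)) le_sup_right
  rcases hj with rfl | hj
  · exact (le_sup_right : chart B V (f j) ≤ _) (div_mem_chart B hv _)
  · exact ((chart_le_charts B V f hj).trans (le_sup_right.trans le_sup_left))
      (div_mem_chart B hv _)

/-- Smoothness can be checked on a cover. -/
theorem Covers.smooth {f : ι → K} (h : Covers B V f)
    (hs : ∀ i, Algebra.Smooth k (chart B V (f i))) :
    ∀ g ∈ V, g ≠ 0 → Algebra.Smooth k (chart B V g) := by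
  intro g hg hg0
  refine smooth_of_loc fun m hm => ?_
  obtain ⟨i, hi⟩ := h.exists_notMem hg hg0 le_rfl m hm.ne_top
  refine ⟨_, hi, ?_⟩
  change Algebra.Smooth k (loc (chart B V g) (f i / g))
  rw [← sup_chart_eq_loc (h.mem i) hg0 (h.ne i) hg le_rfl, sup_comm,
    sup_chart_eq_loc hg (h.ne i) hg0 (h.mem i) le_rfl]
  exact smooth_loc (div_mem_chart B hg _) (hs i)

/-- Exactness does not depend on the cover. -/
theorem Mdl.exAt [Finite ι] {n₀ : ℕ} (hM : Mdl B V n₀) (hn : n₀ ≤ 1) {f : ι → K}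
    (h : Covers B V f) (n : ℕ) (h1 : n₀ ≤ n) : ExAt (charts B V f) n := by
  obtain ⟨ι', _, f', h', he⟩ := hM.ex
  have := h.nonempty
  have := h'.nonempty
  have e1 : ∀ m, n₀ ≤ m → ExAt (fun s => charts B V f' s ⊔ charts B V f ∅) m := fun m hm =>
    (he m hm).congr fun s x => by rw [charts_empty, sup_eq_left.2 (le_charts B V f' s)]
  have e2 : ∀ m, ExAt (fun t => charts B V f' ∅ ⊔ charts B V f t) m → ExAt (charts B V f) m :=
    fun m hm => hm.congr fun t x => by rw [charts_empty, sup_eq_right.2 (le_charts B V f t)]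
  have key := exAt_of_double (fun s t => charts B V f' s ⊔ charts B V f t)
    (fun s s' t t' hs ht => sup_le_sup (charts_mono B V f' hs) (charts_mono B V f ht))
    (fun s ⟨i, hi⟩ m => h.exAt_sup (h'.mem i) (h'.ne i) (chart_le_charts B V f' hi) m)
    (fun t ⟨i, hi⟩ m => (h'.exAt_sup (h.mem i) (h.ne i) (chart_le_charts B V f hi) m).congr
      fun s x => by rw [sup_comm])
    fun m => e1 _ (by omega)
  cases n with
  | zero => exact e2 _ (key.2 (e1 _ h1))
  | succ n => exact e2 _ (key.1 n)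

/-- One cover is enough. -/
theorem Mdl.of_cover [Finite ι] {n₀ : ℕ} {f : ι → K} (h : Covers B V f)
    (hs : ∀ g ∈ V, g ≠ 0 → Algebra.Smooth k (chart B V g))
    (he : ∀ n, n₀ ≤ n → ExAt (charts B V f) n) : Mdl B V n₀ := by
  obtain ⟨N, ⟨e⟩⟩ := Finite.exists_equiv_fin ι
  refine ⟨hs, Fin N, inferInstance, fun j => f (e.symm j),
    ⟨fun j => h.mem _, fun j => h.ne _, fun O hO => ?_⟩, fun n hn => ?_⟩
  · obtain ⟨i, hi⟩ := h.val O hO
    exact ⟨e i, by rwa [e.symm_apply_apply]⟩
  · refine ((he n hn).reindex e.symm).congr fun s x => ?_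
    simp only [charts, iSup_image]

lemma cover_chart_mul {t : K} (ht : t ≠ 0) (f : K) :
    chart B ((fun v => t * v) '' V) (t * f) = chart B V f := by
  simp only [chart, Set.image_image, mul_div_mul_left _ _ ht]

/-- Rescaling. -/
theorem Mdl.mul_left {n₀ : ℕ} (hM : Mdl B V n₀) {t : K} (ht : t ≠ 0) :
    Mdl B ((fun v => t * v) '' V) n₀ := by
  obtain ⟨ι', _, f, h, he⟩ := hM.ex
  refine ⟨?_, ι', inferInstance, fun i => t * f i,
    ⟨fun i => ⟨_, h.mem i, rfl⟩, fun i => mul_ne_zero ht (h.ne i), fun O hO => ?_⟩, fun n hn => ?_⟩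
  · rintro _ ⟨v, hv, rfl⟩ h0
    rw [cover_chart_mul ht]
    exact hM.smooth v hv (right_ne_zero_of_mul h0)
  · obtain ⟨i, hi⟩ := h.val O hO
    refine ⟨i, ?_⟩
    rintro _ ⟨v, hv, rfl⟩
    rw [mul_div_mul_left _ _ ht]
    exact hi v hv
  · refine (he n hn).congr fun s x => ?_
    simp only [charts, cover_chart_mul ht]

lemma cover_div_mem {O : ValuationSubring K} (hO : ∀ b ∈ B, b ∈ O) {f : K}
    (h : ∀ v ∈ V, v / f ∈ O) {x : K} (hx : x ∈ Submodule.span B V) : x / f ∈ O := by
  induction hx using Submodule.span_induction with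
  | mem x hx => exact h x hx
  | zero => rw [zero_div]; exact O.zero_mem
  | add x y _ _ hx hy => rw [add_div]; exact O.add_mem _ _ hx hy
  | smul b x _ hx =>
    rw [Subalgebra.smul_def, smul_eq_mul, mul_div_assoc]
    exact O.mul_mem _ _ (hO _ b.2) hx

/-- Only the module generated by `V` matters. -/
theorem Mdl.of_span {n₀ : ℕ} (hM : Mdl B V n₀) (hn : n₀ ≤ 1) (h1 : V ⊆ Submodule.span B V')
    (h2 : V' ⊆ Submodule.span B V) : Mdl B V' n₀ := by
  obtain ⟨ι', _, f, h, he⟩ := hM.ex
  have s1 : V ∪ V' ⊆ Submodule.span B V := Set.union_subset Submodule.subset_span h2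
  have s2 : V ∪ V' ⊆ Submodule.span B V' := Set.union_subset h1 Submodule.subset_span
  have c1 : chart B (V ∪ V') = chart B V := funext fun g => le_antisymm (chart_le_of_span s1 g)
    (chart_le_of_span (Set.subset_union_left.trans Submodule.subset_span) g)
  have c2 : chart B (V ∪ V') = chart B V' := funext fun g => le_antisymm (chart_le_of_span s2 g)
    (chart_le_of_span (Set.subset_union_right.trans Submodule.subset_span) g)
  have hW : Covers B (V ∪ V') f := ⟨fun i => Or.inl (h.mem i), h.ne, fun O hO =>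
    (h.val O hO).imp fun i hi v hv => cover_div_mem hO hi (s1 hv)⟩
  have hs := hW.smooth fun i => by rw [c1]; exact hM.smooth _ (h.mem i) (h.ne i)
  have hM' : Mdl B (V ∪ V') n₀ := ⟨hs, ι', inferInstance, f, hW, fun n hn' =>
    (he n hn').congr fun s x => by simp only [charts, c1]⟩
  choose T hT hfT using fun i => Submodule.mem_span_finite_of_mem_span (h1 (h.mem i))
  obtain ⟨S, hS⟩ : ∃ S : Set K, S = (⋃ i, (T i : Set K)) \ {0} := ⟨_, rfl⟩
  have : Finite S := hS ▸ (Set.finite_iUnion fun i => (T i).finite_toSet).sdiff.to_subtype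
  have SV : ∀ j : S, (j : K) ∈ V' ∧ (j : K) ≠ 0 := fun ⟨j, hj⟩ => by
    rw [hS] at hj
    obtain ⟨i, hi⟩ := Set.mem_iUnion.1 hj.1
    exact ⟨hT i hi, hj.2⟩
  have fS : ∀ i, f i ∈ Submodule.span B S := fun i => by
    rw [hS, Submodule.span_sdiff_singleton_zero]
    exact Submodule.span_mono (Set.subset_iUnion (fun i => (T i : Set K)) i) (hfT i)
  have : Nonempty S := by
    obtain ⟨i⟩ := h.nonempty
    rcases S.eq_empty_or_nonempty with h0 | h0
    · have := fS i
      rw [h0, Submodule.span_empty, Submodule.mem_bot] at this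
      exact absurd this (h.ne i)
    · exact h0.to_subtype
  have hc0 : Covers B (S ∪ Set.range f) (Subtype.val : S → K) :=
    Covers.of_span (fun j => Or.inl j.2) (fun j => (SV j).2) (by
      rw [Subtype.range_val]
      exact Set.union_subset Submodule.subset_span (Set.range_subset_iff.2 fS))
  have hc : Covers B (V ∪ V') (Subtype.val : S → K) := by
    refine ⟨fun j => Or.inr (SV j).1, fun j => (SV j).2, fun O hO => ?_⟩
    obtain ⟨i, hi⟩ := hW.val O hO
    obtain ⟨j, hj⟩ := hc0.val O hO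
    refine ⟨j, fun v hv => ?_⟩
    rw [← div_mul_div_cancel₀ (h.ne i)]
    exact O.mul_mem _ _ (hi v hv) (hj _ (Or.inr ⟨i, rfl⟩))
  refine Mdl.of_cover (f := (Subtype.val : S → K)) ⟨fun j => (SV j).1, hc.ne, fun O hO =>
    (hc.val O hO).imp fun j hj v hv => hj v (Or.inr hv)⟩ (fun g hg hg0 => ?_) fun n hn' => ?_
  · rw [← c2]
    exact hs g (Or.inr hg) hg0
  · exact (hM'.exAt hn hc n hn').congr fun s x => by simp only [charts, c2]

end Pool.Agent.Lib.MP_954e53_ag.RS
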