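import Pool.Agent.Lib.MP_954e53_ag.RS.CoordEx
import Pool.Agent.Lib.MP_954e53_ag.RS.Cover

/-! The blow-up of a coordinate subspace. -/

namespace Pool.Agent.Lib.MP_954e53_ag.RS

universe u

variable {k K : Type u} [Field k] [Field K] [Algebra k K] {B : Subalgebra k K} {r s : ℕ}
  {x : Fin r → B} {y : Fin s → B}

theorem mdl_coord (het : (MvPolynomial.aeval (Sum.elim x y) :
    MvPolynomial (Fin r ⊕ Fin s) k →ₐ[k] B).toRingHom.Etale) (hr : 0 < r) :
    Mdl B (Set.range fun i => (x i : K)) 0 := by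
  have : Nonempty (Fin r) := ⟨⟨0, hr⟩⟩
  have h0 : ∀ i, (x i : K) ≠ 0 := fun i h => by
    have h1 : MvPolynomial.aeval (R := k) (Sum.elim x y) (MvPolynomial.X (Sum.inl i)) = 0 := by
      rw [MvPolynomial.aeval_X]
      exact Subtype.ext h
    exact MvPolynomial.X_ne_zero _ (coord_injective het (h1.trans (map_zero _).symm))
  have hc : Covers B (Set.range fun i => (x i : K)) fun i => (x i : K) :=
    Covers.of_span (fun i => ⟨i, rfl⟩) h0 Submodule.subset_span
  exact ⟨hc.smooth (coord_smooth het), Fin r, inferInstance, _, hc, fun n _ => coord_exAt het hr n⟩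

end Pool.Agent.Lib.MP_954e53_ag.RS
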