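import Pool.Agent.Lib.MP_954e53_ag.RS.Cech

/-! Flat base change of Cech complexes. -/

namespace Pool.Agent.Lib.MP_954e53_ag.RS

lemma flat_aux1 {P B L T : Type*} [CommRing P] [CommRing B] [Algebra P B] [Module.Flat P B]
    [Fintype L] [Finite T] (b : L → B) (q : L → T → P) (h : ∀ t, ∑ l, q l t • b l = 0) :
    ∃ (k : ℕ) (a : L → Fin k → P) (y : Fin k → B), (∀ l, b l = ∑ j, a l j • y j) ∧
      ∀ t j, ∑ l, q l t * a l j = 0 := by
  classical
  have := Fintype.ofFinite T
  have h0 : Fintype.linearCombination P b ∘ₗ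
      Fintype.linearCombination P (fun (t : T) (l : L) => q l t) = 0 := by
    apply LinearMap.pi_ext'
    intro t
    apply LinearMap.ext_ring
    simp only [LinearMap.comp_apply, LinearMap.single_apply,
      Fintype.linearCombination_apply_single, one_smul, LinearMap.zero_apply]
    rw [Fintype.linearCombination_apply]
    exact h t
  obtain ⟨k, a, y, h1, h2⟩ := Module.Flat.exists_factorization_of_comp_eq_zero_of_free h0
  refine ⟨k, fun l j => a (Pi.single l 1) j, fun j => y (Finsupp.single j 1), fun l => ?_,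
    fun t j => ?_⟩
  · have e := LinearMap.congr_fun h1 (Pi.single l 1)
    rw [Fintype.linearCombination_apply_single, one_smul, LinearMap.comp_apply] at e
    rw [e]
    conv_lhs => rw [← Finsupp.univ_sum_single (a (Pi.single l 1)), map_sum]
    refine Finset.sum_congr rfl fun j _ => ?_
    rw [← map_smul, Finsupp.smul_single, smul_eq_mul, mul_one]
  · have e := LinearMap.congr_fun h2 (Pi.single t 1)
    rw [LinearMap.comp_apply, Fintype.linearCombination_apply_single, one_smul,
      LinearMap.zero_apply] at e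
    have e2 : (fun l => q l t) = ∑ l, q l t • (Pi.single l 1 : L → P) := by
      funext l'
      simp [Finset.sum_apply, Pi.single_apply]
    rw [e2, map_sum] at e
    have e3 := congrArg (fun v : Fin k →₀ P => v j) e
    simpa [Finsupp.finsetSum_apply] using e3

lemma flat_cd_sum {R K L ι : Type*} [CommRing R] [AddCommGroup K] [Module R K] [Fintype L] {n : ℕ}
    (r : L → R) (m : L → (Fin n → ι) → K) (τ : Fin (n + 1) → ι) :
    cd (fun ρ => ∑ l, r l • m l ρ) τ = ∑ l, r l • cd (m l) τ := by
  unfold cd
  simp only [Finset.smul_sum]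
  rw [Finset.sum_comm]
  refine Finset.sum_congr rfl fun l _ => Finset.sum_congr rfl fun j _ => ?_
  rw [smul_comm]

theorem exAt_flat {P B K ι : Type*} [CommRing P] [CommRing B] [Field K] [Algebra P B]
    [Algebra P K] [Algebra B K] [IsScalarTower P B K] [Module.Flat P B] [Finite ι]
    (hB : Function.Injective (algebraMap B K)) (hP : Function.Injective (algebraMap P K))
    (M : Set ι → Submodule P K)
    (hden : ∀ s, ∀ x ∈ M s, ∃ D p : P, D ≠ 0 ∧ algebraMap P K D * x = algebraMap P K p) {n : ℕ}
    (h : ExAt M n) : ExAt (fun s => Submodule.span B (M s : Set K)) n := by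
  classical
  intro c hc hc0
  have := Fintype.ofFinite ι
  choose N f g hfg using fun τ => Submodule.mem_span_set'.1 (hc τ)
  let L := Σ τ : Fin (n + 1) → ι, Fin (N τ)
  let b : L → B := fun l => f l.1 l.2
  let m : L → (Fin (n + 1) → ι) → K := fun l τ => if l.1 = τ then (g l.1 l.2 : K) else 0
  have hm : ∀ l τ, m l τ ∈ M (Set.range τ) := by
    intro l τ
    by_cases e : l.1 = τ
    · simp only [m, if_pos e]
      rw [← e]
      exact (g l.1 l.2).2
    · simp only [m, if_neg e]
      exact Submodule.zero_mem _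
  have hcm : c = fun τ => ∑ l, b l • m l τ := by
    funext τ
    rw [Fintype.sum_sigma, Finset.sum_eq_single τ]
    · simp only [m, b, if_true]
      exact (hfg τ).symm
    · intro τ' _ e
      simp only [m, if_neg e, smul_zero, Finset.sum_const_zero]
    · intro e
      exact absurd (Finset.mem_univ τ) e
  choose D p hD hp using fun l : L × (Fin (n + 1) → ι) => hden _ _ (hm l.1 l.2)
  have hD' : ∀ l, algebraMap P K (D l) ≠ 0 := fun l e => hD l (hP (by rw [e, map_zero]))
  let E : P := ∏ l, D l
  have hE : algebraMap P K E ≠ 0 := by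
    rw [map_prod]
    exact Finset.prod_ne_zero_iff.2 fun l _ => hD' l
  have hEm : ∀ l τ, ∃ r : P, algebraMap P K r = algebraMap P K E * m l τ := by
    intro l τ
    refine ⟨(∏ l' ∈ Finset.univ.erase (l, τ), D l') * p (l, τ), ?_⟩
    rw [map_mul, ← hp (l, τ), ← mul_assoc, ← map_mul,
      Finset.prod_erase_mul _ _ (Finset.mem_univ _)]
  choose r hr using hEm
  have hq : ∀ l τ, algebraMap P K (cd (r l) τ) = algebraMap P K E * cd (m l) τ := by
    intro l τ
    have e1 := congrFun (cd_map (algebraMap P K).toAddMonoidHom (r l)) τ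
    have e2 := congrFun (cd_map (AddMonoidHom.mulLeft (algebraMap P K E)) (m l)) τ
    simp only [RingHom.toAddMonoidHom_eq_coe, AddMonoidHom.coe_coe, AddMonoidHom.coe_mulLeft]
      at e1 e2
    rw [← e1, ← e2]
    simp only [hr]
  have hrel : ∀ τ, ∑ l, cd (r l) τ • b l = 0 := by
    intro τ
    apply hB
    have e := congrFun hc0 τ
    rw [hcm, flat_cd_sum b m, Pi.zero_apply] at e
    rw [map_zero, map_sum, ← mul_zero (algebraMap P K E), ← e, Finset.mul_sum]
    refine Finset.sum_congr rfl fun l _ => ?_
    rw [Algebra.smul_def, Algebra.smul_def, map_mul, ← IsScalarTower.algebraMap_apply, hq]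
    ring
  obtain ⟨k, a, y, h1, h2⟩ := flat_aux1 b (fun l τ => cd (r l) τ) hrel
  have hex : ∀ j : Fin k, ∃ u : (Fin n → ι) → K, (∀ τ, u τ ∈ M (Set.range τ)) ∧
      cd u = fun τ => ∑ l, a l j • m l τ := by
    intro j
    refine h _ (fun τ => Submodule.sum_mem _ fun l _ => Submodule.smul_mem _ _ (hm l τ)) ?_
    funext τ
    rw [flat_cd_sum (fun l => a l j) m, Pi.zero_apply]
    apply mul_left_cancel₀ hE
    have e := congrArg (algebraMap P K) (h2 τ j)
    rw [map_zero, map_sum] at e
    rw [mul_zero, ← e, Finset.mul_sum]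
    refine Finset.sum_congr rfl fun l _ => ?_
    rw [Algebra.smul_def, map_mul, hq]
    ring
  choose u hu hcu using hex
  refine ⟨fun τ => ∑ j, y j • u j τ, fun τ => Submodule.sum_mem _ fun j _ =>
    Submodule.smul_mem _ _ (Submodule.subset_span (hu j τ)), ?_⟩
  funext τ
  rw [flat_cd_sum y u, hcm]
  simp only [hcu, h1, Finset.smul_sum, Finset.sum_smul]
  rw [Finset.sum_comm]
  refine Finset.sum_congr rfl fun l _ => Finset.sum_congr rfl fun j _ => ?_
  rw [smul_assoc, smul_comm]

end Pool.Agent.Lib.MP_954e53_ag.RS
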