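import Pool.Agent.Lib.MP_954e53_ag.RS.CoordSmooth
import Pool.Agent.Lib.MP_954e53_ag.RS.Flat
import Pool.Agent.Lib.MP_954e53_ag.RS.Laurent

/-! The Cech complex of the blow-up of a coordinate subspace. -/

namespace Pool.Agent.Lib.MP_954e53_ag.RS

universe u

variable {k K : Type u} [Field k] [Field K] [Algebra k K] {B : Subalgebra k K} {r s : ℕ}
  {x : Fin r → B} {y : Fin s → B}

/-- Admissible exponent vectors. -/
def coordEx_L (r s : ℕ) : Type :=
  {a : Fin r ⊕ Fin s → ℤ // (∀ j, 0 ≤ a (Sum.inr j)) ∧ 0 ≤ ∑ i, a (Sum.inl i)}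

/-- Laurent monomial. -/
def coordEx_e {τ : Type} [Fintype τ] (z : τ → K) (a : τ → ℤ) : K := ∏ i, z i ^ a i

/-- The Laurent monomials with poles along `t` only. -/
def coordEx_S (z : Fin r ⊕ Fin s → K) (t : Set (Fin r)) : Set K :=
  (fun a : coordEx_L r s => coordEx_e z a.1) '' {a | {i | a.1 (Sum.inl i) < 0} ⊆ t}

lemma coordEx_e_add {τ : Type} [Fintype τ] {z : τ → K} (hz : ∀ i, z i ≠ 0) (a b : τ → ℤ) :
    coordEx_e z (a + b) = coordEx_e z a * coordEx_e z b := by
  simp only [coordEx_e, Pi.add_apply, ← Finset.prod_mul_distrib]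
  exact Finset.prod_congr rfl fun i _ => zpow_add₀ (hz i) _ _

lemma coordEx_e_single {τ : Type} [Fintype τ] [DecidableEq τ] (z : τ → K) (i : τ) (m : ℤ) :
    coordEx_e z (Pi.single i m) = z i ^ m := by
  unfold coordEx_e
  rw [Finset.prod_eq_single i]
  · simp
  · intro j _ hj
    simp [Pi.single_eq_of_ne hj]
  · simp

lemma coordEx_mem_S {z : Fin r ⊕ Fin s → K} {t : Set (Fin r)} (a : Fin r ⊕ Fin s → ℤ)
    (h1 : ∀ j, 0 ≤ a (Sum.inr j)) (h2 : 0 ≤ ∑ i, a (Sum.inl i))
    (h3 : ∀ i, a (Sum.inl i) < 0 → i ∈ t) : coordEx_e z a ∈ coordEx_S z t :=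
  ⟨⟨a, h1, h2⟩, fun i hi => h3 i hi, rfl⟩

lemma coordEx_one_mem (z : Fin r ⊕ Fin s → K) (t : Set (Fin r)) : (1 : K) ∈ coordEx_S z t := by
  have h := coordEx_mem_S (z := z) (t := t) 0 (fun _ => le_rfl) (by simp) (by simp)
  simpa [coordEx_e] using h

lemma coordEx_mul_mem {z : Fin r ⊕ Fin s → K} (hz : ∀ i, z i ≠ 0) {t : Set (Fin r)} {u v : K}
    (hu : u ∈ coordEx_S z t) (hv : v ∈ coordEx_S z t) : u * v ∈ coordEx_S z t := by
  obtain ⟨a, ha, rfl⟩ := hu
  obtain ⟨b, hb, rfl⟩ := hv
  show coordEx_e z a.1 * coordEx_e z b.1 ∈ _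
  rw [← coordEx_e_add hz]
  refine coordEx_mem_S _ (fun j => add_nonneg (a.2.1 j) (b.2.1 j)) ?_ ?_
  · simp only [Pi.add_apply, Finset.sum_add_distrib]
    exact add_nonneg a.2.2 b.2.2
  · intro i hi
    by_contra hc
    have h1 : ¬ a.1 (Sum.inl i) < 0 := fun h => hc (ha h)
    have h2 : ¬ b.1 (Sum.inl i) < 0 := fun h => hc (hb h)
    simp only [Pi.add_apply] at hi
    omega

lemma coordEx_var_mem (z : Fin r ⊕ Fin s → K) (t : Set (Fin r)) (i : Fin r ⊕ Fin s) :
    z i ∈ coordEx_S z t := by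
  classical
  have h0 : ∀ j, (0 : ℤ) ≤ (Pi.single i 1 : Fin r ⊕ Fin s → ℤ) j := fun j => by
    by_cases h : j = i
    · subst h; simp
    · simp [Pi.single_eq_of_ne h]
  have h := coordEx_mem_S (z := z) (t := t) (Pi.single i 1) (fun j => h0 _)
    (Finset.sum_nonneg fun j _ => h0 _) (fun j hj => absurd hj (not_lt.2 (h0 _)))
  rwa [coordEx_e_single, zpow_one] at h

lemma coordEx_div_mem {z : Fin r ⊕ Fin s → K} (hz : ∀ i, z i ≠ 0) {t : Set (Fin r)}
    (i : Fin r) {j : Fin r} (hj : j ∈ t) : z (Sum.inl i) / z (Sum.inl j) ∈ coordEx_S z t := by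
  classical
  have h := coordEx_mem_S (z := z) (t := t)
    (Pi.single (Sum.inl i) 1 + Pi.single (Sum.inl j) (-1)) (fun l => by simp) ?_ ?_
  · rwa [coordEx_e_add hz, coordEx_e_single, coordEx_e_single, zpow_one, zpow_neg_one,
      ← div_eq_mul_inv] at h
  · simp only [Pi.add_apply, Finset.sum_add_distrib, Pi.single_apply, Sum.inl.injEq]
    simp
  · intro l hl
    by_contra hc
    have hlj : l ≠ j := fun h => hc (h ▸ hj)
    simp only [Pi.add_apply, Pi.single_apply, Sum.inl.injEq, hlj, if_false] at hl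
    split_ifs at hl <;> omega

lemma coordEx_zpow_mem {C : Subalgebra k K} {u : K} (hu : u ∈ C) {m : ℤ} (hm : 0 ≤ m) :
    u ^ m ∈ C := by
  obtain ⟨n, rfl⟩ := Int.eq_ofNat_of_zero_le hm
  rw [zpow_natCast]
  exact C.pow_mem hu n

lemma coordEx_S_le {z : Fin r ⊕ Fin s → K} (hz : ∀ i, z i ≠ 0) {C : Subalgebra k K}
    {t : Set (Fin r)} (hC : ∀ i, z i ∈ C)
    (hd : ∀ j ∈ t, ∀ i, z (Sum.inl i) / z (Sum.inl j) ∈ C) : coordEx_S z t ⊆ C := by
  rintro _ ⟨a, ha, rfl⟩
  show coordEx_e z a.1 ∈ C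
  unfold coordEx_e
  rw [Fintype.prod_sum_type]
  refine C.mul_mem ?_ (C.prod_mem fun j _ => coordEx_zpow_mem (hC _) (a.2.1 j))
  by_cases h : ∃ j, a.1 (Sum.inl j) < 0
  · obtain ⟨j, hj⟩ := h
    have hjt : j ∈ t := ha hj
    have h1 : ∏ i, z (Sum.inl i) ^ a.1 (Sum.inl i) =
        (∏ i, (z (Sum.inl i) / z (Sum.inl j)) ^ a.1 (Sum.inl i)) *
          z (Sum.inl j) ^ (∑ i, a.1 (Sum.inl i)) := by
      have h2 : ∀ u : Finset (Fin r), z (Sum.inl j) ^ (∑ i ∈ u, a.1 (Sum.inl i)) =
          ∏ i ∈ u, z (Sum.inl j) ^ a.1 (Sum.inl i) := by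
        intro u
        induction u using Finset.induction_on with
        | empty => simp
        | insert b u hb ih => rw [Finset.sum_insert hb, Finset.prod_insert hb, zpow_add₀ (hz _), ih]
      rw [h2, ← Finset.prod_mul_distrib]
      refine Finset.prod_congr rfl fun i _ => ?_
      rw [← mul_zpow, div_mul_cancel₀ _ (hz _)]
    rw [h1]
    refine C.mul_mem (C.prod_mem fun i _ => ?_) (coordEx_zpow_mem (hC _) a.2.2)
    rcases lt_or_ge (a.1 (Sum.inl i)) 0 with hi | hi
    · have h3 : (z (Sum.inl i) / z (Sum.inl j)) ^ a.1 (Sum.inl i) =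
          (z (Sum.inl j) / z (Sum.inl i)) ^ (-a.1 (Sum.inl i)) := by
        rw [zpow_neg, ← inv_zpow, inv_div]
      rw [h3]
      exact coordEx_zpow_mem (hd i (ha hi) j) (by omega)
    · exact coordEx_zpow_mem (hd j hjt i) hi
  · push Not at h
    exact C.prod_mem fun i _ => coordEx_zpow_mem (hC _) (h i)

lemma coordEx_den {τ : Type} [Fintype τ] {z : τ → K} (hz : ∀ i, z i ≠ 0) (a : τ → ℤ) :
    (∏ i, z i ^ (-a i).toNat) * coordEx_e z a = ∏ i, z i ^ (a i).toNat := by
  unfold coordEx_e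
  rw [← Finset.prod_mul_distrib]
  refine Finset.prod_congr rfl fun i _ => ?_
  rw [← zpow_natCast, ← zpow_natCast, ← zpow_add₀ (hz i)]
  congr 1
  omega

theorem coord_exAt (het : (MvPolynomial.aeval (Sum.elim x y) :
    MvPolynomial (Fin r ⊕ Fin s) k →ₐ[k] B).toRingHom.Etale) (hr : 0 < r) (n : ℕ) :
    ExAt (charts B (Set.range fun i => (x i : K)) fun i => (x i : K)) n := by
  classical
  set φ : MvPolynomial (Fin r ⊕ Fin s) k →ₐ[k] B := MvPolynomial.aeval (Sum.elim x y) with hφ
  let ψ : MvPolynomial (Fin r ⊕ Fin s) k →ₐ[k] K := B.val.comp φ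
  let z : Fin r ⊕ Fin s → K := fun i => ((Sum.elim x y i : B) : K)
  have hψ : Function.Injective ψ := Subtype.val_injective.comp (coord_injective het)
  have hX : ∀ i, ψ (MvPolynomial.X i) = z i := fun i => by simp [ψ, hφ, z]
  have hz : ∀ i, z i ≠ 0 := fun i h => by
    rw [← hX, ← map_zero ψ] at h
    exact MvPolynomial.X_ne_zero i (hψ h)
  have hind0 : LinearIndependent k fun p : Unit × (Fin r ⊕ Fin s →₀ ℕ) =>
      (1 : K) * ∏ i, z i ^ p.2 i := by
    have h1 := (MvPolynomial.basisMonomials (Fin r ⊕ Fin s) k).linearIndependent.map'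
      ψ.toLinearMap (LinearMap.ker_eq_bot.2 hψ)
    have h2 := h1.comp (Prod.snd : Unit × (Fin r ⊕ Fin s →₀ ℕ) → _)
      (fun p q h => Prod.ext rfl h)
    have h3 : (fun p : Unit × (Fin r ⊕ Fin s →₀ ℕ) => (1 : K) * ∏ i, z i ^ p.2 i) =
        (ψ.toLinearMap ∘ MvPolynomial.basisMonomials (Fin r ⊕ Fin s) k) ∘ Prod.snd := by
      funext p
      simp only [Function.comp_apply, MvPolynomial.coe_basisMonomials, AlgHom.toLinearMap_apply,
        one_mul]
      rw [MvPolynomial.monomial_eq, map_mul, Finsupp.prod_fintype _ _ (by simp), map_prod]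
      simp [hX]
    rw [h3]
    exact h2
  have hind : LinearIndependent k fun a : coordEx_L r s => coordEx_e z a.1 := by
    have h1 := (linearIndependent_zpow z hz (fun _ : Unit => (1 : K)) hind0).comp
      (fun a : coordEx_L r s => (((), a.1) : Unit × (Fin r ⊕ Fin s → ℤ)))
      (fun a b h => Subtype.ext (congrArg Prod.snd h))
    have h3 : (fun a : coordEx_L r s => coordEx_e z a.1) =
        (fun p : Unit × (Fin r ⊕ Fin s → ℤ) => (1 : K) * ∏ i, z i ^ p.2 i) ∘
          fun a : coordEx_L r s => (((), a.1) : Unit × (Fin r ⊕ Fin s → ℤ)) := by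
      funext a
      simp [coordEx_e]
    rw [h3]
    exact h1
  have hex0 : ExAt (fun t => Submodule.span k (coordEx_S z t)) n := by
    refine exAt_span hind (fun a => {i | a.1 (Sum.inl i) < 0}) (fun a h => ?_) n
    have h1 : ∀ i, a.1 (Sum.inl i) < 0 := fun i => by
      have : i ∈ {i | a.1 (Sum.inl i) < 0} := h ▸ Set.mem_univ i
      exact this
    have : Nonempty (Fin r) := ⟨⟨0, hr⟩⟩
    have h2 := Finset.sum_neg (s := Finset.univ) (fun i _ => h1 i) Finset.univ_nonempty
    exact absurd a.2.2 (not_le.2 h2)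
  have hstab : ∀ (t : Set (Fin r)) (p : MvPolynomial (Fin r ⊕ Fin s) k),
      ∀ u ∈ Submodule.span k (coordEx_S z t), ψ p * u ∈ Submodule.span k (coordEx_S z t) := by
    intro t p u hu
    have h1 : ψ p ∈ Submodule.span k (coordEx_S z t) := by
      induction p using MvPolynomial.induction_on with
      | C c =>
        rw [← MvPolynomial.algebraMap_eq, AlgHom.commutes, Algebra.algebraMap_eq_smul_one]
        exact Submodule.smul_mem _ _ (Submodule.subset_span (coordEx_one_mem z t))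
      | add p q hp hq => rw [map_add]; exact Submodule.add_mem _ hp hq
      | mul_X p i hp =>
        rw [map_mul, hX]
        have h2 := Submodule.mul_mem_mul hp (Submodule.subset_span (R := k) (coordEx_var_mem z t i))
        rw [Submodule.span_mul_span] at h2
        refine Submodule.span_mono ?_ h2
        rintro _ ⟨a, ha, b, hb, rfl⟩
        exact coordEx_mul_mem hz ha hb
    have h2 := Submodule.mul_mem_mul h1 hu
    rw [Submodule.span_mul_span] at h2
    refine Submodule.span_mono ?_ h2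
    rintro _ ⟨a, ha, b, hb, rfl⟩
    exact coordEx_mul_mem hz ha hb
  let _ : Algebra (MvPolynomial (Fin r ⊕ Fin s) k) B := φ.toRingHom.toAlgebra
  let _ : Algebra (MvPolynomial (Fin r ⊕ Fin s) k) K := ψ.toRingHom.toAlgebra
  have : IsScalarTower (MvPolynomial (Fin r ⊕ Fin s) k) B K :=
    IsScalarTower.of_algebraMap_eq fun _ => rfl
  have : Algebra.Etale (MvPolynomial (Fin r ⊕ Fin s) k) B := het
  let M : Set (Fin r) → Submodule (MvPolynomial (Fin r ⊕ Fin s) k) K := fun t =>
    { carrier := Submodule.span k (coordEx_S z t)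
      add_mem' := fun ha hb => Submodule.add_mem _ ha hb
      zero_mem' := Submodule.zero_mem _
      smul_mem' := fun p u hu => hstab t p u hu }
  have hexM : ExAt M n := hex0.congr fun _ _ => Iff.rfl
  have hden : ∀ t, ∀ u ∈ M t, ∃ D p : MvPolynomial (Fin r ⊕ Fin s) k, D ≠ 0 ∧
      algebraMap _ K D * u = algebraMap _ K p := by
    intro t u hu
    change u ∈ Submodule.span k (coordEx_S z t) at hu
    change ∃ D p : MvPolynomial (Fin r ⊕ Fin s) k, D ≠ 0 ∧ ψ D * u = ψ p
    induction hu using Submodule.span_induction with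
    | mem u hu =>
      obtain ⟨a, -, rfl⟩ := hu
      refine ⟨∏ i, MvPolynomial.X i ^ (-a.1 i).toNat, ∏ i, MvPolynomial.X i ^ (a.1 i).toNat,
        Finset.prod_ne_zero_iff.2 fun i _ => pow_ne_zero _ (MvPolynomial.X_ne_zero i), ?_⟩
      simp only [map_prod, map_pow, hX]
      exact coordEx_den hz a.1
    | zero => exact ⟨1, 0, one_ne_zero, by simp⟩
    | add u v _ _ hu hv =>
      obtain ⟨D, p, hD, hp⟩ := hu
      obtain ⟨E, q, hE, hq⟩ := hv
      refine ⟨D * E, E * p + D * q, mul_ne_zero hD hE, ?_⟩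
      simp only [map_add, map_mul, ← hp, ← hq]
      ring
    | smul c u _ hu =>
      obtain ⟨D, p, hD, hp⟩ := hu
      exact ⟨D, c • p, hD, by rw [map_smul, ← hp, mul_smul_comm]⟩
  have hexB := exAt_flat (B := B) Subtype.val_injective hψ M hden hexM
  refine hexB.congr fun t u => ?_
  have h1 : Submodule.span B (M t : Set K) = Submodule.span B (coordEx_S z t) :=
    Submodule.span_span_of_tower k B (coordEx_S z t)
  rw [h1]
  constructor
  · intro hu
    induction hu using Submodule.span_induction with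
    | mem u hu =>
      refine coordEx_S_le hz (fun i => le_charts B _ _ t (Sum.elim x y i).2) (fun j hj i => ?_) hu
      exact chart_le_charts B _ (fun i => (x i : K)) hj (div_mem_chart B (Set.mem_range_self i) _)
    | zero => exact Subalgebra.zero_mem _
    | add u v _ _ hu hv => exact Subalgebra.add_mem _ hu hv
    | smul c u _ hu => exact Subalgebra.mul_mem _ (le_charts B _ _ t c.2) hu
  · intro hu
    let T : Subalgebra B K := (Submodule.span B (coordEx_S z t)).toSubalgebra
      (Submodule.subset_span (coordEx_one_mem z t)) fun a b ha hb => by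
        have h2 := Submodule.mul_mem_mul ha hb
        rw [Submodule.span_mul_span] at h2
        refine Submodule.span_mono ?_ h2
        rintro _ ⟨a, ha, b, hb, rfl⟩
        exact coordEx_mul_mem hz ha hb
    have h2 : charts B (Set.range fun i => (x i : K)) (fun i => (x i : K)) t ≤
        T.restrictScalars k := by
      refine charts_le_iff.2 ⟨fun b hb => T.algebraMap_mem ⟨b, hb⟩, ?_⟩
      rintro j hj _ ⟨i, rfl⟩
      exact Submodule.subset_span (coordEx_div_mem hz i hj)
    exact h2 hu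

end Pool.Agent.Lib.MP_954e53_ag.RS
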