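import Pool.Agent.Lib.MP_954e53_ag.RS.Chart

/-! The blow-up of a coordinate subspace is smooth. -/

namespace Pool.Agent.Lib.MP_954e53_ag.RS

universe u

open TensorProduct in
lemma coordSmooth_aux {k P T B K : Type u} [CommRing k] [CommRing P] [CommRing T] [CommRing B]
    [CommRing K] [Algebra k P] [Algebra k T] [Algebra k B] [Algebra k K] [Algebra.Smooth k T]
    (μ : P →ₐ[k] T) (ε : P →ₐ[k] B) (het : ε.toRingHom.Etale) (φ : B →ₐ[k] K)
    (hφ : Function.Injective φ) (ν : T →ₐ[k] K) (hc : ∀ p, ν (μ p) = φ (ε p)) (a : P)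
    (ha : ∀ t, μ a * t = 0 → t = 0) (hT : ∀ t, ∃ (N : ℕ) (p : P), μ a ^ N * t = μ p) :
    Algebra.Smooth k ↥(ν.range ⊔ φ.range) := by
  let _ : Algebra P T := μ.toRingHom.toAlgebra
  let _ : Algebra P B := ε.toRingHom.toAlgebra
  let _ : Algebra P K := (φ.comp ε).toRingHom.toAlgebra
  have _ : IsScalarTower k P T := IsScalarTower.of_algebraMap_eq fun c => (μ.commutes c).symm
  have _ : IsScalarTower k P B := IsScalarTower.of_algebraMap_eq fun c => (ε.commutes c).symm
  have _ : IsScalarTower k P K :=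
    IsScalarTower.of_algebraMap_eq fun c => ((φ.comp ε).commutes c).symm
  have _ : Algebra.Etale P B := het
  let ν' : T →ₐ[P] K := { ν.toRingHom with commutes' := hc }
  let φ' : B →ₐ[P] K := { φ.toRingHom with commutes' := fun _ => rfl }
  let F : T ⊗[P] B →ₐ[P] K := Algebra.TensorProduct.productMap ν' φ'
  have hF : ∀ t b, F (t ⊗ₜ b) = ν t * φ b := fun t b =>
    Algebra.TensorProduct.productMap_apply_tmul ν' φ' t b
  have h1 : ∀ z : T ⊗[P] B, ∃ (N : ℕ) (b : B), a ^ N • z = 1 ⊗ₜ b := by
    intro z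
    induction z using TensorProduct.induction_on with
    | zero => exact ⟨0, 0, by simp⟩
    | tmul t b =>
      obtain ⟨N, p, hp⟩ := hT t
      refine ⟨N, p • b, ?_⟩
      have h2 : a ^ N • t = p • (1 : T) := by
        rw [Algebra.smul_def, Algebra.smul_def, map_pow, mul_one]
        exact hp
      rw [smul_tmul', h2, smul_tmul]
    | add z₁ z₂ h₁ h₂ =>
      obtain ⟨N₁, b₁, e₁⟩ := h₁
      obtain ⟨N₂, b₂, e₂⟩ := h₂
      refine ⟨N₁ + N₂, a ^ N₂ • b₁ + a ^ N₁ • b₂, ?_⟩
      rw [smul_add, tmul_add, tmul_smul, tmul_smul, ← e₁, ← e₂, smul_smul, smul_smul, ← pow_add,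
        ← pow_add, add_comm N₂ N₁]
  have h2 : ∀ z : T ⊗[P] B, a • z = 0 → z = 0 := by
    intro z hz
    have h3 : Function.Injective (LinearMap.lsmul P T a) :=
      LinearMap.ker_eq_bot.mp (LinearMap.ker_eq_bot'.mpr fun t ht => ha t ht)
    have h4 := Module.Flat.rTensor_preserves_injective_linearMap (M := B) _ h3
    have h5 : ∀ w : T ⊗[P] B, LinearMap.rTensor B (LinearMap.lsmul P T a) w = a • w := by
      intro w
      induction w using TensorProduct.induction_on with
      | zero => simp
      | tmul t b => rw [LinearMap.rTensor_tmul, LinearMap.lsmul_apply, smul_tmul']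
      | add w₁ w₂ e₁ e₂ => rw [map_add, e₁, e₂, smul_add]
    exact h4 (by rw [h5, hz, map_zero])
  have h3 : ∀ (N : ℕ) (z : T ⊗[P] B), a ^ N • z = 0 → z = 0 := by
    intro N
    induction N with
    | zero => intro z hz; simpa using hz
    | succ N ih => intro z hz; rw [pow_succ, mul_smul] at hz; exact h2 z (ih _ hz)
  have hinj : Function.Injective F := by
    rw [injective_iff_map_eq_zero]
    intro z hz
    obtain ⟨N, b, e⟩ := h1 z
    have h4 : φ b = 0 := by
      have := congrArg F e
      rw [map_smul, hz, smul_zero, hF, map_one, one_mul] at this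
      exact this.symm
    rw [hφ (h4.trans (map_zero φ).symm), tmul_zero] at e
    exact h3 N z e
  have _ : Algebra.Smooth k (T ⊗[P] B) := Algebra.Smooth.comp k T _
  have hr : (F.restrictScalars k).range = ν.range ⊔ φ.range := by
    apply le_antisymm
    · rintro _ ⟨z, rfl⟩
      induction z using TensorProduct.induction_on with
      | zero => rw [map_zero]; exact zero_mem _
      | tmul t b =>
        have : (F.restrictScalars k).toRingHom (t ⊗ₜ b) = ν t * φ b := hF t b
        rw [this]
        exact mul_mem ((le_sup_left : ν.range ≤ _) ⟨t, rfl⟩) ((le_sup_right : φ.range ≤ _) ⟨b, rfl⟩)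
      | add z₁ z₂ h₁ h₂ => rw [map_add]; exact add_mem h₁ h₂
    · refine sup_le ?_ ?_
      · rintro _ ⟨t, rfl⟩
        exact ⟨t ⊗ₜ 1, (hF t 1).trans (by rw [map_one, mul_one]; rfl)⟩
      · rintro _ ⟨b, rfl⟩
        exact ⟨1 ⊗ₜ b, (hF 1 b).trans (by rw [map_one, one_mul]; rfl)⟩
  rw [← hr]
  exact Algebra.Smooth.of_equiv (AlgEquiv.ofInjective (F.restrictScalars k) hinj)

variable {k K : Type u} [Field k] [Field K] [Algebra k K] {B : Subalgebra k K} {r s : ℕ}
  {x : Fin r → B} {y : Fin s → B}

theorem coord_injective (het : (MvPolynomial.aeval (Sum.elim x y) :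
    MvPolynomial (Fin r ⊕ Fin s) k →ₐ[k] B).toRingHom.Etale) :
    Function.Injective (MvPolynomial.aeval (Sum.elim x y) :
      MvPolynomial (Fin r ⊕ Fin s) k →ₐ[k] B) := by
  let _ : Algebra (MvPolynomial (Fin r ⊕ Fin s) k) B := (MvPolynomial.aeval (Sum.elim x y) :
    MvPolynomial (Fin r ⊕ Fin s) k →ₐ[k] B).toRingHom.toAlgebra
  have _ : Algebra.Etale (MvPolynomial (Fin r ⊕ Fin s) k) B := het
  rw [injective_iff_map_eq_zero]
  intro p hp
  by_contra h0
  have h1 : IsSMulRegular B p :=
    Module.Flat.isSMulRegular_of_nonZeroDivisors (mem_nonZeroDivisors_of_ne_zero h0)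
  have h2 : p • (1 : B) = p • (0 : B) := by
    rw [smul_zero, Algebra.smul_def, mul_one]
    exact hp
  exact one_ne_zero (h1 h2)

open MvPolynomial in
theorem coord_smooth (het : (MvPolynomial.aeval (Sum.elim x y) :
    MvPolynomial (Fin r ⊕ Fin s) k →ₐ[k] B).toRingHom.Etale) (j : Fin r) :
    Algebra.Smooth k (chart B (Set.range fun i => (x i : K)) (x j)) := by
  classical
  have hj : (x j : K) ≠ 0 := by
    intro h0
    have h1 : aeval (Sum.elim x y) (X (Sum.inl j) : MvPolynomial (Fin r ⊕ Fin s) k) = 0 := by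
      rw [aeval_X]
      exact Subtype.ext h0
    exact X_ne_zero _ (coord_injective het (h1.trans (map_zero _).symm))
  let μ : MvPolynomial (Fin r ⊕ Fin s) k →ₐ[k] MvPolynomial (Fin r ⊕ Fin s) k :=
    aeval (Sum.elim (fun i => if i = j then X (Sum.inl j) else X (Sum.inl j) * X (Sum.inl i))
      fun l => X (Sum.inr l))
  let w : Fin r ⊕ Fin s → K :=
    Sum.elim (fun i => if i = j then (x j : K) else (x i : K) / x j) fun l => (y l : K)
  have hμ : μ (X (Sum.inl j)) = X (Sum.inl j) := by simp [μ]
  have _ : Algebra.Smooth k (MvPolynomial (Fin r ⊕ Fin s) k) := ⟨inferInstance, inferInstance⟩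
  have h1 := coordSmooth_aux μ _ het B.val Subtype.val_injective (aeval w) (fun p => by
      have : (aeval w).comp μ = B.val.comp (aeval (Sum.elim x y)) := by
        ext v : 1
        rcases v with i | l
        · by_cases hi : i = j
          · simp [μ, w, hi]
          · simp [μ, w, hi, mul_div_cancel₀ _ hj]
        · simp [μ, w]
      exact DFunLike.congr_fun this p) (X (Sum.inl j))
    (fun t ht => by
      rw [hμ] at ht
      exact (mul_eq_zero.mp ht).resolve_left (X_ne_zero _))
    (fun t => by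
      rw [hμ]
      induction t using MvPolynomial.induction_on with
      | C c => exact ⟨0, C c, by simp [μ]⟩
      | add t₁ t₂ h₁ h₂ =>
        obtain ⟨N₁, p₁, e₁⟩ := h₁
        obtain ⟨N₂, p₂, e₂⟩ := h₂
        refine ⟨N₁ + N₂, X (Sum.inl j) ^ N₂ * p₁ + X (Sum.inl j) ^ N₁ * p₂, ?_⟩
        rw [map_add, map_mul, map_mul, map_pow, map_pow, hμ, ← e₁, ← e₂]
        ring
      | mul_X t v h₁ =>
        obtain ⟨N, p, e⟩ := h₁
        rcases v with i | l
        · by_cases hi : i = j
          · exact ⟨N, p * X (Sum.inl j), by rw [map_mul, hμ, ← e, hi, mul_assoc]⟩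
          · refine ⟨N + 1, p * X (Sum.inl i), ?_⟩
            have : μ (X (Sum.inl i)) = X (Sum.inl j) * X (Sum.inl i) := by simp [μ, hi]
            rw [map_mul, this, ← e]
            ring
        · refine ⟨N, p * X (Sum.inr l), ?_⟩
          have : μ (X (Sum.inr l)) = X (Sum.inr l) := by simp [μ]
          rw [map_mul, this, ← e, mul_assoc])
  have h2 : (aeval w : MvPolynomial (Fin r ⊕ Fin s) k →ₐ[k] K).range ⊔ B.val.range
      = chart B (Set.range fun i => (x i : K)) (x j) := by
    rw [Subalgebra.range_val, ← Algebra.adjoin_range_eq_range_aeval]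
    apply le_antisymm
    · refine sup_le (Algebra.adjoin_le ?_) (le_chart _ _ _)
      rintro _ ⟨v, rfl⟩
      rcases v with i | l
      · by_cases hi : i = j
        · have : w (Sum.inl i) = x j := by simp [w, hi]
          rw [this]
          exact le_chart _ _ _ (x j).2
        · have : w (Sum.inl i) = (x i : K) / x j := by simp [w, hi]
          rw [this]
          exact div_mem_chart B (V := Set.range fun i => (x i : K)) ⟨i, rfl⟩ _
      · exact le_chart _ _ _ (y l).2
    · refine sup_le le_sup_right (Algebra.adjoin_le ?_)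
      rintro _ ⟨_, ⟨i, rfl⟩, rfl⟩
      by_cases hi : i = j
      · have : (x i : K) / x j = 1 := by rw [hi, div_self hj]
        simp only [this]
        exact one_mem _
      · refine (le_sup_left : Algebra.adjoin k (Set.range w) ≤ _)
          (Algebra.subset_adjoin ⟨Sum.inl i, ?_⟩)
        simp [w, hi]
  rw [← h2]
  exact h1

end Pool.Agent.Lib.MP_954e53_ag.RS
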