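import Mathlib

/-! Gorenstein rings. -/

namespace Pool.Agent.Lib.MP_954e53_ag.RS

open CategoryTheory

universe u

/-- A Gorenstein ring: a Noetherian ring all of whose local rings have finite injective dimension
over themselves. -/
def IsGorenstein (S : Type u) [CommRing S] : Prop :=
  IsNoetherianRing S ∧ ∀ p : PrimeSpectrum S, injectiveDimension
    (ModuleCat.of (Localization.AtPrime p.asIdeal) (Localization.AtPrime p.asIdeal)) ≠ ⊤

end Pool.Agent.Lib.MP_954e53_ag.RS
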