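import Mathlib

/-! A graded ring is free over the polynomial ring in a regular system of parameters. -/

namespace Pool.Agent.Lib.MP_954e53_ag.RS

open MvPolynomial

section aux

variable {k S : Type*} [Field k] [CommRing S] [Algebra k S]

lemma gorFree_eval {d : ℕ} (θ : Fin (d + 1) → S) (p : MvPolynomial (Fin (d + 1)) k) :
    Polynomial.eval₂RingHom (aeval (R := k) fun l : Fin d => θ l.succ).toRingHom (θ 0)
      (finSuccEquiv k d p) = aeval θ p := by
  induction p using MvPolynomial.induction_on with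
  | C a => simp [finSuccEquiv_apply]
  | add p q hp hq => rw [map_add, map_add, map_add, hp, hq]
  | mul_X p i hp =>
    rw [map_mul, map_mul, map_mul, hp]
    congr 1
    refine Fin.cases ?_ (fun j => ?_) i
    · simp [finSuccEquiv_X_zero]
    · simp [finSuccEquiv_X_succ]

lemma gorFree_indep {ι : Type*} [Fintype ι] (b : ι → S) (d : ℕ) : ∀ (θ : Fin d → S) (I : Ideal S),
    (∀ (i : ℕ) (h : i < (List.ofFn θ).length) (x : S),
      (List.ofFn θ)[i] * x ∈ I ⊔ Ideal.ofList ((List.ofFn θ).take i) →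
        x ∈ I ⊔ Ideal.ofList ((List.ofFn θ).take i)) →
    (∀ c : ι → k, ∑ i, c i • b i ∈ I ⊔ Ideal.ofList (List.ofFn θ) → c = 0) →
    ∀ p : ι → MvPolynomial (Fin d) k, ∑ i, aeval θ (p i) * b i ∈ I → p = 0 := by
  induction d with
  | zero =>
    intro θ I _ h2 p hp
    have e : ∀ i, p i = C (coeff 0 (p i)) := fun i => eq_C_of_isEmpty _
    have := h2 (fun i => coeff 0 (p i)) (Ideal.mem_sup_left (by
      convert hp using 2 with i
      rw [e i, aeval_C, Algebra.smul_def, coeff_zero_C]))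
    funext i
    rw [e i, congrFun this i]
    simp
  | succ d ih =>
    intro θ I h1 h2 p hp
    have key := ih (fun l => θ l.succ) (I ⊔ Ideal.span {θ 0}) (fun i h x => by
      have := h1 (i + 1) (by simpa using h) x
      simpa only [List.ofFn_succ, List.take_succ_cons, List.getElem_cons_succ, Ideal.ofList_cons,
        sup_assoc] using this) (fun c hc => h2 c (by
      simpa only [List.ofFn_succ, Ideal.ofList_cons, sup_assoc] using hc))
    have reg : ∀ x, θ 0 * x ∈ I → x ∈ I := fun x => by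
      simpa using h1 0 (by simp) x
    obtain ⟨φ, hφ⟩ : ∃ φ, φ = Polynomial.eval₂RingHom
      (aeval (R := k) fun l : Fin d => θ l.succ).toRingHom (θ 0) := ⟨_, rfl⟩
    have step : ∀ P : ι → Polynomial (MvPolynomial (Fin d) k), ∑ i, φ (P i) * b i ∈ I →
        (∀ i, (P i).coeff 0 = 0) ∧ ∑ i, φ (P i).divX * b i ∈ I := by
      intro P hP
      have e : ∑ i, φ (P i) * b i = θ 0 * ∑ i, φ (P i).divX * b i
          + ∑ i, aeval (fun l : Fin d => θ l.succ) ((P i).coeff 0) * b i := by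
        rw [Finset.mul_sum, ← Finset.sum_add_distrib]
        refine Finset.sum_congr rfl fun i _ => ?_
        conv_lhs => rw [← Polynomial.X_mul_divX_add (P i), map_add, map_mul]
        simp [hφ, add_mul, mul_assoc]
      have z := key (fun i => (P i).coeff 0) (by
        rw [eq_sub_of_add_eq' e.symm]
        exact sub_mem (Ideal.mem_sup_left hP) (Ideal.mem_sup_right
          (Ideal.mul_mem_right _ _ (Ideal.mem_span_singleton_self _))))
      have z' : ∀ i, (P i).coeff 0 = 0 := congrFun z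
      refine ⟨z', reg _ ?_⟩
      simpa [e, z'] using hP
    have all : ∀ (N : ℕ) (P : ι → Polynomial (MvPolynomial (Fin d) k)),
        ∑ i, φ (P i) * b i ∈ I → ∀ i, (P i).coeff N = 0 := by
      intro N
      induction N with
      | zero => exact fun P hP => (step P hP).1
      | succ N ihN =>
        intro P hP i
        rw [← Polynomial.coeff_divX]
        exact ihN _ (step P hP).2 i
    funext i
    apply (finSuccEquiv k d).injective
    rw [Pi.zero_apply, map_zero]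
    refine Polynomial.ext fun N => all N (fun i => finSuccEquiv k d (p i)) ?_ i
    simpa only [hφ, gorFree_eval] using hp

lemma gorFree_basis (𝒜 : ℕ → Submodule k S) [∀ m, FiniteDimensional k (𝒜 m)] (J : Ideal S) {s : ℕ}
    (htop : ∀ m, s < m → ∀ x ∈ 𝒜 m, x ∈ J) {u : S} (hu : u ∈ 𝒜 s) (huJ : u ∉ J) :
    ∃ (n : ℕ) (b : Fin (n + 1) → S) (g : Fin (n + 1) → ℕ), b 0 = u ∧ g 0 = s ∧
      (∀ i, b i ∈ 𝒜 (g i)) ∧ (∀ c : Fin (n + 1) → k, ∑ i, c i • b i ∈ J → c = 0) ∧
      ∀ m, ∀ x ∈ 𝒜 m, ∃ c : Fin (n + 1) → k, x - ∑ i, c i • b i ∈ J := by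
  obtain ⟨π, hπ⟩ : ∃ π : S →ₗ[k] S ⧸ J, ∀ x, π x = 0 ↔ x ∈ J :=
    ⟨(Ideal.Quotient.mkₐ k J).toLinearMap, fun x => Ideal.Quotient.eq_zero_iff_mem⟩
  obtain ⟨B, B1, B2, B3, B4⟩ := exists_linearIndepOn_id_extension (K := k) (s := {π u})
    (t := π '' {x | ∃ m, x ∈ 𝒜 m}) (LinearIndepOn.singleton (mt (hπ u).1 huJ))
    (Set.singleton_subset_iff.2 ⟨u, ⟨s, hu⟩, rfl⟩)
  have fg : (⨆ m : Fin (s + 1), (𝒜 m).map π).FG :=
    Submodule.fg_iSup _ fun m => (Module.Finite.iff_fg.1 inferInstance).map π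
  obtain ⟨w, hw⟩ := fg
  have : Finite B := LinearIndependent.finite_of_le_span_finite _ B4 (w : Set (S ⧸ J)) (by
    rintro _ ⟨⟨y, hy⟩, rfl⟩
    obtain ⟨x, ⟨m, hm⟩, rfl⟩ := B1 hy
    rw [hw]
    change π x ∈ _
    rcases lt_or_ge s m with h | h
    · rw [(hπ x).2 (htop m h x hm)]
      exact zero_mem _
    · exact Submodule.mem_iSup_of_mem (⟨m, by omega⟩ : Fin (s + 1)) ⟨x, hm, rfl⟩)
  obtain ⟨N, ⟨e⟩⟩ := Finite.exists_equiv_fin B
  obtain ⟨u', hu'⟩ : ∃ u' : B, (u' : S ⧸ J) = π u := ⟨⟨_, B2 rfl⟩, rfl⟩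
  obtain ⟨n, rfl⟩ : ∃ n, N = n + 1 := Nat.exists_eq_add_one.2 (Fin.pos (e u'))
  obtain ⟨E, hE⟩ : ∃ E : Fin (n + 1) ≃ B, E 0 = u' :=
    ⟨(Equiv.swap 0 (e u')).trans e.symm, by simp⟩
  have lift : ∀ i, ∃ x m, x ∈ 𝒜 m ∧ π x = E i ∧ (i = 0 → x = u ∧ m = s) := by
    intro i
    by_cases hi : i = 0
    · exact ⟨u, s, hu, by rw [hi, hE, hu'], fun _ => ⟨rfl, rfl⟩⟩
    · obtain ⟨x, ⟨m, hm⟩, hx⟩ := B1 (E i).2
      exact ⟨x, m, hm, hx, fun h => absurd h hi⟩
  choose b g h1 h2 h3 using lift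
  refine ⟨n, b, g, (h3 0 rfl).1, (h3 0 rfl).2, h1, fun c hc => ?_, fun m x hx => ?_⟩
  · have li : LinearIndependent k fun i => (E i : S ⧸ J) := B4.comp E E.injective
    rw [← hπ, map_sum] at hc
    simp only [map_smul, h2] at hc
    exact funext (Fintype.linearIndependent_iff.1 li c hc)
  · have : π x ∈ Submodule.span k (Set.range fun i => (E i : S ⧸ J)) := by
      refine Submodule.span_mono (fun y hy => ?_) (B3 ⟨x, ⟨m, hx⟩, rfl⟩)
      exact ⟨E.symm ⟨y, hy⟩, by simp⟩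
    obtain ⟨c, hc⟩ := (Submodule.mem_span_range_iff_exists_fun k).1 this
    refine ⟨c, (hπ _).1 ?_⟩
    simp only [map_sub, map_sum, map_smul, h2, hc, sub_self]

/-- Combinations of the `b i` with weighted homogeneous coefficients. -/
def gorFreeGood {ι : Type*} [Fintype ι] {d : ℕ} (k : Type*) [Field k] [Algebra k S]
    (θ : Fin d → S) (e : Fin d → ℕ) (b : ι → S) (g : ι → ℕ) (m : ℕ) : AddSubmonoid S where
  carrier := {x | ∃ p : ι → MvPolynomial (Fin d) k, x = ∑ i, aeval θ (p i) * b i ∧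
    ∀ i, (p i).IsWeightedHomogeneous (fun l => (e l : ℤ)) ((m : ℤ) - g i)}
  add_mem' := by
    rintro _ _ ⟨p, rfl, hp⟩ ⟨q, rfl, hq⟩
    exact ⟨p + q, by simp [add_mul, Finset.sum_add_distrib], fun i => (hp i).add (hq i)⟩
  zero_mem' := ⟨0, by simp, fun i => isWeightedHomogeneous_zero _ _ _⟩

end aux

theorem exists_hom_basis {k S : Type*} [Field k] [CommRing S] [Algebra k S]
    (𝒜 : ℕ → Submodule k S) [GradedAlgebra 𝒜] [∀ m, FiniteDimensional k (𝒜 m)] {d : ℕ}
    (θ : Fin d → S) (e : Fin d → ℕ) (hθ : ∀ i, 0 < e i ∧ θ i ∈ 𝒜 (e i))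
    (hreg : RingTheory.Sequence.IsRegular S (List.ofFn θ)) {s : ℕ}
    (htop : ∀ m, s < m → ∀ x ∈ 𝒜 m, x ∈ Ideal.span (Set.range θ)) {u : S} (hu : u ∈ 𝒜 s)
    (huJ : u ∉ Ideal.span (Set.range θ)) :
    ∃ (n : ℕ) (b : Fin (n + 1) → S) (g : Fin (n + 1) → ℕ), b 0 = u ∧ g 0 = s ∧
      (∀ i, b i ∈ 𝒜 (g i)) ∧
      (∀ p : Fin (n + 1) → MvPolynomial (Fin d) k, ∑ i, aeval θ (p i) * b i = 0 → p = 0) ∧
      ∀ m, ∀ x ∈ 𝒜 m, ∃ p : Fin (n + 1) → MvPolynomial (Fin d) k,
        x = ∑ i, aeval θ (p i) * b i ∧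
          ∀ i, (p i).IsWeightedHomogeneous (fun l => (e l : ℤ)) ((m : ℤ) - g i) := by
  classical
  obtain ⟨n, b, g, h0, g0, hb, h1, h2⟩ := gorFree_basis 𝒜 _ htop hu huJ
  refine ⟨n, b, g, h0, g0, hb, fun p hp => gorFree_indep b d θ ⊥ (fun i h x => ?_) (fun c hc => ?_)
    p hp, fun m => ?_⟩
  · have := (isSMulRegular_quotient_iff_mem_of_smul_mem _ _).1 (hreg.regular_mod_prev i h) x
    rwa [smul_eq_mul, Ideal.mul_top, smul_eq_mul, ← bot_sup_eq (Ideal.ofList _)] at this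
  · refine h1 c ?_
    rw [bot_sup_eq] at hc
    refine Ideal.span_mono (fun y hy => ?_) hc
    exact (List.mem_ofFn' θ y).1 hy
  · induction m using Nat.strong_induction_on with
    | _ m ih =>
    intro x hx
    obtain ⟨c, hc⟩ := h2 m x hx
    obtain ⟨y, hy⟩ := Ideal.mem_span_range_iff_exists_fun.1 hc
    have e1 : x = ∑ i, GradedAlgebra.proj 𝒜 m (c i • b i)
        + ∑ l, GradedAlgebra.proj 𝒜 m (y l * θ l) := by
      rw [← map_sum, ← map_sum, ← map_add, hy, add_sub_cancel, GradedAlgebra.proj_apply,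
        DirectSum.decompose_of_mem_same 𝒜 hx]
    change x ∈ gorFreeGood k θ e b g m
    rw [e1]
    refine add_mem (sum_mem fun i _ => ?_) (sum_mem fun l _ => ?_)
    · rw [GradedAlgebra.proj_apply]
      have hi := (𝒜 (g i)).smul_mem (c i) (hb i)
      by_cases h : g i = m
      · rw [← h, DirectSum.decompose_of_mem_same 𝒜 hi]
        refine ⟨Pi.single i (C (c i)), ?_, fun j => ?_⟩
        · rw [Finset.sum_eq_single i (fun j _ hj => by simp [hj]) (by simp)]
          simp [Algebra.smul_def]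
        · by_cases hj : j = i
          · rw [hj, Pi.single_eq_same, sub_self]
            exact isWeightedHomogeneous_C _ _
          · rw [Pi.single_eq_of_ne hj]
            exact isWeightedHomogeneous_zero _ _ _
      · rw [DirectSum.decompose_of_mem_ne 𝒜 hi h]
        exact zero_mem _
    · rw [GradedAlgebra.proj_apply, DirectSum.coe_decompose_mul_of_right_mem 𝒜 m (hθ l).2]
      split_ifs with h
      · obtain ⟨p, hp, hq⟩ := ih (m - e l) (by have := (hθ l).1; omega) _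
          (DirectSum.decompose 𝒜 (y l) (m - e l)).2
        refine ⟨fun i => p i * X l, ?_, fun i => ?_⟩
        · rw [hp, Finset.sum_mul]
          refine Finset.sum_congr rfl fun i _ => ?_
          rw [map_mul, aeval_X, mul_right_comm]
        · have := (hq i).mul (isWeightedHomogeneous_X k (fun l => (e l : ℤ)) l)
          convert this using 1
          push_cast [h]
          ring
      · exact zero_mem _

end Pool.Agent.Lib.MP_954e53_ag.RS
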