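import Pool.Agent.Lib.MP_954e53_ag.RS.GorFree
import Pool.Agent.Lib.MP_954e53_ag.Gor
import Pool.Agent.Lib.MP_954e53_ag.Defs

/-! A graded Gorenstein ring is a Frobenius algebra over a polynomial ring. -/

namespace Pool.Agent.Lib.MP_954e53_ag.RS

open MvPolynomial

lemma gt_const {k : Type*} [Field k] {d : ℕ} {e : Fin d → ℕ} (he : ∀ i, 0 < e i)
    {p : MvPolynomial (Fin d) k} {D : ℤ} (hp : p.IsWeightedHomogeneous (fun l => (e l : ℤ)) D)
    (h0 : constantCoeff p ≠ 0) : D = 0 ∧ p = C (constantCoeff p) := by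
  have hD : D = 0 := by
    have := hp (d := 0) h0
    simpa using this.symm
  refine ⟨hD, ?_⟩
  ext a
  rw [coeff_C]
  split_ifs with h
  · subst h; rfl
  · by_contra ha
    have h1 := hp ha
    rw [hD, Finsupp.weight_apply, Finsupp.sum_fintype _ _ (by simp)] at h1
    apply h
    ext i
    have h2 := (Finset.sum_eq_zero_iff_of_nonneg (fun j _ => by positivity)).1 h1 i
      (Finset.mem_univ _)
    have h3 := he i
    simp only [nsmul_eq_mul, mul_eq_zero, Nat.cast_eq_zero] at h2
    simp only [Finsupp.coe_zero, Pi.zero_apply]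
    omega

theorem exists_trace {k S : Type*} [Field k] [CommRing S] [Algebra k S]
    {𝒜 : ℕ → Submodule k S} [GradedAlgebra 𝒜] {n d r : ℕ} (hgen : GeneratedBy 𝒜 n)
    (hG : GorensteinOfIndex 𝒜 d r) :
    ∃ (_ : Algebra (MvPolynomial (Fin d) k) S) (_ : Module.Free (MvPolynomial (Fin d) k) S)
      (lam : S →ₗ[MvPolynomial (Fin d) k] MvPolynomial (Fin d) k),
      ∀ φ : S →ₗ[MvPolynomial (Fin d) k] MvPolynomial (Fin d) k,
        ∃! m : S, ∀ b : S, lam (b • m) = φ b := by
  classical
  obtain ⟨x, w, hx, hadj⟩ := hgen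
  have hfin : ∀ m, FiniteDimensional k (𝒜 m) :=
    fin_of_gens (L := List.ofFn fun i => (w i, x i)) (by
      intro p hp
      obtain ⟨i, rfl⟩ := List.mem_ofFn.1 hp
      exact hx i) (by
      rw [← hadj]
      congr 1
      ext y
      simp [List.mem_ofFn])
  obtain ⟨θ, e, s, hθ, hreg, -, ⟨u, hu, huJ⟩, htop, hsoc⟩ := hG
  obtain ⟨N, b, g, hb0, hg0, hb, hind, hspan⟩ := exists_hom_basis 𝒜 θ e hθ hreg htop hu huJ
  set J := Ideal.span (Set.range θ) with hJ
  have hJh : J.IsHomogeneous 𝒜 :=
    Ideal.homogeneous_span 𝒜 _ (by rintro _ ⟨i, rfl⟩; exact ⟨_, (hθ i).2⟩)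
  let _ : Algebra (MvPolynomial (Fin d) k) S := (aeval θ).toRingHom.toAlgebra
  have hsm : ∀ (p : MvPolynomial (Fin d) k) (y : S), p • y = aeval θ p * y := fun _ _ => rfl
  have hli : LinearIndependent (MvPolynomial (Fin d) k) b :=
    Fintype.linearIndependent_iff.2 fun p hp => congrFun (hind p hp)
  have hsp : ⊤ ≤ Submodule.span (MvPolynomial (Fin d) k) (Set.range b) := by
    intro y _
    rw [← DirectSum.sum_support_decompose 𝒜 y]
    refine Submodule.sum_mem _ fun m _ => ?_
    obtain ⟨p, hp, -⟩ := hspan m _ (DirectSum.decompose 𝒜 y m).2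
    rw [hp]
    exact Submodule.sum_mem _ fun i _ =>
      Submodule.smul_mem _ (p i) (Submodule.subset_span ⟨i, rfl⟩)
  let B := Module.Basis.mk hli hsp
  have hB : ∀ i, B i = b i := Module.Basis.mk_apply hli hsp
  have hrepr : ∀ (p : Fin (N + 1) → MvPolynomial (Fin d) k) i,
      B.repr (∑ j, aeval θ (p j) * b j) i = p i := fun p i => by
    simp only [← hsm, ← hB]
    exact congrFun (B.repr_sum_self p) i
  have hhom : ∀ m, ∀ y ∈ 𝒜 m, ∀ i,
      (B.repr y i).IsWeightedHomogeneous (fun l => (e l : ℤ)) ((m : ℤ) - g i) := fun m y hy i => by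
    obtain ⟨p, rfl, hp⟩ := hspan m y hy
    rw [hrepr]
    exact hp i
  have hJ0 : ∀ y ∈ J, ∀ i, constantCoeff (B.repr y i) = 0 := fun y hy i => by
    obtain ⟨c, rfl⟩ := Ideal.mem_span_range_iff_exists_fun.1 hy
    rw [map_sum, Finsupp.finsetSum_apply, map_sum]
    refine Finset.sum_eq_zero fun l _ => ?_
    have h1 : c l * θ l = (X l : MvPolynomial (Fin d) k) • c l := by rw [hsm, aeval_X, mul_comm]
    rw [h1, map_smul, Finsupp.smul_apply, smul_eq_mul, map_mul, constantCoeff_X, zero_mul]
  let lam := B.coord 0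
  let G : Matrix (Fin (N + 1)) (Fin (N + 1)) (MvPolynomial (Fin d) k) :=
    Matrix.of fun i j => lam (b i * b j)
  have hGh : ∀ i j, (G i j).IsWeightedHomogeneous (fun l => (e l : ℤ))
      ((g i : ℤ) + g j - s) := fun i j => by
    have := hhom _ _ (SetLike.mul_mem_graded (hb i) (hb j)) 0
    rwa [hg0, Nat.cast_add] at this
  have hdet : G.det.IsWeightedHomogeneous (fun l => (e l : ℤ))
      (∑ i, ((g i : ℤ) + g i - s)) := by
    rw [Matrix.det_apply']
    refine IsWeightedHomogeneous.sum _ _ _ fun σ _ => ?_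
    have h1 := IsWeightedHomogeneous.prod Finset.univ (fun i => G (σ i) i)
      (fun i => (g (σ i) : ℤ) + g i - s) (w := fun l => (e l : ℤ)) fun i _ => hGh _ _
    have h2 : ∑ i, ((g (σ i) : ℤ) + g i - s) = ∑ i, ((g i : ℤ) + g i - s) := by
      simp only [Finset.sum_sub_distrib, Finset.sum_add_distrib]
      rw [Equiv.sum_comp σ fun i => (g i : ℤ)]
    rw [h2] at h1
    have h3 : ((Equiv.Perm.sign σ : ℤ) : MvPolynomial (Fin d) k) =
        C ((Equiv.Perm.sign σ : ℤ) : k) := by simp
    rw [h3]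
    exact zero_add (∑ i, ((g i : ℤ) + g i - s)) ▸ (isWeightedHomogeneous_C _ _).mul h1
  -- the value of the form on constants
  have hlamc : ∀ (c : k) (y : S), constantCoeff (lam (c • y)) = c * constantCoeff (lam y) :=
    fun c y => by
      have h1 : c • y = (C c : MvPolynomial (Fin d) k) • y := by
        rw [hsm, aeval_C, Algebra.smul_def]
      rw [h1, map_smul, smul_eq_mul, map_mul, constantCoeff_C]
  have hdet0 : constantCoeff G.det ≠ 0 := by
    rw [RingHom.map_det]
    intro h0
    obtain ⟨c, hc0, hc⟩ := Matrix.exists_mulVec_eq_zero_iff.2 h0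
    obtain ⟨i0, hi0⟩ := Function.ne_iff.1 hc0
    let y : S := ∑ j ∈ Finset.univ.filter fun j => g j = g i0, c j • b j
    have hy : y ∈ 𝒜 (g i0) := Submodule.sum_mem _ fun j hj =>
      Submodule.smul_mem _ _ ((Finset.mem_filter.1 hj).2 ▸ hb j)
    have hyJ : y ∉ J := fun h => by
      have h1 := hJ0 y h i0
      have h2 : y = ∑ j, aeval θ (if g j = g i0 then C (c j) else 0 : MvPolynomial (Fin d) k) *
          b j := by
        refine (Finset.sum_filter _ _).trans (Finset.sum_congr rfl fun j _ => ?_)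
        split_ifs <;> simp [Algebra.smul_def]
      rw [h2, hrepr, if_pos rfl, constantCoeff_C] at h1
      exact hi0 h1
    have hle : g i0 ≤ s := not_lt.1 fun h => hyJ (htop _ h _ hy)
    obtain ⟨z, hz, hzy⟩ := Soc.pairing hJh hsoc ⟨⟨u, hu, huJ⟩, htop⟩
      (Nat.add_sub_cancel' hle) hy hyJ
    have hzs : z * y ∈ 𝒜 s := by
      have := SetLike.mul_mem_graded hz hy
      rwa [Nat.sub_add_cancel hle] at this
    obtain ⟨a, ha⟩ := Soc.exists_smul hsoc hu huJ htop (y := z * y) fun m hm v hv =>
      htop (m + s) (by omega) _ (SetLike.mul_mem_graded hv hzs)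
    have ha0 : a ≠ 0 := by
      rintro rfl
      exact hzy (by simpa using ha)
    have h1 : constantCoeff (lam (z * y)) = a := by
      have h2 := hJ0 _ ha 0
      rw [map_sub, Finsupp.sub_apply, map_sub, sub_eq_zero] at h2
      refine h2.trans ((hlamc a u).trans ?_)
      rw [← hb0, ← hB]
      simp [lam]
    -- the form kills `v * ∑ c j • b j` for all `v`
    have h3 : ∀ v : S, constantCoeff (lam (v * ∑ j, c j • b j)) = 0 := fun v => by
      rw [← B.sum_repr v, Finset.sum_mul, map_sum, map_sum]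
      refine Finset.sum_eq_zero fun i _ => ?_
      rw [smul_mul_assoc, map_smul, smul_eq_mul, map_mul, hB, Finset.mul_sum, map_sum, map_sum]
      have h4 := congrFun hc i
      simp only [Matrix.mulVec, dotProduct, RingHom.mapMatrix_apply, Matrix.map_apply,
        Pi.zero_apply] at h4
      rw [Finset.sum_congr rfl fun j _ => by rw [mul_smul_comm, hlamc, mul_comm]]
      exact mul_eq_zero_of_right _ h4
    have h5 := h3 z
    rw [← Finset.sum_filter_add_sum_filter_not Finset.univ fun j => g j = g i0, mul_add, map_add,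
      map_add, h1, Finset.mul_sum, map_sum, map_sum, Finset.sum_eq_zero, add_zero] at h5
    · exact ha0 h5
    · intro j hj
      rw [mul_smul_comm, hlamc]
      refine mul_eq_zero_of_right _ ?_
      by_contra h6
      have h7 := (gt_const (fun i => (hθ i).1)
        (hhom _ _ (SetLike.mul_mem_graded hz (hb j)) 0) h6).1
      have h8 := (Finset.mem_filter.1 hj).2
      rw [hg0] at h7
      omega
  have hunit : IsUnit G.det := by
    rw [(gt_const (fun i => (hθ i).1) hdet hdet0).2]
    exact (IsUnit.mk0 _ hdet0).map C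
  have hform : ∀ (m : S) i, lam (b i • m) = G.mulVec (fun j => B.repr m j) i := fun m i => by
    conv_lhs => rw [← B.sum_repr m]
    simp only [smul_eq_mul, Finset.mul_sum, mul_smul_comm, map_sum, map_smul, hB, Matrix.mulVec,
      dotProduct, G, Matrix.of_apply, mul_comm]
  have hGu : IsUnit G := (Matrix.isUnit_iff_isUnit_det G).2 hunit
  refine ⟨inferInstance, Module.Free.of_basis B, lam, fun φ => ?_⟩
  obtain ⟨p, hp⟩ := Matrix.mulVec_surjective_iff_isUnit.2 hGu fun i => φ (b i)
  refine ⟨∑ j, aeval θ (p j) * b j, fun v => ?_, fun m hm => ?_⟩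
  · have h1 : lam ∘ₗ LinearMap.mulRight _ (∑ j, aeval θ (p j) * b j) = φ := B.ext fun i => by
      have h2 := hform (∑ j, aeval θ (p j) * b j) i
      simp only [hrepr] at h2
      rw [hB]
      exact h2.trans (congrFun hp i)
    exact LinearMap.congr_fun h1 v
  · have h1 : (fun j => B.repr m j) = p := Matrix.mulVec_injective_of_isUnit hGu (by
      rw [hp]
      funext i
      rw [← hform, hm])
    rw [← B.sum_repr m, ← h1]
    simp only [hsm, hB]

end Pool.Agent.Lib.MP_954e53_ag.RS
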