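import Pool.Agent.Lib.MP_954e53_ag.RS.InjTrace

/-! The syzygy theorem. -/

namespace Pool.Agent.Lib.MP_954e53_ag.RS

open CategoryTheory

universe u

namespace InjPoly

open Polynomial

/-- The module coinduced from the coefficient ring to the polynomial ring. -/
def Co (B : Type u) [CommRing B] (N : Type u) [AddCommGroup N] [Module B N] : Type u :=
  B[X] →ₗ[B] N

variable {B : Type u} [CommRing B] {N : Type u} [AddCommGroup N] [Module B N]

noncomputable instance : AddCommGroup (Co B N) := inferInstanceAs (AddCommGroup (B[X] →ₗ[B] N))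

noncomputable instance : Module B (Co B N) := inferInstanceAs (Module B (B[X] →ₗ[B] N))

/-- The underlying linear map. -/
def Co.val (φ : Co B N) : B[X] →ₗ[B] N := φ

/-- The element given by a linear map. -/
def Co.mk (φ : B[X] →ₗ[B] N) : Co B N := φ

theorem Co.ext {φ ψ : Co B N} (h : ∀ q, φ.val q = ψ.val q) : φ = ψ := LinearMap.ext h

theorem Co.val_mk (φ : B[X] →ₗ[B] N) : (Co.mk φ).val = φ := rfl

theorem Co.val_add (φ ψ : Co B N) (q : B[X]) : (φ + ψ).val q = φ.val q + ψ.val q := rfl

theorem Co.val_zero (q : B[X]) : (0 : Co B N).val q = 0 := rfl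

theorem Co.val_smul (b : B) (φ : Co B N) (q : B[X]) : (b • φ).val q = b • φ.val q := rfl

noncomputable instance : SMul B[X] (Co B N) :=
  ⟨fun p φ => Co.mk (φ.val.comp (LinearMap.mulRight B p))⟩

theorem Co.val_psmul (p : B[X]) (φ : Co B N) (q : B[X]) : (p • φ).val q = φ.val (q * p) := rfl

noncomputable instance : Module B[X] (Co B N) where
  one_smul φ := Co.ext fun q => by rw [Co.val_psmul, mul_one]
  mul_smul p p' φ := Co.ext fun q => by
    rw [Co.val_psmul, Co.val_psmul, Co.val_psmul, mul_assoc]
  smul_zero p := Co.ext fun q => rfl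
  smul_add p φ ψ := Co.ext fun q => rfl
  add_smul p p' φ := Co.ext fun q => by
    rw [Co.val_add, Co.val_psmul, Co.val_psmul, Co.val_psmul, mul_add, map_add]
  zero_smul φ := Co.ext fun q => by rw [Co.val_psmul, mul_zero, map_zero, Co.val_zero]

instance : IsScalarTower B B[X] (Co B N) where
  smul_assoc b p φ := Co.ext fun q => by
    rw [Co.val_smul, Co.val_psmul, Co.val_psmul, mul_smul_comm, map_smul]

/-- Evaluation at one. -/
noncomputable def lam : Co B N →ₗ[B] N where
  toFun φ := φ.val 1
  map_add' _ _ := rfl
  map_smul' _ _ := rfl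

theorem co_dim (n : ℕ) (hN : HasInjectiveDimensionLE (ModuleCat.of B N) n) :
    HasInjectiveDimensionLE (ModuleCat.of B[X] (Co B N)) n := by
  refine hasInjDim_of_trace (A := B) (lam (B := B) (N := N)) (fun φ => ?_) n hN
  refine ⟨Co.mk φ, fun b => ?_, fun m hm => Co.ext fun q => ?_⟩
  · change φ (1 * b) = φ b
    rw [one_mul]
  · have := hm q
    change m.val (1 * q) = φ q at this
    rw [one_mul] at this
    exact this

variable [Module B[X] N] [IsScalarTower B B[X] N]

/-- The unit map into the coinduced module. -/
noncomputable def iota : N →ₗ[B[X]] Co B N where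
  toFun n := Co.mk ((LinearMap.toSpanSingleton B[X] N n).restrictScalars B)
  map_add' n n' := Co.ext fun q => smul_add q n n'
  map_smul' p n := Co.ext fun q => by
    change q • p • n = (q * p) • n
    rw [mul_smul]

theorem iota_val (n : N) (q : B[X]) : (iota (B := B) n).val q = q • n := rfl

/-- The difference of the two actions of the variable. -/
noncomputable def psi : Co B N →ₗ[B[X]] Co B N where
  toFun φ := Co.mk (φ.val.comp (LinearMap.mulRight B X) -
    ((LinearMap.lsmul B[X] N X).restrictScalars B).comp φ.val)
  map_add' φ ψ := Co.ext fun q => by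
    change (φ.val (q * X) + ψ.val (q * X)) - (X : B[X]) • (φ.val q + ψ.val q) =
      (φ.val (q * X) - (X : B[X]) • φ.val q) + (ψ.val (q * X) - (X : B[X]) • ψ.val q)
    rw [smul_add]
    abel
  map_smul' p φ := Co.ext fun q => by
    change φ.val (q * X * p) - (X : B[X]) • φ.val (q * p) =
      φ.val (q * p * X) - (X : B[X]) • φ.val (q * p)
    rw [mul_right_comm]

theorem psi_val (φ : Co B N) (q : B[X]) :
    (psi φ).val q = φ.val (q * X) - (X : B[X]) • φ.val q := rfl

theorem iota_injective : Function.Injective (iota (B := B) (N := N)) := by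
  intro n n' h
  have := congrArg (fun φ : Co B N => φ.val 1) h
  simpa only [iota_val, one_smul] using this

theorem basis_eq (j : ℕ) : basisMonomials B j = X ^ j := by
  rw [coe_basisMonomials, X_pow_eq_monomial]

omit [Module B[X] N] [IsScalarTower B B[X] N] in
theorem lin_ext {φ ψ : B[X] →ₗ[B] N} (h : ∀ j : ℕ, φ (X ^ j) = ψ (X ^ j)) : φ = ψ := by
  refine (basisMonomials B).ext fun j => ?_
  rw [basis_eq]
  exact h j

theorem exact_iota_psi : Function.Exact (iota (B := B) (N := N)) psi := by
  intro φ
  constructor
  · intro h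
    refine ⟨φ.val 1, ?_⟩
    refine lin_ext (φ := (iota (B := B) (φ.val 1)).val) (ψ := φ.val) fun j => ?_
    rw [iota_val]
    induction j with
    | zero => rw [pow_zero, one_smul]
    | succ j ih =>
      have h1 := congrArg (fun χ : Co B N => χ.val (X ^ j)) h
      simp only [psi_val, Co.val_zero, sub_eq_zero] at h1
      rw [pow_succ, h1, ← ih, ← mul_smul, mul_comm]
  · rintro ⟨n, rfl⟩
    refine Co.ext fun q => ?_
    rw [psi_val, iota_val, iota_val, ← mul_smul, mul_comm, sub_self, Co.val_zero]

theorem psi_surjective : Function.Surjective (psi (B := B) (N := N)) := by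
  intro χ
  let f : ℕ → N := fun j => Nat.rec 0 (fun j x => χ.val (X ^ j) + (X : B[X]) • x) j
  have hf : ∀ j : ℕ, (basisMonomials B).constr B f (X ^ j) = f j := by
    intro j
    have := (basisMonomials B).constr_basis B f j
    rwa [basis_eq] at this
  refine ⟨Co.mk ((basisMonomials B).constr B f), ?_⟩
  refine lin_ext (φ := (psi (Co.mk ((basisMonomials B).constr B f))).val) (ψ := χ.val) fun j => ?_
  rw [psi_val, Co.val_mk, ← pow_succ, hf, hf]
  exact add_sub_cancel_right _ _

theorem dim_succ (n : ℕ) (hN : HasInjectiveDimensionLE (ModuleCat.of B N) n) :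
    HasInjectiveDimensionLE (ModuleCat.of B[X] N) (n + 1) := by
  have h := co_dim n hN
  let S : ShortComplex (ModuleCat.{u} B[X]) :=
    ModuleCat.shortComplexOfCompEqZero (iota (B := B) (N := N)) psi
      exact_iota_psi.linearMap_comp_eq_zero
  have hS : S.ShortExact := ModuleCat.shortComplex_shortExact S exact_iota_psi iota_injective
    psi_surjective
  exact hS.hasInjectiveDimensionLT_X₁ (n + 1) h
    (hasInjectiveDimensionLT_of_ge (ModuleCat.of B[X] (Co B N)) (n + 1) (n + 1 + 1) (by omega))

end InjPoly

theorem hasInjDim_polynomial {B : Type u} [CommRing B] (n : ℕ)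
    (h : ∀ (N : Type u) [AddCommGroup N] [Module B N],
      HasInjectiveDimensionLE (ModuleCat.of B N) n)
    (N : Type u) [AddCommGroup N] [Module (Polynomial B) N] :
    HasInjectiveDimensionLE (ModuleCat.of (Polynomial B) N) (n + 1) := by
  let : Module B N := Module.compHom N (algebraMap B (Polynomial B))
  have : IsScalarTower B (Polynomial B) N := IsScalarTower.of_algebraMap_smul fun _ _ => rfl
  exact InjPoly.dim_succ n (h N)

attribute [local instance] RingHomInvPair.of_ringEquiv in
theorem hasInjDim_ringEquiv {R R' : Type u} [CommRing R] [CommRing R'] (e : R ≃+* R') (n : ℕ)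
    (h : ∀ (N : Type u) [AddCommGroup N] [Module R N],
      HasInjectiveDimensionLE (ModuleCat.of R N) n)
    (N : Type u) [AddCommGroup N] [Module R' N] :
    HasInjectiveDimensionLE (ModuleCat.of R' N) n := by
  let : Module R N := Module.compHom N e.toRingHom
  let eN : ModuleCat.of R N ≃ₛₗ[RingHomClass.toRingHom e] ModuleCat.of R' N :=
    { __ := AddEquiv.refl N
      map_smul' := fun _ _ => rfl }
  exact (ModuleCat.hasInjectiveDimensionLE_iff_of_semiLinearEquiv e eN n).1 (h N)

theorem hasInjDim_mvPolynomial (k : Type u) [Field k] (d : ℕ) (N : Type u) [AddCommGroup N]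
    [Module (MvPolynomial (Fin d) k) N] :
    HasInjectiveDimensionLE (ModuleCat.of (MvPolynomial (Fin d) k) N) d := by
  induction d generalizing N with
  | zero =>
    refine hasInjDim_ringEquiv (MvPolynomial.isEmptyRingEquiv k (Fin 0)).symm 0
      (fun M _ _ => ?_) N
    have : Module.Injective k M := Module.injective_of_isSemisimpleRing k M
    have : Injective (ModuleCat.of k M) := Module.injective_object_of_injective_module k M
    exact injective_iff_hasInjectiveDimensionLT_one.1 inferInstance
  | succ d ih =>
    exact hasInjDim_ringEquiv (MvPolynomial.finSuccEquiv k d).symm.toRingEquiv (d + 1)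
      (fun M _ _ => hasInjDim_polynomial d (fun L _ _ => ih L) M) N

end Pool.Agent.Lib.MP_954e53_ag.RS
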