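import Pool.Agent.Lib.MP_954e53_ag.RS.GorDef
import Pool.Agent.Lib.MP_954e53_ag.RS.InjPoly
import Pool.Agent.Lib.MP_954e53_ag.RS.GorTrace

/-! A regular system of parameters with one-dimensional socle makes the ring Gorenstein. -/

namespace Pool.Agent.Lib.MP_954e53_ag.RS

open CategoryTheory

universe u

theorem isGorenstein_of {k S : Type u} [Field k] [CommRing S] [Algebra k S]
    {𝒜 : ℕ → Submodule k S} [GradedAlgebra 𝒜] {n d r : ℕ} (hgen : GeneratedBy 𝒜 n)
    (hG : GorensteinOfIndex 𝒜 d r) : IsGorenstein S := by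
  obtain ⟨_, _, lam, h⟩ := exists_trace hgen hG
  have h1 := hasInjDim_of_trace (B := S) lam h d (hasInjDim_mvPolynomial k d _)
  obtain ⟨x, w, -, hx⟩ := hgen
  have : Algebra.FiniteType k S := ⟨⟨(Set.finite_range x).toFinset, by simpa using hx⟩⟩
  have : IsNoetherianRing S := Algebra.FiniteType.isNoetherianRing k S
  refine ⟨inferInstance, fun p => ?_⟩
  have h2 := (ModuleCat.of S S).localizedModule_hasInjectiveDimensionLE d p.asIdeal.primeCompl
  have h3 := (ModuleCat.of S S).localizedModule_isLocalizedModule p.asIdeal.primeCompl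
  let e := (IsLocalizedModule.linearEquiv p.asIdeal.primeCompl
    ((ModuleCat.of S S).localizedModuleMkLinearMap p.asIdeal.primeCompl)
    (Algebra.linearMap S (Localization.AtPrime p.asIdeal))).extendScalarsOfIsLocalization
      p.asIdeal.primeCompl (Localization.AtPrime p.asIdeal)
  exact (injectiveDimension_ne_top_iff _).2 ⟨d,
    (ModuleCat.hasInjectiveDimensionLE_iff_of_linearEquiv (N := ModuleCat.of _ _) e d).1 h2⟩

end Pool.Agent.Lib.MP_954e53_ag.RS
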