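import Pool.Agent.Lib.MP_954e53_ag.H89Cone

/-! The group is a two-group. -/

namespace Pool.Agent.Lib.MP_954e53_ag.RS

open MvPolynomial

universe u

theorem exists_data_two (k : Type u) [Field k] [IsAlgClosed k] [CharZero k] :
    ∃ (c d : ℕ) (G : Type) (_ : Group G) (_ : Finite G)
    (ρ : G →* Matrix (Fin c ⊕ Fin d) (Fin c ⊕ Fin d) k)
    (F : Fin c ⊕ Fin d → MvPolynomial (Fin c ⊕ Fin d) k),
    IsPGroup 2 G ∧ 2 ≤ d ∧ Gen.GroupData ρ c ∧ Gen.CIData ρ F := by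
  obtain ⟨c, d, G, _, _, ρ, F, hd, h8, h, hF⟩ := Gen.exists_data_two k
  exact ⟨c, d, G, inferInstance, inferInstance, ρ, F, fun g => ⟨3, h8 g⟩, hd, h, hF⟩

end Pool.Agent.Lib.MP_954e53_ag.RS
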