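import Mathlib

/-! Coinduction along a projective algebra does not raise the injective dimension. -/

namespace Pool.Agent.Lib.MP_954e53_ag.RS

open CategoryTheory

universe u

/-- The coinduced module. -/
def Coind (A B N : Type u) [CommRing A] [CommRing B] [Algebra A B] [AddCommGroup N]
    [Module A N] : Type u := B →ₗ[A] N

namespace Coind

variable {A B N : Type u} [CommRing A] [CommRing B] [Algebra A B] [AddCommGroup N] [Module A N]

instance : AddCommGroup (Coind A B N) := inferInstanceAs (AddCommGroup (B →ₗ[A] N))

instance : Module A (Coind A B N) := inferInstanceAs (Module A (B →ₗ[A] N))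

/-- The underlying linear map. -/
def val (φ : Coind A B N) : B →ₗ[A] N := φ

/-- A linear map as an element of the coinduced module. -/
def mk (φ : B →ₗ[A] N) : Coind A B N := φ

theorem ext' {φ ψ : Coind A B N} (h : ∀ b, φ.val b = ψ.val b) : φ = ψ := LinearMap.ext h

@[simp] theorem val_mk (φ : B →ₗ[A] N) : (mk φ).val = φ := rfl

@[simp] theorem add_val (φ ψ : Coind A B N) (b : B) : (φ + ψ).val b = φ.val b + ψ.val b := rfl

@[simp] theorem zero_val (b : B) : (0 : Coind A B N).val b = 0 := rfl

@[simp] theorem smulA_val (a : A) (φ : Coind A B N) (b : B) : (a • φ).val b = a • φ.val b := rfl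

instance : SMul B (Coind A B N) := ⟨fun c φ => mk (φ.val ∘ₗ LinearMap.mulRight A c)⟩

@[simp] theorem smul_val (c : B) (φ : Coind A B N) (b : B) : (c • φ).val b = φ.val (b * c) := rfl

instance : Module B (Coind A B N) where
  one_smul φ := ext' fun b => by simp
  mul_smul c d φ := ext' fun b => by simp [mul_assoc]
  smul_zero c := ext' fun b => by simp
  smul_add c φ ψ := ext' fun b => by simp
  add_smul c d φ := ext' fun b => by simp [mul_add]
  zero_smul φ := ext' fun b => by simp

instance : IsScalarTower A B (Coind A B N) :=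
  ⟨fun a c φ => ext' fun b => by simp⟩

/-- Evaluation at one. -/
def ev : Coind A B N →ₗ[A] N where
  toFun φ := φ.val 1
  map_add' _ _ := rfl
  map_smul' _ _ := rfl

theorem trace (φ : B →ₗ[A] N) : ∃! m : Coind A B N, ∀ b : B, ev (b • m) = φ b := by
  refine ⟨mk φ, fun b => ?_, fun m hm => ext' fun b => ?_⟩
  · change (b • mk φ).val 1 = φ b
    simp
  · have := hm b
    change (b • m).val 1 = φ b at this
    simpa using this

/-- Functoriality. -/
def map {Q : Type u} [AddCommGroup Q] [Module A Q] (g : N →ₗ[A] Q) :
    Coind A B N →ₗ[B] Coind A B Q where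
  toFun φ := mk (g ∘ₗ φ.val)
  map_add' φ ψ := ext' fun b => by simp
  map_smul' c φ := ext' fun b => by simp

end Coind

section

variable {A B M N : Type u} [CommRing A] [CommRing B] [Algebra A B]
  [AddCommGroup M] [Module A M] [Module B M] [IsScalarTower A B M]
  [AddCommGroup N] [Module A N]

theorem eq_of_trace (lam : M →ₗ[A] N)
    (h : ∀ φ : B →ₗ[A] N, ∃! m : M, ∀ b : B, lam (b • m) = φ b) {m m' : M}
    (hm : ∀ b : B, lam (b • m) = lam (b • m')) : m = m' :=
  (h (lam ∘ₗ (LinearMap.toSpanSingleton B M m').restrictScalars A)).unique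
    (fun b => by simpa using hm b) (fun b => by simp)

theorem injective_of_trace (lam : M →ₗ[A] N)
    (h : ∀ φ : B →ₗ[A] N, ∃! m : M, ∀ b : B, lam (b • m) = φ b) (hN : Module.Injective A N) :
    Module.Injective B M := by
  refine Module.Baer.injective fun I g => ?_
  obtain ⟨φ, hφ⟩ := hN.out (I.subtype.restrictScalars A) Subtype.val_injective
    (lam ∘ₗ g.restrictScalars A)
  obtain ⟨m, hm, -⟩ := h φ
  refine ⟨LinearMap.toSpanSingleton B M m, fun x hx => eq_of_trace lam h fun b => ?_⟩
  have h1 := hφ (b • ⟨x, hx⟩)
  rw [LinearMap.toSpanSingleton_apply, ← mul_smul, hm, ← map_smul]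
  simpa using h1

/-- The map to the coinduced module given by a trace and a map of the target. -/
def toCoind (lam : M →ₗ[A] N) {I : Type u} [AddCommGroup I] [Module A I] (f : N →ₗ[A] I) :
    M →ₗ[B] Coind A B I where
  toFun m := Coind.mk (f ∘ₗ lam ∘ₗ (LinearMap.toSpanSingleton B M m).restrictScalars A)
  map_add' m m' := Coind.ext' fun b => by simp
  map_smul' c m := Coind.ext' fun b => by simp [mul_smul]

theorem toCoind_val (lam : M →ₗ[A] N) {I : Type u} [AddCommGroup I] [Module A I]
    (f : N →ₗ[A] I) (m : M) (b : B) :
    (toCoind (B := B) lam f m).val b = f (lam (b • m)) := rfl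

end

theorem hasInjDim_of_trace {A B M N : Type u} [CommRing A] [CommRing B] [Algebra A B]
    [Module.Projective A B] [AddCommGroup M] [Module A M] [Module B M] [IsScalarTower A B M]
    [AddCommGroup N] [Module A N] (lam : M →ₗ[A] N)
    (h : ∀ φ : B →ₗ[A] N, ∃! m : M, ∀ b : B, lam (b • m) = φ b) (n : ℕ)
    (hN : HasInjectiveDimensionLE (ModuleCat.of A N) n) :
    HasInjectiveDimensionLE (ModuleCat.of B M) n := by
  induction n generalizing M N with
  | zero =>
    simp only [HasInjectiveDimensionLE, zero_add, ← injective_iff_hasInjectiveDimensionLT_one]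
      at hN ⊢
    rw [← Module.injective_iff_injective_object] at hN ⊢
    exact injective_of_trace lam h hN
  | succ n ih =>
    have ei : EnoughInjectives (ModuleCat.{u} A) := inferInstance
    rcases ei.1 (ModuleCat.of A N) with ⟨I, inj, f, monof⟩
    have hf : Function.Injective f.hom := (ModuleCat.mono_iff_injective f).mp monof
    let g : I →ₗ[A] I ⧸ LinearMap.range f.hom := (LinearMap.range f.hom).mkQ
    have hg : Function.Surjective g := Submodule.mkQ_surjective _
    have hex : Function.Exact f.hom g := LinearMap.exact_map_mkQ_range f.hom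
    have T_exact := ModuleCat.shortComplex_shortExact
      (ShortComplex.moduleCatMk f.hom g hex.linearMap_comp_eq_zero) hex hf hg
    have hQ : HasInjectiveDimensionLE (ModuleCat.of A (I ⧸ LinearMap.range f.hom)) n :=
      (T_exact.hasInjectiveDimensionLT_X₃_iff n inj).mpr hN
    have hQ' := ih (Coind.ev (B := B)) Coind.trace hQ
    have hI : Module.Injective A I := Module.injective_module_of_injective_object A I
    have hI' : Injective (ModuleCat.of B (Coind A B I)) :=
      (Module.injective_iff_injective_object _ _).mp
        (injective_of_trace (Coind.ev (B := B)) Coind.trace hI)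
    have hf' : Function.Injective (toCoind (B := B) lam f.hom) := fun m m' e =>
      eq_of_trace lam h fun b => hf (by
        rw [← toCoind_val, ← toCoind_val, e])
    have hg' : Function.Surjective (Coind.map (B := B) g) := fun ψ => by
      obtain ⟨φ, hφ⟩ := Module.projective_lifting_property g ψ.val hg
      exact ⟨Coind.mk φ, hφ⟩
    have hex' : Function.Exact (toCoind (B := B) lam f.hom) (Coind.map (B := B) g) := fun ψ => by
      constructor
      · intro e
        have hr : ∀ b, ψ.val b ∈ LinearMap.range f.hom := fun b =>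
          (hex _).mp (congrArg (fun χ => Coind.val χ b) e)
        obtain ⟨m, hm, -⟩ := h ((LinearEquiv.ofInjective f.hom hf).symm.toLinearMap ∘ₗ
          LinearMap.codRestrict _ ψ.val hr)
        refine ⟨m, Coind.ext' fun b => ?_⟩
        rw [toCoind_val, hm]
        exact LinearEquiv.ofInjective_symm_apply (h := hf) _ _
      · rintro ⟨m, rfl⟩
        exact Coind.ext' fun b => (hex _).mpr ⟨_, rfl⟩
    have TS_exact := ModuleCat.shortComplex_shortExact
      (ShortComplex.moduleCatMk (toCoind (B := B) lam f.hom) (Coind.map (B := B) g)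
        hex'.linearMap_comp_eq_zero) hex' hf' hg'
    exact (TS_exact.hasInjectiveDimensionLT_X₃_iff n hI').mp hQ'

end Pool.Agent.Lib.MP_954e53_ag.RS
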