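import Pool.Agent.Lib.MP_954e53_ag.RS.Cech

/-! Localisations inside a field. -/

namespace Pool.Agent.Lib.MP_954e53_ag.RS

universe u

variable {k K : Type u} [Field k] [Field K] [Algebra k K] {ι κ : Type*} {B C : Subalgebra k K}
  {V V' : Set K}

lemma le_loc (B : Subalgebra k K) (h : K) : B ≤ loc B h := le_sup_left

lemma loc_aux_inv_mem (B : Subalgebra k K) (h : K) : h⁻¹ ∈ loc B h :=
  (le_sup_right : Algebra.adjoin k {h⁻¹} ≤ loc B h) (Algebra.subset_adjoin rfl)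

lemma loc_aux_zero (B : Subalgebra k K) : loc B 0 = B := by
  refine le_antisymm (sup_le le_rfl (Algebra.adjoin_le ?_)) (le_loc B 0)
  rintro x rfl
  rw [inv_zero]
  exact B.zero_mem

lemma loc_aux_pow {h x : K} (hh : h ∈ B) {n N : ℕ} (hn : n ≤ N) (hx : h ^ n * x ∈ B) :
    h ^ N * x ∈ B := by
  obtain ⟨d, rfl⟩ := Nat.exists_eq_add_of_le hn
  rw [add_comm, pow_add, mul_assoc]
  exact B.mul_mem (B.pow_mem hh d) hx

/-- The elements with a denominator that is a power of `h`. -/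
def locAuxAlg (B : Subalgebra k K) (h : K) (hh : h ∈ B) : Subalgebra k K where
  carrier := {x | ∃ n : ℕ, h ^ n * x ∈ B}
  mul_mem' := by
    rintro a b ⟨n, hn⟩ ⟨m, hm⟩
    refine ⟨n + m, ?_⟩
    have : h ^ (n + m) * (a * b) = (h ^ n * a) * (h ^ m * b) := by ring
    rw [this]
    exact B.mul_mem hn hm
  add_mem' := by
    rintro a b ⟨n, hn⟩ ⟨m, hm⟩
    refine ⟨n + m, ?_⟩
    rw [mul_add]
    exact B.add_mem (loc_aux_pow hh (Nat.le_add_right n m) hn)
      (loc_aux_pow hh (Nat.le_add_left m n) hm)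
  algebraMap_mem' r := ⟨0, by rw [pow_zero, one_mul]; exact B.algebraMap_mem r⟩

lemma mem_loc_iff {h x : K} (hh : h ∈ B) (h0 : h ≠ 0) :
    x ∈ loc B h ↔ ∃ n : ℕ, h ^ n * x ∈ B := by
  constructor
  · intro hx
    have hle : loc B h ≤ locAuxAlg B h hh := by
      refine sup_le (fun y hy => ⟨0, by rwa [pow_zero, one_mul]⟩) (Algebra.adjoin_le ?_)
      rintro y rfl
      exact ⟨1, by rw [pow_one, mul_inv_cancel₀ h0]; exact B.one_mem⟩
    exact hle hx
  · rintro ⟨n, hn⟩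
    have : x = h⁻¹ ^ n * (h ^ n * x) := by
      rw [← mul_assoc, ← mul_pow, inv_mul_cancel₀ h0, one_pow, one_mul]
    rw [this]
    exact (loc B h).mul_mem ((loc B h).pow_mem (loc_aux_inv_mem B h) n) (le_loc B h hn)

lemma isLocalization_loc {h : K} (hh : h ∈ B) (h0 : h ≠ 0) :
    letI := (Subalgebra.inclusion (le_loc B h)).toRingHom.toAlgebra
    IsLocalization.Away (⟨h, hh⟩ : B) (loc B h) := by
  let := (Subalgebra.inclusion (le_loc B h)).toRingHom.toAlgebra
  have hv : ∀ b : B, ((algebraMap B (loc B h) b : loc B h) : K) = (b : K) := fun _ => rfl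
  refine IsLocalization.Away.mk _ ?_ ?_ ?_
  · refine IsUnit.of_mul_eq_one ⟨h⁻¹, loc_aux_inv_mem B h⟩ (Subtype.ext ?_)
    rw [MulMemClass.coe_mul, hv]
    exact mul_inv_cancel₀ h0
  · intro s
    obtain ⟨n, hn⟩ := (mem_loc_iff hh h0).1 s.2
    refine ⟨n, ⟨_, hn⟩, Subtype.ext ?_⟩
    rw [MulMemClass.coe_mul, SubmonoidClass.coe_pow, hv, hv]
    exact mul_comm _ _
  · intro a b hab
    have h1 := congrArg Subtype.val hab
    rw [hv, hv] at h1
    exact ⟨0, by rw [Subtype.ext h1]⟩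

lemma smooth_loc {h : K} (hh : h ∈ B) (hB : Algebra.Smooth k B) :
    Algebra.Smooth k (loc B h) := by
  by_cases h0 : h = 0
  · rw [h0, loc_aux_zero]
    exact hB
  let := (Subalgebra.inclusion (le_loc B h)).toRingHom.toAlgebra
  have := isLocalization_loc hh h0
  have : IsScalarTower k B (loc B h) := IsScalarTower.of_algebraMap_eq fun _ => rfl
  have : Algebra.Smooth B (loc B h) := Algebra.Smooth.of_isLocalization_Away (⟨h, hh⟩ : B)
  exact Algebra.Smooth.comp k B (loc B h)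

lemma smooth_of_loc (h : ∀ m : Ideal B, m.IsMaximal → ∃ a : B, a ∉ m ∧
    Algebra.Smooth k (loc B (a : K))) : Algebra.Smooth k B := by
  rw [← RingHom.smooth_algebraMap]
  refine RingHom.Smooth.ofLocalizationSpanTarget (algebraMap k B)
    {a : B | (a : K) ≠ 0 ∧ Algebra.Smooth k (loc B (a : K))} ?_ ?_
  · by_contra hne
    obtain ⟨m, hm, hle⟩ := Ideal.exists_le_maximal _ hne
    obtain ⟨a, ha, hs⟩ := h m hm
    refine ha (hle (Ideal.subset_span ⟨fun h0 => ha ?_, hs⟩))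
    rw [show a = 0 from Subtype.ext h0]
    exact m.zero_mem
  · rintro ⟨a, h0, hs⟩
    let := (Subalgebra.inclusion (le_loc B (a : K))).toRingHom.toAlgebra
    have : IsLocalization.Away a (loc B (a : K)) := isLocalization_loc a.2 h0
    have : IsScalarTower k B (loc B (a : K)) := IsScalarTower.of_algebraMap_eq fun _ => rfl
    rw [← IsScalarTower.algebraMap_eq k B (Localization.Away a), RingHom.smooth_algebraMap]
    exact Algebra.Smooth.of_equiv
      ((IsLocalization.algEquiv (Submonoid.powers a) (loc B (a : K))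
        (Localization.Away a)).restrictScalars k)

lemma loc_aux_cd_mul {n : ℕ} (a : K) (c : (Fin n → ι) → K) :
    cd (fun τ => a * c τ) = fun τ => a * cd c τ :=
  cd_map (AddMonoidHom.mulLeft a) c

lemma loc_aux_cd_add {n : ℕ} (b c : (Fin n → ι) → K) :
    cd (fun τ => b τ + c τ) = fun τ => cd b τ + cd c τ := by
  funext τ
  simp only [cd, smul_add, Finset.sum_add_distrib]

lemma loc_aux_common [Finite ι] {M : Set ι → Subalgebra k K} {n : ℕ} {h : K}
    (hh : ∀ s, h ∈ M s) (h0 : h ≠ 0) {c : (Fin n → ι) → K}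
    (hc : ∀ τ, c τ ∈ loc (M (Set.range τ)) h) :
    ∃ N : ℕ, ∀ τ, h ^ N * c τ ∈ M (Set.range τ) := by
  choose f hf using fun τ => (mem_loc_iff (hh (Set.range τ)) h0).1 (hc τ)
  obtain ⟨N, hN⟩ := (Set.finite_range f).bddAbove
  exact ⟨N, fun τ => loc_aux_pow (hh _) (hN ⟨τ, rfl⟩) (hf τ)⟩

lemma ExAt.loc [Finite ι] {M : Set ι → Subalgebra k K} {n : ℕ} (hM : ExAt M n) {h : K}
    (hh : ∀ s, h ∈ M s) : ExAt (fun s => loc (M s) h) n := by
  by_cases h0 : h = 0
  · simp only [h0, loc_aux_zero]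
    exact hM
  intro c hc hcd
  obtain ⟨N, hN⟩ := loc_aux_common hh h0 hc
  obtain ⟨b, hb, hbc⟩ := hM (fun τ => h ^ N * c τ) hN (by
    rw [loc_aux_cd_mul, hcd]
    funext τ
    simp)
  refine ⟨fun τ => h⁻¹ ^ N * b τ, fun τ => ?_, ?_⟩
  · exact Subalgebra.mul_mem _ (Subalgebra.pow_mem _ (loc_aux_inv_mem _ h) N)
      (le_loc _ h (hb τ))
  · rw [loc_aux_cd_mul, hbc]
    funext τ
    show h⁻¹ ^ N * (h ^ N * c τ) = c τ
    rw [← mul_assoc, ← mul_pow, inv_mul_cancel₀ h0, one_pow, one_mul]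

lemma exAt_of_loc [Finite ι] {M : Set ι → Subalgebra k K} (hM : ∀ s, B ≤ M s) {n : ℕ}
    (h : ∀ m : Ideal B, m.IsMaximal → ∃ a : B, a ∉ m ∧ ExAt (fun s => loc (M s) (a : K)) n) :
    ExAt M n := by
  intro c hc hcd
  let J : Ideal B :=
    { carrier := {a | ∃ b : (Fin n → ι) → K, (∀ τ, b τ ∈ M (Set.range τ)) ∧
        cd b = fun τ => (a : K) * c τ}
      add_mem' := by
        rintro a a' ⟨b, hb, hbc⟩ ⟨b', hb', hbc'⟩
        refine ⟨fun τ => b τ + b' τ, fun τ => (M _).add_mem (hb τ) (hb' τ), ?_⟩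
        rw [loc_aux_cd_add, hbc, hbc']
        funext τ
        rw [AddMemClass.coe_add, add_mul]
      zero_mem' := by
        refine ⟨fun _ => 0, fun τ => (M _).zero_mem, ?_⟩
        funext τ
        simp [cd]
      smul_mem' := by
        rintro r a ⟨b, hb, hbc⟩
        refine ⟨fun τ => (r : K) * b τ, fun τ => (M _).mul_mem (hM _ r.2) (hb τ), ?_⟩
        rw [loc_aux_cd_mul, hbc]
        funext τ
        rw [smul_eq_mul, MulMemClass.coe_mul, mul_assoc] }
  have hJ : J = ⊤ := by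
    by_contra hne
    obtain ⟨m, hm, hle⟩ := Ideal.exists_le_maximal _ hne
    obtain ⟨a, ha, hs⟩ := h m hm
    have h0 : (a : K) ≠ 0 := fun h0 => ha (by
      rw [show a = 0 from Subtype.ext h0]
      exact m.zero_mem)
    obtain ⟨b, hb, hbc⟩ := hs c (fun τ => le_loc _ _ (hc τ)) hcd
    obtain ⟨N, hN⟩ := loc_aux_common (fun s => hM s a.2) h0 hb
    refine ha (hm.isPrime.mem_of_pow_mem N (hle ⟨fun τ => (a : K) ^ N * b τ, hN, ?_⟩))
    rw [loc_aux_cd_mul, hbc]
    funext τ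
    rw [SubmonoidClass.coe_pow]
  have h1 : (1 : B) ∈ J := hJ ▸ Submodule.mem_top
  obtain ⟨b, hb, hbc⟩ := h1
  refine ⟨b, hb, hbc.trans ?_⟩
  funext τ
  rw [OneMemClass.coe_one, one_mul]

end Pool.Agent.Lib.MP_954e53_ag.RS
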