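import Pool.Agent.Lib.MP_954e53_ag.RS.RealizeRees

/-! Charts of the blow-up. -/

namespace Pool.Agent.Lib.MP_954e53_ag.RS.Real

open CategoryTheory AlgebraicGeometry TopologicalSpace HomogeneousLocalization

universe u

variable {B K A : Type u} [CommRing B] [Field K] [Algebra B K] {N : Submodule B K} [CommRing A]
  [Algebra B A] {𝒜 : ℕ → Submodule B A} [GradedAlgebra 𝒜] {ψ : A →+* K} {m : N → A}

variable (𝒜) in
/-- The structure map in degree zero. -/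
def toZero : CommRingCat.of B ⟶ CommRingCat.of (𝒜 0) := CommRingCat.ofHom (algebraMap B (𝒜 0))

variable (𝒜) in
/-- The structure morphism. -/
noncomputable def toB : Proj 𝒜 ⟶ Spec (CommRingCat.of B) :=
  Proj.toSpecZero 𝒜 ≫ Spec.map (toZero 𝒜)

namespace IsRees

variable (h : IsRees 𝒜 ψ m)

/-- The point with values in the field. -/
noncomputable def eta (v : N) (h0 : (v : K) ≠ 0) : Spec (CommRingCat.of K) ⟶ Proj 𝒜 :=
  Spec.map (CommRingCat.ofHom (aw 𝒜 ψ ((h.val v).trans_ne h0))) ≫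
    Proj.awayι 𝒜 (m v) (h.deg v) one_pos

include h

theorem isProper (hB : Function.Injective (algebraMap B K)) (hN : N.FG) : IsProper (toB 𝒜) := by
  obtain ⟨T, hT, hv⟩ := Submodule.fg_def.1 hN
  have h1 : T ⊆ Set.range (Subtype.val : N → K) := fun v hi =>
    ⟨⟨v, hv ▸ Submodule.subset_span hi⟩, rfl⟩
  have : Algebra.FiniteType B A :=
    ⟨Subalgebra.fg_def.2 ⟨_, (hT.preimage Subtype.val_injective.injOn).image m, h.gen _ (by
      rw [Set.image_preimage_eq_of_subset h1, hv])⟩⟩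
  have : IsScalarTower B (𝒜 0) A := IsScalarTower.of_algebraMap_eq (R := B) (S := 𝒜 0) (A := A)
    fun _ => rfl
  have := Algebra.FiniteType.of_restrictScalars_finiteType B (𝒜 0) A
  have : IsIso (toZero 𝒜) := by
    refine (ConcreteCategory.isIso_iff_bijective _).2 ⟨fun a b e => hB ?_, fun p => ?_⟩
    · rw [← h.alg, ← h.alg]
      exact congrArg (fun x : 𝒜 0 => ψ x.1) e
    · have h2 := h.mem 0 p.1 p.2
      rw [pow_zero] at h2
      obtain ⟨b, hb⟩ := Submodule.mem_one.1 h2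
      refine ⟨b, Subtype.ext (sub_eq_zero.1 (h.inj 0 _ (sub_mem (toZero 𝒜 b).2 p.2) ?_))⟩
      rw [map_sub, ← hb, ← h.alg]
      exact sub_self _
  unfold toB
  infer_instance

theorem iSup_eq_top : ⨆ v : N, Proj.basicOpen 𝒜 (m v) = ⊤ := by
  refine Proj.iSup_basicOpen_eq_top' 𝒜 m (fun v => ⟨1, h.deg v⟩) (eq_top_iff.2 fun p _ => ?_)
  have h1 : p ∈ Algebra.adjoin B (Set.range m) := by
    rw [← Set.image_univ, h.gen Set.univ fun v hv =>
      Submodule.subset_span ⟨⟨v, hv⟩, trivial, rfl⟩]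
    trivial
  have : IsScalarTower B (𝒜 0) A := IsScalarTower.of_algebraMap_eq (R := B) (S := 𝒜 0) (A := A)
    fun _ => rfl
  exact (Algebra.adjoin_le (S := (Algebra.adjoin (𝒜 0) (Set.range m)).restrictScalars B)
    Algebra.subset_adjoin) h1

theorem ne_zero_of_mem {v : N} {x : Proj 𝒜} (hx : x ∈ Proj.basicOpen 𝒜 (m v)) : (v : K) ≠ 0 :=
  fun e => by
    rw [h.inj 1 _ (h.deg v) ((h.val v).trans e)] at hx
    exact hx (zero_mem _)

theorem smul_le (b : B) (v : N) : Proj.basicOpen 𝒜 (m (b • v)) ≤ Proj.basicOpen 𝒜 (m v) :=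
  Proj.basicOpen_mono _ _ _ ⟨algebraMap B A b, sub_eq_zero.1 (h.inj 1 _
    (sub_mem (h.deg _) (by rw [mul_comm, ← Algebra.smul_def]; exact (𝒜 1).smul_mem b (h.deg v)))
    (by rw [map_sub, map_mul, h.val, h.val, h.alg, mul_comm, ← Algebra.smul_def]; exact sub_self _))⟩

omit h in
theorem div_pow_mem {C : Subring K} {w : K} (hw : w ∈ N) (h0 : w ≠ 0)
    (h : ∀ v ∈ N, v / w ∈ C) (n : ℕ) (a : K) (ha : a ∈ N ^ n) : a / w ^ n ∈ C := by
  induction ha using Submodule.pow_induction_on_left' with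
  | algebraMap r =>
    have := h _ (N.smul_mem r hw)
    rwa [Algebra.smul_def, mul_div_cancel_right₀ _ h0, ← div_one (algebraMap B K r),
      ← pow_zero w] at this
  | add a b _ _ _ ha hb =>
    rw [add_div]
    exact add_mem ha hb
  | mem_mul a ha i b _ hb =>
    rw [pow_succ', mul_div_mul_comm]
    exact mul_mem (h a ha) hb

theorem exists_chart (v₀ : N) (h₀ : (v₀ : K) ≠ 0) {n : ℕ} (w : Fin (n + 1) → N)
    (hw : ∀ j, (w j : K) ≠ 0) :
    ∃ (R : CommRingCat.{u}) (ι : Spec R ⟶ Proj 𝒜) (_ : IsOpenImmersion ι)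
      (φ : R ⟶ CommRingCat.of K) (θ : CommRingCat.of B ⟶ R), Spec.map φ ≫ ι = h.eta v₀ h₀ ∧
      Function.Injective φ.hom ∧ ι.opensRange = ⨅ j, Proj.basicOpen 𝒜 (m (w j)) ∧
      ι ≫ toB 𝒜 = Spec.map θ ∧ (∀ b, φ.hom (θ.hom b) = algebraMap B K b) ∧
      (∀ C : Subring K, φ.hom.range ≤ C ↔ ∀ j, ∀ v ∈ N, v / w j ∈ C) ∧
      ∀ v : N, ∃ r : R, φ.hom r = v ^ (n + 1) / ∏ j, (w j : K) ∧
        ι ⁻¹ᵁ Proj.basicOpen 𝒜 (m v) = PrimeSpectrum.basicOpen r := by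
  have hp : ∀ {l : ℕ} (z : Fin l → N), ∏ j, m (z j) ∈ 𝒜 l := fun z => by
    simpa using SetLike.prod_mem_graded 𝒜 (fun _ => 1) (fun j => m (z j))
      (F := Finset.univ) fun j _ => h.deg (z j)
  have hg : ψ (∏ j, m (w j)) = ∏ j, (w j : K) := by simp only [map_prod, h.val]
  have h1 : ψ (∏ j, m (w j)) ≠ 0 := hg.trans_ne (Finset.prod_ne_zero_iff.2 fun j _ => hw j)
  refine ⟨CommRingCat.of (Away 𝒜 (∏ j, m (w j))), Proj.awayι 𝒜 _ (hp w) n.succ_pos,
    inferInstance, CommRingCat.ofHom (aw 𝒜 ψ h1),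
    toZero 𝒜 ≫ CommRingCat.ofHom (fromZeroRingHom 𝒜 _),
    aw_eq 𝒜 ψ (hp w) (h.deg v₀) n.succ_pos one_pos h1 _, aw_injective 𝒜 ψ h.inj h1 (hp w), ?_, ?_,
    fun b => (aw_zero 𝒜 ψ h1 (toZero 𝒜 b)).trans (h.alg b), fun C => ⟨fun hC j v hv => hC ?_, ?_⟩,
    fun v => ⟨_, ?_, Proj.awayι_preimage_basicOpen 𝒜 (hp w) n.succ_pos (h.deg v) one_pos⟩⟩
  · rw [Proj.opensRange_awayι]
    ext x
    have := x.isPrime
    rw [Opens.coe_iInf, Set.mem_iInter]
    exact (Ideal.IsPrime.prod_mem_iff (p := x.asHomogeneousIdeal.toIdeal)).not.trans (by simp)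
  · rw [toB, Proj.awayι_toSpecZero_assoc, Spec.map_comp]
  · refine ⟨Away.mk 𝒜 (hp w) 1 (m ⟨v, hv⟩ * ∏ l, m (w (j.succAbove l))) (by
      simpa [add_comm] using SetLike.mul_mem_graded (h.deg ⟨v, hv⟩)
        (hp fun l => w (j.succAbove l))), (aw_mk 𝒜 ψ h1 (hp w) _ _ _).trans ?_⟩
    rw [hg, pow_one, Fin.prod_univ_succAbove _ j, map_mul, map_prod]
    simp only [h.val]
    exact mul_div_mul_right _ _ (Finset.prod_ne_zero_iff.2 fun l _ => hw _)
  · rintro hC _ ⟨y, rfl⟩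
    obtain ⟨l, a, ha, rfl⟩ := Away.mk_surjective 𝒜 (hp w) y
    have h2 : ψ a / (∏ j, (w j : K)) ^ l =
        ψ a / (w 0 : K) ^ (l • (n + 1)) * (∏ j, (w 0 : K) / w j) ^ l := by
      have := hw 0
      rw [Finset.prod_div_distrib, Finset.prod_const, Finset.card_univ, Fintype.card_fin,
        smul_eq_mul, pow_mul', div_pow]
      field_simp
    rw [CommRingCat.hom_ofHom, aw_mk, hg, h2]
    exact mul_mem (div_pow_mem (w 0).2 (hw 0) (hC 0) _ _ (h.mem _ _ ha))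
      (pow_mem (prod_mem fun j _ => hC j _ (w 0).2) _)
  · rw [CommRingCat.hom_ofHom, aw_mk, hg, pow_one, map_pow, h.val]

theorem exists_chart₁ (v₀ : N) (h₀ : (v₀ : K) ≠ 0) (w : N) (hw : (w : K) ≠ 0) :
    ∃ (R : CommRingCat.{u}) (ι : Spec R ⟶ Proj 𝒜) (_ : IsOpenImmersion ι)
      (φ : R ⟶ CommRingCat.of K) (θ : CommRingCat.of B ⟶ R), Spec.map φ ≫ ι = h.eta v₀ h₀ ∧
      Function.Injective φ.hom ∧ ι.opensRange = Proj.basicOpen 𝒜 (m w) ∧
      ι ≫ toB 𝒜 = Spec.map θ ∧ (∀ b, φ.hom (θ.hom b) = algebraMap B K b) ∧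
      (∀ C : Subring K, φ.hom.range ≤ C ↔ ∀ v ∈ N, v / w ∈ C) ∧
      ∀ v : N, ∃ r : R, φ.hom r = v / w ∧
        ι ⁻¹ᵁ Proj.basicOpen 𝒜 (m v) = PrimeSpectrum.basicOpen r := by
  simpa using h.exists_chart v₀ h₀ (n := 0) (fun _ => w) fun _ => hw

theorem exists_mem (x : Proj 𝒜) : ∃ v : N, x ∈ Proj.basicOpen 𝒜 (m v) :=
  Opens.mem_iSup.1 (h.iSup_eq_top.ge (Opens.mem_top x))

theorem smul_eq (b : B) {v : N} (hv : (v : K) ≠ 0) : Proj.basicOpen 𝒜 (m (b • v)) =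
    Proj.basicOpen 𝒜 (m v) ⊓ toB 𝒜 ⁻¹ᵁ PrimeSpectrum.basicOpen b := by
  obtain ⟨R, ι, _, φ, θ, -, h1, h2, h3, h4, -, h5⟩ := h.exists_chart₁ v hv v hv
  obtain ⟨r, h6, h7⟩ := h5 (b • v)
  obtain rfl : r = θ.hom b := h1 (by
    rw [h6, h4, Submodule.coe_smul, Algebra.smul_def, mul_div_cancel_right₀ _ hv])
  have h8 : ι ⁻¹ᵁ (toB 𝒜 ⁻¹ᵁ PrimeSpectrum.basicOpen b) = PrimeSpectrum.basicOpen (θ.hom b) := by
    rw [← Scheme.Hom.comp_preimage, h3]
    rfl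
  refine le_antisymm (fun x hx => ?_) fun x hx => ?_
  · obtain ⟨y, rfl⟩ := h2.ge (h.smul_le b v hx)
    exact ⟨h.smul_le b v hx, (h7.trans h8.symm).le hx⟩
  · obtain ⟨y, rfl⟩ := h2.ge hx.1
    exact (h7.trans h8.symm).ge hx.2

theorem iSup_eq_top_of_val {ι : Type*} (f : ι → N) (hf : ∀ i, (f i : K) ≠ 0)
    (hO : ∀ O : ValuationSubring K, (∀ b, algebraMap B K b ∈ O) → ∃ i, ∀ v ∈ N, v / f i ∈ O) :
    ⨆ i, Proj.basicOpen 𝒜 (m (f i)) = ⊤ := by
  refine eq_top_iff.2 fun x _ => Opens.mem_iSup.2 ?_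
  obtain ⟨v, hx⟩ := h.exists_mem x
  have hv := h.ne_zero_of_mem hx
  obtain ⟨R, ι, _, φ, θ, -, h1, h2, -, h4, -, h5⟩ := h.exists_chart₁ v hv v hv
  obtain ⟨y, rfl⟩ := h2.ge hx
  have h6 : Function.Bijective φ.hom.rangeRestrict :=
    ⟨fun a b e => h1 (congrArg Subtype.val e), φ.hom.rangeRestrict_surjective⟩
  obtain ⟨O, h7, h8⟩ := Ideal.image_subset_nonunits_valuationSubring
    (y.asIdeal.map φ.hom.rangeRestrict) fun e =>
      y.isPrime.ne_top ((Ideal.map_eq_top_of_bijective _ h6).1 e)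
  obtain ⟨i, hi⟩ := hO O fun b => h7 ⟨_, h4 b⟩
  obtain ⟨r, h9, h10⟩ := h5 (f i)
  refine ⟨i, h10.ge fun hr => ?_⟩
  have h11 : φ.hom r ∈ O.nonunits := h8 ⟨_, Ideal.mem_map_of_mem _ hr, rfl⟩
  rw [h9, ValuationSubring.mem_nonunits_iff_or, inv_div] at h11
  exact h11.elim (div_ne_zero (hf i) hv) fun e => e (hi v v.2)

theorem isIntegral (v₀ : N) (h₀ : (v₀ : K) ≠ 0) :
    IsIntegral (Proj 𝒜) ∧ ∀ W : (Proj 𝒜).Opens, W ≠ ⊥ → pt (h.eta v₀ h₀) ∈ W :=
  isIntegral_of_charts fun x => by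
    obtain ⟨v, hx⟩ := h.exists_mem x
    obtain ⟨R, ι, _, φ, θ, h1, h2, h3, -⟩ := h.exists_chart₁ v₀ h₀ v (h.ne_zero_of_mem hx)
    exact ⟨R, ι, inferInstance, φ, h1, h2, h3.ge hx⟩

theorem isIso (hB : Function.Injective (algebraMap B K)) {v₀ : N} (h₀ : (v₀ : K) ≠ 0) {b : B}
    (hb : b ≠ 0) (hv : ∀ v : N, ∃ a : B, b • v = a • v₀) :
    IsIso (toB 𝒜 ∣_ PrimeSpectrum.basicOpen b) := by
  have h0 : algebraMap B K b ≠ 0 := (map_ne_zero_iff _ hB).2 hb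
  obtain ⟨R, ι, _, φ, θ, -, h1, h2, h3, h4, h5, h6⟩ := h.exists_chart₁ v₀ h₀ (b • v₀) (by
    rw [Submodule.coe_smul, Algebra.smul_def]
    exact mul_ne_zero h0 h₀)
  let := θ.hom.toAlgebra
  have : IsLocalization.Away b R := by
    refine IsLocalization.Away.mk _ ?_ (fun s => ?_) fun x y e => ⟨0, by
      rw [hB ((h4 x).symm.trans ((congrArg φ.hom e).trans (h4 y)))]⟩
    · obtain ⟨r, h7, -⟩ := h6 v₀
      refine IsUnit.of_mul_eq_one r (h1 ?_)
      rw [map_mul, h7, map_one, RingHom.algebraMap_toAlgebra, h4, Submodule.coe_smul,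
        Algebra.smul_def]
      field_simp
    · let l : Localization.Away b →+* K := IsLocalization.Away.lift b h0.isUnit
      have hl : ∀ a, l (algebraMap B _ a) = algebraMap B K a := IsLocalization.Away.lift_eq b _
      obtain ⟨z, hz⟩ := (h5 l.range).2 (fun v hN => by
        obtain ⟨a, ha⟩ := hv ⟨v, hN⟩
        have h7 := congrArg l (IsLocalization.Away.mul_invSelf (S := Localization.Away b) b)
        have h8 := congrArg Subtype.val ha
        simp only [Submodule.coe_smul, Algebra.smul_def] at h8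
        rw [map_mul, hl, map_one] at h7
        refine ⟨algebraMap B _ a * IsLocalization.Away.invSelf b ^ 2, ?_⟩
        rw [map_mul, map_pow, hl, eq_inv_of_mul_eq_one_right h7, Submodule.coe_smul,
          Algebra.smul_def]
        field_simp
        linear_combination -h8) ⟨s, rfl⟩
      obtain ⟨n, a, ha⟩ := IsLocalization.Away.surj b z
      refine ⟨n, a, h1 ?_⟩
      have h7 := congrArg l ha
      simp only [map_mul, map_pow, hl, RingHom.algebraMap_toAlgebra, h4] at h7 ⊢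
      rw [← hz, h7]
  have h7 : IsOpenImmersion (Spec.map θ) := IsOpenImmersion.of_isLocalization (S := R) b
  have : IsOpenImmersion (ι ≫ toB 𝒜) := h3 ▸ h7
  refine isIso_restrict _ _ ι ?_ (Opens.ext ?_)
  · rw [h2, h.smul_eq b h₀, inf_eq_right]
    intro x hx
    obtain ⟨v, h8⟩ := h.exists_mem x
    obtain ⟨a, ha⟩ := hv v
    exact h.smul_le a v₀ (ha ▸ (h.smul_eq b (h.ne_zero_of_mem h8)).ge ⟨h8, hx⟩)
  · rw [Scheme.Hom.coe_opensRange, h3]
    exact PrimeSpectrum.localization_away_comap_range R b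

end IsRees

end Pool.Agent.Lib.MP_954e53_ag.RS.Real
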