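import Pool.Agent.Lib.MP_954e53_ag.RS.Stmt
import Pool.Agent.Lib.MP_954e53_ag.RS.Defs
import Pool.Agent.Lib.MP_954e53_ag.RS.RealizeProj

/-! The blow-up as a scheme. -/

namespace Pool.Agent.Lib.MP_954e53_ag.RS

open CategoryTheory AlgebraicGeometry TopologicalSpace

universe u

theorem rees_div_mem {K S : Type u} [Field K] [CommRing S] [Algebra S K]
    {V : Set K} {C : Subring K} (hC : ∀ a, algebraMap S K a ∈ C) {z : K}
    (h : ∀ v ∈ V, v / z ∈ C) : ∀ v ∈ Submodule.span S V, v / z ∈ C := fun v hv => by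
  induction hv using Submodule.span_induction with
  | mem v hv => exact h v hv
  | zero => rw [zero_div]; exact zero_mem _
  | add a b _ _ ha hb => rw [add_div]; exact add_mem ha hb
  | smul a v _ hv => rw [Algebra.smul_def, mul_div_assoc]; exact mul_mem (hC a) hv

theorem rees_exists_den {K S : Type u} [Field K] [CommRing S] [Algebra S K]
    (hS : Function.Injective (algebraMap S K)) {N : Submodule S K} (hN : N.FG)
    (hfr : ∀ v ∈ N, ∃ a b : S, b ≠ 0 ∧ b • v = algebraMap S K a) {v₀ : N} (h₀ : (v₀ : K) ≠ 0) :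
    ∃ b : S, b ≠ 0 ∧ ∀ v : N, ∃ a : S, b • v = a • v₀ := by
  have := hS.isDomain _
  obtain ⟨T, hT⟩ := hN
  choose! a b hb hab using hfr
  have h1 : ∀ v ∈ T, v ∈ N := fun v hv => hT ▸ Submodule.subset_span hv
  have h2 : a v₀ ≠ 0 := fun e => by
    have := hab _ v₀.2
    rw [e, map_zero, Algebra.smul_def, mul_eq_zero, map_eq_zero_iff _ hS] at this
    exact this.elim (hb _ v₀.2) h₀
  refine ⟨a v₀ * ∏ v ∈ T, b v, mul_ne_zero h2 (Finset.prod_ne_zero_iff.2 fun v hv =>
    hb v (h1 v hv)), fun v => ?_⟩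
  have h3 : (v : K) ∈ (Submodule.span S {(v₀ : K)}).comap
      ((a v₀ * ∏ v ∈ T, b v) • LinearMap.id : K →ₗ[S] K) := by
    refine (hT.ge.trans (Submodule.span_le.2 fun z hz => ?_)) v.2
    obtain ⟨c, hc⟩ := Finset.dvd_prod_of_mem b hz
    refine Submodule.mem_span_singleton.2 ⟨c * a z * b v₀, ?_⟩
    have h4 := hab _ v₀.2
    have h5 := hab z (h1 z hz)
    rw [LinearMap.smul_apply, LinearMap.id_apply]
    simp only [hc, Algebra.smul_def, map_mul] at h4 h5 ⊢
    rw [← h4, ← h5]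
    ring
  obtain ⟨c, hc⟩ := Submodule.mem_span_singleton.1 h3
  exact ⟨c, Subtype.ext hc.symm⟩

theorem exists_scheme {k K S : Type u} [Field k] [Field K] [Algebra k K] [CommRing S]
    [Algebra k S] (φ : S →ₐ[k] K) (hφ : Function.Injective φ) (V : Submodule k K)
    [Module.Finite k V] {ι : Type} [Finite ι] {w : ι → K} (hw : Covers φ.range V w)
    (hsm : ∀ i, Algebra.Smooth k (chart φ.range V (w i)))
    (hfr : ∀ v ∈ V, ∃ a b : S, b ≠ 0 ∧ v * φ b = φ a) :
    ∃ (Y : Scheme.{u}) (f : Y ⟶ Spec (CommRingCat.of S)), IsResolution k f ∧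
      ∃ (ev : ∀ W : Y.Opens, W ≠ ⊥ → (Γ(Y, W) →+ K)) (U : ι → Y.Opens),
        (∀ W h, Function.Injective (ev W h)) ∧
        (∀ (W W' : Y.Opens) (i : W' ≤ W) (h : W ≠ ⊥) (h' : W' ≠ ⊥) (x : Γ(Y, W)),
          ev W' h' (Y.presheaf.map (homOfLE i).op x) = ev W h x) ∧
        ⨆ i, U i = ⊤ ∧
        (∀ (a : S) (i : ι), IsAffineOpen (U i ⊓ f ⁻¹ᵁ PrimeSpectrum.basicOpen a)) ∧
        ∀ a : S, a ≠ 0 → ∀ (n : ℕ) (τ : Fin (n + 1) → ι),
          ∃ h : ⨅ j, (U (τ j) ⊓ f ⁻¹ᵁ PrimeSpectrum.basicOpen a) ≠ ⊥, ∀ z : K,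
            z ∈ (ev _ h).range ↔ z ∈ loc (charts φ.range V w (Set.range τ)) (φ a) := by
  let : Algebra S K := φ.toRingHom.toAlgebra
  have : IsScalarTower k S K := IsScalarTower.of_algebraMap_eq fun c => (φ.commutes c).symm
  have hS : Function.Injective (algebraMap S K) := hφ
  have := hS.isDomain _
  have hN : (Submodule.span S (V : Set K)).FG := by
    obtain ⟨T, hT⟩ := Module.Finite.iff_fg.1 ‹Module.Finite k V›
    exact ⟨T, by rw [← hT, Submodule.span_span_of_tower]⟩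
  obtain ⟨A, _, _, 𝒜, _, ψ, m, h⟩ := Real.exists_isRees (Submodule.span S (V : Set K))
  obtain ⟨i₀, -⟩ := hw.val ⊤ fun _ _ => ValuationSubring.mem_top _
  let w' : ι → Submodule.span S (V : Set K) := fun i => ⟨w i, Submodule.subset_span (hw.mem i)⟩
  obtain ⟨hI, hd⟩ := h.isIntegral (w' i₀) (hw.ne i₀)
  have hc := h.iSup_eq_top_of_val w' hw.ne fun O hO => by
    obtain ⟨i, hi⟩ := hw.val O (by
      rintro _ ⟨b, rfl⟩
      exact hO b)
    exact ⟨i, rees_div_mem (C := O.toSubring) hO hi⟩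
  obtain ⟨b, hb, hv⟩ := rees_exists_den hS hN (fun v hv => by
    induction hv using Submodule.span_induction with
    | mem v hv =>
      obtain ⟨a, b, hb, e⟩ := hfr v hv
      exact ⟨a, b, hb, (mul_comm _ _).trans e⟩
    | zero => exact ⟨0, 1, one_ne_zero, by simp⟩
    | add x y _ _ hx hy =>
      obtain ⟨a, b, hb, e⟩ := hx
      obtain ⟨a', b', hb', e'⟩ := hy
      refine ⟨b' * a + b * a', b * b', mul_ne_zero hb hb', ?_⟩
      simp only [Algebra.smul_def, map_add, map_mul] at e e' ⊢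
      rw [← e, ← e']
      ring
    | smul c x _ hx =>
      obtain ⟨a, b, hb, e⟩ := hx
      exact ⟨c * a, b, hb, by rw [smul_comm, e, map_mul, Algebra.smul_def]⟩) (v₀ := w' i₀)
    (hw.ne i₀)
  refine ⟨Proj 𝒜, Real.toB 𝒜, ⟨hI, ?_, h.isProper hS hN, PrimeSpectrum.basicOpen b, fun e =>
    hb (PrimeSpectrum.basicOpen_eq_bot_iff b |>.1 e).eq_zero, h.isIso hS (hw.ne i₀) hb hv⟩,
    fun W hW => (Real.evh _ (hd W hW)).toAddMonoidHom, fun i => Proj.basicOpen 𝒜 (m (w' i)),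
    fun W hW => Real.evh_injective _ hd (hd W hW),
    fun W W' i _ h' x => Real.evh_res _ i (hd W' h') x, hc,
    fun a i => ?_, fun a ha n τ => ?_⟩
  · refine (IsZariskiLocalAtSource.iff_of_iSup_eq_top (P := @Smooth) _ hc).2 fun i => ?_
    obtain ⟨R, j, _, ε, θ, -, h1, h2, h3, h4, h5, -⟩ :=
      h.exists_chart₁ (w' i) (hw.ne i) (w' i) (hw.ne i)
    let : Algebra k R := (θ.hom.comp (algebraMap k S)).toAlgebra
    let ε' : R →ₐ[k] K := { ε.hom with commutes' := fun c => (h4 _).trans (φ.commutes c) }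
    have h6 : ε'.range = chart φ.range V (w i) := by
      refine le_antisymm ((h5 (chart φ.range V (w i)).toSubring).2 (rees_div_mem
        (fun a => (le_sup_left : φ.range ≤ _) ⟨a, rfl⟩) fun v hv =>
          (le_sup_right : _ ≤ chart φ.range V (w i)) (Algebra.subset_adjoin ⟨v, hv, rfl⟩)))
        (sup_le ?_ (Algebra.adjoin_le ?_))
      · rintro _ ⟨a, rfl⟩
        exact ⟨_, h4 a⟩
      · rintro _ ⟨v, hv, rfl⟩
        exact (h5 _).1 le_rfl v (Submodule.subset_span hv)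
    have h7 := hsm i
    rw [← h6] at h7
    have h8 : Algebra.Smooth k R := .of_equiv (AlgEquiv.ofInjective ε' h1).symm
    have : Smooth (Spec.map (CommRingCat.ofHom (algebraMap k S) ≫ θ)) :=
      (HasRingHomProperty.Spec_iff (P := @Smooth)).2 h8
    rw [← h2, ← Scheme.Hom.isoOpensRange_inv_comp, Category.assoc, reassoc_of% h3, ← Spec.map_comp]
    infer_instance
  · rw [← h.smul_eq a (v := w' i) (hw.ne i)]
    exact Proj.isAffineOpen_basicOpen _ _ (h.deg _) one_pos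
  · have h0 : φ a ≠ 0 := (map_ne_zero_iff _ hφ).2 ha
    have e : ∀ i, ((a • w' i : Submodule.span S (V : Set K)) : K) = φ a * w i := fun _ => rfl
    obtain ⟨R, j, _, ε, θ, h1, -, h2, -, h4, h5, -⟩ := h.exists_chart (w' i₀) (hw.ne i₀)
      (fun l => a • w' (τ l)) fun l => mul_ne_zero h0 (hw.ne _)
    replace h2 := h2.trans (iInf_congr fun l => h.smul_eq a (v := w' (τ l)) (hw.ne _))
    have h3 := h2.le (Real.pt_mem_range h1)
    refine ⟨fun e => (e.le h3 : _ ∈ (⊥ : (Proj 𝒜).Opens)), fun z => ?_⟩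
    refine (SetLike.ext_iff.1 (Real.evh_range h1 h2 h3) z).trans ?_
    simp only [e] at h5
    have h6 := (h5 _).1 le_rfl
    let D : Subalgebra k K :=
      { ε.hom.range with algebraMap_mem' := fun c => ⟨_, (h4 _).trans (φ.commutes c)⟩ }
    refine ⟨fun hz => (h5 (loc (charts φ.range V w (Set.range τ)) (φ a)).toSubring).2
      (fun l => rees_div_mem (fun s => (le_sup_left.trans le_sup_left : φ.range ≤ _)
        ⟨s, rfl⟩) fun v hv => ?_) hz, fun hz => (sup_le (sup_le ?_ (iSup₂_le ?_))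
          (Algebra.adjoin_le ?_) : _ ≤ D) hz⟩
    · rw [mul_comm, ← div_div, div_eq_mul_inv]
      have h7 : chart φ.range V (w (τ l)) ≤ charts φ.range V w (Set.range τ) :=
        le_sup_of_le_right (le_iSup₂_of_le (f := fun i (_ : i ∈ Set.range τ) =>
          chart φ.range V (w i)) (τ l) ⟨l, rfl⟩ le_rfl)
      exact mul_mem ((le_sup_left : _ ≤ loc _ (φ a)) (h7 ((le_sup_right : _ ≤ chart _ _ _)
        (Algebra.subset_adjoin (Set.mem_image_of_mem _ hv)))))
        ((le_sup_right : _ ≤ loc _ (φ a)) (Algebra.subset_adjoin rfl))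
    · rintro _ ⟨s, rfl⟩
      exact ⟨_, h4 s⟩
    · rintro _ ⟨l, rfl⟩
      refine sup_le ?_ (Algebra.adjoin_le ?_)
      · rintro _ ⟨s, rfl⟩
        exact ⟨_, h4 s⟩
      · rintro _ ⟨v, hv, rfl⟩
        have := h6 l (φ a * v) (Submodule.smul_mem _ a (Submodule.subset_span hv))
        rwa [mul_div_mul_left _ _ h0] at this
    · rintro _ rfl
      have := h6 0 _ (w' (τ 0)).2
      rwa [div_mul_cancel_right₀ (hw.ne _)] at this

end Pool.Agent.Lib.MP_954e53_ag.RS
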