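import Pool.Agent.Lib.MP_954e53_ag.RS.Chain
import Pool.Agent.Lib.MP_954e53_ag.RS.Base
import Pool.Agent.Lib.MP_954e53_ag.RS.Cartan
import Pool.Agent.Lib.MP_954e53_ag.RS.Rees
import Pool.Agent.Lib.MP_954e53_ag.RS.Group
import Pool.Agent.Lib.MP_954e53_ag.RS.Action

/-! The counterexample has rational singularities. -/

namespace Pool.Agent.Lib.MP_954e53_ag.RS

open MvPolynomial CategoryTheory AlgebraicGeometry

universe u

theorem resolution_of_mdl {k K S : Type u} [Field k] [Field K] [Algebra k K] [CommRing S]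
    [Algebra k S] (φ : S →ₐ[k] K) (hφ : Function.Injective φ) (V : Submodule k K)
    [Module.Finite k V] (hM : Mdl φ.range V 1)
    (hfr : ∀ v ∈ V, ∃ a b : S, b ≠ 0 ∧ v * φ b = φ a) :
    ∃ (Y : Scheme.{u}) (f : Y ⟶ Spec (CommRingCat.of S)),
      IsResolution k f ∧ ∀ i, 0 < i → Limits.IsZero (higherDirectImage f i) := by
  obtain ⟨ι, _, w, hw, hex⟩ := hM.ex
  obtain ⟨Y, f, hf, ev, U, h1, h2, h3, h4, h5⟩ := exists_scheme φ hφ V hw
    (fun i => hM.smooth _ (hw.mem i) (hw.ne i)) hfr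
  refine ⟨Y, f, hf, fun i hi => ?_⟩
  obtain ⟨i, rfl⟩ := Nat.exists_eq_succ_of_ne_zero hi.ne'
  have := hf.2.2.1
  have : Y.IsSeparated := ⟨by
    rw [← Limits.terminal.comp_from f]
    infer_instance⟩
  refine isZero_of_cech f ev h1 h2 (fun x W hx => ?_) i
  obtain ⟨_, ⟨a, rfl⟩, ha, haW⟩ :=
    (PrimeSpectrum.isTopologicalBasis_basic_opens (R := S)).exists_subset_of_mem_open
      (u := W.1) hx W.2
  have ha0 : a ≠ 0 := by
    rintro rfl
    exact ha (Ideal.zero_mem _)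
  refine ⟨PrimeSpectrum.basicOpen a, haW, ha, ι, fun i => U i ⊓ f ⁻¹ᵁ PrimeSpectrum.basicOpen a,
    fun s => (loc (charts φ.range V w s) (φ a)).toSubring.toAddSubgroup, ?_, h4 a,
    fun n τ => ?_, fun n => ?_⟩
  · rw [← iSup_inf_eq, h3, top_inf_eq]
  · obtain ⟨h, h6⟩ := h5 a ha0 n τ
    exact ⟨h, AddSubgroup.ext h6⟩
  · exact ((hex (n + 1) (by omega)).loc fun s => le_charts _ _ _ s ⟨a, rfl⟩).congr
      fun _ _ => Iff.rfl

variable {k : Type u} [Field k] [IsAlgClosed k] [CharZero k] {c d : ℕ} {G : Type} [Group G]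
  [Finite G] {ρ : G →* Matrix (Fin c ⊕ Fin d) (Fin c ⊕ Fin d) k}
  {F : Fin c ⊕ Fin d → MvPolynomial (Fin c ⊕ Fin d) k}

theorem inv_rational (hG : IsPGroup 2 G) (hd : 2 ≤ d) (h : Gen.GroupData ρ c)
    (hF : Gen.CIData ρ F) : RationalSingularities k (Gen.invRing ρ F) := by
  have hp := hF.toOctics.params
  have := hF.toOctics.isDomain hp hd
  have := hF.toOctics.isIntegrallyClosed hp hd
  have := Gen.inv_finite hF hp
  have := Gen.inv_finiteType hF hp
  refine ⟨Gen.inv_normal hF, ?_⟩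
  let K := FractionRing (Gen.CI F)
  obtain ⟨α, hα, hfix⟩ := exists_action (K := K) hF
  let j : Gen.CI F →ₐ[k] K := IsScalarTower.toAlgHom k _ _
  have hj : Function.Injective j := IsFractionRing.injective _ _
  let ψ : MvPolynomial (Fin c ⊕ Fin d) k →ₐ[k] K := j.comp (Ideal.Quotient.mkₐ k _)
  let φ : Gen.invRing ρ F →ₐ[k] K := j.comp (Gen.invRing ρ F).val
  have hφ : Function.Injective φ := hj.comp Subtype.val_injective
  have hψ : RingHom.ker ψ = Gen.eqIdeal F := by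
    ext p
    rw [RingHom.mem_ker, ← Ideal.Quotient.eq_zero_iff_mem]
    exact map_eq_zero_iff j hj
  have hft : Algebra.FiniteType k φ.range :=
    Algebra.FiniteType.of_surjective φ.rangeRestrict φ.rangeRestrict_surjective
  have hfano : 8 * c < c + d := by simpa using h.fano
  have hM : Mdl φ.range (baseV ψ) 1 := by
    refine base_mdl hF.toOctics hp (by omega) ψ hψ _ ?_ fun O hO i => ?_
    · rintro _ ⟨s, rfl⟩
      obtain ⟨p, hp⟩ := Ideal.Quotient.mk_surjective (s : Gen.CI F)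
      exact ⟨p, congrArg j hp⟩
    · have h1 : IsIntegral (Gen.invRing ρ F) (Ideal.Quotient.mk (Gen.eqIdeal F) (X i)) :=
        Algebra.IsIntegral.isIntegral _
      let φ' : Gen.invRing ρ F →+* O := (φ : _ →+* K).codRestrict O.toSubring fun s => hO _ ⟨s, rfl⟩
      have h2 : IsIntegral O (ψ (X i)) :=
        IsIntegral.map_of_comp_eq φ' (j : _ →+* K) (RingHom.ext fun _ => rfl) h1
      obtain ⟨y, hy⟩ := IsIntegrallyClosed.isIntegral_iff.1 h2
      exact hy ▸ y.2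
  have := finite_baseV ψ
  obtain ⟨V, hV, hM', hinv⟩ := hM.group hG α (by
      rintro g _ ⟨⟨_, p, hp, rfl⟩, rfl⟩
      exact (hα g p).trans (congrArg ψ (Gen.mem_invAlg.1 hp _))) (by
      rintro g _ ⟨p, hp, rfl⟩
      refine ⟨Gen.act (ρ g⁻¹) p, ?_, (hα g p).symm⟩
      obtain ⟨p1, h1, p2, h2, rfl⟩ := Submodule.mem_sup.1 hp
      rw [map_add]
      exact Submodule.add_mem_sup (Gen.act_hom _ h1) (Gen.act_hom _ h2))
  exact resolution_of_mdl φ hφ V hM' fun v hv => hfix v fun g => hinv g v hv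

theorem counterexample_rational (k : Type u) [Field k] [IsAlgClosed k] [CharZero k] :
    ∃ (S : Type u) (_ : CommRing S) (_ : IsDomain S) (_ : Algebra k S)
    (𝒜 : ℕ → Submodule k S) (_ : GradedAlgebra 𝒜) (d r : ℕ),
    IsSectionRing 𝒜 ∧ (∀ y ∈ 𝒜 0, ∃ a : k, algebraMap k S a = y) ∧ 2 ≤ d ∧ 1 ≤ r ∧
      GorensteinOfIndex 𝒜 d r ∧ RationalSingularities k S ∧ (∀ y ∈ 𝒜 1, y = 0) ∧
      ∃ N₀, ∀ N, N₀ ≤ N → core (truncIdeal 𝒜 N) ≠ gradedCore 𝒜 (truncIdeal 𝒜 N) := by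
  obtain ⟨c, d, G, _, _, ρ, F, hG2, hd, h, hF⟩ := exists_data_two k
  have hp := hF.toOctics.params
  have := hF.toOctics.isDomain hp hd
  obtain ⟨_⟩ := Gen.invGraded h hF
  obtain ⟨n, hgen⟩ := Gen.inv_generatedBy h hF hp
  obtain ⟨r, hr, hG⟩ := Gen.inv_gorenstein h hF hp
  have hfree := Gen.inv_free hF hp
  exact ⟨Gen.invRing ρ F, inferInstance, inferInstance, inferInstance, Gen.invGr ρ F,
    inferInstance, d, r, isSectionRing_of hgen hfree hG hd, fun _ => Gen.invGr_zero, hd, hr, hG,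
    inv_rational hG2 hd h hF, Gen.inv_one h, core_ne hgen hfree hG hd (Gen.inv_one h)⟩

end Pool.Agent.Lib.MP_954e53_ag.RS
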