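import Mathlib

/-! Formal smoothness descends from a quadratic extension. -/

namespace Pool.Agent.Lib.MP_954e53_ag.RS

universe u

/-- Functoriality of the algebra obtained by adjoining a square root. -/
def quad_map {k A B : Type u} [CommRing k] [CommRing A] [CommRing B] [Algebra k A] [Algebra k B]
    (f : A →ₐ[k] B) (a : A) (b : B) (h : f a = b) :
    QuadraticAlgebra A a 0 →ₐ[k] QuadraticAlgebra B b 0 where
  toFun z := ⟨f z.re, f z.im⟩
  map_one' := by
    ext
    · exact map_one f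
    · exact map_zero f
  map_mul' z w := by
    ext <;> simp [h]
  map_zero' := by
    ext <;> simp
  map_add' z w := by
    ext <;> simp
  commutes' r := by
    ext
    · exact f.commutes r
    · exact map_zero f

lemma quad_map_re {k A B : Type u} [CommRing k] [CommRing A] [CommRing B] [Algebra k A]
    [Algebra k B] (f : A →ₐ[k] B) (a : A) (b : B) (h : f a = b) (z : QuadraticAlgebra A a 0) :
    (quad_map f a b h z).re = f z.re := rfl

lemma quad_map_im {k A B : Type u} [CommRing k] [CommRing A] [CommRing B] [Algebra k A]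
    [Algebra k B] (f : A →ₐ[k] B) (a : A) (b : B) (h : f a = b) (z : QuadraticAlgebra A a 0) :
    (quad_map f a b h z).im = f z.im := rfl

lemma quad_exists_equiv {E D : Type u} [CommRing E] [CommRing D] [Algebra E D] (x : D) (a : E)
    (hx : x * x = algebraMap E D a)
    (h1 : ∀ z : D, ∃ p q : E, z = algebraMap E D p + algebraMap E D q * x)
    (h2 : ∀ p q : E, algebraMap E D p + algebraMap E D q * x = 0 → p = 0 ∧ q = 0) :
    Nonempty (QuadraticAlgebra E a 0 ≃ₐ[E] D) := by
  have hu : x * x = a • (1 : D) + (0 : E) • x := by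
    rw [hx, zero_smul, add_zero, Algebra.algebraMap_eq_smul_one]
  let g : QuadraticAlgebra E a 0 →ₐ[E] D := QuadraticAlgebra.lift ⟨x, hu⟩
  have hg : ∀ z, g z = algebraMap E D z.re + algebraMap E D z.im * x := by
    intro z
    change z.re • (1 : D) + z.im • x = _
    rw [Algebra.smul_def, Algebra.smul_def, mul_one]
  refine ⟨AlgEquiv.ofBijective g ⟨?_, ?_⟩⟩
  · rw [injective_iff_map_eq_zero]
    intro z hz
    rw [hg] at hz
    obtain ⟨p, q⟩ := h2 _ _ hz
    exact QuadraticAlgebra.ext p q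
  · intro z
    obtain ⟨p, q, rfl⟩ := h1 z
    exact ⟨⟨p, q⟩, hg _⟩

theorem formallySmooth_of_quadratic {k E D : Type u} [CommRing k] [CommRing E] [CommRing D]
    [Algebra k E] [Algebra k D] [Algebra E D] [IsScalarTower k E D] (x : D) (a : E)
    (hx : x * x = algebraMap E D a)
    (h1 : ∀ z : D, ∃ p q : E, z = algebraMap E D p + algebraMap E D q * x)
    (h2 : ∀ p q : E, algebraMap E D p + algebraMap E D q * x = 0 → p = 0 ∧ q = 0)
    [Algebra.FormallySmooth k D] : Algebra.FormallySmooth k E := by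
  obtain ⟨e⟩ := quad_exists_equiv x a hx h1 h2
  have hsm : Algebra.FormallySmooth k (QuadraticAlgebra E a 0) :=
    Algebra.FormallySmooth.of_equiv (e.symm.restrictScalars k)
  refine Algebra.FormallySmooth.of_comp_surjective ?_
  intro C _ _ J hJ φ
  obtain ⟨c, hc⟩ := Ideal.Quotient.mk_surjective (φ a)
  have hJ0 : ∀ u ∈ J, ∀ v ∈ J, u * v = 0 := by
    intro u hu v hv
    have : u * v ∈ J ^ 2 := by
      rw [pow_two]
      exact Ideal.mul_mem_mul hu hv
    rwa [hJ, Ideal.mem_bot] at this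
  let π : QuadraticAlgebra C c 0 →ₐ[k] QuadraticAlgebra (C ⧸ J) (φ a) 0 :=
    quad_map (Ideal.Quotient.mkₐ k J) c (φ a) hc
  have hπ : Function.Surjective π := by
    intro z
    obtain ⟨p, hp⟩ := Ideal.Quotient.mk_surjective z.re
    obtain ⟨q, hq⟩ := Ideal.Quotient.mk_surjective z.im
    exact ⟨⟨p, q⟩, QuadraticAlgebra.ext hp hq⟩
  have hker : ∀ z, π z = 0 → z.re ∈ J ∧ z.im ∈ J := by
    intro z hz
    exact ⟨Ideal.Quotient.eq_zero_iff_mem.mp (congrArg QuadraticAlgebra.re hz),
      Ideal.Quotient.eq_zero_iff_mem.mp (congrArg QuadraticAlgebra.im hz)⟩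
  have hnil : IsNilpotent (RingHom.ker
      (π : QuadraticAlgebra C c 0 →+* QuadraticAlgebra (C ⧸ J) (φ a) 0)) := by
    refine ⟨2, ?_⟩
    rw [pow_two, Ideal.zero_eq_bot, eq_bot_iff, Ideal.mul_le]
    intro z hz w hw
    obtain ⟨z1, z2⟩ := hker z hz
    obtain ⟨w1, w2⟩ := hker w hw
    rw [Ideal.mem_bot]
    ext
    · rw [QuadraticAlgebra.re_mul, hJ0 _ z1 _ w1, mul_assoc, hJ0 _ z2 _ w2]
      simp
    · rw [QuadraticAlgebra.im_mul, hJ0 _ z1 _ w2, hJ0 _ z2 _ w1]
      simp
  let θ : QuadraticAlgebra E a 0 →ₐ[k] QuadraticAlgebra (C ⧸ J) (φ a) 0 :=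
    quad_map φ a (φ a) rfl
  let ψ : QuadraticAlgebra E a 0 →ₐ[k] QuadraticAlgebra C c 0 :=
    Algebra.FormallySmooth.liftOfSurjective θ π hπ hnil
  have hψ : ∀ z, π (ψ z) = θ z := fun z =>
    AlgHom.congr_fun (Algebra.FormallySmooth.comp_liftOfSurjective θ π hπ hnil) z
  let ι : E →ₐ[k] QuadraticAlgebra C c 0 :=
    ψ.comp (IsScalarTower.toAlgHom k E (QuadraticAlgebra E a 0))
  have hre : ∀ y, Ideal.Quotient.mk J (ι y).re = φ y := fun y =>
    congrArg QuadraticAlgebra.re (hψ (algebraMap E _ y))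
  have him : ∀ y, (ι y).im ∈ J := fun y => by
    have := congrArg QuadraticAlgebra.im (hψ (algebraMap E _ y))
    rw [← Ideal.Quotient.eq_zero_iff_mem]
    exact this.trans (map_zero φ)
  let α : E →ₐ[k] C :=
    { toFun := fun y => (ι y).re
      map_one' := by rw [map_one]; rfl
      map_mul' := fun y z => by
        rw [map_mul, QuadraticAlgebra.re_mul, mul_assoc, hJ0 _ (him y) _ (him z), mul_zero,
          add_zero]
      map_zero' := by rw [map_zero]; rfl
      map_add' := fun y z => by rw [map_add]; rfl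
      commutes' := fun r => by rw [ι.commutes]; rfl }
  exact ⟨α, AlgHom.ext hre⟩

end Pool.Agent.Lib.MP_954e53_ag.RS
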