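import Pool.Agent.Lib.MP_954e53_ag.RS.Cover
import Pool.Agent.Lib.MP_954e53_ag.RS.Quad

/-! The quotient by an involution whose fixed locus is a divisor. -/

namespace Pool.Agent.Lib.MP_954e53_ag.RS

universe u

section aux

variable {k K : Type u} [Field k] [Field K] [Algebra k K] {S : Subalgebra k K}
  {V : Submodule k K} {σ : K ≃ₐ[k] K} {ι : Type} {w : ι → K}

lemma quot_chart_eq (B : Subalgebra k K) (W : Set K) (f : ι → K) (i : ι) :
    chart B W (f i) = charts B W f {i} := by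
  refine le_antisymm (chart_le_charts B W f (Set.mem_singleton i)) ?_
  refine charts_le_iff.2 ⟨le_chart _ _ _, fun j hj v hv => ?_⟩
  rw [Set.mem_singleton_iff.1 hj]
  exact div_mem_chart B hv _

lemma quot_stable (hS : ∀ s ∈ S, σ s = s) (h1 : ∀ v ∈ V, σ v ∈ V)
    (h2 : ∀ v ∈ V, σ (σ v) = v) (hw : Covers S V w)
    (he : ∀ i, σ (w i) = w i ∨ σ (w i) = -w i) (s : Set ι) {x : K}
    (hx : x ∈ charts S V w s) : σ x ∈ charts S V w s ∧ σ (σ x) = x := by
  have key : charts S V w s ≤ (charts S V w s).comap (σ : K →ₐ[k] K) ⊓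
      AlgHom.equalizer ((σ : K →ₐ[k] K).comp (σ : K →ₐ[k] K)) (AlgHom.id k K) := by
    refine charts_le_iff.2 ⟨fun y hy => ⟨?_, ?_⟩, fun i hi v hv => ⟨?_, ?_⟩⟩
    · change σ y ∈ charts S V w s
      rw [hS y hy]
      exact le_charts S V w s hy
    · change σ (σ y) = y
      rw [hS y hy, hS y hy]
    · change σ (v / w i) ∈ charts S V w s
      have h3 : σ v / w i ∈ charts S V w s :=
        chart_le_charts S V w hi (div_mem_chart S (h1 v hv) _)
      rw [map_div₀]
      rcases he i with h | h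
      · rw [h]; exact h3
      · rw [h, div_neg]; exact neg_mem h3
    · change σ (σ (v / w i)) = v / w i
      rw [map_div₀, map_div₀, h2 v hv, h2 (w i) (hw.mem i)]
  exact key hx

lemma quot_div_mem {A : Type*} [SetLike A K] [SubsemiringClass A K] {C : A} {f : K}
    (hC : ∀ v ∈ V, v / f ∈ C) {y : K} (hy : y ∈ V * V) : y / (f * f) ∈ C := by
  refine Submodule.mul_induction_on hy (fun a ha b hb => ?_) (fun a b ha hb => ?_)
  · rw [← div_mul_div_comm]
    exact mul_mem (hC a ha) (hC b hb)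
  · rw [add_div]
    exact add_mem ha hb

lemma quot_sq (he : ∀ i, σ (w i) = w i ∨ σ (w i) = -w i) (i : ι) :
    σ (w i * w i) = w i * w i := by
  rcases he i with h | h <;> simp [h]

lemma quot_covers (hw : Covers S V w) (he : ∀ i, σ (w i) = w i ∨ σ (w i) = -w i) :
    Covers S (pos σ (V * V)) fun i => w i * w i := by
  refine ⟨fun i => ⟨Submodule.mul_mem_mul (hw.mem i) (hw.mem i), quot_sq he i⟩,
    fun i => mul_ne_zero (hw.ne i) (hw.ne i), fun O hO => ?_⟩
  obtain ⟨i, hi⟩ := hw.val O hO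
  exact ⟨i, fun y hy => quot_div_mem hi hy.1⟩

lemma quot_le (hS : ∀ s ∈ S, σ s = s) (he : ∀ i, σ (w i) = w i ∨ σ (w i) = -w i) (s : Set ι)
    {x : K} (hx : x ∈ charts S (pos σ (V * V)) (fun i => w i * w i) s) :
    x ∈ charts S V w s ∧ σ x = x := by
  have key : charts S (pos σ (V * V)) (fun i => w i * w i) s ≤ charts S V w s ⊓
      AlgHom.equalizer (σ : K →ₐ[k] K) (AlgHom.id k K) := by
    refine charts_le_iff.2 ⟨fun y hy => ⟨le_charts S V w s hy, hS y hy⟩,
      fun i hi v hv => ⟨?_, ?_⟩⟩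
    · exact quot_div_mem
        (fun a ha => chart_le_charts S V w hi (div_mem_chart S ha _)) hv.1
    · change σ (v / (w i * w i)) = v / (w i * w i)
      rw [map_div₀, hv.2, quot_sq he i]
  exact key hx

/-- The anti-invariant generators of an intersection of charts. -/
def quotGen (σ : K ≃ₐ[k] K) (V : Submodule k K) (w : ι → K) (s : Set ι) : Set K :=
  {g | ∃ i ∈ s, ∃ n ∈ V, g = n / w i ∧
    ((σ (w i) = w i ∧ σ n = -n) ∨ (σ (w i) = -w i ∧ σ n = n))}

lemma quot_pair (s : Set ι) {i : ι} (hi : i ∈ s) {a b : K} (ha : a ∈ V) (hb : b ∈ V)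
    (h : σ (a * b) = a * b) :
    a * b / (w i * w i) ∈ charts S (pos σ (V * V)) (fun i => w i * w i) s :=
  chart_le_charts S _ (fun i => w i * w i) hi
    (div_mem_chart S (V := (pos σ (V * V) : Set K)) ⟨Submodule.mul_mem_mul ha hb, h⟩ _)

lemma quot_gen_mul (hw : Covers S V w) (s : Set ι) {g g' : K} (hg : g ∈ quotGen σ V w s)
    (hg' : g' ∈ quotGen σ V w s) :
    g * g' ∈ charts S (pos σ (V * V)) (fun i => w i * w i) s := by
  obtain ⟨i, hi, n, hn, rfl, h⟩ := hg
  obtain ⟨j, hj, m, hm, rfl, h'⟩ := hg'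
  have hi0 := hw.ne i
  have hj0 := hw.ne j
  have e1 : n / w i * (m / w j) = n * m / (w i * w i) * (w i * w j / (w j * w j)) := by
    field_simp
  have e2 : n / w i * (m / w j) = n * w j / (w i * w i) * (m * w i / (w j * w j)) := by
    field_simp
  rcases h with ⟨a1, a2⟩ | ⟨a1, a2⟩ <;> rcases h' with ⟨b1, b2⟩ | ⟨b1, b2⟩
  · rw [e1]
    exact mul_mem (quot_pair s hi hn hm (by simp [a2, b2]))
      (quot_pair s hj (hw.mem i) (hw.mem j) (by simp [a1, b1]))
  · rw [e2]
    exact mul_mem (quot_pair s hi hn (hw.mem j) (by simp [a2, b1]))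
      (quot_pair s hj hm (hw.mem i) (by simp [a1, b2]))
  · rw [e2]
    exact mul_mem (quot_pair s hi hn (hw.mem j) (by simp [a2, b1]))
      (quot_pair s hj hm (hw.mem i) (by simp [a1, b2]))
  · rw [e1]
    exact mul_mem (quot_pair s hi hn hm (by simp [a2, b2]))
      (quot_pair s hj (hw.mem i) (hw.mem j) (by simp [a1, b1]))

lemma quot_span_mul {E : Subalgebra k K} {G : Set K} (hG : ∀ g ∈ G, ∀ g' ∈ G, g * g' ∈ E)
    {n m : K} (hn : n ∈ Submodule.span E G) (hm : m ∈ Submodule.span E G) : n * m ∈ E := by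
  induction hn using Submodule.span_induction with
  | mem g hg =>
    induction hm using Submodule.span_induction with
    | mem g' hg' => exact hG g hg g' hg'
    | zero => rw [mul_zero]; exact zero_mem _
    | add a b _ _ ha hb => rw [mul_add]; exact add_mem ha hb
    | smul e a _ ha =>
      rw [Subalgebra.smul_def, smul_eq_mul, mul_left_comm]
      exact mul_mem e.2 ha
  | zero => rw [zero_mul]; exact zero_mem _
  | add a b _ _ ha hb => rw [add_mul]; exact add_mem ha hb
  | smul e a _ ha =>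
    rw [Subalgebra.smul_def, smul_eq_mul, mul_assoc]
    exact mul_mem e.2 ha

lemma quot_span_anti {E : Subalgebra k K} {G : Set K} (hE : ∀ e ∈ E, σ e = e)
    (hG : ∀ g ∈ G, σ g = -g) {n : K} (hn : n ∈ Submodule.span E G) : σ n = -n := by
  induction hn using Submodule.span_induction with
  | mem g hg => exact hG g hg
  | zero => simp
  | add a b _ _ ha hb => rw [map_add, ha, hb, neg_add]
  | smul e a _ ha => rw [Subalgebra.smul_def, smul_eq_mul, map_mul, hE e e.2, ha, mul_neg]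

/-- The sum of a subalgebra and of a module whose square lies in it. -/
def quotAlg (E : Subalgebra k K) (G : Set K) (hG : ∀ g ∈ G, ∀ g' ∈ G, g * g' ∈ E) :
    Subalgebra k K where
  carrier := {z | ∃ e ∈ E, ∃ n ∈ Submodule.span E G, z = e + n}
  mul_mem' := by
    rintro _ _ ⟨e, he, n, hn, rfl⟩ ⟨e', he', n', hn', rfl⟩
    refine ⟨e * e' + n * n', add_mem (mul_mem he he') (quot_span_mul hG hn hn'),
      (⟨e, he⟩ : E) • n' + (⟨e', he'⟩ : E) • n,
      add_mem (Submodule.smul_mem _ _ hn') (Submodule.smul_mem _ _ hn), ?_⟩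
    simp only [Subalgebra.smul_def, smul_eq_mul]
    ring
  add_mem' := by
    rintro _ _ ⟨e, he, n, hn, rfl⟩ ⟨e', he', n', hn', rfl⟩
    exact ⟨e + e', add_mem he he', n + n', add_mem hn hn', by ring⟩
  algebraMap_mem' c := ⟨algebraMap k K c, E.algebraMap_mem c, 0, zero_mem _, (add_zero _).symm⟩

lemma quot_smul (c : k) (x : K) : σ (c • x) = c • σ x := map_smul σ c x

variable [CharZero k]

lemma quot_ge (hS : ∀ s ∈ S, σ s = s) (h1 : ∀ v ∈ V, σ v ∈ V)
    (h2 : ∀ v ∈ V, σ (σ v) = v) (hw : Covers S V w)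
    (he : ∀ i, σ (w i) = w i ∨ σ (w i) = -w i) (s : Set ι) {x : K}
    (hx : x ∈ charts S V w s) (hσ : σ x = x) :
    x ∈ charts S (pos σ (V * V)) (fun i => w i * w i) s := by
  haveI : CharZero K := charZero_of_injective_algebraMap (algebraMap k K).injective
  have key : charts S V w s ≤ quotAlg (charts S (pos σ (V * V)) (fun i => w i * w i) s)
      (quotGen σ V w s) (fun g hg g' hg' => quot_gen_mul hw s hg hg') := by
    refine charts_le_iff.2 ⟨fun y hy => ⟨y, le_charts _ _ _ s hy, 0, zero_mem _, by simp⟩,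
      fun i hi v hv => ?_⟩
    have hi0 := hw.ne i
    have hp : (2⁻¹ : k) • (v + σ v) ∈ V := V.smul_mem _ (add_mem hv (h1 v hv))
    have hn : (2⁻¹ : k) • (v - σ v) ∈ V := V.smul_mem _ (sub_mem hv (h1 v hv))
    have sp : σ ((2⁻¹ : k) • (v + σ v)) = (2⁻¹ : k) • (v + σ v) := by
      rw [quot_smul, map_add, h2 v hv, add_comm]
    have sn : σ ((2⁻¹ : k) • (v - σ v)) = -((2⁻¹ : k) • (v - σ v)) := by
      rw [quot_smul, map_sub, h2 v hv, ← smul_neg, neg_sub]
    have hs : (2⁻¹ : k) • (v + σ v) + (2⁻¹ : k) • (v - σ v) = v := by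
      rw [← smul_add, add_add_sub_cancel, ← two_smul k v, smul_smul, inv_mul_cancel₀ two_ne_zero,
        one_smul]
    generalize (2⁻¹ : k) • (v + σ v) = p at hp sp hs
    generalize (2⁻¹ : k) • (v - σ v) = n at hn sn hs
    subst hs
    rcases he i with h | h
    · refine ⟨p * w i / (w i * w i), quot_pair s hi hp (hw.mem i) (by simp [sp, h]), n / w i,
        Submodule.subset_span ⟨i, hi, n, hn, rfl, Or.inl ⟨h, sn⟩⟩, ?_⟩
      field_simp
    · refine ⟨n * w i / (w i * w i), quot_pair s hi hn (hw.mem i) (by simp [sn, h]), p / w i,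
        Submodule.subset_span ⟨i, hi, p, hp, rfl, Or.inr ⟨h, sp⟩⟩, ?_⟩
      field_simp
      ring
  obtain ⟨e, hE, n, hn, rfl⟩ := key hx
  have a1 : σ e = e := (quot_le hS he s hE).2
  have a2 : σ n = -n := by
    refine quot_span_anti (fun e he' => (quot_le hS he s he').2) ?_ hn
    rintro _ ⟨i, _, m, _, rfl, ⟨b1, b2⟩ | ⟨b1, b2⟩⟩
    · rw [map_div₀, b1, b2, neg_div]
    · rw [map_div₀, b1, b2, div_neg]
  rw [map_add, a1, a2] at hσ
  have a3 : n = 0 := by linear_combination (-2⁻¹ : K) * hσ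
  rw [a3, add_zero]
  exact hE

lemma quot_smooth {E D : Subalgebra k K} (hE : ∀ z, z ∈ E ↔ z ∈ D ∧ σ z = z)
    (hD : ∀ z ∈ D, σ z ∈ D ∧ σ (σ z) = z) [Algebra.FormallySmooth k D]
    (hp : (∀ y ∈ D, σ y = y) ∨ ∃ x ∈ D, x ≠ 0 ∧ σ x = -x ∧ ∀ y ∈ D, σ y = -y → y / x ∈ D) :
    Algebra.FormallySmooth k E := by
  haveI : CharZero K := charZero_of_injective_algebraMap (algebraMap k K).injective
  rcases hp with hp | ⟨x, hx, hx0, hσ, hp⟩
  · have : E = D := SetLike.ext fun z => (hE z).trans ⟨fun h => h.1, fun h => ⟨h, hp z h⟩⟩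
    rw [this]
    infer_instance
  · have hle : E ≤ D := fun z hz => ((hE z).1 hz).1
    letI : Algebra E D := (Subalgebra.inclusion hle).toRingHom.toAlgebra
    haveI : IsScalarTower k E D := IsScalarTower.of_algebraMap_eq fun _ => rfl
    have h2 : ∀ z ∈ D, z / 2 ∈ D := fun z hz => by
      have : z / 2 = (2⁻¹ : k) • z := by
        rw [Algebra.smul_def, map_inv₀, map_ofNat, div_eq_inv_mul]
      rw [this]
      exact D.smul_mem hz _
    refine formallySmooth_of_quadratic (k := k) (E := E) (D := D) ⟨x, hx⟩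
      ⟨x * x, (hE _).2 ⟨mul_mem hx hx, by simp [hσ]⟩⟩ rfl (fun z => ?_) (fun p q h => ?_)
    · obtain ⟨z, hz⟩ := z
      obtain ⟨b1, b2⟩ := hD z hz
      have c1 : σ ((z - σ z) / 2) = -((z - σ z) / 2) := by
        rw [map_div₀, map_sub, b2, map_ofNat]
        ring
      refine ⟨⟨(z + σ z) / 2, (hE _).2 ⟨h2 _ (add_mem hz b1), ?_⟩⟩,
        ⟨(z - σ z) / 2 / x, (hE _).2 ⟨hp _ (h2 _ (sub_mem hz b1)) c1, ?_⟩⟩, ?_⟩
      · rw [map_div₀, map_add, b2, map_ofNat, add_comm]
      · rw [map_div₀, c1, hσ, neg_div_neg_eq]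
      · apply Subtype.ext
        change z = (z + σ z) / 2 + (z - σ z) / 2 / x * x
        field_simp
        ring
    · have c1 : (p : K) + q * x = 0 := congrArg Subtype.val h
      have c2 := congrArg σ c1
      rw [map_add, map_mul, ((hE _).1 p.2).2, ((hE _).1 q.2).2, hσ, map_zero] at c2
      have c3 : (p : K) = 0 := by linear_combination (2⁻¹ : K) * c1 + (2⁻¹ : K) * c2
      have c4 : (q : K) * x = 0 := by linear_combination (2⁻¹ : K) * c1 - (2⁻¹ : K) * c2
      exact ⟨Subtype.ext c3, Subtype.ext ((mul_eq_zero.1 c4).resolve_right hx0)⟩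

end aux

theorem Mdl.quot {k K : Type u} [Field k] [CharZero k] [Field K] [Algebra k K]
    {S : Subalgebra k K} [Algebra.FiniteType k S] {V : Submodule k K} [Module.Finite k V]
    (hM : Mdl S V 1) (σ : K ≃ₐ[k] K) (hS : ∀ s ∈ S, σ s = s) (h1 : ∀ v ∈ V, σ v ∈ V)
    (h2 : ∀ v ∈ V, σ (σ v) = v) {ι : Type} [Finite ι] {w : ι → K} (hw : Covers S V w)
    (he : ∀ i, σ (w i) = w i ∨ σ (w i) = -w i)
    (hp : ∀ i, (∀ y ∈ chart S V (w i), σ y = y) ∨ ∃ x ∈ chart S V (w i), x ≠ 0 ∧ σ x = -x ∧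
      ∀ y ∈ chart S V (w i), σ y = -y → y / x ∈ chart S V (w i)) :
    Mdl S (pos σ (V * V)) 1 := by
  have hc := quot_covers (σ := σ) hw he
  have hV : V.FG := Module.Finite.iff_fg.1 inferInstance
  haveI : Module.Finite k (V * V : Submodule k K) := Module.Finite.iff_fg.2 (hV.mul hV)
  haveI : Module.Finite k (pos σ (V * V)) :=
    Submodule.finiteDimensional_of_le (S₂ := V * V) fun _ h => h.1
  refine Mdl.of_cover hc (hc.smooth fun i => ?_) fun n hn => ?_
  · haveI := hM.smooth (w i) (hw.mem i) (hw.ne i)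
    haveI : Algebra.FormallySmooth k (chart S (pos σ (V * V)) (w i * w i)) := by
      refine quot_smooth (σ := σ) (D := chart S V (w i)) (fun z => ?_) (fun z hz => ?_) (hp i)
      · rw [quot_chart_eq S _ (fun i => w i * w i) i, quot_chart_eq S _ w i]
        exact ⟨quot_le hS he _, fun h => quot_ge hS h1 h2 hw he _ h.1 h.2⟩
      · rw [quot_chart_eq S _ w i] at hz ⊢
        exact quot_stable hS h1 h2 hw he _ hz
    haveI : Algebra.FinitePresentation k (chart S (pos σ (V * V)) (w i * w i)) :=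
      Algebra.FinitePresentation.of_finiteType.1 (finiteType_chart _ _)
    exact ⟨inferInstance, inferInstance⟩
  · refine (hM.exAt le_rfl hw n hn).of_retract
      ((2⁻¹ : k) • (LinearMap.id + σ.toLinearMap : K →ₗ[k] K)).toAddMonoidHom
      (fun s x hx => (quot_le hS he s hx).1) (fun s x hx => ?_) (fun s x hx => ?_)
    · obtain ⟨a1, a2⟩ := quot_stable hS h1 h2 hw he s hx
      change (2⁻¹ : k) • (x + σ x) ∈ _
      refine quot_ge hS h1 h2 hw he s (Subalgebra.smul_mem _ (add_mem hx a1) _) ?_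
      rw [quot_smul, map_add, a2, add_comm]
    · change (2⁻¹ : k) • (x + σ x) = x
      rw [(quot_le hS he s hx).2, ← two_smul k x, smul_smul, inv_mul_cancel₀ two_ne_zero,
        one_smul]

end Pool.Agent.Lib.MP_954e53_ag.RS
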