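import Mathlib

/-! Sections of a scheme evaluated at a point with values in a field. -/

namespace Pool.Agent.Lib.MP_954e53_ag.RS.Real

open CategoryTheory AlgebraicGeometry TopologicalSpace

universe u

variable {Y : Scheme.{u}} {K : Type u} [Field K] (η : Spec (CommRingCat.of K) ⟶ Y)

/-- The image of the point. -/
noncomputable def pt : Y := η (IsLocalRing.closedPoint K)

theorem le_preimage {W : Y.Opens} (h : pt η ∈ W) : ⊤ ≤ η ⁻¹ᵁ W := fun x _ => by
  have : x = IsLocalRing.closedPoint K := Subsingleton.elim (α := PrimeSpectrum K) _ _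
  rw [this]
  exact h

/-- The value of a section. -/
noncomputable def evh {W : Y.Opens} (h : pt η ∈ W) : Γ(Y, W) →+* K :=
  (η.appLE W ⊤ (le_preimage η h) ≫ (Scheme.ΓSpecIso (CommRingCat.of K)).hom).hom

theorem evh_res {W W' : Y.Opens} (i : W' ≤ W) (h' : pt η ∈ W') (x : Γ(Y, W)) :
    evh η h' (Y.presheaf.map (homOfLE i).op x) = evh η (i h') x := by
  simp only [evh]
  rw [← CommRingCat.comp_apply, ← Category.assoc, Scheme.Hom.map_appLE]

theorem evh_injective [IsReduced Y] (hd : ∀ W : Y.Opens, W ≠ ⊥ → pt η ∈ W) {W : Y.Opens}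
    (h : pt η ∈ W) : Function.Injective (evh η h) := by
  rw [injective_iff_map_eq_zero]
  intro a ha
  by_contra h0
  have h1 := hd _ (mt (basicOpen_eq_bot_iff a).1 h0)
  have h2 : η.appLE W ⊤ (le_preimage η h) a = 0 :=
    (Scheme.ΓSpecIso (CommRingCat.of K)).commRingCatIsoToRingEquiv.injective
      (ha.trans (map_zero _).symm)
  have h3 := Scheme.basicOpen_appLE η ⊤ W (le_preimage η h) a
  rw [h2, Scheme.basicOpen_zero] at h3
  exact (h3.ge ⟨trivial, h1⟩ : IsLocalRing.closedPoint K ∈ (⊥ : (Spec (CommRingCat.of K)).Opens))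

variable {η} {R : CommRingCat.{u}} {ι : Spec R ⟶ Y} [IsOpenImmersion ι] {φ : R ⟶ CommRingCat.of K}

theorem pt_mem_range (e : Spec.map φ ≫ ι = η) : pt η ∈ ι.opensRange :=
  ⟨Spec.map φ (IsLocalRing.closedPoint K), by rw [← e]; rfl⟩

theorem evh_range (e : Spec.map φ ≫ ι = η) {W : Y.Opens} (hW : ι.opensRange = W)
    (h : pt η ∈ W) : (evh η h).range = φ.hom.range := by
  subst hW e
  have h1 : ⊤ ≤ ι ⁻¹ᵁ ι.opensRange := ι.preimage_opensRange.ge
  have : IsIso (ι.appLE ι.opensRange ⊤ h1) := by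
    have : IsIso (ι.app ι.opensRange) := ι.isIso_app _ le_rfl
    have : IsIso (homOfLE h1) := homOfLE_isIso_of_eq _ ι.preimage_opensRange.symm
    unfold Scheme.Hom.appLE
    infer_instance
  have h2 : evh (Spec.map φ ≫ ι) h =
      φ.hom.comp (ι.appLE ι.opensRange ⊤ h1 ≫ (Scheme.ΓSpecIso R).hom).hom := by
    rw [evh, ← CommRingCat.hom_comp, Category.assoc, ← Scheme.ΓSpecIso_naturality,
      ← Category.assoc, ← Scheme.Hom.appLE_comp_appLE _ _ _ ⊤ ⊤ h1 le_rfl]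
    congr 3
  rw [h2]
  ext x
  constructor
  · rintro ⟨y, rfl⟩
    exact ⟨_, rfl⟩
  · rintro ⟨y, rfl⟩
    obtain ⟨z, rfl⟩ := (asIso (ι.appLE ι.opensRange ⊤ h1 ≫
      (Scheme.ΓSpecIso R).hom)).commRingCatIsoToRingEquiv.surjective y
    exact ⟨z, rfl⟩

theorem pt_mem (e : Spec.map φ ≫ ι = η) (hφ : Function.Injective φ.hom) {W : Y.Opens} {x : Y}
    (h1 : x ∈ ι.opensRange) (h2 : x ∈ W) : pt η ∈ W := by
  obtain ⟨y, rfl⟩ := h1
  have h3 : Spec.map φ (IsLocalRing.closedPoint K) ⤳ y := by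
    refine (PrimeSpectrum.le_iff_specializes _ _).1 fun a ha => ?_
    have h4 : φ.hom a ∈ IsLocalRing.maximalIdeal K := ha
    rw [IsLocalRing.maximalIdeal_eq_bot, Ideal.mem_bot, ← φ.hom.map_zero] at h4
    rw [hφ h4]
    exact zero_mem _
  have h5 : Spec.map φ (IsLocalRing.closedPoint K) ∈ ι ⁻¹ᵁ W :=
    h3.mem_open (ι ⁻¹ᵁ W).isOpen h2
  rw [← e]
  exact h5

theorem isIntegral_of_charts
    (h : ∀ x : Y, ∃ (R : CommRingCat.{u}) (ι : Spec R ⟶ Y) (_ : IsOpenImmersion ι)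
      (φ : R ⟶ CommRingCat.of K), Spec.map φ ≫ ι = η ∧ Function.Injective φ.hom ∧
        x ∈ ι.opensRange) : IsIntegral Y ∧ ∀ W : Y.Opens, W ≠ ⊥ → pt η ∈ W := by
  have h1 : ∀ (W : Y.Opens) (x : Y), x ∈ W → pt η ∈ W := fun W x hx => by
    obtain ⟨R, ι, _, φ, e, h2, h3⟩ := h x
    exact pt_mem e h2 h3 hx
  have : IrreducibleSpace Y :=
    { isPreirreducible_univ := fun S T hS hT ⟨x, _, hx⟩ ⟨y, _, hy⟩ =>
        ⟨pt η, trivial, h1 ⟨S, hS⟩ x hx, h1 ⟨T, hT⟩ y hy⟩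
      toNonempty := ⟨pt η⟩ }
  have : IsReduced Y := by
    refine @isReduced_of_isReduced_stalk _ fun x => ?_
    obtain ⟨R, ι, _, φ, -, h2, y, rfl⟩ := h x
    have : IsDomain R := h2.isDomain _
    exact isReduced_of_injective (ι.stalkMap y).hom (asIso (ι.stalkMap y)
      ).commRingCatIsoToRingEquiv.injective
  refine ⟨isIntegral_of_irreducibleSpace_of_isReduced Y, fun W hW => ?_⟩
  obtain ⟨x, hx⟩ := (Opens.ne_bot_iff_nonempty W).1 hW
  exact h1 W x hx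

theorem isIso_restrict {X Z : Scheme.{u}} (f : Y ⟶ X) (U : X.Opens) (j : Z ⟶ Y) [IsOpenImmersion j]
    [IsOpenImmersion (j ≫ f)] (h1 : j.opensRange = f ⁻¹ᵁ U) (h2 : (j ≫ f).opensRange = U) :
    IsIso (f ∣_ U) := by
  let e := IsOpenImmersion.isoOfRangeEq j (f ⁻¹ᵁ U).ι (by
    rw [Scheme.Opens.range_ι, ← h1]; rfl)
  let e' := IsOpenImmersion.isoOfRangeEq (j ≫ f) U.ι (by
    rw [Scheme.Opens.range_ι, ← h2]; rfl)
  have : f ∣_ U = e.inv ≫ e'.hom := by
    rw [Iso.eq_inv_comp, ← cancel_mono U.ι, Category.assoc, morphismRestrict_ι,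
      IsOpenImmersion.isoOfRangeEq_hom_fac_assoc, IsOpenImmersion.isoOfRangeEq_hom_fac]
  rw [this]
  infer_instance

end Pool.Agent.Lib.MP_954e53_ag.RS.Real
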