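import Pool.Agent.Lib.MP_954e53_ag.RS.RealizeGen

/-! The blow-up of a finitely generated submodule of a field, as a projective scheme. -/

namespace Pool.Agent.Lib.MP_954e53_ag.RS.Real

open CategoryTheory AlgebraicGeometry TopologicalSpace Polynomial HomogeneousLocalization

universe u

section Away

variable {σ : Type*} {A : Type u} [CommRing A] [SetLike σ A] [AddSubgroupClass σ A] (𝒜 : ℕ → σ)
  [GradedRing 𝒜] {K : Type u} [Field K] (ψ : A →+* K) {f g : A} {d e : ℕ}

/-- The value of a fraction of degree zero. -/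
noncomputable def aw (h : ψ g ≠ 0) : Away 𝒜 g →+* K :=
  (Localization.awayLift ψ g h.isUnit).comp (algebraMap _ _)

theorem aw_mk (h : ψ g ≠ 0) (hg : g ∈ 𝒜 d) (n : ℕ) (a : A) (ha : a ∈ 𝒜 (n • d)) :
    aw 𝒜 ψ h (Away.mk 𝒜 hg n a ha) = ψ a / ψ g ^ n := by
  rw [div_eq_mul_inv, ← inv_pow]
  exact Localization.awayLift_mk ψ g a _ (mul_inv_cancel₀ h) n

theorem aw_injective (hψ : ∀ n, ∀ a ∈ 𝒜 n, ψ a = 0 → a = 0) (h : ψ g ≠ 0) (hg : g ∈ 𝒜 d) :
    Function.Injective (aw 𝒜 ψ h) := by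
  rw [injective_iff_map_eq_zero]
  intro x hx
  obtain ⟨n, a, ha, rfl⟩ := Away.mk_surjective 𝒜 hg x
  rw [aw_mk, div_eq_zero_iff, or_iff_left (pow_ne_zero _ h)] at hx
  obtain rfl := hψ _ a ha hx
  ext
  simp [Localization.mk_zero]

theorem aw_zero (h : ψ g ≠ 0) (a : 𝒜 0) : aw 𝒜 ψ h (fromZeroRingHom 𝒜 _ a) = ψ a :=
  IsLocalization.Away.lift_eq g h.isUnit a.1

theorem aw_mul (hf : f ∈ 𝒜 d) (hg : g ∈ 𝒜 e) (hd : 0 < d) {x : A} (hx : x = f * g) (h : ψ f ≠ 0)
    (h' : ψ x ≠ 0) : Spec.map (CommRingCat.ofHom (aw 𝒜 ψ h)) ≫ Proj.awayι 𝒜 f hf hd =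
      Spec.map (CommRingCat.ofHom (aw 𝒜 ψ h')) ≫ Proj.awayι 𝒜 x
        (hx ▸ SetLike.mul_mem_graded hf hg) (hd.trans_le (d.le_add_right e)) := by
  rw [← Proj.SpecMap_awayMap_awayι 𝒜 hf hd hg hx, ← Category.assoc, ← Spec.map_comp]
  congr 2
  ext y
  obtain ⟨n, a, ha, rfl⟩ := Away.mk_surjective 𝒜 hf y
  have h1 : ψ g ≠ 0 := right_ne_zero_of_mul (a := ψ f) (by rwa [← map_mul, ← hx])
  simp only [CommRingCat.hom_ofHom, CommRingCat.hom_comp, RingHom.comp_apply, awayMap_mk, aw_mk,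
    hx, map_mul, map_pow, mul_pow]
  rw [mul_div_mul_right _ _ (pow_ne_zero _ h1)]

theorem aw_eq (hf : f ∈ 𝒜 d) (hg : g ∈ 𝒜 e) (hd : 0 < d) (he : 0 < e) (h : ψ f ≠ 0)
    (h' : ψ g ≠ 0) : Spec.map (CommRingCat.ofHom (aw 𝒜 ψ h)) ≫ Proj.awayι 𝒜 f hf hd =
      Spec.map (CommRingCat.ofHom (aw 𝒜 ψ h')) ≫ Proj.awayι 𝒜 g hg he := by
  have h1 : ψ (f * g) ≠ 0 := by rw [map_mul]; exact mul_ne_zero h h'
  rw [aw_mul 𝒜 ψ hf hg hd rfl h h1, aw_mul 𝒜 ψ hg hf he (mul_comm f g) h' h1]
  congr 2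
  exact add_comm _ _

end Away

variable {B K : Type u} [CommRing B] [Field K] [Algebra B K] (N : Submodule B K)

/-- The Rees algebra of a submodule. -/
def rees : Subalgebra B K[X] where
  carrier := {p | ∀ i, p.coeff i ∈ N ^ i}
  mul_mem' hf hg i := by
    rw [coeff_mul]
    refine sum_mem fun ⟨j, k⟩ e => ?_
    rw [← Finset.HasAntidiagonal.mem_antidiagonal.mp e, pow_add]
    exact Submodule.mul_mem_mul (hf j) (hg k)
  add_mem' hf hg i := by
    rw [coeff_add]
    exact add_mem (hf i) (hg i)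
  algebraMap_mem' r i := by
    rw [Polynomial.algebraMap_apply, coeff_C]
    split_ifs with h
    · subst h
      rw [pow_zero]
      exact Submodule.algebraMap_mem r
    · exact zero_mem _

/-- The homogeneous elements. -/
def gr (n : ℕ) : Submodule B (rees N) where
  carrier := {p | ∀ i, i ≠ n → p.1.coeff i = 0}
  add_mem' hf hg i h := by simp [hf i h, hg i h]
  zero_mem' i _ := by simp
  smul_mem' c p hp i h := by simp [hp i h]

noncomputable instance (n : ℕ) : AddCommGroup (gr N n) := Submodule.addCommGroup _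

variable {N}

/-- A monomial. -/
noncomputable def mon (n : ℕ) (a : K) (h : a ∈ N ^ n) : rees N :=
  ⟨monomial n a, fun i => by
    rw [coeff_monomial]
    split_ifs with e
    · exact e ▸ h
    · exact zero_mem _⟩

theorem mon_mem (n : ℕ) (a : K) (h : a ∈ N ^ n) : mon n a h ∈ gr N n := fun _ e =>
  coeff_monomial_of_ne _ e

theorem eq_mon {n : ℕ} {p : rees N} (h : p ∈ gr N n) : p = mon n (p.1.coeff n) (p.2 n) := by
  ext i
  simp only [mon, coeff_monomial]
  split_ifs with e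
  · rw [e]
  · exact h i (Ne.symm e)

theorem sum_mon (p : rees N) : p = ∑ i ∈ p.1.support, mon i (p.1.coeff i) (p.2 i) :=
  Subtype.ext (by rw [AddSubmonoidClass.coe_finsetSum]; exact p.1.as_sum_support)

instance : SetLike.GradedMonoid (gr N) where
  one_mem i h := by simp [coeff_one, h]
  mul_mem i j p q hp hq := by
    rw [eq_mon hp, eq_mon hq]
    intro l hl
    simp only [mon, MulMemClass.coe_mul, monomial_mul_monomial]
    exact coeff_monomial_of_ne _ hl

theorem isInternal : DirectSum.IsInternal (gr N) := by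
  have h : ∀ (x : DirectSum ℕ fun i => gr N i) (n : ℕ),
      (DirectSum.coeAddMonoidHom (gr N) x).1.coeff n = (x n).1.1.coeff n := fun x n => by
    induction x using DirectSum.induction_on with
    | zero => simp
    | of i a =>
      rw [DirectSum.coeAddMonoidHom_of]
      by_cases e : n = i
      · subst e
        rw [DirectSum.of_eq_same]
      · rw [DirectSum.of_eq_of_ne _ _ _ e, a.2 n e]
        rfl
    | add x y hx hy => simp [hx, hy]
  refine ⟨(injective_iff_map_eq_zero _).2 fun x hx => DFinsupp.ext fun n => Subtype.ext ?_,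
    fun p => ?_⟩
  · rw [eq_mon (x n).2]
    ext i
    simp [mon, ← h, hx]
  · refine ⟨∑ i ∈ p.1.support, DirectSum.of (fun i => gr N i) i ⟨_, mon_mem i _ (p.2 i)⟩, ?_⟩
    simp only [map_sum, DirectSum.coeAddMonoidHom_of]
    exact (sum_mon p).symm

noncomputable instance : GradedAlgebra (gr N) :=
  DirectSum.IsInternal.gradedAlgebra (M := gr N) isInternal

/-- Evaluation at one. -/
noncomputable def ev1 : rees N →+* K := (evalRingHom 1).comp (rees N).val.toRingHom

theorem ev1_mon (n : ℕ) (a : K) (h : a ∈ N ^ n) : ev1 (mon n a h) = a := by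
  simp [ev1, mon]

theorem ev1_mem {n : ℕ} {p : rees N} (h : p ∈ gr N n) : ev1 p ∈ N ^ n := by
  rw [eq_mon h, ev1_mon]
  exact p.2 n

theorem ev1_inj (n : ℕ) (p : rees N) (h : p ∈ gr N n) (e : ev1 p = 0) : p = 0 := by
  rw [eq_mon h, ev1_mon] at e
  rw [eq_mon h]
  ext i
  simp [mon, e]

theorem ev1_algebraMap (b : B) : ev1 (algebraMap B (rees N) b) = algebraMap B K b := by
  simp [ev1]

/-- A monomial of degree one. -/
noncomputable def mon1 (v : N) : rees N := mon 1 v ((pow_one N).ge v.2)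

theorem adjoin_mon1 {ι : Type*} (v : ι → N) (h : N ≤ Submodule.span B (Set.range fun i => (v i : K))) :
    Algebra.adjoin B (Set.range fun i => mon1 (v i)) = ⊤ := by
  have h1 : ∀ a ∈ N, monomial 1 a ∈
      (Algebra.adjoin B (Set.range fun i => mon1 (v i))).map (rees N).val := fun a ha => by
    refine Submodule.span_induction (p := fun a _ => monomial 1 a ∈ _) ?_ ?_ ?_ ?_ (h ha)
    · rintro _ ⟨i, rfl⟩
      exact ⟨_, Algebra.subset_adjoin ⟨i, rfl⟩, rfl⟩
    · simp
    · intro a b _ _ ha hb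
      rw [map_add]
      exact add_mem ha hb
    · intro c a _ ha
      rw [← smul_monomial]
      exact Subalgebra.smul_mem _ ha c
  have h2 : ∀ (n : ℕ), ∀ a ∈ N ^ n, monomial n a ∈
      (Algebra.adjoin B (Set.range fun i => mon1 (v i))).map (rees N).val := fun n a ha => by
    induction ha using Submodule.pow_induction_on_left' with
    | algebraMap r => exact Subalgebra.algebraMap_mem _ r
    | add a b _ _ _ ha hb =>
      rw [map_add]
      exact add_mem ha hb
    | mem_mul a ha i b _ hb =>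
      rw [Nat.succ_eq_add_one, add_comm, ← monomial_mul_monomial]
      exact mul_mem (h1 a ha) hb
  refine eq_top_iff.2 fun p _ => ?_
  rw [sum_mon p]
  refine sum_mem fun i _ => ?_
  obtain ⟨q, h3, h4⟩ := h2 i _ (p.2 i)
  rwa [show q = mon i _ (p.2 i) from Subtype.ext h4] at h3

/-- The properties of the Rees algebra. -/
structure IsRees {A : Type u} [CommRing A] [Algebra B A] (𝒜 : ℕ → Submodule B A) (ψ : A →+* K)
    (m : N → A) : Prop where
  inj : ∀ n, ∀ a ∈ 𝒜 n, ψ a = 0 → a = 0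
  mem : ∀ n, ∀ a ∈ 𝒜 n, ψ a ∈ N ^ n
  alg : ∀ b, ψ (algebraMap B A b) = algebraMap B K b
  deg : ∀ v, m v ∈ 𝒜 1
  val : ∀ v, ψ (m v) = v
  gen : ∀ T : Set N, N ≤ Submodule.span B (Subtype.val '' T) → Algebra.adjoin B (m '' T) = ⊤

variable (N) in
theorem exists_isRees : ∃ (A : Type u) (_ : CommRing A) (_ : Algebra B A)
    (𝒜 : ℕ → Submodule B A) (_ : GradedAlgebra 𝒜) (ψ : A →+* K) (m : N → A), IsRees 𝒜 ψ m :=
  ⟨rees N, inferInstance, inferInstance, gr N, inferInstance, ev1, mon1, ev1_inj,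
    fun _ _ => ev1_mem, ev1_algebraMap, fun _ => mon_mem _ _ _, fun _ => ev1_mon _ _ _,
    fun T h => by
      rw [Set.image_eq_range] at h ⊢
      exact adjoin_mon1 (fun i : T => i.1) h⟩

end Pool.Agent.Lib.MP_954e53_ag.RS.Real
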