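import Mathlib

/-! Projective varieties, ample invertible sheaves and section rings. -/

namespace Pool.Agent.Lib.MP_954e53_ag.RS

open CategoryTheory AlgebraicGeometry

universe u

attribute [local instance] MvPolynomial.gradedAlgebra

/-- The structure morphism `Proj S → Spec k` of a graded `k`-algebra. -/
noncomputable def projToSpec {k S : Type u} [Field k] [CommRing S] [Algebra k S]
    (𝒜 : ℕ → Submodule k S) [GradedAlgebra 𝒜] : Proj 𝒜 ⟶ Spec (CommRingCat.of k) :=
  Proj.toSpecZero 𝒜 ≫ Spec.map (CommRingCat.ofHom (algebraMap k (𝒜 0)))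

/-- `X` is a closed subscheme of a projective space over `k`. -/
def IsProjective {k : Type u} [Field k] {X : Scheme.{u}} (π : X ⟶ Spec (CommRingCat.of k)) : Prop :=
  ∃ (n : ℕ) (i : X ⟶ Proj (MvPolynomial.homogeneousSubmodule (Fin n) k)),
    IsClosedImmersion i ∧ i ≫ projToSpec _ = π

variable {X : Scheme.{u}} [IsIntegral X]

/-- The rational function `z` lies in the local ring at `x`. -/
def RegularAt (x : X) (z : X.functionField) : Prop :=
  z ∈ (algebraMap (X.presheaf.stalk x) X.functionField).range

/-- The `O_x * g x` are the stalks of an invertible subsheaf `L` of the sheaf of rational functions: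
`g x` generates the stalks at all points near `x`. -/
def IsInvertible (g : X → X.functionField) : Prop :=
  ∀ x, g x ≠ 0 ∧ ∃ U : X.Opens, x ∈ U ∧ ∀ y ∈ U, RegularAt y (g x / g y) ∧ RegularAt y (g y / g x)

/-- The global sections `H^0(X, L^n)`. -/
def sections (g : X → X.functionField) (n : ℕ) : Set X.functionField :=
  {z | ∀ x, RegularAt x (z / g x ^ n)}

/-- `L` is ample: every point lies in an affine open set of the form `X_z`, the set where a section
`z` of a positive power of `L` generates. -/
def IsAmple (g : X → X.functionField) : Prop :=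
  ∀ x, ∃ n, 0 < n ∧ ∃ z ∈ sections g n, z ≠ 0 ∧ ∃ U : X.Opens, IsAffineOpen U ∧ x ∈ U ∧
    ∀ y, y ∈ U ↔ RegularAt y (g y ^ n / z)

/-- The constant rational function with value `c`. -/
noncomputable def const {k : Type u} [Field k] (π : X ⟶ Spec (CommRingCat.of k)) (c : k) :
    X.functionField :=
  X.presheaf.germ ⊤ (genericPoint X) trivial
    (π.appTop ((Scheme.ΓSpecIso (CommRingCat.of k)).inv c))

/-- `S` is the section ring of an ample invertible sheaf `L` on a projective variety `X`: a ring
homomorphism over `k` maps every `S_n` bijectively onto `H^0(X, L^n)`. -/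
def IsSectionRingOfAmple {k S : Type u} [Field k] [CommRing S] [Algebra k S]
    (𝒜 : ℕ → Submodule k S) : Prop :=
  ∃ (X : Scheme.{u}) (_ : IsIntegral X) (π : X ⟶ Spec (CommRingCat.of k))
    (g : X → X.functionField) (ψ : S →+* X.functionField),
    IsProjective π ∧ IsInvertible g ∧ IsAmple g ∧ (∀ c, ψ (algebraMap k S c) = const π c) ∧
      ∀ n, Set.BijOn ψ (𝒜 n) (sections g n)

end Pool.Agent.Lib.MP_954e53_ag.RS
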