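import Pool.Agent.Lib.MP_954e53_ag.RS.SecDef

/-! The function field and the local rings of `Proj S`. -/

namespace Pool.Agent.Lib.MP_954e53_ag.RS

open CategoryTheory AlgebraicGeometry

universe u

variable {k S : Type u} [Field k] [CommRing S] [IsDomain S] [Algebra k S]
  (𝒜 : ℕ → Submodule k S) [GradedAlgebra 𝒜]

/-- The value of a homogeneous fraction in the fraction field. -/
noncomputable def secfieldEv (x : ProjectiveSpectrum 𝒜) :
    HomogeneousLocalization.AtPrime 𝒜 x.asHomogeneousIdeal.toIdeal →+* FractionRing S :=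
  (IsLocalization.lift (M := x.asHomogeneousIdeal.toIdeal.primeCompl)
    (S := Localization x.asHomogeneousIdeal.toIdeal.primeCompl)
    (g := algebraMap S (FractionRing S)) fun y => IsLocalization.map_units (FractionRing S)
      ⟨y.1, x.asHomogeneousIdeal.toIdeal.primeCompl_le_nonZeroDivisors y.2⟩).comp
    (algebraMap _ (Localization x.asHomogeneousIdeal.toIdeal.primeCompl))

theorem secfield_ev_mk (x : ProjectiveSpectrum 𝒜)
    (f : HomogeneousLocalization.NumDenSameDeg 𝒜 x.asHomogeneousIdeal.toIdeal.primeCompl) :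
    secfieldEv 𝒜 x (HomogeneousLocalization.mk f) * algebraMap S (FractionRing S) f.den =
      algebraMap S (FractionRing S) f.num := by
  unfold secfieldEv
  rw [RingHom.comp_apply, HomogeneousLocalization.algebraMap_apply, HomogeneousLocalization.val_mk,
    Localization.mk_eq_mk', mul_comm]
  exact ((IsLocalization.lift_mk'_spec
    (S := Localization x.asHomogeneousIdeal.toIdeal.primeCompl) _ f.num.1 _
      ⟨f.den.1, f.den_mem⟩).1 rfl).symm

omit [IsDomain S] in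
theorem secfield_den_ne (x : ProjectiveSpectrum 𝒜) {b : S} (hb : b ∉ x.asHomogeneousIdeal) :
    algebraMap S (FractionRing S) b ≠ 0 := by
  intro h
  rw [IsFractionRing.to_map_eq_zero_iff.1 h] at hb
  exact hb (zero_mem _)

theorem secfield_ev_inj (x : ProjectiveSpectrum 𝒜) : Function.Injective (secfieldEv 𝒜 x) := by
  rw [injective_iff_map_eq_zero]
  intro z hz
  obtain ⟨f, rfl⟩ := HomogeneousLocalization.mk_surjective z
  have h1 := secfield_ev_mk 𝒜 x f
  rw [hz, zero_mul] at h1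
  exact HomogeneousLocalization.mk_eq_zero_of_num f
    (Subtype.ext (IsFractionRing.to_map_eq_zero_iff.1 h1.symm))

/-- The map from a local ring of `Proj S` to the fraction field. -/
noncomputable def secfieldIota (x : Proj 𝒜) : (Proj 𝒜).presheaf.stalk x →+* FractionRing S :=
  (secfieldEv 𝒜 x).comp (Proj.stalkIso 𝒜 x).hom.hom

theorem secfield_iota_inj (x : Proj 𝒜) : Function.Injective (secfieldIota 𝒜 x) :=
  (secfield_ev_inj 𝒜 x).comp (Proj.stalkIso' 𝒜 x).injective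

theorem secfield_iota_germ (U : (Proj 𝒜).Opens) (x : Proj 𝒜) (hx : x ∈ U) (s : Γ(Proj 𝒜, U)) :
    secfieldIota 𝒜 x ((Proj 𝒜).presheaf.germ U x hx s) = secfieldEv 𝒜 x (s.1 ⟨x, hx⟩) :=
  congrArg (secfieldEv 𝒜 x) (Proj.stalkIso'_germ 𝒜 U x hx s)

omit [IsDomain S] in
theorem secfield_exists_germ (x : ProjectiveSpectrum 𝒜) (z : (Proj 𝒜).presheaf.stalk x) :
    ∃ f : HomogeneousLocalization.NumDenSameDeg 𝒜 x.asHomogeneousIdeal.toIdeal.primeCompl,
      z = (Proj 𝒜).presheaf.germ (Proj.basicOpen 𝒜 f.den) x f.den_mem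
        (sectionInBasicOpen 𝒜 x f) := by
  obtain ⟨f, hf⟩ := HomogeneousLocalization.mk_surjective (Proj.stalkIso' 𝒜 x z)
  refine ⟨f, ?_⟩
  have h1 : (Proj.stalkIso' 𝒜 x).symm (HomogeneousLocalization.mk f) = z := by
    rw [hf]
    exact (Proj.stalkIso' 𝒜 x).symm_apply_apply z
  exact h1.symm

theorem secfield_iota_sec (x : ProjectiveSpectrum 𝒜) (y : Proj 𝒜)
    (f : HomogeneousLocalization.NumDenSameDeg 𝒜 x.asHomogeneousIdeal.toIdeal.primeCompl)
    (hy : y ∈ Proj.basicOpen 𝒜 f.den) :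
    secfieldIota 𝒜 y ((Proj 𝒜).presheaf.germ (Proj.basicOpen 𝒜 f.den) y hy
      (sectionInBasicOpen 𝒜 x f)) * algebraMap S (FractionRing S) f.den =
      algebraMap S (FractionRing S) f.num := by
  refine Eq.trans ?_ (secfield_ev_mk 𝒜 y ⟨f.deg, f.num, f.den, hy⟩)
  exact congrArg (fun w => w * algebraMap S (FractionRing S) f.den)
    (secfield_iota_germ 𝒜 (Proj.basicOpen 𝒜 f.den) y hy (sectionInBasicOpen 𝒜 x f))

theorem secfield_iota_spec {x y : Proj 𝒜} (h : y ⤳ x) (z : (Proj 𝒜).presheaf.stalk x) :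
    secfieldIota 𝒜 y ((Proj 𝒜).presheaf.stalkSpecializes h z) = secfieldIota 𝒜 x z := by
  obtain ⟨f, rfl⟩ := secfield_exists_germ 𝒜 x z
  refine mul_right_cancel₀ (secfield_den_ne 𝒜 x f.den_mem) ?_
  refine Eq.trans ?_ (secfield_iota_sec 𝒜 x x f f.den_mem).symm
  have h1 := TopCat.Presheaf.germ_stalkSpecializes_apply (Proj 𝒜).presheaf
    (U := Proj.basicOpen 𝒜 f.den) (y := x) f.den_mem h (sectionInBasicOpen 𝒜 x f)
  exact (congrArg (fun w => secfieldIota 𝒜 y w * algebraMap S (FractionRing S) f.den) h1).trans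
    (secfield_iota_sec 𝒜 x y f _)

/-- The point given by the zero ideal. -/
def secfieldBot (h : ¬HomogeneousIdeal.irrelevant 𝒜 ≤ ⊥) : ProjectiveSpectrum 𝒜 :=
  ⟨⊥, by rw [HomogeneousIdeal.toIdeal_bot]; exact Ideal.isPrime_bot, h⟩

theorem secfield_top (X : Scheme.{u}) (U : X.Opens) (e : U = ⊤) :
    X.topIso.inv ≫ (X.isoOfEq e).inv ≫ U.toSpecΓ =
      X.toSpecΓ ≫ Spec.map (X.presheaf.map (homOfLE e.ge).op) := by
  subst e
  simp

omit [IsDomain S] in
theorem secfield_const (x : Proj 𝒜) (c : k) :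
    ((projToSpec 𝒜).appTop ((Scheme.ΓSpecIso (CommRingCat.of k)).inv c)).1 ⟨x, trivial⟩ =
      HomogeneousLocalization.fromZeroRingHom 𝒜 _ (algebraMap k (𝒜 0) c) := by
  have h1 : (Scheme.ΓSpecIso (CommRingCat.of k)).inv ≫ (projToSpec 𝒜).appTop =
      CommRingCat.ofHom (algebraMap k (𝒜 0)) ≫
        CommRingCat.ofHom (HomogeneousLocalization.fromZeroRingHom 𝒜 _) ≫
          Proj.awayToSection 𝒜 1 ≫
            (Proj 𝒜).presheaf.map (homOfLE (Proj.basicOpen_one 𝒜).ge).op := by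
    have h2 : projToSpec 𝒜 = (Proj 𝒜).toSpecΓ ≫ Spec.map (CommRingCat.ofHom (algebraMap k (𝒜 0)) ≫
        CommRingCat.ofHom (HomogeneousLocalization.fromZeroRingHom 𝒜 _) ≫
          Proj.awayToSection 𝒜 1 ≫
            (Proj 𝒜).presheaf.map (homOfLE (Proj.basicOpen_one 𝒜).ge).op) := by
      rw [projToSpec, Proj.toSpecZero, Proj.basicOpenToSpec]
      simp only [Category.assoc, Spec.map_comp]
      rw [reassoc_of% secfield_top (Proj 𝒜) _ (Proj.basicOpen_one 𝒜)]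
    rw [h2, Scheme.Hom.comp_appTop, Scheme.toSpecΓ_appTop, Scheme.ΓSpecIso_naturality,
      Iso.inv_hom_id_assoc]
  have h3 := congrArg (fun φ => (φ.hom c).1 ⟨x, trivial⟩) h1
  exact h3

theorem isIntegral_proj (h : ∃ m, 0 < m ∧ ∃ s ∈ 𝒜 m, s ≠ 0) : IsIntegral (Proj 𝒜) := by
  obtain ⟨m, hm, s, hs, hs0⟩ := h
  have h1 : ¬HomogeneousIdeal.irrelevant 𝒜 ≤ ⊥ := fun h2 =>
    hs0 (h2 (HomogeneousIdeal.mem_irrelevant_of_mem 𝒜 hm hs))
  have h2 : IsGenericPoint (α := Proj 𝒜) (secfieldBot 𝒜 h1) Set.univ := by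
    refine isGenericPoint_def.2 (Set.eq_univ_iff_forall.2 fun y => ?_)
    exact (ProjectiveSpectrum.le_iff_mem_closure 𝒜 (secfieldBot 𝒜 h1) y).1
      (bot_le (a := y.asHomogeneousIdeal))
  have h3 : IrreducibleSpace (Proj 𝒜) := (irreducibleSpace_def _).2 h2.isIrreducible
  have h4 : ∀ x : Proj 𝒜, _root_.IsReduced ((Proj 𝒜).presheaf.stalk x) := fun x =>
    isReduced_of_injective (secfieldIota 𝒜 x) (secfield_iota_inj 𝒜 x)
  have h5 : IsReduced (Proj 𝒜) := isReduced_of_isReduced_stalk _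
  exact isIntegral_of_irreducibleSpace_of_isReduced _

theorem exists_functionField_hom [IsIntegral (Proj 𝒜)] :
    ∃ ι : (Proj 𝒜).functionField →+* FractionRing S,
      (∀ (x : ProjectiveSpectrum 𝒜) (z : (Proj 𝒜).functionField),
        RegularAt (X := Proj 𝒜) x z ↔ ∃ e, ∃ a ∈ 𝒜 e, ∃ b ∈ 𝒜 e, b ∉ x.asHomogeneousIdeal ∧
          ι z * algebraMap S (FractionRing S) b = algebraMap S (FractionRing S) a) ∧
      (∀ e, ∀ a ∈ 𝒜 e, ∀ b ∈ 𝒜 e, b ≠ 0 → ∃ z,
        ι z * algebraMap S (FractionRing S) b = algebraMap S (FractionRing S) a) ∧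
      ∀ c : k, ι (const (projToSpec 𝒜) c) = algebraMap S (FractionRing S) (algebraMap k S c) := by
  refine ⟨secfieldIota 𝒜 (genericPoint (Proj 𝒜)), fun x z => ?_, fun e a ha b hb hb0 => ?_,
    fun c => ?_⟩
  · have hx : genericPoint (Proj 𝒜) ⤳ x := (genericPoint_spec (Proj 𝒜)).specializes trivial
    constructor
    · rintro ⟨w, rfl⟩
      obtain ⟨f, rfl⟩ := secfield_exists_germ 𝒜 x w
      refine ⟨f.deg, f.num, f.num.2, f.den, f.den.2, f.den_mem, ?_⟩
      rw [← secfield_iota_sec 𝒜 x x f f.den_mem, ← secfield_iota_spec 𝒜 hx]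
      rfl
    · rintro ⟨e, a, ha, b, hb, hbx, h⟩
      refine ⟨(Proj 𝒜).presheaf.germ (Proj.basicOpen 𝒜 b) x hbx
        (sectionInBasicOpen 𝒜 x ⟨e, ⟨a, ha⟩, ⟨b, hb⟩, hbx⟩), secfield_iota_inj 𝒜 _ ?_⟩
      refine mul_right_cancel₀ (secfield_den_ne 𝒜 x hbx) ?_
      rw [h]
      refine Eq.trans ?_ (secfield_iota_sec 𝒜 x x ⟨e, ⟨a, ha⟩, ⟨b, hb⟩, hbx⟩ hbx)
      rw [← secfield_iota_spec 𝒜 hx]
      rfl
  · have h1 : ¬HomogeneousIdeal.irrelevant 𝒜 ≤ ⊥ := fun h2 =>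
      (genericPoint (Proj 𝒜)).not_irrelevant_le (h2.trans bot_le)
    have h2 : genericPoint (Proj 𝒜) ⤳ (secfieldBot 𝒜 h1 : Proj 𝒜) :=
      (genericPoint_spec (Proj 𝒜)).specializes trivial
    have h3 : genericPoint (Proj 𝒜) ∈ Proj.basicOpen 𝒜 b :=
      h2.mem_open (Proj.basicOpen 𝒜 b).isOpen hb0
    exact ⟨_, secfield_iota_sec 𝒜 (secfieldBot 𝒜 h1) (genericPoint (Proj 𝒜))
      ⟨e, ⟨a, ha⟩, ⟨b, hb⟩, hb0⟩ h3⟩
  · refine (secfield_iota_germ 𝒜 ⊤ (genericPoint (Proj 𝒜)) trivial _).trans ?_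
    refine (congrArg (secfieldEv 𝒜 (genericPoint (Proj 𝒜))) (secfield_const 𝒜 _ c)).trans ?_
    have h1 := secfield_ev_mk 𝒜 (genericPoint (Proj 𝒜))
      ⟨0, algebraMap k (𝒜 0) c, 1, one_mem _⟩
    refine Eq.trans ?_ h1
    exact ((congrArg _ (map_one (algebraMap S (FractionRing S)))).trans (mul_one _)).symm

end Pool.Agent.Lib.MP_954e53_ag.RS
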