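import Pool.Agent.Lib.MP_954e53_ag.RS.SecDef

/-! The Veronese embedding. -/

namespace Pool.Agent.Lib.MP_954e53_ag.RS

open CategoryTheory AlgebraicGeometry MvPolynomial

universe u

section general

open HomogeneousLocalization

variable {A B σ τ : Type u} [CommRing A] [SetLike σ A] [AddSubgroupClass σ A]
  [CommRing B] [SetLike τ B] [AddSubgroupClass τ B]
  {𝒜 : ℕ → σ} {ℬ : ℕ → τ} [GradedRing 𝒜] [GradedRing ℬ] {m : ℕ}

omit [AddSubgroupClass σ A] [AddSubgroupClass τ B] [GradedRing 𝒜] [GradedRing ℬ] in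
theorem secProj_val_aux (g : A →+* B) (hg : ∀ n a, a ∈ 𝒜 n → g a ∈ ℬ (n * m))
    {P : Submonoid A} {Q : Submonoid B} (hPQ : P ≤ Q.comap g) (x : HomogeneousLocalization 𝒜 P) :
    (HomogeneousLocalization.mk (𝒜 := ℬ) (x := Q) ⟨x.deg * m, ⟨g x.num, hg _ _ x.num_mem_deg⟩,
      ⟨g x.den, hg _ _ x.den_mem_deg⟩, hPQ x.den_mem⟩).val =
      IsLocalization.map (Localization Q) g hPQ x.val := by
  rw [x.eq_num_div_den, val_mk, Localization.mk_eq_mk', Localization.mk_eq_mk',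
    IsLocalization.map_mk']

/-- A ring map multiplying degrees by `m` induces a map of homogeneous localizations. -/
noncomputable def secProjMap (g : A →+* B) (hg : ∀ n a, a ∈ 𝒜 n → g a ∈ ℬ (n * m))
    {P : Submonoid A} {Q : Submonoid B} (hPQ : P ≤ Q.comap g) :
    HomogeneousLocalization 𝒜 P →+* HomogeneousLocalization ℬ Q where
  toFun x := HomogeneousLocalization.mk ⟨x.deg * m, ⟨g x.num, hg _ _ x.num_mem_deg⟩,
      ⟨g x.den, hg _ _ x.den_mem_deg⟩, hPQ x.den_mem⟩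
  map_one' := by
    apply val_injective
    rw [secProj_val_aux g hg hPQ, val_one, val_one, map_one]
  map_mul' x y := by
    apply val_injective
    rw [val_mul, secProj_val_aux g hg hPQ, secProj_val_aux g hg hPQ, secProj_val_aux g hg hPQ,
      val_mul, map_mul]
  map_zero' := by
    apply val_injective
    rw [secProj_val_aux g hg hPQ, val_zero, val_zero, map_zero]
  map_add' x y := by
    apply val_injective
    rw [val_add, secProj_val_aux g hg hPQ, secProj_val_aux g hg hPQ, secProj_val_aux g hg hPQ,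
      val_add, map_add]

theorem secProj_val (g : A →+* B) (hg : ∀ n a, a ∈ 𝒜 n → g a ∈ ℬ (n * m))
    {P : Submonoid A} {Q : Submonoid B} (hPQ : P ≤ Q.comap g) (x : HomogeneousLocalization 𝒜 P) :
    (secProjMap g hg hPQ x).val = IsLocalization.map (Localization Q) g hPQ x.val :=
  secProj_val_aux g hg hPQ x

theorem secProj_powers_le (g : A →+* B) {t : A} {s : B} (h : g t = s) :
    Submonoid.powers t ≤ (Submonoid.powers s).comap g := by
  rintro _ ⟨n, rfl⟩
  exact ⟨n, by simp [← h]⟩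

/-- The induced map `A_(t) → B_(s)` for `s = g t`. -/
noncomputable def secProjAway (g : A →+* B) (hg : ∀ n a, a ∈ 𝒜 n → g a ∈ ℬ (n * m))
    {t : A} {s : B} (h : g t = s) : Away 𝒜 t →+* Away ℬ s :=
  secProjMap g hg (secProj_powers_le g h)

theorem secProj_away_mk (g : A →+* B) (hg : ∀ n a, a ∈ 𝒜 n → g a ∈ ℬ (n * m))
    {t : A} {s : B} (h : g t = s) {d e : ℕ} (ht : t ∈ 𝒜 d) (hs : s ∈ ℬ e) (n : ℕ) (a : A)
    (ha : a ∈ 𝒜 (n • d)) (hb : g a ∈ ℬ (n • e)) :
    secProjAway g hg h (Away.mk 𝒜 ht n a ha) = Away.mk ℬ hs n (g a) hb := by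
  apply val_injective
  rw [secProjAway, secProj_val, Away.val_mk, Away.val_mk, Localization.mk_eq_mk',
    Localization.mk_eq_mk', IsLocalization.map_mk']
  congr 1
  exact Subtype.ext (by simp [← h])

omit [AddSubgroupClass σ A] [AddSubgroupClass τ B] [GradedRing 𝒜] [GradedRing ℬ] in
theorem secProj_mem (g : A →+* B) (hg : ∀ n a, a ∈ 𝒜 n → g a ∈ ℬ (n * m))
    {d n : ℕ} {a : A} (ha : a ∈ 𝒜 (n • d)) : g a ∈ ℬ (n • (d * m)) := by
  have := hg _ _ ha
  rwa [smul_eq_mul, mul_assoc, ← smul_eq_mul] at this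

theorem secProj_awayMap_comp (g : A →+* B) (hg : ∀ n a, a ∈ 𝒜 n → g a ∈ ℬ (n * m))
    {t t' x : A} {s s' y : B} (h : g t = s) (h' : g t' = s') (h'' : g x = y) {d d' e' : ℕ}
    (ht : t ∈ 𝒜 d) (ht' : t' ∈ 𝒜 d') (hs' : s' ∈ ℬ e') (hx : x = t * t') (hy : y = s * s') :
    (awayMap ℬ hs' hy).comp (secProjAway g hg h) =
      (secProjAway g hg h'').comp (awayMap 𝒜 ht' hx) := by
  refine RingHom.ext fun z => ?_
  obtain ⟨n, a, ha, rfl⟩ := Away.mk_surjective 𝒜 ht z
  have hs : s ∈ ℬ (d * m) := h ▸ hg _ _ ht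
  have hxd : x ∈ 𝒜 (d + d') := hx ▸ SetLike.mul_mem_graded ht ht'
  have hyd : y ∈ ℬ ((d + d') * m) := h'' ▸ hg _ _ hxd
  rw [RingHom.comp_apply, RingHom.comp_apply,
    secProj_away_mk g hg h ht hs n a ha (secProj_mem g hg ha), awayMap_mk, awayMap_mk,
    secProj_away_mk g hg h'' _ hyd n _ _ (secProj_mem g hg (by
      rw [smul_add]; exact SetLike.mul_mem_graded ha (SetLike.pow_mem_graded n ht')))]
  apply val_injective
  rw [Away.val_mk, Away.val_mk, map_mul, map_pow, h']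

theorem secProj_away_surjective (g : A →+* B) (hg : ∀ n a, a ∈ 𝒜 n → g a ∈ ℬ (n * m))
    (hsurj : ∀ j, ∀ s ∈ ℬ (j * m), ∃ p ∈ 𝒜 j, g p = s)
    {t : A} {s : B} (h : g t = s) {d : ℕ} (ht : t ∈ 𝒜 d) :
    Function.Surjective (secProjAway g hg h) := by
  intro z
  have hs : s ∈ ℬ (d * m) := h ▸ hg _ _ ht
  obtain ⟨n, b, hb, rfl⟩ := Away.mk_surjective ℬ hs z
  obtain ⟨p, hp, rfl⟩ := hsurj (n * d) b (by rwa [smul_eq_mul, ← mul_assoc] at hb)
  exact ⟨Away.mk 𝒜 ht n p hp, secProj_away_mk g hg h ht hs n p hp hb⟩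

theorem secProj_fromZero (g : A →+* B) (hg : ∀ n a, a ∈ 𝒜 n → g a ∈ ℬ (n * m))
    {t : A} {s : B} (h : g t = s) (a : 𝒜 0) (b : ℬ 0) (hab : g a = b) :
    secProjAway g hg h (fromZeroRingHom 𝒜 _ a) = fromZeroRingHom ℬ _ b := by
  apply val_injective
  rw [secProjAway, secProj_val]
  change IsLocalization.map _ g _ (Localization.mk (a : A) 1) = Localization.mk (b : B) 1
  rw [Localization.mk_eq_mk', Localization.mk_eq_mk', IsLocalization.map_mk', hab]
  congr 1
  exact Subtype.ext (map_one g)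

/-- The cover of `Proj` by the charts attached to a family of homogeneous elements. -/
noncomputable def secProjCover {ι : Type} (y : ι → B) {e : ℕ} (hy : ∀ i, y i ∈ ℬ e) (he : 0 < e)
    (hcov : ⨆ i, Proj.basicOpen ℬ (y i) = ⊤) : (Proj ℬ).OpenCover :=
  Scheme.Cover.mkOfCovers ι (fun i => Spec (CommRingCat.of (Away ℬ (y i))))
    (fun i => Proj.awayι ℬ (y i) (hy i) he) (fun x => by
      obtain ⟨i, hi⟩ := TopologicalSpace.Opens.mem_iSup.mp (hcov.ge (Set.mem_univ x))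
      rw [← Proj.opensRange_awayι ℬ (y i) (hy i) he] at hi
      exact ⟨i, hi⟩)

theorem secProj_exists (g : A →+* B) (hg : ∀ n a, a ∈ 𝒜 n → g a ∈ ℬ (n * m)) (hm : 0 < m)
    (hsurj : ∀ j, ∀ s ∈ ℬ (j * m), ∃ p ∈ 𝒜 j, g p = s)
    {ι : Type} (x : ι → A) (y : ι → B) (hxy : ∀ i, g (x i) = y i) (hx : ∀ i, x i ∈ 𝒜 1)
    (hy : ∀ i, y i ∈ ℬ m) (hcovA : ⨆ i, Proj.basicOpen 𝒜 (x i) = ⊤)
    (hcovB : ⨆ i, Proj.basicOpen ℬ (y i) = ⊤) :
    ∃ f : Proj ℬ ⟶ Proj 𝒜, IsClosedImmersion f ∧ ∀ i, Proj.awayι ℬ (y i) (hy i) hm ≫ f =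
      Spec.map (CommRingCat.ofHom (secProjAway g hg (hxy i))) ≫
        Proj.awayι 𝒜 (x i) (hx i) one_pos := by
  have hcomp : ∀ i l : ι, Limits.pullback.fst (Proj.awayι ℬ (y i) (hy i) hm)
      (Proj.awayι ℬ (y l) (hy l) hm) ≫
      (Spec.map (CommRingCat.ofHom (secProjAway g hg (hxy i))) ≫
        Proj.awayι 𝒜 (x i) (hx i) one_pos) = Limits.pullback.snd _ _ ≫
      (Spec.map (CommRingCat.ofHom (secProjAway g hg (hxy l))) ≫
        Proj.awayι 𝒜 (x l) (hx l) one_pos) := by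
    intro i l
    have h'' : g (x i * x l) = y i * y l := by rw [map_mul, hxy, hxy]
    rw [← cancel_epi (Proj.pullbackAwayιIso ℬ (hy i) hm (hy l) hm rfl).inv,
      Proj.pullbackAwayιIso_inv_fst_assoc, Proj.pullbackAwayιIso_inv_snd_assoc,
      ← Spec.map_comp_assoc, ← Spec.map_comp_assoc, ← CommRingCat.ofHom_comp,
      ← CommRingCat.ofHom_comp,
      secProj_awayMap_comp g hg (hxy i) (hxy l) h'' (hx i) (hx l) (hy l) rfl rfl,
      secProj_awayMap_comp g hg (hxy l) (hxy i) h'' (hx l) (hx i) (hy i) (mul_comm _ _) _,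
      CommRingCat.ofHom_comp, CommRingCat.ofHom_comp, Spec.map_comp_assoc, Spec.map_comp_assoc,
      Proj.SpecMap_awayMap_awayι, Proj.SpecMap_awayMap_awayι]
  let f : Proj ℬ ⟶ Proj 𝒜 := (secProjCover y hy hm hcovB).glueMorphisms _ hcomp
  have hf : ∀ i, Proj.awayι ℬ (y i) (hy i) hm ≫ f =
      Spec.map (CommRingCat.ofHom (secProjAway g hg (hxy i))) ≫
        Proj.awayι 𝒜 (x i) (hx i) one_pos := fun i =>
    (secProjCover y hy hm hcovB).ι_glueMorphisms _ hcomp i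
  have hpre : ∀ i, f ⁻¹ᵁ Proj.basicOpen 𝒜 (x i) = Proj.basicOpen ℬ (y i) := by
    intro i
    ext p
    obtain ⟨l, hl⟩ := TopologicalSpace.Opens.mem_iSup.mp (hcovB.ge (Set.mem_univ p))
    rw [← Proj.opensRange_awayι ℬ (y l) (hy l) hm] at hl
    obtain ⟨q, rfl⟩ := hl
    have e1 : (Proj.awayι ℬ (y l) (hy l) hm ≫ f) ⁻¹ᵁ Proj.basicOpen 𝒜 (x i) =
        Proj.awayι ℬ (y l) (hy l) hm ⁻¹ᵁ Proj.basicOpen ℬ (y i) := by
      rw [hf, Scheme.Hom.comp_preimage, Proj.awayι_preimage_basicOpen 𝒜 (hx l) one_pos (hx i) one_pos,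
        Proj.awayι_preimage_basicOpen ℬ (hy l) hm (hy i) hm]
      change PrimeSpectrum.basicOpen (secProjAway g hg (hxy l) _) = _
      rw [← PrimeSpectrum.basicOpen_pow _ m hm]
      congr 1
      rw [secProj_away_mk g hg (hxy l) (hx l) (hy l) 1 _ _
        (by rw [pow_one, hxy, one_smul]; exact hy i)]
      apply val_injective
      simp [Localization.mk_pow, hxy]
    exact Iff.of_eq (congrArg (fun U : TopologicalSpace.Opens _ => q ∈ U) e1)
  refine ⟨f, ?_, hf⟩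
  refine IsZariskiLocalAtTarget.of_openCover (P := @IsClosedImmersion)
    (secProjCover x hx one_pos hcovA) fun i => ?_
  have hpb : IsPullback (Spec.map (CommRingCat.ofHom (secProjAway g hg (hxy i))))
      (Proj.awayι ℬ (y i) (hy i) hm) (Proj.awayι 𝒜 (x i) (hx i) one_pos) f :=
    IsOpenImmersion.isPullback _ _ _ _ (hf i) (by
      rw [Proj.opensRange_awayι, Proj.opensRange_awayι, hpre])
  have hcl : IsClosedImmersion (Spec.map (CommRingCat.ofHom (secProjAway g hg (hxy i)))) :=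
    IsClosedImmersion.spec_of_surjective _ (secProj_away_surjective g hg hsurj (hxy i) (hx i))
  change IsClosedImmersion (Limits.pullback.snd f (Proj.awayι 𝒜 (x i) (hx i) one_pos))
  rw [← hpb.flip.isoPullback_inv_snd]
  infer_instance

end general

attribute [local instance] MvPolynomial.gradedAlgebra

theorem secProj_aeval_mem {k S : Type u} [Field k] [CommRing S] [Algebra k S]
    (𝒜 : ℕ → Submodule k S) [GradedAlgebra 𝒜] {m N : ℕ} (w : Fin N → S)
    (hw : ∀ i, w i ∈ 𝒜 m) (n : ℕ) (p : MvPolynomial (Fin N) k) (hp : p.IsHomogeneous n) :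
    aeval w p ∈ 𝒜 (n * m) := by
  rw [p.as_sum, map_sum]
  refine Submodule.sum_mem _ fun d hd => ?_
  rw [aeval_monomial, ← Algebra.smul_def]
  refine Submodule.smul_mem _ _ ?_
  have hdeg : d.degree = n := by
    rw [Finsupp.degree_eq_weight_one]
    exact hp (mem_support_iff.mp hd)
  have := SetLike.prod_pow_mem_graded 𝒜 (F := d.support) (fun _ => m) w d (fun i _ => hw i)
  have e : ∑ i ∈ d.support, d i • m = n * m := by
    rw [← Finset.sum_smul, ← hdeg, smul_eq_mul]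
    rfl
  rw [e] at this
  exact this

theorem secProj_mem_span {k S : Type u} [Field k] [CommRing S] [Algebra k S] {N : ℕ}
    (w : Fin N → S) {n : ℕ} (hn : 0 < n) (p : MvPolynomial (Fin N) k) (hp : p.IsHomogeneous n) :
    aeval w p ∈ Ideal.span (Set.range w) := by
  rw [p.as_sum, map_sum]
  refine Ideal.sum_mem _ fun d hd => ?_
  rw [aeval_monomial]
  refine Ideal.mul_mem_left _ _ ?_
  have hdeg : d.degree = n := by
    rw [Finsupp.degree_eq_weight_one]
    exact hp (mem_support_iff.mp hd)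
  have hd0 : d ≠ 0 := by
    rintro rfl
    rw [map_zero] at hdeg
    omega
  obtain ⟨i, hi⟩ := Finsupp.support_nonempty_iff.mpr hd0
  rw [Finsupp.prod, ← Finset.mul_prod_erase _ _ hi]
  refine Ideal.mul_mem_right _ _ ?_
  exact Ideal.pow_mem_of_mem _ (Ideal.subset_span (Set.mem_range_self i)) _
    (Nat.pos_of_ne_zero (Finsupp.mem_support_iff.mp hi))

theorem secProj_cover {k S : Type u} [Field k] [CommRing S] [Algebra k S]
    (𝒜 : ℕ → Submodule k S) [GradedAlgebra 𝒜] {m N : ℕ} (w : Fin N → S)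
    (h : ∀ j, ∀ s ∈ 𝒜 (j * m), ∃ p : MvPolynomial (Fin N) k, p.IsHomogeneous j ∧ aeval w p = s) :
    ⨆ i, Proj.basicOpen 𝒜 (w i) = ⊤ := by
  classical
  refine top_le_iff.mp fun x _ => TopologicalSpace.Opens.mem_iSup.mpr ?_
  by_contra! H
  simp only [Proj.mem_basicOpen, Decidable.not_not] at H
  refine x.not_irrelevant_le ?_
  change (HomogeneousIdeal.irrelevant 𝒜).toIdeal ≤ x.asHomogeneousIdeal.toIdeal
  refine (HomogeneousIdeal.toIdeal_irrelevant_le _).mpr fun n hn s hs => ?_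
  obtain ⟨p, hp, hps⟩ := h n (s ^ m) (by
    have := SetLike.pow_mem_graded (A := 𝒜) m (show s ∈ 𝒜 n from hs)
    rwa [smul_eq_mul, mul_comm] at this)
  have h1 : Ideal.span (Set.range w) ≤ x.asHomogeneousIdeal.toIdeal := by
    rwa [Ideal.span_le, Set.range_subset_iff]
  exact x.isPrime.mem_of_pow_mem m (hps ▸ h1 (secProj_mem_span w hn p hp))

theorem isProjective_proj {k S : Type u} [Field k] [CommRing S] [Algebra k S]
    (𝒜 : ℕ → Submodule k S) [GradedAlgebra 𝒜] {m N : ℕ} (w : Fin N → S) (hm : 0 < m)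
    (hw : ∀ i, w i ∈ 𝒜 m)
    (h : ∀ j, ∀ s ∈ 𝒜 (j * m), ∃ p : MvPolynomial (Fin N) k, p.IsHomogeneous j ∧ aeval w p = s) :
    IsProjective (projToSpec 𝒜) := by
  have hg : ∀ n (a : MvPolynomial (Fin N) k), a ∈ homogeneousSubmodule (Fin N) k n →
      (aeval w : MvPolynomial (Fin N) k →ₐ[k] S).toRingHom a ∈ 𝒜 (n * m) :=
    fun n a ha => secProj_aeval_mem 𝒜 w hw n a ha
  have hcovA : ⨆ i, Proj.basicOpen (homogeneousSubmodule (Fin N) k) (X i) = ⊤ :=
    secProj_cover (homogeneousSubmodule (Fin N) k) (m := 1) X fun j s hs =>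
      ⟨s, by rwa [mul_one] at hs, aeval_X_left_apply s⟩
  have hcovB := secProj_cover 𝒜 w h
  have hxy : ∀ i, (aeval w : MvPolynomial (Fin N) k →ₐ[k] S).toRingHom (X i) = w i :=
    fun i => aeval_X w i
  obtain ⟨f, hf, hfi⟩ := secProj_exists _ hg hm h X w hxy (fun i => isHomogeneous_X k i) hw
    hcovA hcovB
  refine ⟨N, f, hf, ?_⟩
  refine (secProjCover w hw hm hcovB).hom_ext _ _ fun i => ?_
  change Proj.awayι 𝒜 (w i) (hw i) hm ≫ _ = Proj.awayι 𝒜 (w i) (hw i) hm ≫ _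
  rw [projToSpec, projToSpec, reassoc_of% (hfi i), Proj.awayι_toSpecZero_assoc,
    Proj.awayι_toSpecZero_assoc, ← Spec.map_comp, ← Spec.map_comp, ← Spec.map_comp,
    ← CommRingCat.ofHom_comp, ← CommRingCat.ofHom_comp, ← CommRingCat.ofHom_comp]
  congr 2
  refine RingHom.ext fun c => ?_
  exact secProj_fromZero _ hg (hxy i) _ _ ((aeval w).commutes c)

end Pool.Agent.Lib.MP_954e53_ag.RS
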