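import Pool.Agent.Lib.MP_954e53_ag.Defs

/-! A Veronese subring is generated in degree one. -/

namespace Pool.Agent.Lib.MP_954e53_ag.RS

open MvPolynomial

lemma secVero_one {n D : ℕ} (w : Fin n → ℕ) (hD : 0 < D) (hw : ∀ i, w i ∣ D) (a : Fin n → ℕ)
    (ha : (n + 1) * D ≤ ∑ i, a i * w i) : ∃ b : Fin n → ℕ, b ≤ a ∧ ∑ i, b i * w i = D := by
  classical
  have h1 : ∃ i, D ≤ a i * w i := by
    by_contra hne
    push Not at hne
    have h2 : ∑ i, a i * w i ≤ ∑ _i : Fin n, D := Finset.sum_le_sum fun i _ => (hne i).le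
    rw [Finset.sum_const, Finset.card_univ, Fintype.card_fin, smul_eq_mul] at h2
    nlinarith
  obtain ⟨i, hi⟩ := h1
  obtain ⟨c, hc⟩ := hw i
  have hwi : 0 < w i := by
    rcases Nat.eq_zero_or_pos (w i) with h0 | h0
    · rw [h0, zero_mul] at hc
      omega
    · exact h0
  refine ⟨Pi.single i c, ?_, ?_⟩
  · intro l
    by_cases hl : l = i
    · subst hl
      rw [Pi.single_eq_same]
      rw [hc, mul_comm] at hi
      exact Nat.le_of_mul_le_mul_right hi hwi
    · rw [Pi.single_eq_of_ne hl]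
      exact Nat.zero_le _
  · rw [Finset.sum_eq_single i]
    · rw [Pi.single_eq_same, hc, mul_comm]
    · intro l _ hl
      rw [Pi.single_eq_of_ne hl, zero_mul]
    · intro hi'
      exact absurd (Finset.mem_univ i) hi'

lemma secVero_sub {n : ℕ} (w : Fin n → ℕ) {a b : Fin n → ℕ} (h : b ≤ a) :
    ∑ i, b i * w i + ∑ i, (a i - b i) * w i = ∑ i, a i * w i := by
  rw [← Finset.sum_add_distrib]
  refine Finset.sum_congr rfl fun i _ => ?_
  rw [← add_mul, Nat.add_sub_cancel' (h i)]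

lemma secVero_many {n D : ℕ} (w : Fin n → ℕ) (hD : 0 < D) (hw : ∀ i, w i ∣ D) (a : Fin n → ℕ)
    (t : ℕ) (ha : (n + t) * D ≤ ∑ i, a i * w i) :
    ∃ b : Fin n → ℕ, b ≤ a ∧ ∑ i, b i * w i = t * D := by
  induction t with
  | zero => exact ⟨0, fun _ => Nat.zero_le _, by simp⟩
  | succ t ih =>
    obtain ⟨b, hb, hbw⟩ := ih (le_trans (Nat.mul_le_mul_right _ (by omega)) ha)
    have h1 := secVero_sub w hb
    obtain ⟨c, hc, hcw⟩ := secVero_one w hD hw (fun i => a i - b i) (by nlinarith)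
    refine ⟨fun i => b i + c i, fun i => ?_, ?_⟩
    · have h2 : c i ≤ a i - b i := hc i
      have h3 : b i ≤ a i := hb i
      show b i + c i ≤ a i
      omega
    · simp only [add_mul, Finset.sum_add_distrib, hbw, hcw, one_mul]

lemma secVero_mem {k S : Type*} [Field k] [CommRing S] [Algebra k S]
    {𝒜 : ℕ → Submodule k S} [GradedAlgebra 𝒜] {n : ℕ} {x : Fin n → S} {w : Fin n → ℕ}
    (hx : ∀ i, x i ∈ 𝒜 (w i)) (a : Fin n → ℕ) : ∏ i, x i ^ a i ∈ 𝒜 (∑ i, a i * w i) := by
  have := SetLike.prod_pow_mem_graded 𝒜 w x (F := Finset.univ) a (fun i _ => hx i)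
  simpa only [smul_eq_mul] using this

lemma secVero_span {k S : Type*} [Field k] [CommRing S] [Algebra k S]
    {𝒜 : ℕ → Submodule k S} [GradedAlgebra 𝒜] {n : ℕ} {x : Fin n → S} {w : Fin n → ℕ}
    (hx : ∀ i, x i ∈ 𝒜 (w i)) (htop : Algebra.adjoin k (Set.range x) = ⊤) {e : ℕ} {s : S}
    (hs : s ∈ 𝒜 e) :
    s ∈ Submodule.span k {y | ∃ a : Fin n → ℕ, ∑ i, a i * w i = e ∧ y = ∏ i, x i ^ a i} := by
  have h1 : s ∈ Algebra.adjoin k (Set.range x) := htop ▸ Algebra.mem_top
  rw [Algebra.adjoin_range_eq_range_aeval] at h1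
  obtain ⟨p, hp⟩ := h1
  have h2 : ∀ q : MvPolynomial (Fin n) k, GradedAlgebra.proj 𝒜 e (aeval x q) ∈
      Submodule.span k {y | ∃ a : Fin n → ℕ, ∑ i, a i * w i = e ∧ y = ∏ i, x i ^ a i} := by
    intro q
    induction q using MvPolynomial.induction_on' with
    | monomial u c =>
      rw [aeval_monomial, ← Algebra.smul_def, map_smul, Finsupp.prod_fintype _ _ (by simp)]
      refine Submodule.smul_mem _ _ ?_
      have h3 := secVero_mem hx u
      rw [GradedAlgebra.proj_apply]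
      by_cases he : ∑ i, u i * w i = e
      · rw [he] at h3
        rw [DirectSum.decompose_of_mem_same 𝒜 h3]
        exact Submodule.subset_span ⟨u, he, rfl⟩
      · rw [DirectSum.decompose_of_mem_ne 𝒜 h3 he]
        exact Submodule.zero_mem _
    | add p q hp hq =>
      rw [map_add, map_add]
      exact Submodule.add_mem _ hp hq
  have h4 := h2 p
  have hp' : aeval x p = s := hp
  rwa [hp', GradedAlgebra.proj_apply, DirectSum.decompose_of_mem_same 𝒜 hs] at h4

theorem exists_veronese {k S : Type*} [Field k] [CommRing S] [Algebra k S]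
    {𝒜 : ℕ → Submodule k S} [GradedAlgebra 𝒜] {n : ℕ} (hgen : GeneratedBy 𝒜 n) :
    ∃ (m N : ℕ) (w : Fin N → S), 0 < m ∧ (∀ i, w i ∈ 𝒜 m) ∧
      ∀ j, ∀ s ∈ 𝒜 (j * m), ∃ p : MvPolynomial (Fin N) k, p.IsHomogeneous j ∧ aeval w p = s := by
  classical
  obtain ⟨x, w, hxw, htop⟩ := hgen
  have hx : ∀ i, x i ∈ 𝒜 (w i) := fun i => (hxw i).2
  have hw : ∀ i, 0 < w i := fun i => (hxw i).1
  obtain ⟨D, hD, hwD⟩ : ∃ D : ℕ, 0 < D ∧ ∀ i, w i ∣ D :=
    ⟨∏ i, w i, Finset.prod_pos fun i _ => hw i, fun i => Finset.dvd_prod_of_mem _ (Finset.mem_univ i)⟩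
  have hle : ∀ (a : Fin n → ℕ) (i : Fin n), a i ≤ ∑ l, a l * w l := fun a i =>
    le_trans (Nat.le_mul_of_pos_right _ (hw i))
      (Finset.single_le_sum (f := fun l => a l * w l) (fun _ _ => Nat.zero_le _) (Finset.mem_univ i))
  have hfin : {a : Fin n → ℕ | ∑ i, a i * w i = (n + 1) * D}.Finite := by
    refine (Set.finite_Iic (fun _ : Fin n => (n + 1) * D)).subset fun a ha i => ?_
    have ha' : ∑ i, a i * w i = (n + 1) * D := ha
    exact ha' ▸ hle a i
  obtain ⟨N, f, -, hf⟩ := hfin.fin_param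
  have hfw : ∀ l, ∑ i, f l i * w i = (n + 1) * D := fun l => by
    have : f l ∈ Set.range f := ⟨l, rfl⟩
    rw [hf] at this
    exact this
  refine ⟨(n + 1) * D, N, fun l => ∏ i, x i ^ f l i, by positivity,
    fun l => hfw l ▸ secVero_mem hx (f l), ?_⟩
  have key : ∀ (j : ℕ) (a : Fin n → ℕ), ∑ i, a i * w i = j * ((n + 1) * D) →
      ∃ p : MvPolynomial (Fin N) k, p.IsHomogeneous j ∧
        aeval (fun l => ∏ i, x i ^ f l i) p = ∏ i, x i ^ a i := by
    intro j
    induction j with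
    | zero =>
      intro a ha
      refine ⟨1, isHomogeneous_one _ _, ?_⟩
      have h0 : ∀ i, a i = 0 := fun i => by
        have := hle a i
        omega
      simp [h0]
    | succ j ih =>
      intro a ha
      have hb : ∃ b : Fin n → ℕ, b ≤ a ∧ ∑ i, b i * w i = (n + 1) * D := by
        rcases Nat.eq_zero_or_pos j with h0 | h0
        · exact ⟨a, le_rfl, by rw [ha, h0]; ring⟩
        · refine secVero_many w hD hwD a (n + 1) ?_
          rw [ha]
          have h1 : 2 * ((n + 1) * D) ≤ (j + 1) * ((n + 1) * D) :=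
            Nat.mul_le_mul_right _ (by omega)
          nlinarith
      obtain ⟨b, hba, hbw⟩ := hb
      have h1 := secVero_sub w hba
      obtain ⟨q, hq, hqa⟩ := ih (fun i => a i - b i) (by nlinarith)
      have hbr : b ∈ Set.range f := by
        rw [hf]
        exact hbw
      obtain ⟨l, rfl⟩ := hbr
      refine ⟨q * X l, hq.mul (isHomogeneous_X _ _), ?_⟩
      rw [map_mul, hqa, aeval_X, ← Finset.prod_mul_distrib]
      refine Finset.prod_congr rfl fun i _ => ?_
      rw [← pow_add, Nat.sub_add_cancel (hba i)]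
  intro j s hs
  have h1 := secVero_span hx htop hs
  clear hs
  induction h1 using Submodule.span_induction with
  | mem y hy =>
    obtain ⟨a, ha, rfl⟩ := hy
    exact key j a ha
  | zero => exact ⟨0, isHomogeneous_zero _ _ _, map_zero _⟩
  | add y z _ _ hy hz =>
    obtain ⟨p, hp, rfl⟩ := hy
    obtain ⟨q, hq, rfl⟩ := hz
    exact ⟨p + q, hp.add hq, map_add _ _ _⟩
  | smul c y _ hy =>
    obtain ⟨p, hp, rfl⟩ := hy
    exact ⟨c • p, (homogeneousSubmodule (Fin N) k j).smul_mem c hp, map_smul _ _ _⟩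

end Pool.Agent.Lib.MP_954e53_ag.RS
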