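import Pool.Agent.Lib.MP_954e53_ag.RS.SecField
import Pool.Agent.Lib.MP_954e53_ag.RS.SecVero
import Pool.Agent.Lib.MP_954e53_ag.RS.SecProj
import Pool.Agent.Lib.MP_954e53_ag.CexDefs

/-! The ring is the section ring of `O(1)` on `Proj S`. -/

namespace Pool.Agent.Lib.MP_954e53_ag.RS

open CategoryTheory AlgebraicGeometry

universe u

theorem secmain_twist {k S K : Type*} [Field k] [CommRing S] [Algebra k S] [Field K]
    (𝒜 : ℕ → Submodule k S) [GradedAlgebra 𝒜] (φ : S →+* K) (u : K) :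
    ∃ ψ : S →+* K, ∀ n, ∀ s ∈ 𝒜 n, ψ s = φ s * u ^ n := by
  let f : ∀ n, 𝒜 n →+ K := fun n =>
    { toFun := fun s => φ s * u ^ n
      map_zero' := by simp
      map_add' := fun a b => by simp [add_mul] }
  have h1 : f 0 (GradedMonoid.GOne.one (A := fun i => 𝒜 i)) = 1 := by
    change φ 1 * u ^ 0 = 1
    simp
  have h2 : ∀ {i j} (a : 𝒜 i) (b : 𝒜 j), 
      f _ (GradedMonoid.GMul.mul (A := fun i => 𝒜 i) a b) = f _ a * f _ b := by
    intro i j a b
    change φ (a * b) * u ^ (i + j) = φ a * u ^ i * (φ b * u ^ j)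
    rw [map_mul, pow_add]
    ring
  refine ⟨(DirectSum.toSemiring f h1 h2).comp (DirectSum.decomposeRingEquiv 𝒜).toRingHom, ?_⟩
  intro n s hs
  have h3 : (DirectSum.decomposeRingEquiv 𝒜) s = DirectSum.of (fun i => 𝒜 i) n ⟨s, hs⟩ :=
    DirectSum.decompose_of_mem 𝒜 hs
  change DirectSum.toSemiring f h1 h2 ((DirectSum.decomposeRingEquiv 𝒜) s) = _
  rw [h3, DirectSum.toSemiring_of]
  rfl

theorem secmain_lift {k S K F : Type*} [Field k] [CommRing S] [Algebra k S] [Field K] [Field F]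
    (𝒜 : ℕ → Submodule k S) [GradedAlgebra 𝒜] (ι : F →+* K) (ψ₀ : S →+* K)
    (h : ∀ n, ∀ s ∈ 𝒜 n, ∃ z, ι z = ψ₀ s) : ∃ ψ : S →+* F, ∀ s, ι (ψ s) = ψ₀ s := by
  have hr : ∀ s, ψ₀ s ∈ ι.range := by
    intro s
    induction s using DirectSum.Decomposition.inductionOn 𝒜 with
    | zero => simp
    | homogeneous s => exact h _ s s.2
    | add a b ha hb => rw [map_add]; exact add_mem ha hb
  have hb : Function.Bijective ι.rangeRestrict :=
    ⟨fun a b hab => ι.injective (congrArg Subtype.val hab), ι.rangeRestrict_surjective⟩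
  let e := RingEquiv.ofBijective ι.rangeRestrict hb
  refine ⟨e.symm.toRingHom.comp (ψ₀.codRestrict ι.range hr), fun s => ?_⟩
  have h1 : e (e.symm (ψ₀.codRestrict ι.range hr s)) = ψ₀.codRestrict ι.range hr s :=
    e.apply_symm_apply _
  exact congrArg Subtype.val h1

theorem secmain_exists_pos {k S : Type*} [Field k] [CommRing S] [Algebra k S]
    {𝒜 : ℕ → Submodule k S} [GradedAlgebra 𝒜] (x : ProjectiveSpectrum 𝒜) :
    ∃ n, 0 < n ∧ ∃ s ∈ 𝒜 n, s ∉ x.asHomogeneousIdeal := by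
  by_contra hc
  push Not at hc
  apply x.not_irrelevant_le
  rw [HomogeneousIdeal.irrelevant_le]
  intro i hi s hs
  exact hc i hi s hs

theorem secmain_mul {k S : Type*} [Field k] [CommRing S] [Algebra k S]
    {𝒜 : ℕ → Submodule k S} [GradedAlgebra 𝒜] (x : ProjectiveSpectrum 𝒜) {a b : S}
    (ha : a ∉ x.asHomogeneousIdeal) (hb : b ∉ x.asHomogeneousIdeal) :
    a * b ∉ x.asHomogeneousIdeal := fun hab =>
  (x.isPrime.mem_or_mem hab).elim ha hb

theorem secmain_pow {k S : Type*} [Field k] [CommRing S] [Algebra k S]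
    {𝒜 : ℕ → Submodule k S} [GradedAlgebra 𝒜] (x : ProjectiveSpectrum 𝒜) {a : S}
    (ha : a ∉ x.asHomogeneousIdeal) (n : ℕ) : a ^ n ∉ x.asHomogeneousIdeal := fun h =>
  ha (x.isPrime.mem_of_pow_mem n h)

theorem secmain_ne {k S : Type*} [Field k] [CommRing S] [IsDomain S] [Algebra k S]
    {𝒜 : ℕ → Submodule k S} [GradedAlgebra 𝒜] (x : ProjectiveSpectrum 𝒜) {a : S}
    (ha : a ∉ x.asHomogeneousIdeal) : algebraMap S (FractionRing S) a ≠ 0 := by
  intro h
  have h0 : a = 0 := IsFractionRing.injective S (FractionRing S) (by rw [h, map_zero])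
  exact ha (h0 ▸ zero_mem _)

theorem secmain_deg {k S : Type*} [Field k] [CommRing S] [Algebra k S]
    {𝒜 : ℕ → Submodule k S} [GradedAlgebra 𝒜] {i j e : ℕ} {a b : S} (n : ℕ) (ha : a ∈ 𝒜 i)
    (hb : b ∈ 𝒜 j) (he : i + n * j = e) : a * b ^ n ∈ 𝒜 e := by
  have := SetLike.mul_mem_graded ha (SetLike.pow_mem_graded n hb)
  rwa [smul_eq_mul, he] at this

theorem isSectionRingOfAmple_of {k S : Type u} [Field k] [CommRing S] [IsDomain S] [Algebra k S]
    {𝒜 : ℕ → Submodule k S} [GradedAlgebra 𝒜] (h : IsSectionRing 𝒜)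
    (hne : ∃ m, 0 < m ∧ ∃ s ∈ 𝒜 m, s ≠ 0) : IsSectionRingOfAmple 𝒜 := by
  obtain ⟨⟨ng, hgen⟩, hab, hsec⟩ := h
  have hint : IsIntegral (Proj 𝒜) := isIntegral_proj 𝒜 hne
  obtain ⟨ι, hreg, hrange, hconst⟩ := exists_functionField_hom 𝒜
  choose m ha' b hb hbx using hab
  choose a ha hax using ha'
  obtain ⟨x₀⟩ : Nonempty (ProjectiveSpectrum 𝒜) := (inferInstance : Nonempty (Proj 𝒜))
  set φ := algebraMap S (FractionRing S) with hφ
  have hφi : Function.Injective φ := IsFractionRing.injective S (FractionRing S)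
  have ha0 : ∀ x, φ (a x) ≠ 0 := fun x => secmain_ne x (hax x)
  have hb0 : ∀ x, φ (b x) ≠ 0 := fun x => secmain_ne x (hbx x)
  obtain ⟨u, hu⟩ : ∃ u, u = φ (a x₀) / φ (b x₀) := ⟨_, rfl⟩
  have hu0 : u ≠ 0 := hu ▸ div_ne_zero (ha0 x₀) (hb0 x₀)
  obtain ⟨ψ₀, hψ₀⟩ := secmain_twist 𝒜 φ u
  obtain ⟨ψ, hψ'⟩ := secmain_lift 𝒜 ι ψ₀ (fun n s hs => by
    obtain ⟨z, hz⟩ := hrange (n + n * m x₀) (s * a x₀ ^ n) (secmain_deg n hs (ha x₀) rfl)
      (1 * b x₀ ^ n) (secmain_deg n (SetLike.one_mem_graded 𝒜) (hb x₀) (by ring))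
      (fun h0 => pow_ne_zero n (hb0 x₀) (by rw [← map_pow, ← one_mul (b x₀ ^ n), h0, map_zero]))
    refine ⟨z, ?_⟩
    have h1 := hb0 x₀
    rw [hψ₀ n s hs, hu, div_pow, ← mul_div_assoc, eq_div_iff (pow_ne_zero n h1)]
    simpa only [map_mul, map_pow, one_mul] using hz)
  have hψ : ∀ n, ∀ s ∈ 𝒜 n, ι (ψ s) = φ s * u ^ n := fun n s hs => by rw [hψ', hψ₀ n s hs]
  obtain ⟨g, hg⟩ : ∃ g : ProjectiveSpectrum 𝒜 → (Proj 𝒜).functionField,
      ∀ x, ι (g x) = φ (b x) / φ (a x) * u := by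
    refine ⟨fun x => ψ (b x) / ψ (a x), fun x => ?_⟩
    have h1 := ha0 x
    rw [map_div₀, hψ _ _ (hb x), hψ _ _ (ha x), pow_succ]
    field_simp
  have hg0 : ∀ x, g x ≠ 0 := fun x h0 => by
    have h1 := hg x
    rw [h0, map_zero] at h1
    exact mul_ne_zero (div_ne_zero (hb0 x) (ha0 x)) hu0 h1.symm
  have hmem : ∀ n, ∀ s ∈ 𝒜 n, ψ s ∈ sections (X := Proj 𝒜) g n := by
    intro n s hs x
    refine (hreg x _).2 ⟨n + n * m x, s * a x ^ n, secmain_deg n hs (ha x) rfl, 1 * b x ^ n,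
      secmain_deg n (SetLike.one_mem_graded 𝒜) (hb x) (by ring), ?_, ?_⟩
    · rw [one_mul]
      exact secmain_pow x (hbx x) n
    · have h1 := ha0 x
      have h2 := hb0 x
      simp only [map_div₀, map_mul, map_pow, hψ n s hs, hg, one_mul, mul_pow, div_pow]
      field_simp
  obtain ⟨mv, N, w, hmv, hw, hver⟩ := exists_veronese hgen
  refine ⟨Proj 𝒜, hint, projToSpec 𝒜, g, ψ, isProjective_proj 𝒜 w hmv hw hver, ?_, ?_, ?_, ?_⟩
  · intro x
    refine ⟨hg0 x, Proj.basicOpen 𝒜 (a x * b x), secmain_mul x (hax x) (hbx x), fun y hy => ?_⟩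
    have hy' : a x * b x ∉ (y : ProjectiveSpectrum 𝒜).asHomogeneousIdeal := hy
    have hay : a x ∉ (y : ProjectiveSpectrum 𝒜).asHomogeneousIdeal := fun h0 =>
      hy' (Ideal.mul_mem_right _ (y : ProjectiveSpectrum 𝒜).asHomogeneousIdeal.toIdeal h0)
    have hby : b x ∉ (y : ProjectiveSpectrum 𝒜).asHomogeneousIdeal := fun h0 =>
      hy' (Ideal.mul_mem_left (y : ProjectiveSpectrum 𝒜).asHomogeneousIdeal.toIdeal _ h0)
    have h1 := ha0 x
    have h2 := hb0 x
    have h3 := ha0 y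
    have h4 := hb0 y
    have d1 : b x * a y ^ 1 ∈ 𝒜 (m x + m y + 1) := secmain_deg 1 (hb x) (ha y) (by ring)
    have d2 : a x * b y ^ 1 ∈ 𝒜 (m x + m y + 1) := secmain_deg 1 (ha x) (hb y) (by ring)
    rw [pow_one] at d1 d2
    constructor
    · refine (hreg y _).2 ⟨_, _, d1, _, d2, secmain_mul y hay (hbx y), ?_⟩
      simp only [map_div₀, map_mul, hg]
      field_simp
    · refine (hreg y _).2 ⟨_, _, d2, _, d1, secmain_mul y hby (hax y), ?_⟩
      simp only [map_div₀, map_mul, hg]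
      field_simp
  · intro x
    obtain ⟨n, hn, s, hs, hsx⟩ := secmain_exists_pos (𝒜 := 𝒜) x
    have hs0 : φ s ≠ 0 := secmain_ne x hsx
    refine ⟨n, hn, ψ s, hmem n s hs, ?_, Proj.basicOpen 𝒜 s,
      Proj.isAffineOpen_basicOpen 𝒜 s hs hn, hsx, fun y => ?_⟩
    · intro h0
      have h1 := hψ n s hs
      rw [h0, map_zero] at h1
      exact mul_ne_zero hs0 (pow_ne_zero n hu0) h1.symm
    have h3 := ha0 y
    have h4 := hb0 y
    have hq : ι (g y ^ n / ψ s) * φ (s * a y ^ n) = φ (1 * b y ^ n) := by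
      simp only [map_div₀, map_mul, map_pow, hψ n s hs, hg, one_mul, mul_pow, div_pow]
      field_simp
    constructor
    · intro hy
      exact (hreg y _).2 ⟨n + n * m y, 1 * b y ^ n,
        secmain_deg n (SetLike.one_mem_graded 𝒜) (hb y) (by ring), s * a y ^ n,
        secmain_deg n hs (ha y) rfl, secmain_mul y hy (secmain_pow y (hax y) n), hq⟩
    · intro hy
      obtain ⟨e, c, -, d, -, hd, hcd⟩ := (hreg y _).1 hy
      have h5 : b y ^ n * d = s * (a y ^ n * c) := by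
        apply hφi
        rw [one_mul] at hq
        rw [map_mul, ← hq, ← mul_assoc, map_mul φ (s * a y ^ n) c, ← hcd]
        ring
      intro hsy
      apply secmain_mul y (secmain_pow y (hbx y) n) hd
      rw [h5]
      exact Ideal.mul_mem_right _ (y : ProjectiveSpectrum 𝒜).asHomogeneousIdeal.toIdeal hsy
  · intro c
    apply ι.injective
    rw [hconst, hψ 0 _ (SetLike.algebraMap_mem_graded 𝒜 c), pow_zero, mul_one]
  · intro n
    refine ⟨fun s hs => hmem n s hs, fun s hs t ht hst => ?_, fun z hz => ?_⟩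
    · apply hφi
      have h1 := congrArg ι hst
      rw [hψ n s hs, hψ n t ht] at h1
      exact mul_right_cancel₀ (pow_ne_zero n hu0) h1
    · obtain ⟨s, hs, hsz⟩ := hsec n (ι z / u ^ n) (fun x => by
        obtain ⟨e, c, hc, d, hd, hdx, hcd⟩ := (hreg x _).1 (hz x)
        refine ⟨e + n * m x, c * b x ^ n, secmain_deg n hc (hb x) (by ring), d * a x ^ n,
          secmain_deg n hd (ha x) rfl, secmain_mul x hdx (secmain_pow x (hax x) n), ?_⟩
        have h1 := ha0 x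
        have h2 := hb0 x
        rw [map_mul φ c, ← hcd]
        simp only [map_div₀, map_mul, map_pow, hg, mul_pow, div_pow]
        field_simp)
      refine ⟨s, hs, ι.injective ?_⟩
      rw [hψ n s hs, hsz, div_mul_cancel₀ _ (pow_ne_zero n hu0)]

end Pool.Agent.Lib.MP_954e53_ag.RS
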