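import Pool.Agent.Lib.MP_954e53_ag.RS.Blow
import Pool.Agent.Lib.MP_954e53_ag.RS.Quot

/-! One step: blow up and divide by an involution. -/

namespace Pool.Agent.Lib.MP_954e53_ag.RS

open Pointwise

universe u

section aux

variable {k K : Type u} [Field k] [Field K] [Algebra k K]

/-- A finite nonzero spanning family inside a spanning set. -/
lemma step_family (U : Submodule k K) [Module.Finite k U] (T : Set K)
    (hT : U = Submodule.span k T) :
    ∃ (n : ℕ) (f : Fin n → K), (∀ i, f i ∈ T) ∧ (∀ i, f i ≠ 0) ∧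
      U ≤ Submodule.span k (Set.range f) := by
  classical
  have hfg : (Submodule.span k T).FG := hT ▸ (Module.Finite.iff_fg.1 inferInstance)
  obtain ⟨s, hs, hs'⟩ := (Submodule.fg_span_iff_fg_span_finset_subset T).1 hfg
  let t := s.filter (· ≠ 0)
  refine ⟨t.card, fun i => (t.equivFin.symm i : K), fun i => ?_, fun i => ?_, ?_⟩
  · exact hs (Finset.mem_coe.2 (Finset.mem_filter.1 (t.equivFin.symm i).2).1)
  · exact (Finset.mem_filter.1 (t.equivFin.symm i).2).2
  · rw [hT, hs', Submodule.span_le]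
    intro x hx
    by_cases h0 : x = 0
    · rw [h0]; exact Submodule.zero_mem _
    · refine Submodule.subset_span ⟨t.equivFin ⟨x, Finset.mem_filter.2 ⟨hx, h0⟩⟩, ?_⟩
      simp

/-- Such a family covers a model. -/
lemma step_covers {S : Subalgebra k K} {U : Submodule k K} {m n : ℕ} (hM : Mdl S U m)
    {f : Fin n → K} (hf : ∀ i, f i ∈ U) (hf0 : ∀ i, f i ≠ 0)
    (h : U ≤ Submodule.span k (Set.range f)) : Covers S U f := by
  obtain ⟨ι, _, g, hg, -⟩ := hM.ex
  obtain ⟨i⟩ := hg.nonempty
  have hne : Nonempty (Fin n) := by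
    by_contra hn
    have : IsEmpty (Fin n) := not_nonempty_iff.1 hn
    have h1 := h (hg.mem i)
    rw [Set.range_eq_empty, Submodule.span_empty, Submodule.mem_bot] at h1
    exact hg.ne i h1
  exact Covers.of_span hf hf0 fun v hv => Submodule.span_le_restrictScalars k S _ (h hv)

lemma step_add_mem_pos {σ : K ≃ₐ[k] K} {V : Submodule k K} (h1 : ∀ v ∈ V, σ v ∈ V)
    (h2 : ∀ v ∈ V, σ (σ v) = v) {v : K} (hv : v ∈ V) : v + σ v ∈ pos σ V :=
  ⟨V.add_mem hv (h1 v hv), by rw [map_add, h2 v hv, add_comm]⟩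

lemma step_sub_mem_neg {σ : K ≃ₐ[k] K} {V : Submodule k K} (h1 : ∀ v ∈ V, σ v ∈ V)
    (h2 : ∀ v ∈ V, σ (σ v) = v) {v : K} (hv : v ∈ V) : v - σ v ∈ neg σ V :=
  ⟨V.sub_mem hv (h1 v hv), by rw [map_sub, h2 v hv, neg_sub]⟩

/-- The eigenvectors span. -/
lemma step_span [CharZero k] {σ : K ≃ₐ[k] K} {V : Submodule k K} (h1 : ∀ v ∈ V, σ v ∈ V)
    (h2 : ∀ v ∈ V, σ (σ v) = v) :
    V = Submodule.span k {v | v ∈ V ∧ (σ v = v ∨ σ v = -v)} := by
  refine le_antisymm (fun v hv => ?_) (Submodule.span_le.2 fun v hv => hv.1)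
  have hp := step_add_mem_pos h1 h2 hv
  have hn := step_sub_mem_neg h1 h2 hv
  have : v = (2 : k)⁻¹ • ((v + σ v) + (v - σ v)) := by
    rw [add_add_sub_cancel, ← two_smul k v, smul_smul, inv_mul_cancel₀ two_ne_zero, one_smul]
  rw [this]
  exact Submodule.smul_mem _ _ (Submodule.add_mem _ (Submodule.subset_span ⟨hp.1, Or.inl hp.2⟩)
    (Submodule.subset_span ⟨hn.1, Or.inr hn.2⟩))

lemma step_anti {σ : K ≃ₐ[k] K} {V : Submodule k K} {y : K} (hy : y ∈ pos σ V * neg σ V) :
    σ y = -y := by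
  refine Submodule.mul_induction_on hy (fun p hp n hn => ?_) (fun a b ha hb => ?_)
  · rw [map_mul, hp.2, hn.2, mul_neg]
  · rw [map_add, ha, hb, neg_add]

lemma step_fix_mul {g : K ≃ₐ[k] K} {U U' : Submodule k K} (h : ∀ v ∈ U, g v = v)
    (h' : ∀ v ∈ U', g v = v) : ∀ v ∈ U * U', g v = v := by
  intro v hv
  refine Submodule.mul_induction_on hv (fun p hp n hn => ?_) (fun a b ha hb => ?_)
  · rw [map_mul, h p hp, h' n hn]
  · rw [map_add, ha, hb]

lemma step_stab_mul {g : K ≃ₐ[k] K} {U U' : Submodule k K} (h : ∀ v ∈ U, g v ∈ U)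
    (h' : ∀ v ∈ U', g v ∈ U') : ∀ v ∈ U * U', g v ∈ U * U' := by
  intro v hv
  refine Submodule.mul_induction_on hv (fun p hp n hn => ?_) (fun a b ha hb => ?_)
  · rw [map_mul]; exact Submodule.mul_mem_mul (h p hp) (h' n hn)
  · rw [map_add]; exact Submodule.add_mem _ ha hb

lemma step_comm_mul {g σ : K ≃ₐ[k] K} {U U' : Submodule k K} (h : ∀ v ∈ U, g (σ v) = σ (g v))
    (h' : ∀ v ∈ U', g (σ v) = σ (g v)) : ∀ v ∈ U * U', g (σ v) = σ (g v) := by
  intro v hv
  refine Submodule.mul_induction_on hv (fun p hp n hn => ?_) (fun a b ha hb => ?_)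
  · simp only [map_mul, h p hp, h' n hn]
  · simp only [map_add, ha, hb]

lemma step_inv_mul {σ : K ≃ₐ[k] K} {U U' : Submodule k K} (h : ∀ v ∈ U, σ (σ v) = v)
    (h' : ∀ v ∈ U', σ (σ v) = v) : ∀ v ∈ U * U', σ (σ v) = v := by
  intro v hv
  refine Submodule.mul_induction_on hv (fun p hp n hn => ?_) (fun a b ha hb => ?_)
  · simp only [map_mul, h p hp, h' n hn]
  · simp only [map_add, ha, hb]

lemma step_stab_pos {g σ : K ≃ₐ[k] K} {U : Submodule k K} (h : ∀ v ∈ U, g v ∈ U)
    (h' : ∀ v ∈ U, g (σ v) = σ (g v)) : ∀ v ∈ pos σ U, g v ∈ pos σ U := fun v hv =>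
  ⟨h v hv.1, by rw [← h' v hv.1, hv.2]⟩

lemma step_stab_neg {g σ : K ≃ₐ[k] K} {U : Submodule k K} (h : ∀ v ∈ U, g v ∈ U)
    (h' : ∀ v ∈ U, g (σ v) = σ (g v)) : ∀ v ∈ neg σ U, g v ∈ neg σ U := fun v hv =>
  ⟨h v hv.1, by rw [← h' v hv.1, hv.2, map_neg]⟩

lemma step_finite_mul (U U' : Submodule k K) [Module.Finite k U] [Module.Finite k U'] :
    Module.Finite k (U * U' : Submodule k K) :=
  Module.Finite.iff_fg.2 ((Module.Finite.iff_fg.1 inferInstance).mul
    (Module.Finite.iff_fg.1 inferInstance))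

lemma step_finite_pos (σ : K ≃ₐ[k] K) (U : Submodule k K) [Module.Finite k U] :
    Module.Finite k (pos σ U) :=
  Module.Finite.of_injective (Submodule.inclusion (fun _ hv => hv.1 : pos σ U ≤ U))
    (Submodule.inclusion_injective _)

lemma step_finite_neg (σ : K ≃ₐ[k] K) (U : Submodule k K) [Module.Finite k U] :
    Module.Finite k (neg σ U) :=
  Module.Finite.of_injective (Submodule.inclusion (fun _ hv => hv.1 : neg σ U ≤ U))
    (Submodule.inclusion_injective _)

/-- The elements of `D` that are fixed modulo `t`. -/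
def step_sub (σ : K ≃ₐ[k] K) (D : Subalgebra k K) (t : K) (ht : t ∈ D) (h0 : t ≠ 0) :
    Subalgebra k K where
  carrier := {z | z ∈ D ∧ (σ z - z) / t ∈ D}
  mul_mem' {a b} ha hb := by
    refine ⟨D.mul_mem ha.1 hb.1, ?_⟩
    have : (σ (a * b) - a * b) / t =
        (a + t * ((σ a - a) / t)) * ((σ b - b) / t) + (σ a - a) / t * b := by
      rw [map_mul]; field_simp; ring
    rw [this]
    exact D.add_mem (D.mul_mem (D.add_mem ha.1 (D.mul_mem ht ha.2)) hb.2) (D.mul_mem ha.2 hb.1)
  add_mem' {a b} ha hb := by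
    refine ⟨D.add_mem ha.1 hb.1, ?_⟩
    have : (σ (a + b) - (a + b)) / t = (σ a - a) / t + (σ b - b) / t := by
      rw [map_add]; ring
    rw [this]
    exact D.add_mem ha.2 hb.2
  algebraMap_mem' c := ⟨D.algebraMap_mem c, by
    rw [AlgEquiv.commutes, sub_self, zero_div]; exact D.zero_mem⟩

/-- On the blow-up the fixed locus is a divisor. -/
lemma step_divisor [CharZero k] {S : Subalgebra k K} {σ : K ≃ₐ[k] K} {V : Submodule k K}
    (hS : ∀ s ∈ S, σ s = s) (h1 : ∀ v ∈ V, σ v ∈ V) (h2 : ∀ v ∈ V, σ (σ v) = v) {f x : K}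
    (hf : f ∈ V) (he : σ f = f ∨ σ f = -f) (hx : x ∈ pos σ V * neg σ V) (hf0 : f ≠ 0)
    (hx0 : x ≠ 0) :
    ∃ t ∈ chart S (V * (pos σ V * neg σ V) : Submodule k K) (f * x), t ≠ 0 ∧ σ t = -t ∧
      ∀ y ∈ chart S (V * (pos σ V * neg σ V) : Submodule k K) (f * x), σ y = -y →
        y / t ∈ chart S (V * (pos σ V * neg σ V) : Submodule k K) (f * x) := by
  set W := pos σ V * neg σ V with hW
  set D := chart S (V * W : Submodule k K) (f * x) with hD
  have hV : ∀ v ∈ V, v / f ∈ D := fun v hv => by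
    have : v / f = v * x / (f * x) := by field_simp
    rw [this]
    exact div_mem_chart S (Submodule.mul_mem_mul hv hx) _
  have hWx : ∀ y ∈ W, y / x ∈ D := fun y hy => by
    have : y / x = f * y / (f * x) := by field_simp
    rw [this]
    exact div_mem_chart S (Submodule.mul_mem_mul hf hy) _
  have hWf : ∀ y ∈ W, y / f ^ 2 ∈ D := fun y hy => by
    refine Submodule.mul_induction_on hy (fun p hp n hn => ?_) (fun a b ha hb => ?_)
    · have : p * n / f ^ 2 = p / f * (n / f) := by field_simp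
      rw [this]
      exact D.mul_mem (hV p hp.1) (hV n hn.1)
    · rw [add_div]; exact D.add_mem ha hb
  have ht0 : x / f ^ 2 ≠ 0 := div_ne_zero hx0 (pow_ne_zero 2 hf0)
  have hσx : σ x = -x := step_anti hx
  have hf2 : σ (f ^ 2) = f ^ 2 := by
    rw [map_pow]
    rcases he with h | h <;> rw [h]
    ring
  have hle : D ≤ step_sub σ D (x / f ^ 2) (hWf x hx) ht0 := by
    refine chart_le_iff.2 ⟨fun s hs => ⟨le_chart _ _ _ hs, ?_⟩, fun z hz => ?_⟩
    · rw [hS s hs, sub_self, zero_div]; exact D.zero_mem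
    · refine Submodule.mul_induction_on (C := fun z => z / (f * x) ∈
        step_sub σ D (x / f ^ 2) (hWf x hx) ht0) hz (fun v hv y hy => ?_) (fun a b ha hb => ?_)
      · have hσy : σ y = -y := step_anti hy
        have key : ∀ v ∈ V, (σ v = v ∨ σ v = -v) →
            v * y / (f * x) ∈ step_sub σ D (x / f ^ 2) (hWf x hx) ht0 := by
          intro v hv hv'
          refine ⟨div_mem_chart S (Submodule.mul_mem_mul hv hy) _, ?_⟩
          have hsame : σ v * f = v * σ f →
              (σ (v * y / (f * x)) - v * y / (f * x)) / (x / f ^ 2) ∈ D := by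
            intro h
            have hσf : σ f ≠ 0 := (map_ne_zero σ).2 hf0
            have : σ (v * y / (f * x)) = v * y / (f * x) := by
              rw [map_div₀, map_mul, map_mul, hσx, hσy]
              field_simp
              linear_combination y * h
            rw [this, sub_self, zero_div]
            exact D.zero_mem
          have hopp : σ v * f = -(v * σ f) → v * f ∈ W →
              (σ (v * y / (f * x)) - v * y / (f * x)) / (x / f ^ 2) ∈ D := by
            intro h hvf
            have hσf : σ f ≠ 0 := (map_ne_zero σ).2 hf0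
            have h3 : σ (v * y / (f * x)) = -(v * y / (f * x)) := by
              rw [map_div₀, map_mul, map_mul, hσx, hσy]
              field_simp
              linear_combination y * h
            have : (σ (v * y / (f * x)) - v * y / (f * x)) / (x / f ^ 2) =
                -(2 * (v * f / x * (y / x))) := by
              rw [h3]; field_simp; ring
            rw [this]
            exact D.neg_mem (D.mul_mem (ofNat_mem D 2) (D.mul_mem (hWx _ hvf) (hWx y hy)))
          rcases hv' with h | h <;> rcases he with h' | h'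
          · exact hsame (by rw [h, h'])
          · exact hopp (by rw [h, h']; ring) (Submodule.mul_mem_mul ⟨hv, h⟩ ⟨hf, h'⟩)
          · refine hopp (by rw [h, h']; ring) ?_
            rw [mul_comm]
            exact Submodule.mul_mem_mul ⟨hf, h'⟩ ⟨hv, h⟩
          · exact hsame (by rw [h, h']; ring)
        have hp := step_add_mem_pos h1 h2 hv
        have hn := step_sub_mem_neg h1 h2 hv
        have h3 : v * y / (f * x) =
            (2 : k)⁻¹ • ((v + σ v) * y / (f * x) + (v - σ v) * y / (f * x)) := by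
          rw [← add_div, ← add_mul, add_add_sub_cancel, add_mul, add_div, ← two_smul k, smul_smul,
            inv_mul_cancel₀ two_ne_zero, one_smul]
        rw [h3]
        exact Subalgebra.smul_mem _ (Subalgebra.add_mem _ (key _ hp.1 (Or.inl hp.2))
          (key _ hn.1 (Or.inr hn.2))) _
      · rw [add_div]; exact Subalgebra.add_mem _ ha hb
  refine ⟨x / f ^ 2, hWf x hx, ht0, by rw [map_div₀, hσx, hf2, neg_div], fun y hy hσy => ?_⟩
  have h3 := (hle hy).2
  have h4 : y / (x / f ^ 2) = -((2 : k)⁻¹ • ((σ y - y) / (x / f ^ 2))) := by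
    rw [hσy, ← neg_add', neg_div, smul_neg, neg_neg, add_div, ← two_smul k, smul_smul,
      inv_mul_cancel₀ two_ne_zero, one_smul]
  rw [h4]
  exact D.neg_mem (D.smul_mem h3 _)

end aux

variable {k K : Type u} [Field k] [IsAlgClosed k] [CharZero k] [Field K] [Algebra k K]
  {S : Subalgebra k K} [Algebra.FiniteType k S] {V : Submodule k K} [Module.Finite k V]

theorem Mdl.step (hM : Mdl S V 1) (σ : K ≃ₐ[k] K) (hS : ∀ s ∈ S, σ s = s)
    (h1 : ∀ v ∈ V, σ v ∈ V) (h2 : ∀ v ∈ V, σ (σ v) = v) :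
    ∃ V' : Submodule k K, Module.Finite k V' ∧ Mdl S V' 1 ∧ (∀ v ∈ V', σ v = v) ∧
      (∀ g : K ≃ₐ[k] K, (∀ v ∈ V, g v = v) → ∀ v ∈ V', g v = v) ∧
      ∀ g : K ≃ₐ[k] K, (∀ v ∈ V, g v ∈ V) → (∀ v ∈ V, g (σ v) = σ (g v)) → ∀ v ∈ V', g v ∈ V' := by
  by_cases hW : pos σ V * neg σ V = ⊥
  · have hsign : (∀ v ∈ V, σ v = v) ∨ ∀ v ∈ V, σ v = -v := by
      rcases Submodule.mul_eq_bot.1 hW with h | h
      · refine Or.inr fun v hv => ?_
        have h3 := step_add_mem_pos h1 h2 hv
        rw [h, Submodule.mem_bot] at h3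
        exact eq_neg_of_add_eq_zero_right h3
      · refine Or.inl fun v hv => ?_
        have h3 := step_sub_mem_neg h1 h2 hv
        rw [h, Submodule.mem_bot] at h3
        exact (sub_eq_zero.1 h3).symm
    obtain ⟨n, w, hw, hw0, hw1⟩ := step_family V V (Submodule.span_eq V).symm
    have := step_finite_mul V V
    refine ⟨pos σ (V * V), step_finite_pos σ _, hM.quot σ hS h1 h2 (step_covers hM hw hw0 hw1)
      (fun i => hsign.imp (fun h => h _ (hw i)) fun h => h _ (hw i)) (fun i => Or.inl ?_),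
      fun v hv => hv.2, fun g hg v hv => step_fix_mul hg hg v hv.1,
      fun g hg hg' => step_stab_pos (step_stab_mul hg hg) (step_comm_mul hg' hg')⟩
    have hle : chart S V (w i) ≤ AlgHom.equalizer (σ : K →ₐ[k] K) (AlgHom.id k K) := by
      refine chart_le_iff.2 ⟨fun s hs => hS s hs, fun v hv => ?_⟩
      change σ (v / w i) = v / w i
      rcases hsign with h | h
      · rw [map_div₀, h v hv, h _ (hw i)]
      · rw [map_div₀, h v hv, h _ (hw i), neg_div_neg_eq]
    exact fun y hy => hle hy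
  · have hM1 := hM.blowup σ hS h1 h2 hW
    have := step_finite_pos σ V
    have := step_finite_neg σ V
    have := step_finite_mul (pos σ V) (neg σ V)
    have := step_finite_mul V (pos σ V * neg σ V)
    have := step_finite_mul (V * (pos σ V * neg σ V)) (V * (pos σ V * neg σ V))
    have hW1 : ∀ y ∈ pos σ V * neg σ V, σ y ∈ pos σ V * neg σ V := fun y hy => by
      rw [step_anti hy]; exact Submodule.neg_mem _ hy
    have hW2 : ∀ y ∈ pos σ V * neg σ V, σ (σ y) = y := fun y hy => by
      rw [step_anti hy, map_neg, step_anti hy, neg_neg]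
    have hspan : V * (pos σ V * neg σ V) = Submodule.span k
        ({v | v ∈ V ∧ (σ v = v ∨ σ v = -v)} *
          ((pos σ V * neg σ V : Submodule k K) : Set K)) := by
      rw [← Submodule.span_mul_span, ← step_span h1 h2, Submodule.span_eq]
    obtain ⟨n, w, hw, hw0, hw1⟩ := step_family _ _ hspan
    have hw2 : ∀ i, w i ∈ V * (pos σ V * neg σ V) := fun i => by
      rw [hspan]; exact Submodule.subset_span (hw i)
    refine ⟨pos σ (V * (pos σ V * neg σ V) * (V * (pos σ V * neg σ V))), step_finite_pos σ _,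
      hM1.quot σ hS (step_stab_mul h1 hW1) (step_inv_mul h2 hW2) (step_covers hM1 hw2 hw0 hw1)
        (fun i => ?_) (fun i => Or.inr ?_), fun v hv => hv.2, fun g hg v hv => ?_,
      fun g hg hg' => ?_⟩
    · obtain ⟨f, hf, x, hx, hfx⟩ := hw i
      have hσx : σ x = -x := step_anti hx
      rw [← hfx]
      rcases hf.2 with h | h
      · exact Or.inr (by simp only [map_mul, h, hσx, mul_neg])
      · exact Or.inl (by simp only [map_mul, h, hσx, neg_mul_neg])
    · obtain ⟨f, hf, x, hx, hfx⟩ := hw i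
      have h0 := hw0 i
      rw [← hfx] at h0 ⊢
      exact step_divisor hS h1 h2 hf.1 hf.2 hx (left_ne_zero_of_mul h0) (right_ne_zero_of_mul h0)
    · have h3 := step_fix_mul hg (step_fix_mul (U := pos σ V) (U' := neg σ V)
        (fun v hv => hg v hv.1) fun v hv => hg v hv.1)
      exact step_fix_mul h3 h3 v hv.1
    · have h3 := step_stab_mul hg (step_stab_mul (step_stab_pos hg hg') (step_stab_neg hg hg'))
      have h4 := step_comm_mul hg' (step_comm_mul (U := pos σ V) (U' := neg σ V)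
        (fun v hv => hg' v hv.1) fun v hv => hg' v hv.1)
      exact step_stab_pos (step_stab_mul h3 h3) (step_comm_mul h4 h4)

end Pool.Agent.Lib.MP_954e53_ag.RS
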