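import Mathlib

/-! Resolutions, higher direct images and rational singularities. -/

namespace Pool.Agent.Lib.MP_954e53_ag.RS

open CategoryTheory AlgebraicGeometry

universe u

/-- The structure sheaf `O_Y` as a sheaf of abelian groups. -/
noncomputable def abSheaf (Y : Scheme.{u}) : TopCat.Sheaf AddCommGrpCat.{u} Y :=
  (sheafCompose (Opens.grothendieckTopology Y)
    (forget₂ CommRingCat.{u} RingCat.{u} ⋙ forget₂ RingCat.{u} AddCommGrpCat.{u})).obj Y.sheaf

/-- The direct image of sheaves of abelian groups is an additive functor. -/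
instance pushforwardAdditive {Y X : TopCat.{u}} (f : Y ⟶ X) :
    (TopCat.Sheaf.pushforward AddCommGrpCat.{u} f).Additive := ⟨by intros; rfl⟩

/-- The higher direct image `R^i f_* O_Y`. -/
noncomputable def higherDirectImage {Y X : Scheme.{u}} (f : Y ⟶ X) (i : ℕ) :
    TopCat.Sheaf AddCommGrpCat.{u} X :=
  ((TopCat.Sheaf.pushforward AddCommGrpCat.{u} f.base).rightDerived i).obj (abSheaf Y)

/-- `f : Y → Spec S` is a resolution of singularities over `k`: `Y` is integral and smooth over
`k`, and `f` is proper and an isomorphism over a nonempty open subset. -/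
def IsResolution (k : Type u) {S : Type u} [Field k] [CommRing S] [Algebra k S] {Y : Scheme.{u}}
    (f : Y ⟶ Spec (CommRingCat.of S)) : Prop :=
  IsIntegral Y ∧ Smooth (f ≫ Spec.map (CommRingCat.ofHom (algebraMap k S))) ∧ IsProper f ∧
    ∃ U : (Spec (CommRingCat.of S)).Opens, U ≠ ⊥ ∧ IsIso (f ∣_ U)

/-- The domain `S` has rational singularities: it is normal and `R^i f_* O_Y = 0` for all `i > 0`
for a resolution of singularities `f : Y → Spec S`. -/
def RationalSingularities (k S : Type u) [Field k] [CommRing S] [Algebra k S] : Prop :=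
  IsIntegrallyClosed S ∧ ∃ (Y : Scheme.{u}) (f : Y ⟶ Spec (CommRingCat.of S)),
    IsResolution k f ∧ ∀ i, 0 < i → Limits.IsZero (higherDirectImage f i)

end Pool.Agent.Lib.MP_954e53_ag.RS
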